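import Mathlib
import Pool.Agent.Work.MP_59f3ad_nt.Defs

/-! Bundle of small proof modules (one section per former module). -/

section

/-!
If all valuations of `α` are divisible by `n` then `α^h` is a unit times an `n`-th power.
-/

open NumberField IsDedekindDomain

namespace Pool.Agent.Work.MP_59f3ad_nt

universe u

variable (L : Type u) [Field L] [NumberField L]

theorem exists_ideal_pow (a : 𝓞 L) (ha : a ≠ 0) (n : ℕ)
    (h : ∀ w : HeightOneSpectrum (𝓞 L),
      n ∣ (Associates.mk w.asIdeal).count (Associates.mk (Ideal.span {a})).factors) :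
    ∃ I : Ideal (𝓞 L), I ^ n = Ideal.span {a} := by
  have hI : Ideal.span {a} ≠ (0 : Ideal (𝓞 L)) := by
    rw [Ne, Ideal.zero_eq_bot, Ideal.span_singleton_eq_bot]
    exact ha
  choose k hk using h
  refine ⟨∏ᶠ w : HeightOneSpectrum (𝓞 L), w.asIdeal ^ k w, ?_⟩
  rcases Nat.eq_zero_or_pos n with hn | hn
  · subst hn
    rw [pow_zero, ← Ideal.finprod_heightOneSpectrum_factorization hI]
    symm
    rw [← finprod_one]
    refine finprod_congr fun w => ?_
    rw [HeightOneSpectrum.maxPowDividing, hk w, zero_mul, pow_zero]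
  · rw [finprod_pow]
    · rw [← Ideal.finprod_heightOneSpectrum_factorization hI]
      refine finprod_congr fun w => ?_
      rw [HeightOneSpectrum.maxPowDividing, hk w, ← pow_mul, mul_comm n]
    · refine (Ideal.hasFiniteMulSupport hI).subset ?_
      intro w hw
      rw [Function.mem_mulSupport] at hw ⊢
      intro h1
      apply hw
      rw [HeightOneSpectrum.maxPowDividing, hk w, mul_comm, pow_mul] at h1
      exact (pow_eq_one_iff.mp h1).resolve_right hn.ne'

theorem exists_unit_mul_pow (n : ℕ) (hn : n ≠ 0) (α : L) (hα0 : α ≠ 0)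
    (h : ∀ w : HeightOneSpectrum (𝓞 L), ∃ y : L, w.valuation L α = w.valuation L y ^ n) :
    ∃ (u : (𝓞 L)ˣ) (γ : L), γ ≠ 0 ∧ α ^ (classNumber L) = ((u : 𝓞 L) : L) * γ ^ n := by
  obtain ⟨c, m, hm, hcm⟩ := IsFractionRing.div_surjective (A := 𝓞 L) α
  have hm0 : m ≠ 0 := nonZeroDivisors.ne_zero hm
  have hmL : (m : L) ≠ 0 := by
    intro h0
    exact hm0 (RingOfIntegers.ext h0)
  set a : 𝓞 L := c * m ^ (n - 1) with ha
  have haα : (a : L) = α * (m : L) ^ n := by
    have h1 : (m : L) ^ n = (m : L) ^ (n - 1) * m := by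
      rw [← pow_succ]; congr 1; omega
    rw [ha, ← hcm, h1]
    push_cast
    field_simp
  have ha0 : a ≠ 0 := by
    intro h0
    have h1 : (a : L) = 0 := by rw [h0]; rfl
    rw [haα] at h1
    exact (mul_ne_zero hα0 (pow_ne_zero _ hmL)) h1
  obtain ⟨I, hI⟩ := exists_ideal_pow L a ha0 n fun w => by
    obtain ⟨y, hy⟩ := h w
    have h1 : w.valuation L (a : L) = w.valuation L (y * m) ^ n := by
      rw [haα, map_mul, hy, map_mul, map_pow, mul_pow]
    have h2 := w.valuation_of_algebraMap (K := L) a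
    rw [w.intValuation_if_neg ha0] at h2
    have h3 : w.valuation L (y * m) ≠ 0 := by
      intro h0
      have h4 : w.valuation L (a : L) = 0 := by rw [h1, h0, zero_pow hn]
      have h5 : w.valuation L (a : L) ≠ 0 := by
        rw [Ne, Valuation.zero_iff]
        exact fun h6 => ha0 (RingOfIntegers.ext h6)
      exact h5 h4
    obtain ⟨k, hk⟩ : ∃ k : ℤ, w.valuation L (y * m) = WithZero.exp k :=
      ⟨WithZero.log (w.valuation L (y * m)), (WithZero.exp_log h3).symm⟩
    rw [h1, hk, ← WithZero.exp_nsmul, WithZero.exp_inj] at h2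
    have h4 : (n : ℤ) ∣ ((Associates.mk w.asIdeal).count
        (Associates.mk (Ideal.span {a})).factors : ℤ) := by
      refine ⟨-k, ?_⟩
      rw [nsmul_eq_mul] at h2
      linarith
    exact_mod_cast h4
  have hIbot : I ≠ ⊥ := by
    rintro rfl
    rw [← Ideal.zero_eq_bot, zero_pow hn, Ideal.zero_eq_bot] at hI
    exact ha0 (Ideal.span_singleton_eq_bot.mp hI.symm)
  have hcl : ∀ z : ClassGroup (𝓞 L), z ^ classNumber L = 1 := fun z => pow_card_eq_one
  generalize classNumber L = hh at hcl ⊢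
  have hprin : (I ^ hh).IsPrincipal := by
    have hImem : I ∈ nonZeroDivisors (Ideal (𝓞 L)) := mem_nonZeroDivisors_of_ne_zero hIbot
    have h1 := hcl (ClassGroup.mk0 ⟨I, hImem⟩)
    rw [← map_pow] at h1
    have h2 : (⟨I, hImem⟩ : nonZeroDivisors (Ideal (𝓞 L))) ^ hh = ⟨I ^ hh, pow_mem hImem _⟩ :=
      Subtype.ext (SubmonoidClass.coe_pow _ _)
    rw [h2] at h1
    exact (ClassGroup.mk0_eq_one_iff (pow_mem hImem _)).mp h1
  obtain ⟨g, hg⟩ := hprin
  have h1 : Ideal.span {a ^ hh} = Ideal.span {g ^ n} := by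
    rw [← Ideal.span_singleton_pow, ← hI, ← pow_mul, mul_comm, pow_mul, hg, ← Ideal.span_singleton_pow]
  rw [Ideal.span_singleton_eq_span_singleton] at h1
  obtain ⟨u, hu⟩ := h1.symm
  have hg0 : (g : L) ≠ 0 := by
    intro h0
    have h2 : g = 0 := RingOfIntegers.ext h0
    rw [h2, zero_pow hn, zero_mul] at hu
    exact pow_ne_zero _ ha0 hu.symm
  refine ⟨u, (g : L) / (m : L) ^ hh, div_ne_zero hg0 (pow_ne_zero _ hmL), ?_⟩
  have h2 : (α * (m : L) ^ n) ^ hh = (g : L) ^ n * ((u : 𝓞 L) : L) := by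
    rw [← haα]
    have := congrArg (fun z : 𝓞 L => (z : L)) hu
    push_cast at this
    exact this.symm
  rw [mul_pow] at h2
  have h3 : (m : L) ^ n ≠ 0 := pow_ne_zero _ hmL
  rw [div_pow]
  field_simp
  rw [← pow_mul, mul_comm (hh) n, pow_mul, h2, mul_comm]

end Pool.Agent.Work.MP_59f3ad_nt

end

section

/-!
Polynomial core of the Leopoldt families: logarithmic derivative argument.
-/

open Polynomial Finset

namespace Pool.Agent.Work.MP_59f3ad_nt

variable {J : Type*} [Fintype J] [DecidableEq J]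

/-- `W = ∑_j e_j H_j' ∏_{i ≠ j} H_i`, the numerator of the logarithmic derivative. -/
noncomputable def Wpoly {R : Type*} [CommRing R] (H : J → R[X]) (e : J → ℤ) : R[X] :=
  ∑ j, (e j : R[X]) * (derivative (H j) * ∏ i ∈ univ.erase j, H i)

theorem prod_mul_derivative {R : Type*} [CommRing R] (H : J → R[X]) (e : J → ℕ) :
    (∏ i, H i) * derivative (∏ i, H i ^ e i) =
      (∏ i, H i ^ e i) * Wpoly H (fun j => (e j : ℤ)) := by
  rw [derivative_prod_finset, Wpoly, Finset.mul_sum, Finset.mul_sum]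
  refine Finset.sum_congr rfl fun j _ => ?_
  rw [derivative_pow]
  rcases Nat.eq_zero_or_pos (e j) with h | h
  · simp [h]
  · have h1 : ∏ i, H i ^ e i = H j ^ e j * ∏ i ∈ univ.erase j, H i ^ e i :=
      (Finset.mul_prod_erase univ (fun i => H i ^ e i) (mem_univ j)).symm
    have h2 : ∏ i, H i = H j * ∏ i ∈ univ.erase j, H i :=
      (Finset.mul_prod_erase univ (fun i => H i) (mem_univ j)).symm
    have h3 : H j ^ e j = H j ^ (e j - 1) * H j := by
      rw [← pow_succ]; congr 1; omega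
    rw [h1, h2, h3]
    simp only [Int.cast_natCast, map_natCast]
    ring

theorem Wpoly_sub {R : Type*} [CommRing R] (H : J → R[X]) (e e' : J → ℤ) :
    Wpoly H e - Wpoly H e' = Wpoly H (fun j => e j - e' j) := by
  rw [Wpoly, Wpoly, Wpoly, ← Finset.sum_sub_distrib]
  refine Finset.sum_congr rfl fun j _ => ?_
  push_cast
  ring

theorem prod_mul_wronskian {R : Type*} [CommRing R] (H : J → R[X]) (e e' : J → ℕ) :
    (∏ i, H i) * (derivative (∏ i, H i ^ e i - ∏ i, H i ^ e' i) * (∏ i, H i ^ e' i) -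
        (∏ i, H i ^ e i - ∏ i, H i ^ e' i) * derivative (∏ i, H i ^ e' i)) =
      (∏ i, H i ^ e i) * (∏ i, H i ^ e' i) * Wpoly H (fun j => (e j : ℤ) - (e' j : ℤ)) := by
  have h1 := prod_mul_derivative H e
  have h2 := prod_mul_derivative H e'
  rw [← Wpoly_sub H (fun j => (e j : ℤ)) (fun j => (e' j : ℤ)), derivative_sub]
  linear_combination (∏ i, H i ^ e' i) * h1 - (∏ i, H i ^ e i) * h2

/-- In any commutative ring: if the monic polynomials `∏ H_i^{e_i}` and `∏ H_i^{e'_i}` have the
same degree `n` and their difference has degree at most `n - d`, `d = deg ∏ H_i`, then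
`W = 0`. -/
theorem Wpoly_eq_zero {R : Type*} [CommRing R] (H : J → R[X]) (hH : ∀ j, (H j).Monic)
    (e e' : J → ℕ) (n : ℕ)
    (hn : (∏ i, H i ^ e i).natDegree = n) (hn' : (∏ i, H i ^ e' i).natDegree = n)
    (hD : ∀ i, n < i + (∏ i, H i).natDegree → (∏ i, H i ^ e i - ∏ i, H i ^ e' i).coeff i = 0) :
    Wpoly H (fun j => (e j : ℤ) - (e' j : ℤ)) = 0 := by
  nontriviality R
  set P := ∏ i, H i ^ e i with hP
  set P' := ∏ i, H i ^ e' i with hP'
  set d := (∏ i, H i).natDegree with hd
  have mP : P.Monic := monic_prod_of_monic _ _ fun i _ => (hH i).pow _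
  have mP' : P'.Monic := monic_prod_of_monic _ _ fun i _ => (hH i).pow _
  have key := prod_mul_wronskian H e e'
  rw [← hP, ← hP'] at key
  set W := Wpoly H (fun j => (e j : ℤ) - (e' j : ℤ)) with hW
  by_contra hne
  have mPP : (P * P').Monic := mP.mul mP'
  have hPP : (P * P').natDegree = 2 * n := by rw [mP.natDegree_mul mP', hn, hn']; ring
  have hR : (P * P' * W).coeff (2 * n + W.natDegree) ≠ 0 := by
    have h1 : (P * P' * W).natDegree = 2 * n + W.natDegree := by
      rw [mPP.natDegree_mul' hne, hPP]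
    rw [← h1, coeff_natDegree, leadingCoeff_monic_mul mPP]
    exact leadingCoeff_ne_zero.mpr hne
  have hd' : (∏ i, H i).natDegree = d := rfl
  rw [← key] at hR
  set D := P - P' with hDdef
  rcases lt_or_ge n d with h | h
  · have : D = 0 := by
      ext i
      simpa using hD i (by omega)
    rw [this] at hR
    simp at hR
  · have hDdeg : D.natDegree ≤ n - d := by
      rw [natDegree_le_iff_coeff_eq_zero]
      intro m hm
      exact hD m (by omega)
    rcases Nat.eq_zero_or_pos n with h0 | h0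
    · have e1 : P = 1 := mP.natDegree_eq_zero.mp (by omega)
      have e2 : P' = 1 := mP'.natDegree_eq_zero.mp (by omega)
      have : D = 0 := by rw [hDdef, e1, e2, sub_self]
      rw [this] at hR
      simp at hR
    · have h1 : (derivative D * P').natDegree ≤ 2 * n - d - 1 := by
        rcases Nat.eq_zero_or_pos D.natDegree with h2 | h2
        · rw [derivative_of_natDegree_zero h2]
          simp
        · have h3 := natDegree_derivative_le D
          have h4 := natDegree_mul_le (p := derivative D) (q := P')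
          omega
      have h2 : (D * derivative P').natDegree ≤ 2 * n - d - 1 := by
        have h3 := natDegree_derivative_le P'
        have h4 := natDegree_mul_le (p := D) (q := derivative P')
        omega
      have h3 : (derivative D * P' - D * derivative P').natDegree ≤ 2 * n - d - 1 :=
        (natDegree_sub_le _ _).trans (max_le h1 h2)
      have h4 := natDegree_mul_le (p := ∏ i, H i) (q := derivative D * P' - D * derivative P')
      exact hR (coeff_eq_zero_of_natDegree_lt (by omega))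

/-- Integer version: congruence modulo `M` of the two products outside low degree forces
`M ∣ (e_j - e'_j) R`, where `R` is a resultant-like integer. -/
theorem dvd_exponent_diff (H : J → ℤ[X]) (hH : ∀ j, (H j).Monic)
    (hdeg : ∀ j, 1 ≤ (H j).natDegree) (M : ℕ) (hM : 1 < M)
    (e e' : J → ℕ) (n : ℕ)
    (hn : (∏ i, H i ^ e i).natDegree = n) (hn' : (∏ i, H i ^ e' i).natDegree = n)
    (hD : ∀ i, n < i + (∏ i, H i).natDegree →
      (M : ℤ) ∣ (∏ i, H i ^ e i - ∏ i, H i ^ e' i).coeff i)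
    (j : J) (A B : ℤ[X]) (R : ℤ)
    (hR : A * (derivative (H j) * ∏ i ∈ univ.erase j, H i) + B * H j = C R) :
    (M : ℤ) ∣ ((e j : ℤ) - (e' j : ℤ)) * R := by
  have : Fact (1 < M) := ⟨hM⟩
  let φ : ℤ →+* ZMod M := Int.castRingHom (ZMod M)
  let G : J → (ZMod M)[X] := fun i => (H i).map φ
  have hG : ∀ i, (G i).Monic := fun i => (hH i).map φ
  have e1 : ∏ i, G i ^ e i = (∏ i, H i ^ e i).map φ := by
    simp [G, Polynomial.map_prod, Polynomial.map_pow]
  have e2 : ∏ i, G i ^ e' i = (∏ i, H i ^ e' i).map φ := by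
    simp [G, Polynomial.map_prod, Polynomial.map_pow]
  have e3 : ∏ i, G i = (∏ i, H i).map φ := by
    simp [G, Polynomial.map_prod]
  have m1 : (∏ i, H i ^ e i).Monic := monic_prod_of_monic _ _ fun i _ => (hH i).pow _
  have m2 : (∏ i, H i ^ e' i).Monic := monic_prod_of_monic _ _ fun i _ => (hH i).pow _
  have m3 : (∏ i, H i).Monic := monic_prod_of_monic _ _ fun i _ => hH i
  have hW : Wpoly G (fun j => (e j : ℤ) - (e' j : ℤ)) = 0 := by
    refine Wpoly_eq_zero G hG e e' n ?_ ?_ ?_
    · rw [e1, m1.natDegree_map, hn]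
    · rw [e2, m2.natDegree_map, hn']
    · intro i hi
      rw [e3, m3.natDegree_map] at hi
      rw [e1, e2, ← Polynomial.map_sub, coeff_map]
      exact (ZMod.intCast_zmod_eq_zero_iff_dvd _ _).mpr (hD i hi)
  -- map the Bezout identity
  have hB : A.map φ * (derivative (G j) * ∏ i ∈ univ.erase j, G i) + B.map φ * G j =
      C (φ R) := by
    have := congrArg (Polynomial.map φ) hR
    simpa [G, Polynomial.map_mul, Polynomial.map_add, Polynomial.map_prod, derivative_map]
      using this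
  -- split off the `j`-th term
  have hsplit : (((e j : ℤ) - (e' j : ℤ) : ℤ) : (ZMod M)[X]) *
      (derivative (G j) * ∏ i ∈ univ.erase j, G i) +
      ∑ k ∈ univ.erase j, (((e k : ℤ) - (e' k : ℤ) : ℤ) : (ZMod M)[X]) *
      (derivative (G k) * ∏ i ∈ univ.erase k, G i) = 0 := by
    rw [← hW, Wpoly]
    exact Finset.add_sum_erase univ (fun k => (((e k : ℤ) - (e' k : ℤ) : ℤ) : (ZMod M)[X]) *
      (derivative (G k) * ∏ i ∈ univ.erase k, G i)) (mem_univ j)
  have hdiv : G j ∣ ∑ k ∈ univ.erase j, (((e k : ℤ) - (e' k : ℤ) : ℤ) : (ZMod M)[X]) *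
      (derivative (G k) * ∏ i ∈ univ.erase k, G i) := by
    refine Finset.dvd_sum fun k hk => ?_
    refine dvd_mul_of_dvd_right (dvd_mul_of_dvd_right ?_ _) _
    exact Finset.dvd_prod_of_mem G (by
      rw [Finset.mem_erase] at hk ⊢
      exact ⟨fun h => hk.1 h.symm, mem_univ _⟩)
  have hdiv2 : G j ∣ C (φ (((e j : ℤ) - (e' j : ℤ)) * R)) := by
    obtain ⟨T, hT⟩ := hdiv
    refine ⟨(((e j : ℤ) - (e' j : ℤ) : ℤ) : (ZMod M)[X]) * B.map φ - A.map φ * T, ?_⟩
    rw [hT] at hsplit
    have hc : C (φ (((e j : ℤ) - (e' j : ℤ)) * R)) =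
        (((e j : ℤ) - (e' j : ℤ) : ℤ) : (ZMod M)[X]) * C (φ R) := by
      simp [φ]
    rw [hc, ← hB]
    linear_combination (A.map φ) * hsplit
  have hzero : C (φ (((e j : ℤ) - (e' j : ℤ)) * R)) = 0 := by
    by_contra hne
    have h2 : (G j).natDegree = (H j).natDegree := (hH j).natDegree_map φ
    have h3 := hdeg j
    exact (hG j).not_dvd_of_natDegree_lt hne (by rw [natDegree_C]; omega) hdiv2
  rw [C_eq_zero] at hzero
  exact (ZMod.intCast_zmod_eq_zero_iff_dvd _ _).mp hzero

end Pool.Agent.Work.MP_59f3ad_nt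

end

section

/-!
Truncation lemma: a `p`-adic congruence between values of homogenised polynomials at `x` forces
the congruence of the high coefficients.
-/

open Polynomial Finset

namespace Pool.Agent.Work.MP_59f3ad_nt

/-- `aeval x (scaleRoots P Q) = x^n * aeval (Q y) (reflect n P)` if `x y = 1`. -/
theorem aeval_scaleRoots_eq {A : Type*} [CommRing A] (x y : A) (hxy : x * y = 1) (Q : ℤ)
    (P : ℤ[X]) (n : ℕ) (hn : P.natDegree = n) :
    aeval x (P.scaleRoots Q) = x ^ n * aeval ((Q : A) * y) (reflect n P) := by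
  have h1 : (P.scaleRoots Q).natDegree < n + 1 := by rw [natDegree_scaleRoots]; omega
  have h2 : (reflect n P).natDegree < n + 1 := by
    have := natDegree_reflect_le (p := P) (N := n)
    omega
  rw [aeval_eq_sum_range' h1, aeval_eq_sum_range' h2, Finset.mul_sum,
    ← Finset.sum_range_reflect (fun k => x ^ n * ((reflect n P).coeff k • ((Q : A) * y) ^ k))]
  refine Finset.sum_congr rfl fun i hi => ?_
  have hi' : i ≤ n := by have := Finset.mem_range.mp hi; omega
  have h3 : n + 1 - 1 - i = n - i := by omega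
  rw [h3, coeff_scaleRoots, hn, coeff_reflect, revAt_le (by omega : n - i ≤ n)]
  have h4 : n - (n - i) = i := by omega
  rw [h4]
  have h5 : x ^ n = x ^ i * x ^ (n - i) := by rw [← pow_add]; congr 1; omega
  have h6 : x ^ (n - i) * y ^ (n - i) = 1 := by rw [← mul_pow, hxy, one_pow]
  simp only [zsmul_eq_mul, Int.cast_mul, Int.cast_pow]
  rw [h5, mul_pow]
  linear_combination (-(P.coeff i : A) * (Q : A) ^ (n - i) * x ^ i) * h6

/-- The relation `∑_k ρ_k (Q y)^k = 0` in `O/p^K` forces divisibility of the `ρ_k`. -/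
theorem trunc {O : Type*} [CommRing O] (x : O) (p N K c1 : ℕ) (hp0 : p ≠ 0)
    (hN : 1 ≤ N) (Q Q' : ℤ) (hQ : Q = (p : ℤ) ^ N * Q') (hcop : IsCoprime (p : ℤ) Q')
    (H : ℤ[X]) (hH : H.Monic) (d : ℕ) (hd : H.natDegree = d) (hd1 : 1 ≤ d)
    (hx : aeval x (H.scaleRoots Q) = 1)
    (hind : ∀ c : ℕ → ℤ, (p : O) ^ K ∣ ∑ i ∈ range d, (c i : O) * x ^ i →
      ∀ i < d, (p : ℤ) ^ (K - c1) ∣ c i)
    (hK : c1 + N * (d - 1) + N * d ≤ K)
    (P P' : ℤ[X]) (hP : P.Monic) (hP' : P'.Monic) (n : ℕ)
    (hn : P.natDegree = n) (hn' : P'.natDegree = n)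
    (hdiff : (p : O) ^ K ∣ aeval x (P.scaleRoots Q) - aeval x (P'.scaleRoots Q)) :
    ∀ i, n < i + d → (p : ℤ) ^ (N * d) ∣ (P - P').coeff i := by
  -- work in the quotient ring
  obtain ⟨A, _, π, hπ0⟩ : ∃ (A : Type _) (_ : CommRing A) (π : O →+* A),
      ∀ a : O, π a = 0 ↔ (p : O) ^ K ∣ a := by
    refine ⟨O ⧸ Ideal.span {(p : O) ^ K}, inferInstance, Ideal.Quotient.mk _, fun a => ?_⟩
    rw [Ideal.Quotient.eq_zero_iff_mem, Ideal.mem_span_singleton]
  have hpK : (p : A) ^ K = 0 := by
    have := (hπ0 ((p : O) ^ K)).mpr dvd_rfl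
    simpa using this
  have hKpos : 1 ≤ K := by
    have : 1 ≤ N * d := Nat.mul_pos hN hd1
    omega
  have hpnil : IsNilpotent (p : A) := ⟨K, hpK⟩
  have hQnil : IsNilpotent (Q : A) := by
    rw [hQ]
    push_cast
    have h1 : IsNilpotent ((p : A) ^ N) := hpnil.pow_of_pos (by omega)
    exact (Commute.all _ _).isNilpotent_mul_right h1
  have hπaeval : ∀ F : ℤ[X], aeval (π x) F = π (aeval x F) := fun F =>
    aeval_algHom_apply (π.toIntAlgHom) x F
  set x' : A := π x with hx'
  have hx1 : aeval x' (H.scaleRoots Q) = 1 := by rw [hπaeval, hx, map_one]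
  -- `h0 = H(0)`
  set h0 : ℤ := H.coeff 0 with hh0
  have hcoeff0 : (H.scaleRoots Q).coeff 0 = h0 * Q ^ d := by
    rw [coeff_scaleRoots, hd, Nat.sub_zero]
  have hQdnil : IsNilpotent ((h0 : A) * (Q : A) ^ d) :=
    (Commute.all _ _).isNilpotent_mul_left (hQnil.pow_of_pos (by omega))
  have hunit : IsUnit (1 - (h0 : A) * (Q : A) ^ d) := hQdnil.isUnit_one_sub
  -- `x'` is a unit
  have hxunit : IsUnit x' := by
    have h1 := divX_mul_X_add (H.scaleRoots Q)
    have h2 : aeval x' ((H.scaleRoots Q).divX) * x' + (h0 : A) * (Q : A) ^ d = 1 := by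
      rw [← hx1]
      conv_rhs => rw [← h1]
      simp [hcoeff0]
    have h3 : aeval x' ((H.scaleRoots Q).divX) * x' = 1 - (h0 : A) * (Q : A) ^ d := by
      linear_combination h2
    rw [← h3] at hunit
    exact isUnit_of_mul_isUnit_right hunit
  obtain ⟨y, hxy⟩ := hxunit.exists_right_inv
  set z : A := (Q : A) * y with hz
  -- the value of the reflected difference is zero
  have hle : (P - P').natDegree ≤ n := (natDegree_sub_le _ _).trans (by rw [hn, hn']; simp)
  set Δ : ℤ[X] := reflect n (P - P') with hΔ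
  have hΔ0 : aeval z Δ = 0 := by
    have h1 : aeval x' (P.scaleRoots Q) - aeval x' (P'.scaleRoots Q) = 0 := by
      rw [hπaeval, hπaeval, ← map_sub, hπ0]
      exact hdiff
    rw [aeval_scaleRoots_eq x' y hxy Q P n hn, aeval_scaleRoots_eq x' y hxy Q P' n hn',
      ← mul_sub, ← map_sub, ← reflect_sub] at h1
    exact (hxunit.pow n).mul_right_eq_zero.mp h1
  -- the monic polynomial `Φ`
  obtain ⟨v', hv'⟩ : ∃ v' : ℤ, ((v' : ℤ) : A) * (1 - (h0 : A) * (Q : A) ^ d) = 1 := by
    have hc : IsCoprime ((p : ℤ) ^ K) (1 - h0 * Q ^ d) := by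
      have : IsCoprime (p : ℤ) (1 - h0 * Q ^ d) := by
        refine ⟨h0 * ((p : ℤ) ^ (N * d - 1) * Q' ^ d), 1, ?_⟩
        rw [hQ, mul_pow, ← pow_mul]
        have hNd : 1 ≤ N * d := Nat.mul_pos hN hd1
        have h5 : (p : ℤ) ^ (N * d) = (p : ℤ) ^ (N * d - 1) * p := by
          rw [← pow_succ]; congr 1; omega
        rw [h5]
        ring
      exact this.pow_left
    obtain ⟨a, b, hab⟩ := hc
    refine ⟨b, ?_⟩
    have h6 := congrArg (fun t : ℤ => (t : A)) hab
    push_cast at h6
    rw [hpK, mul_zero, zero_add] at h6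
    exact h6
  let E : ℤ[X] := ∑ k ∈ range d, C (H.coeff (d - k)) * X ^ k
  have hEdeg : E.degree < (d : WithBot ℕ) := by
    refine (degree_sum_le _ _).trans_lt ?_
    rw [Finset.sup_lt_iff (by exact WithBot.bot_lt_coe d)]
    intro k hk
    refine (degree_C_mul_X_pow_le _ _).trans_lt ?_
    exact_mod_cast Finset.mem_range.mp hk
  let Φ : ℤ[X] := X ^ d - C (v' * Q ^ d) * E
  have hΦdeg : (C (v' * Q ^ d) * E).degree < (d : WithBot ℕ) := by
    refine (degree_mul_le _ _).trans_lt ?_
    refine lt_of_le_of_lt (add_le_add_left degree_C_le _) ?_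
    rwa [zero_add]
  have hΦm : Φ.Monic := monic_X_pow_sub hΦdeg
  have hΦz : aeval z Φ = 0 := by
    have h1 : x' ^ d * y ^ d = 1 := by rw [← mul_pow, hxy, one_pow]
    have h2 : x' ^ d * aeval z (reflect d H) = 1 := by
      rw [← aeval_scaleRoots_eq x' y hxy Q H d hd, hx1]
    have h3 : y ^ d = aeval z (reflect d H) := by
      calc y ^ d = (x' ^ d * aeval z (reflect d H)) * y ^ d := by rw [h2, one_mul]
        _ = (x' ^ d * y ^ d) * aeval z (reflect d H) := by ring
        _ = aeval z (reflect d H) := by rw [h1, one_mul]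
    have h4 : aeval z (reflect d H) = aeval z E + (h0 : A) * z ^ d := by
      have h5 : (reflect d H).natDegree < d + 1 := by
        have := natDegree_reflect_le (p := H) (N := d)
        rw [hd] at this
        have h6 : max d d = d := max_self d
        omega
      rw [aeval_eq_sum_range' h5, Finset.sum_range_succ]
      congr 1
      · simp only [E, map_sum, map_mul, aeval_C, map_pow, aeval_X]
        refine Finset.sum_congr rfl fun k hk => ?_
        have hk' := Finset.mem_range.mp hk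
        rw [coeff_reflect, revAt_le (by omega)]
        simp
      · rw [coeff_reflect, revAt_le le_rfl, Nat.sub_self]
        simp [h0]
    have h7 : z ^ d = (Q : A) ^ d * (aeval z E + (h0 : A) * z ^ d) := by
      rw [← h4, ← h3, hz, mul_pow]
    have h8 : z ^ d * (1 - (h0 : A) * (Q : A) ^ d) = (Q : A) ^ d * aeval z E := by
      linear_combination h7
    have h9 : z ^ d = (v' : A) * ((Q : A) ^ d * aeval z E) := by
      rw [← h8]
      linear_combination (-z ^ d) * hv'
    simp only [Φ, map_sub, map_mul, map_pow, aeval_X, aeval_C]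
    rw [h9]
    simp
    ring
  have hdeg : Φ.natDegree = d := by
    have : Φ.degree = (d : WithBot ℕ) := by
      rw [show Φ = X ^ d - C (v' * Q ^ d) * E from rfl, degree_sub_eq_left_of_degree_lt,
        degree_X_pow]
      rwa [degree_X_pow]
    exact natDegree_eq_of_degree_eq_some this
  set ρ : ℤ[X] := Δ %ₘ Φ with hρ
  set B : ℤ[X] := Δ /ₘ Φ with hB
  have hdivmod : ρ + Φ * B = Δ := modByMonic_add_div Δ Φ
  have hρz : aeval z ρ = 0 := by
    have h1 := congrArg (aeval z) hdivmod
    rw [map_add, map_mul, hΦz, zero_mul, add_zero, hΔ0] at h1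
    exact h1
  have hρdeg : ρ.natDegree < d := by
    have h1 : ρ.degree < Φ.degree := degree_modByMonic_lt Δ hΦm
    rw [degree_eq_natDegree hΦm.ne_zero, hdeg] at h1
    by_cases h2 : ρ = 0
    · rw [h2, natDegree_zero]; omega
    · rwa [degree_eq_natDegree h2, Nat.cast_lt] at h1
  -- divisibility of the coefficients of `ρ`
  have hρdvd : ∀ k < d, (p : ℤ) ^ (N * d) ∣ ρ.coeff k := by
    have h1 : π (∑ i ∈ range d, ((ρ.coeff (d - 1 - i) * Q ^ (d - 1 - i) : ℤ) : O) * x ^ i) = 0 := by
      have h2 : aeval z ρ * x' ^ (d - 1) = 0 := by rw [hρz, zero_mul]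
      rw [aeval_eq_sum_range' hρdeg, Finset.sum_mul, ← Finset.sum_range_reflect] at h2
      rw [map_sum, ← h2]
      refine Finset.sum_congr rfl fun i hi => ?_
      have hi' := Finset.mem_range.mp hi
      have h3 : x' ^ (d - 1) = x' ^ (d - 1 - i) * x' ^ i := by
        rw [← pow_add]; congr 1; omega
      have h4 : x' ^ (d - 1 - i) * y ^ (d - 1 - i) = 1 := by rw [← mul_pow, hxy, one_pow]
      simp only [zsmul_eq_mul, map_mul, map_intCast, Int.cast_mul, Int.cast_pow, map_pow]
      rw [h3, hz, mul_pow]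
      linear_combination (-(ρ.coeff (d - 1 - i) : A) * (Q : A) ^ (d - 1 - i) * x' ^ i) * h4
    rw [hπ0] at h1
    have h5 := hind (fun i => ρ.coeff (d - 1 - i) * Q ^ (d - 1 - i)) h1
    intro k hk
    have h6 := h5 (d - 1 - k) (by omega)
    have h7 : d - 1 - (d - 1 - k) = k := by omega
    simp only [h7] at h6
    have h8 : (p : ℤ) ^ (N * k) * (p : ℤ) ^ (N * d) ∣ (p : ℤ) ^ (N * k) * (Q' ^ k * ρ.coeff k) := by
      have h9 : (p : ℤ) ^ (N * k) * (p : ℤ) ^ (N * d) ∣ (p : ℤ) ^ (K - c1) := by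
        rw [← pow_add]
        refine pow_dvd_pow _ ?_
        have : N * k ≤ N * (d - 1) := Nat.mul_le_mul_left N (by omega)
        omega
      refine h9.trans (h6.trans (Dvd.intro 1 ?_))
      rw [hQ, mul_pow, ← pow_mul]
      ring
    have h11 : (p : ℤ) ^ (N * k) ≠ 0 := pow_ne_zero _ (by exact_mod_cast hp0)
    have h12 := (mul_dvd_mul_iff_left h11).mp h8
    exact (IsCoprime.pow hcop).dvd_of_dvd_mul_left h12
  intro i hi
  rcases lt_or_ge n i with h | h
  · rw [coeff_eq_zero_of_natDegree_lt (hle.trans_lt h)]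
    exact dvd_zero _
  · have h1 : (P - P').coeff i = Δ.coeff (n - i) := by
      rw [hΔ, coeff_reflect, revAt_le (by omega)]
      congr 1
      omega
    have hk : n - i < d := by omega
    rw [h1, ← hdivmod, coeff_add]
    refine dvd_add (hρdvd _ hk) ?_
    simp only [Φ, sub_mul, coeff_sub]
    have h2 : (X ^ d * B).coeff (n - i) = 0 := by
      rw [coeff_X_pow_mul', if_neg (by omega)]
    rw [h2, zero_sub, dvd_neg, mul_assoc, coeff_C_mul]
    refine Dvd.dvd.mul_right ?_ _
    rw [hQ, mul_pow, ← pow_mul]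
    exact ⟨v' * Q' ^ d, by ring⟩

end Pool.Agent.Work.MP_59f3ad_nt

end

section

/-!
The `p`-adic cyclotomic character is nontrivial on decomposition groups above `p`.
-/

open NumberField IsDedekindDomain

namespace Pool.Agent.Work.MP_59f3ad_nt

universe u

/-- Restriction of an automorphism along an embedding of algebraic closures. -/
theorem exists_restrict (K : Type u) [Field K] (Kv : Type u) [Field Kv] [Algebra K Kv]
    (ι : AlgebraicClosure K →ₐ[K] AlgebraicClosure Kv) (g : GK Kv) :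
    ∃ h : GK K, ∀ x, ι (h x) = g (ι x) := by
  let _ : Algebra (AlgebraicClosure K) (AlgebraicClosure Kv) := ι.toRingHom.toAlgebra
  have _ : IsScalarTower K (AlgebraicClosure K) (AlgebraicClosure Kv) :=
    IsScalarTower.of_algebraMap_eq fun x => (ι.commutes x).symm
  refine ⟨(g.restrictScalars K).restrictNormal (AlgebraicClosure K), fun x => ?_⟩
  exact AlgEquiv.restrictNormal_commutes (g.restrictScalars K) (AlgebraicClosure K) x

/-- In a field with a discrete valuation for which `p` has valuation `< 1`, there are no primitive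
roots of unity of arbitrarily large `p`-power order. -/
theorem exists_no_primitive_root {K : Type u} [Field K] [CharZero K] (p : ℕ) [Fact p.Prime]
    (w : Valuation K (WithZero (Multiplicative ℤ))) (hw : w (p : K) < 1) :
    ∃ n : ℕ, ¬ ∃ ζ : K, IsPrimitiveRoot ζ (p ^ (n + 1)) := by
  by_contra hcon
  push Not at hcon
  have hp : p.Prime := Fact.out
  have hp0 : w (p : K) ≠ 0 := by
    rw [Valuation.ne_zero_iff]
    exact_mod_cast hp.ne_zero
  -- for all n, w p ≤ exp(- φ(p^(n+1)))
  have key : ∀ n : ℕ, ∃ x : WithZero (Multiplicative ℤ), x < 1 ∧ w (p : K) = x ^ ((p ^ (n + 1)).totient) := by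
    intro n
    obtain ⟨ζ, hζ⟩ := hcon n
    have hone : ∀ μ : K, μ ^ (p ^ (n + 1)) = 1 → w μ = 1 := by
      intro μ hμ
      have h1 : w μ ^ (p ^ (n + 1)) = 1 := by rw [← map_pow, hμ, map_one]
      have h0 : p ^ (n + 1) ≠ 0 := (pow_pos hp.pos _).ne'
      rcases lt_trichotomy (w μ) 1 with h | h | h
      · exact absurd h1 (pow_lt_one₀ (zero_le) h h0).ne
      · exact h
      · exact absurd h1 (one_lt_pow₀ h h0).ne'
    have hsame : ∀ μ ∈ primitiveRoots (p ^ (n + 1)) K, w (1 - μ) = w (1 - ζ) := by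
      intro μ hμ
      have hμ' : IsPrimitiveRoot μ (p ^ (n + 1)) := isPrimitiveRoot_of_mem_primitiveRoots hμ
      have hle : ∀ a b : K, IsPrimitiveRoot a (p ^ (n + 1)) → IsPrimitiveRoot b (p ^ (n + 1)) →
          w (1 - b) ≤ w (1 - a) := by
        intro a b ha hb
        obtain ⟨i, hi, hib⟩ := ha.eq_pow_of_pow_eq_one hb.pow_eq_one
        rw [← hib]
        have hgeom : (1 - a ^ i) = (∑ j ∈ Finset.range i, a ^ j) * (1 - a) := by
          have h2 := geom_sum_mul a i
          linear_combination h2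
        rw [hgeom, map_mul]
        have h3 : w (∑ j ∈ Finset.range i, a ^ j) ≤ 1 := by
          apply Valuation.map_sum_le
          intro j _
          rw [map_pow, hone a ha.pow_eq_one, one_pow]
        calc w (∑ j ∈ Finset.range i, a ^ j) * w (1 - a) ≤ 1 * w (1 - a) := by gcongr
          _ = w (1 - a) := one_mul _
      exact le_antisymm (hle _ _ hζ hμ') (hle _ _ hμ' hζ)
    refine ⟨w (1 - ζ), ?_, ?_⟩
    · -- otherwise w p ≥ 1
      by_contra hge
      push Not at hge
      have h5 : (p : K) = ∏ μ ∈ primitiveRoots (p ^ (n + 1)) K, (1 - μ) := by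
        rw [← Polynomial.eval_one_cyclotomic_prime_pow (R := K) (p := p) n,
          Polynomial.cyclotomic_eq_prod_X_sub_primitiveRoots hζ, Polynomial.eval_prod]
        simp
      have h6 : w (p : K) = w (1 - ζ) ^ (p ^ (n + 1)).totient := by
        rw [h5, map_prod, Finset.prod_congr rfl hsame, Finset.prod_const, hζ.card_primitiveRoots]
      rw [h6] at hw
      exact absurd hw (not_lt.mpr (one_le_pow₀ hge))
    · have h5 : (p : K) = ∏ μ ∈ primitiveRoots (p ^ (n + 1)) K, (1 - μ) := by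
        rw [← Polynomial.eval_one_cyclotomic_prime_pow (R := K) (p := p) n,
          Polynomial.cyclotomic_eq_prod_X_sub_primitiveRoots hζ, Polynomial.eval_prod]
        simp
      rw [h5, map_prod, Finset.prod_congr rfl hsame, Finset.prod_const, hζ.card_primitiveRoots]
  -- w p = exp(-m)
  obtain ⟨m, hm⟩ : ∃ m : ℤ, w (p : K) = WithZero.exp m := by
    refine ⟨WithZero.log (w (p:K)), (WithZero.exp_log hp0).symm⟩
  obtain ⟨x, hx1, hx2⟩ := key (m.natAbs)
  have hx0 : x ≠ 0 := by
    rintro rfl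
    rw [hx2, zero_pow (Nat.totient_pos.mpr (pow_pos hp.pos _)).ne'] at hp0
    exact hp0 rfl
  have hxm : m = (p ^ (m.natAbs + 1)).totient * WithZero.log x := by
    have := congrArg WithZero.log hx2
    rw [hm, WithZero.log_exp, WithZero.log_pow] at this
    simpa using this
  have hlog : WithZero.log x < 0 := by
    rw [← WithZero.log_one]
    exact (WithZero.log_lt_log hx0 one_ne_zero).mpr hx1
  have htot : (m.natAbs : ℕ) < (p ^ (m.natAbs + 1)).totient := by
    rw [Nat.totient_prime_pow_succ hp]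
    calc m.natAbs < p ^ m.natAbs := Nat.lt_pow_self hp.one_lt
      _ ≤ p ^ m.natAbs * (p - 1) := Nat.le_mul_of_pos_right _ (by have := hp.two_le; omega)
  have h7 : (m.natAbs : ℤ) < (p ^ (m.natAbs + 1)).totient := by exact_mod_cast htot
  have h8 : m ≤ -((p ^ (m.natAbs + 1)).totient : ℤ) := by
    have h9 : WithZero.log x ≤ -1 := by omega
    have h10 : (0:ℤ) ≤ ((p ^ (m.natAbs + 1)).totient : ℤ) := Nat.cast_nonneg _
    have h11 := mul_le_mul_of_nonneg_left h9 h10
    rw [← hxm] at h11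
    linarith
  omega

theorem exists_cyc_ne_one (L : Type u) [Field L] [NumberField L] (p : ℕ) [Fact p.Prime]
    (v : HeightOneSpectrum (𝓞 L)) (hv : (p : 𝓞 L) ∈ v.asIdeal)
    (ι : AlgebraicClosure L →ₐ[L] AlgebraicClosure (v.adicCompletion L)) :
    ∃ (g : GK (v.adicCompletion L)) (h : GK L), (∀ x, ι (h x) = g (ι x)) ∧ cyc L p h ≠ 1 := by
  have _ : CharZero (v.adicCompletion L) :=
    charZero_of_injective_algebraMap (algebraMap L (v.adicCompletion L)).injective
  have hp : p.Prime := Fact.out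
  have hw : (Valued.v : Valuation (v.adicCompletion L) (WithZero (Multiplicative ℤ)))
      (p : v.adicCompletion L) < 1 := by
    have h1 : (p : v.adicCompletion L) = algebraMap L (v.adicCompletion L) (algebraMap (𝓞 L) L (p : 𝓞 L)) := by
      simp
    have h2 : (algebraMap (𝓞 L) L (p : 𝓞 L)) = ((p : 𝓞 L) : L) := rfl
    rw [h1]
    have h3 := HeightOneSpectrum.valuedAdicCompletion_eq_valuation' (K := L) v (algebraMap (𝓞 L) L (p : 𝓞 L))
    have h4 := (HeightOneSpectrum.valuation_lt_one_iff_mem (K := L) v (p : 𝓞 L)).mpr hv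
    have h5 : (algebraMap L (v.adicCompletion L) (algebraMap (𝓞 L) L (p : 𝓞 L))) = ((algebraMap (𝓞 L) L (p : 𝓞 L) : L) : v.adicCompletion L) := rfl
    rw [h5, h3]
    exact h4
  obtain ⟨n, hn⟩ := exists_no_primitive_root p Valued.v hw
  have _ : NeZero ((p ^ (n + 1) : ℕ) : AlgebraicClosure L) := ⟨by
    exact_mod_cast pow_ne_zero _ hp.ne_zero⟩
  obtain ⟨z, hz⟩ := HasEnoughRootsOfUnity.exists_primitiveRoot (AlgebraicClosure L) (p ^ (n + 1))
  have hιz : IsPrimitiveRoot (ι z) (p ^ (n + 1)) := hz.map_of_injective ι.injective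
  have hnot : ι z ∉ Set.range (algebraMap (v.adicCompletion L) (AlgebraicClosure (v.adicCompletion L))) := by
    rintro ⟨y, hy⟩
    apply hn
    refine ⟨y, ?_⟩
    rw [← hy] at hιz
    exact IsPrimitiveRoot.of_map_of_injective (f := algebraMap (v.adicCompletion L) (AlgebraicClosure (v.adicCompletion L))) hιz (RingHom.injective _)
  rw [InfiniteGalois.mem_range_algebraMap_iff_fixed] at hnot
  push Not at hnot
  obtain ⟨g, hg⟩ := hnot
  obtain ⟨h, hh⟩ := exists_restrict L (v.adicCompletion L) ι g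
  refine ⟨g, h, hh, fun hc => hg ?_⟩
  rw [← hh z]
  congr 1
  have hc' : cyclotomicCharacter (AlgebraicClosure L) p
      (MulSemiringAction.toRingAut (GK L) (AlgebraicClosure L) h) = 1 := hc
  have := cyclotomicCharacter.spec (L := AlgebraicClosure L) p (n := n + 1)
    (MulSemiringAction.toRingAut (GK L) (AlgebraicClosure L) h) z hz.pow_eq_one
  rw [hc'] at this
  have h1 : (MulSemiringAction.toRingAut (GK L) (AlgebraicClosure L) h) z = h z := rfl
  rw [h1] at this
  rw [this]
  have h2 : (PadicInt.toZModPow (p := p) (n + 1)) ((1 : ℤ_[p]ˣ) : ℤ_[p]) = 1 := by simp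
  have h3 : ((1 : ZMod (p ^ (n + 1))).val) = 1 := by
    have h4 : 1 < p ^ (n + 1) := Nat.one_lt_pow (Nat.succ_ne_zero n) hp.one_lt
    have _ : Fact (1 < p ^ (n + 1)) := ⟨h4⟩
    exact ZMod.val_one _
  rw [h2, h3, pow_one]

end Pool.Agent.Work.MP_59f3ad_nt

end

section

/-!
`p`-adic independence of the units `aeval x (H_j.scaleRoots Q)`.
-/

open Polynomial Finset

namespace Pool.Agent.Work.MP_59f3ad_nt

section Powers

variable {O : Type*} [CommRing O]

/-- `a^p - 1 = p (a - 1) (1 + p s)` when `a ≡ 1 mod p` (mod `4` if `p = 2`). -/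
theorem pow_prime_sub_one (p : ℕ) (hp : p.Prime) (N : ℕ) (hN : 1 ≤ N) (h2 : p = 2 → 2 ≤ N)
    (a : O) (ha : (p : O) ^ N ∣ a - 1) :
    ∃ s : O, a ^ p - 1 = p * (a - 1) * (1 + p * s) := by
  obtain ⟨t, ht⟩ : (p : O) ∣ a - 1 := (dvd_pow_self _ (by omega)).trans ha
  have hgeom : a ^ p - 1 = (∑ i ∈ range p, a ^ i) * (a - 1) := by
    rw [geom_sum_mul]
  rcases hp.eq_two_or_odd' with h | h
  · subst h
    obtain ⟨t', ht'⟩ : (2 : O) ^ 2 ∣ a - 1 := by
      have := (pow_dvd_pow ((2 : ℕ) : O) (h2 rfl)).trans ha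
      exact_mod_cast this
    refine ⟨t', ?_⟩
    have : a = 1 + 2 ^ 2 * t' := by linear_combination ht'
    rw [this]
    push_cast
    ring
  · obtain ⟨s, hs⟩ := odd_sq_dvd_geom_sum₂_sub (R := O) (p := p) 1 t h
    refine ⟨s, ?_⟩
    have e1 : a = 1 + p * t := by linear_combination ht
    have e2 : ∑ i ∈ range p, a ^ i = p + p ^ 2 * s := by
      have : ∑ i ∈ range p, (1 + (p : O) * t) ^ i * 1 ^ (p - 1 - i) = ∑ i ∈ range p, a ^ i := by
        rw [e1]; simp
      rw [this] at hs
      linear_combination hs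
    rw [hgeom, e2]
    ring

variable [IsDomain O] [CharZero O]

theorem dvd_of_pow_prime_dvd (p : ℕ) (hp : p.Prime) (N : ℕ) (hN : 1 ≤ N) (h2 : p = 2 → 2 ≤ N)
    (a : O) (ha : (p : O) ^ N ∣ a - 1) (K : ℕ) (hK : (p : O) ^ (K + 1) ∣ a ^ p - 1) :
    (p : O) ^ K ∣ a - 1 := by
  obtain ⟨s, hs⟩ := pow_prime_sub_one p hp N hN h2 a ha
  rw [hs, pow_succ'] at hK
  have hp0 : (p : O) ≠ 0 := by exact_mod_cast hp.ne_zero
  rw [mul_assoc, mul_dvd_mul_iff_left hp0] at hK
  have hc : IsCoprime ((p : O) ^ K) (1 + p * s) := by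
    have : IsCoprime (p : O) (1 + p * s) := ⟨-s, 1, by ring⟩
    exact this.pow_left
  exact hc.dvd_of_dvd_mul_right hK

theorem dvd_of_pow_prime_pow_dvd (p : ℕ) (hp : p.Prime) (N : ℕ) (hN : 1 ≤ N)
    (h2 : p = 2 → 2 ≤ N) (a : O) (ha : (p : O) ^ N ∣ a - 1) (K v : ℕ)
    (hK : (p : O) ^ (K + v) ∣ a ^ p ^ v - 1) : (p : O) ^ K ∣ a - 1 := by
  induction v generalizing K with
  | zero => simpa using hK
  | succ v ih =>
    apply ih
    refine dvd_of_pow_prime_dvd p hp N hN h2 (a ^ p ^ v) ?_ (K + v) ?_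
    · exact ha.trans (sub_one_dvd_pow_sub_one a (p ^ v))
    · rw [← pow_mul, ← pow_succ]
      rwa [add_assoc]

end Powers

section Indep

variable {J : Type*} [Fintype J] [DecidableEq J]

theorem scaleRoots_pow (P : ℤ[X]) (Q : ℤ) (n : ℕ) :
    (P ^ n).scaleRoots Q = (P.scaleRoots Q) ^ n := by
  induction n with
  | zero => simp
  | succ n ih => rw [pow_succ, mul_scaleRoots_of_noZeroDivisors, ih, pow_succ]

theorem scaleRoots_prod (s : Finset J) (P : J → ℤ[X]) (Q : ℤ) :
    (∏ i ∈ s, P i).scaleRoots Q = ∏ i ∈ s, (P i).scaleRoots Q := by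
  induction s using Finset.induction_on with
  | empty => simp
  | insert a s ha ih =>
    rw [Finset.prod_insert ha, Finset.prod_insert ha, mul_scaleRoots_of_noZeroDivisors, ih]

theorem natDegree_prod_pow (H : J → ℤ[X]) (hH : ∀ j, (H j).Monic) (e : J → ℕ) :
    (∏ i, H i ^ e i).natDegree = ∑ i, e i * (H i).natDegree := by
  rw [natDegree_prod_of_monic _ _ fun i _ => (hH i).pow _]
  exact Finset.sum_congr rfl fun i _ => (hH i).natDegree_pow _

theorem aeval_prod_pow {O : Type*} [CommRing O] (x : O) (Q : ℤ) (H : J → ℤ[X]) (u : J → Oˣ)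
    (hu : ∀ j, (u j : O) = aeval x ((H j).scaleRoots Q)) (e : J → ℕ) :
    aeval x ((∏ i, H i ^ e i).scaleRoots Q) = ((∏ i, u i ^ e i : Oˣ) : O) := by
  rw [scaleRoots_prod, map_prod, Units.coe_prod]
  refine Finset.prod_congr rfl fun i _ => ?_
  rw [scaleRoots_pow, map_pow, Units.val_pow_eq_pow_val, hu]

theorem indep_one {O : Type*} [CommRing O] (x : O) (p N K c1 : ℕ) (hp : p.Prime)
    (hN : 1 ≤ N) (Q Q' : ℤ) (hQ : Q = (p : ℤ) ^ N * Q') (hcop : IsCoprime (p : ℤ) Q')
    (H : J → ℤ[X]) (hH : ∀ j, (H j).Monic) (hdeg : ∀ j, 1 ≤ (H j).natDegree)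
    (d : ℕ) (hd : (∏ j, H j).natDegree = d) (hd1 : 1 ≤ d)
    (u : J → Oˣ) (hu : ∀ j, (u j : O) = aeval x ((H j).scaleRoots Q)) (hprod : ∏ j, u j = 1)
    (hind : ∀ c : ℕ → ℤ, (p : O) ^ K ∣ ∑ i ∈ range d, (c i : O) * x ^ i →
      ∀ i < d, (p : ℤ) ^ (K - c1) ∣ c i)
    (hK : c1 + N * (d - 1) + N * d ≤ K)
    (hR : ∀ j, ∃ (A B : ℤ[X]) (R : ℤ),
      A * (derivative (H j) * ∏ i ∈ univ.erase j, H i) + B * H j = C R ∧
      ¬ (p : ℤ) ^ (N * d) ∣ R)
    (E : J → ℤ) (hE : ∑ j, E j * ((H j).natDegree : ℤ) = 0)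
    (hdvd : (p : O) ^ K ∣ ((∏ j, u j ^ E j : Oˣ) : O) - 1) : ∀ j, (p : ℤ) ∣ E j := by
  set e : J → ℕ := fun j => (E j).toNat with he
  set e' : J → ℕ := fun j => (-E j).toNat with he'
  have hee : ∀ j, E j = (e j : ℤ) - (e' j : ℤ) := fun j => (Int.toNat_sub_toNat_neg (E j)).symm
  have hx : aeval x ((∏ j, H j).scaleRoots Q) = 1 := by
    have h := aeval_prod_pow x Q H u hu (fun _ => 1)
    simpa [hprod] using h
  have hprodU : (∏ j, u j ^ E j) * ∏ j, u j ^ e' j = ∏ j, u j ^ e j := by
    rw [← Finset.prod_mul_distrib]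
    refine Finset.prod_congr rfl fun j _ => ?_
    rw [hee j, zpow_sub, zpow_natCast, zpow_natCast, mul_assoc, inv_mul_cancel, mul_one]
  have hdiff : (p : O) ^ K ∣ aeval x ((∏ j, H j ^ e j).scaleRoots Q) -
      aeval x ((∏ j, H j ^ e' j).scaleRoots Q) := by
    rw [aeval_prod_pow x Q H u hu, aeval_prod_pow x Q H u hu, ← hprodU, Units.val_mul]
    have : ((∏ j, u j ^ E j : Oˣ) : O) * ((∏ j, u j ^ e' j : Oˣ) : O) -
        ((∏ j, u j ^ e' j : Oˣ) : O) = (((∏ j, u j ^ E j : Oˣ) : O) - 1) *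
        ((∏ j, u j ^ e' j : Oˣ) : O) := by ring
    rw [this]
    exact hdvd.mul_right _
  have hn : (∏ j, H j ^ e j).natDegree = ∑ j, e' j * (H j).natDegree := by
    rw [natDegree_prod_pow H hH]
    have : (∑ j, (e j : ℤ) * ((H j).natDegree : ℤ)) = ∑ j, (e' j : ℤ) * ((H j).natDegree : ℤ) := by
      rw [← sub_eq_zero, ← Finset.sum_sub_distrib, ← hE]
      refine Finset.sum_congr rfl fun j _ => ?_
      rw [hee j]; ring
    exact_mod_cast this
  have hn' : (∏ j, H j ^ e' j).natDegree = ∑ j, e' j * (H j).natDegree :=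
    natDegree_prod_pow H hH e'
  have hmon : ∀ e : J → ℕ, (∏ j, H j ^ e j).Monic := fun e =>
    monic_prod_of_monic _ _ fun i _ => (hH i).pow _
  have htr := trunc x p N K c1 hp.ne_zero hN Q Q' hQ hcop (∏ j, H j)
    (monic_prod_of_monic _ _ fun i _ => hH i) d hd hd1 hx hind hK (∏ j, H j ^ e j)
    (∏ j, H j ^ e' j) (hmon _) (hmon _) _ hn hn' hdiff
  intro j
  obtain ⟨A, B, R, hAB, hRp⟩ := hR j
  have hM : 1 < p ^ (N * d) := Nat.one_lt_pow (by positivity) hp.one_lt
  have h1 := dvd_exponent_diff H hH hdeg (p ^ (N * d)) hM e e' _ hn hn' (fun i hi => by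
    rw [hd] at hi
    exact_mod_cast htr i hi) j A B R hAB
  rw [← hee j] at h1
  by_contra hpE
  apply hRp
  have hc : IsCoprime ((p : ℤ) ^ (N * d)) (E j) := by
    refine IsCoprime.pow_left ?_
    exact (Prime.coprime_iff_not_dvd (Nat.prime_iff_prime_int.mp hp)).mpr hpE
  refine hc.dvd_of_dvd_mul_left ?_
  exact_mod_cast h1

theorem dvd_aeval_scaleRoots_sub {O : Type*} [CommRing O] (x : O) (Q : ℤ) (P : ℤ[X])
    (hP : P.Monic) : (Q : O) ∣ aeval x (P.scaleRoots Q) - x ^ P.natDegree := by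
  rw [aeval_eq_sum_range' (n := P.natDegree + 1) (by rw [natDegree_scaleRoots]; omega),
    Finset.sum_range_succ]
  have h1 : (P.scaleRoots Q).coeff P.natDegree = 1 := by
    rw [coeff_scaleRoots_natDegree]; exact hP
  rw [h1, one_smul, add_sub_cancel_right]
  refine Finset.dvd_sum fun i hi => ?_
  have hi' := Finset.mem_range.mp hi
  rw [coeff_scaleRoots, zsmul_eq_mul]
  push_cast
  refine Dvd.dvd.mul_right (Dvd.dvd.mul_left (dvd_pow_self _ (by omega)) _) _

/-- `p`-adic independence of the units `u_j`, with linear control. -/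
theorem indep {O : Type*} [CommRing O] [IsDomain O] [CharZero O]
    (x : O) (p N c1 : ℕ) (hp : p.Prime)
    (hN : 1 ≤ N) (hN2 : p = 2 → 2 ≤ N) (Q Q' : ℤ) (hQ : Q = (p : ℤ) ^ N * Q')
    (hcop : IsCoprime (p : ℤ) Q')
    (H : J → ℤ[X]) (hH : ∀ j, (H j).Monic) (hdeg : ∀ j, 1 ≤ (H j).natDegree)
    (d : ℕ) (hd : (∏ j, H j).natDegree = d) (hd1 : 1 ≤ d)
    (u : J → Oˣ) (hu : ∀ j, (u j : O) = aeval x ((H j).scaleRoots Q)) (hprod : ∏ j, u j = 1)
    (hind : ∀ K, ∀ c : ℕ → ℤ, (p : O) ^ K ∣ ∑ i ∈ range d, (c i : O) * x ^ i →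
      ∀ i < d, (p : ℤ) ^ (K - c1) ∣ c i)
    (hR : ∀ j, ∃ (A B : ℤ[X]) (R : ℤ),
      A * (derivative (H j) * ∏ i ∈ univ.erase j, H i) + B * H j = C R ∧
      ¬ (p : ℤ) ^ (N * d) ∣ R) (m : ℕ) :
    ∀ E : J → ℤ, ∑ j, E j * ((H j).natDegree : ℤ) = 0 →
    (p : O) ^ (m + (c1 + N * (d - 1) + N * d)) ∣ ((∏ j, u j ^ E j : Oˣ) : O) - 1 →
    ∀ j, (p : ℤ) ^ m ∣ E j := by
  induction m with
  | zero => intro E _ _ j; simp
  | succ m ih =>
    intro E hE hdvd j
    have hpm : (p : ℤ) ^ m ≠ 0 := pow_ne_zero _ (by exact_mod_cast hp.ne_zero)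
    have h1 := ih E hE ((pow_dvd_pow _ (by omega)).trans hdvd)
    choose E' hE' using h1
    have hE0 : ∑ j, E' j * ((H j).natDegree : ℤ) = 0 := by
      have h2 : (p : ℤ) ^ m * ∑ j, E' j * ((H j).natDegree : ℤ) = 0 := by
        rw [Finset.mul_sum, ← hE]
        refine Finset.sum_congr rfl fun j _ => ?_
        rw [hE' j]; ring
      exact (mul_eq_zero.mp h2).resolve_left hpm
    set a : Oˣ := ∏ j, u j ^ E' j with ha
    have hapow : a ^ p ^ m = ∏ j, u j ^ E j := by
      rw [ha, ← Finset.prod_pow]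
      refine Finset.prod_congr rfl fun j _ => ?_
      rw [hE' j, ← zpow_natCast, ← zpow_mul]
      congr 1
      push_cast
      ring
    -- `a ≡ 1 mod p^N`
    have ha1 : (p : O) ^ N ∣ (a : O) - 1 := by
      set e : J → ℕ := fun j => (E' j).toNat with he
      set e' : J → ℕ := fun j => (-E' j).toNat with he'
      have hee : ∀ j, E' j = (e j : ℤ) - (e' j : ℤ) := fun j =>
        (Int.toNat_sub_toNat_neg (E' j)).symm
      have hprodU : a * ∏ j, u j ^ e' j = ∏ j, u j ^ e j := by
        rw [ha, ← Finset.prod_mul_distrib]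
        refine Finset.prod_congr rfl fun j _ => ?_
        rw [hee j, zpow_sub, zpow_natCast, zpow_natCast, mul_assoc, inv_mul_cancel, mul_one]
      have hmon : ∀ e : J → ℕ, (∏ j, H j ^ e j).Monic := fun e =>
        monic_prod_of_monic _ _ fun i _ => (hH i).pow _
      have hn : (∏ j, H j ^ e j).natDegree = (∏ j, H j ^ e' j).natDegree := by
        rw [natDegree_prod_pow H hH, natDegree_prod_pow H hH]
        have : (∑ j, (e j : ℤ) * ((H j).natDegree : ℤ)) =
            ∑ j, (e' j : ℤ) * ((H j).natDegree : ℤ) := by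
          rw [← sub_eq_zero, ← Finset.sum_sub_distrib, ← hE0]
          refine Finset.sum_congr rfl fun j _ => ?_
          rw [hee j]; ring
        exact_mod_cast this
      have h3 := dvd_aeval_scaleRoots_sub x Q _ (hmon e)
      have h4 := dvd_aeval_scaleRoots_sub x Q _ (hmon e')
      rw [hn] at h3
      have h5 := dvd_sub h3 h4
      rw [aeval_prod_pow x Q H u hu, aeval_prod_pow x Q H u hu, sub_sub_sub_cancel_right,
        ← hprodU, Units.val_mul] at h5
      have h6 : (p : O) ^ N ∣ (Q : O) := by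
        rw [hQ]; push_cast; exact dvd_mul_right _ _
      have h7 : (p : O) ^ N ∣ ((a : O) - 1) * ((∏ j, u j ^ e' j : Oˣ) : O) := by
        refine h6.trans (h5.trans (Dvd.intro 1 ?_))
        ring
      exact (Units.dvd_mul_right).mp h7
    have h8 : (p : O) ^ (1 + (c1 + N * (d - 1) + N * d)) ∣ (a : O) - 1 := by
      refine dvd_of_pow_prime_pow_dvd p hp N hN hN2 (a : O) ha1 _ m ?_
      rw [← Units.val_pow_eq_pow_val, hapow]
      have : 1 + (c1 + N * (d - 1) + N * d) + m = m + 1 + (c1 + N * (d - 1) + N * d) := by ring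
      rw [this]
      exact hdvd
    have h9 := indep_one x p N _ c1 hp hN Q Q' hQ hcop H hH hdeg d hd hd1 u hu hprod
      (hind _) (by omega) hR E' hE0 h8 j
    rw [hE' j, pow_succ]
    exact mul_dvd_mul_left _ h9

end Indep

end Pool.Agent.Work.MP_59f3ad_nt

end

section

/-!
Hilbert 90 for continuous cocycles of the absolute Galois group, and descent to completions.
-/

open NumberField IsDedekindDomain

namespace Pool.Agent.Work.MP_59f3ad_nt

universe u

section Hilbert

variable (L : Type u) [Field L] [CharZero L]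

/-- Hilbert 90 for locally constant cocycles of the absolute Galois group. -/
theorem hilbert90_cont (f : GK L → AlgebraicClosure L) (hf0 : ∀ g, f g ≠ 0)
    (hmul : ∀ g h, f (g * h) = f g * g (f h))
    (E : IntermediateField L (AlgebraicClosure L)) [FiniteDimensional L E]
    (hE : ∀ g ∈ E.fixingSubgroup, f g = 1) :
    ∃ β : AlgebraicClosure L, β ≠ 0 ∧ ∀ g : GK L, g β = f g * β := by
  have hGal : IsGalois L (AlgebraicClosure L) := ⟨⟩
  let N : IntermediateField L (AlgebraicClosure L) :=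
    IntermediateField.normalClosure L E (AlgebraicClosure L)
  have hNnormal : Normal L N := inferInstance
  have hNfin : FiniteDimensional L N := inferInstance
  have hEN : E ≤ N := IntermediateField.le_normalClosure E
  have hN : ∀ g ∈ N.fixingSubgroup, f g = 1 := fun g hg =>
    hE g (IntermediateField.fixingSubgroup_antitone hEN hg)
  have hker : (AlgEquiv.restrictNormalHom N : GK L →* (N ≃ₐ[L] N)).ker = N.fixingSubgroup :=
    N.restrictNormalHom_ker
  have hNn : N.fixingSubgroup.Normal := by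
    rw [← hker]
    exact MonoidHom.normal_ker _
  have hmem : ∀ g, f g ∈ N := by
    intro g
    rw [← InfiniteGalois.fixedField_fixingSubgroup N]
    rintro ⟨h, hh⟩
    change h (f g) = f g
    have h1 : f (h * g) = h (f g) := by rw [hmul, hN h hh, one_mul]
    have h2 : h * g = g * (g⁻¹ * h * g) := by group
    have h3 : g⁻¹ * h * g ∈ N.fixingSubgroup := by
      have := hNn.conj_mem h hh g⁻¹
      rwa [inv_inv] at this
    have h4 : f (h * g) = f g := by rw [h2, hmul, hN _ h3, map_one, mul_one]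
    rw [← h1, h4]
  have hsurj : Function.Surjective (AlgEquiv.restrictNormalHom N : GK L →* (N ≃ₐ[L] N)) :=
    AlgEquiv.restrictNormalHom_surjective _
  choose lift hlift using hsurj
  have hres : ∀ g g' : GK L, AlgEquiv.restrictNormalHom N g = AlgEquiv.restrictNormalHom N g' →
      f g = f g' := by
    intro g g' h
    have h1 : g⁻¹ * g' ∈ N.fixingSubgroup := by
      rw [← hker, MonoidHom.mem_ker, map_mul, map_inv, h, inv_mul_cancel]
    have h2 : g' = g * (g⁻¹ * g') := by group
    rw [h2, hmul, hN _ h1, map_one, mul_one]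
  let F : (N ≃ₐ[L] N) → Nˣ := fun s => Units.mk0 ⟨f (lift s), hmem _⟩ (by
    intro h0
    exact hf0 (lift s) (congrArg Subtype.val h0))
  have hF : ∀ s, (((F s : Nˣ) : N) : AlgebraicClosure L) = f (lift s) := fun s => rfl
  have hFc : groupCohomology.IsMulCocycle₁ F := by
    intro s t
    refine Units.ext (Subtype.ext ?_)
    have h1 : f (lift (s * t)) = f (lift s * lift t) := hres _ _ (by
      rw [hlift, map_mul, hlift, hlift])
    have h2 : (((s • F t : Nˣ) : N) : AlgebraicClosure L) = lift s (f (lift t)) := by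
      have h3 : ((s • F t : Nˣ) : N) = s ((F t : Nˣ) : N) := rfl
      rw [h3, ← hF t]
      conv_lhs => rw [← hlift s]
      exact AlgEquiv.restrictNormal_commutes (lift s) N ((F t : Nˣ) : N)
    rw [hF, h1, hmul, Units.val_mul, MulMemClass.coe_mul, h2, hF]
    ring
  obtain ⟨x, hx⟩ := groupCohomology.isMulCoboundary₁_of_isMulCocycle₁_of_aut_to_units F hFc
  have hx0 : (((x : Nˣ) : N) : AlgebraicClosure L) ≠ 0 := by
    intro h0
    exact x.ne_zero (Subtype.ext h0)
  refine ⟨((x : Nˣ) : N), hx0, fun g => ?_⟩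
  have h1 := hx (AlgEquiv.restrictNormalHom N g)
  rw [div_eq_iff_eq_mul] at h1
  have h2 := congrArg (fun z : Nˣ => ((z : N) : AlgebraicClosure L)) h1
  simp only [Units.val_mul, MulMemClass.coe_mul] at h2
  rw [hF, hres (lift (AlgEquiv.restrictNormalHom N g)) g (hlift _)] at h2
  rw [← h2]
  exact (AlgEquiv.restrictNormal_commutes g N ((x : Nˣ) : N)).symm

end Hilbert

section Restrict

variable (K : Type u) [Field K] (Kv : Type u) [Field Kv] [Algebra K Kv]
  (ι : AlgebraicClosure K →ₐ[K] AlgebraicClosure Kv)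

/-- Restriction of an automorphism of the algebraic closure of `Kv` along `ι`. -/
theorem exists_restrict' (g : GK Kv) : ∃ h : GK K, ∀ x, ι (h x) = g (ι x) := by
  let g' : AlgebraicClosure Kv ≃ₐ[K] AlgebraicClosure Kv := g.restrictScalars K
  letI : Algebra (AlgebraicClosure K) (AlgebraicClosure Kv) := ι.toRingHom.toAlgebra
  haveI : IsScalarTower K (AlgebraicClosure K) (AlgebraicClosure Kv) :=
    IsScalarTower.of_algebraMap_eq fun x => (ι.commutes x).symm
  refine ⟨g'.restrictNormal (AlgebraicClosure K), fun x => ?_⟩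
  exact AlgEquiv.restrictNormal_commutes g' (AlgebraicClosure K) x

/-- Galois descent: an element fixed by the decomposition group comes from the completion. -/
theorem exists_local_root [CharZero Kv] (γ : AlgebraicClosure K)
    (hγ : ∀ (g : GK Kv) (h : GK K), (∀ x, ι (h x) = g (ι x)) → h γ = γ) :
    ∃ η : Kv, algebraMap Kv (AlgebraicClosure Kv) η = ι γ := by
  have hGal : IsGalois Kv (AlgebraicClosure Kv) := ⟨⟩
  have h1 : ∀ g : GK Kv, g (ι γ) = ι γ := by
    intro g
    obtain ⟨h, hh⟩ := exists_restrict' K Kv ι g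
    rw [← hh γ, hγ g h hh]
  exact (InfiniteGalois.mem_range_algebraMap_iff_fixed (ι γ)).mpr h1

end Restrict

end Pool.Agent.Work.MP_59f3ad_nt

end

section

/-!
Local `p^n`-th powers of global units are `1` modulo `p^(n+1)` after a bounded power
(work file for MP_59f3ad_nt).
-/

namespace Pool.Agent.Work.MP_59f3ad_nt

open NumberField IsDedekindDomain

universe u

variable (L : Type u) [Field L] [NumberField L]

/-- global integers approximate local integers -/
theorem exists_int_approx (v : HeightOneSpectrum (𝓞 L)) (η : v.adicCompletion L)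
    (hη : Valued.v η ≤ 1) (c : 𝓞 L) (hc : c ≠ 0) :
    ∃ a : 𝓞 L, Valued.v (algebraMap L (v.adicCompletion L) (a : L) - η) <
      Valued.v (algebraMap L (v.adicCompletion L) (c : L)) := by
  have hv1 : ∀ k : L, Valued.v (algebraMap L (v.adicCompletion L) k) = v.valuation L k :=
    fun k => HeightOneSpectrum.valuedAdicCompletion_eq_valuation' v k
  have hcL : (c : L) ≠ 0 := by
    simpa using hc
  have hc0 : v.valuation L (c : L) ≠ 0 := by
    rw [Ne, map_eq_zero]
    exact hcL
  have hc1 : v.valuation L (c : L) ≤ 1 := HeightOneSpectrum.valuation_le_one v c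
  -- an element of L
  have hopen : IsOpen {y : v.adicCompletion L | Valued.v (y - η) <
      Valued.v (algebraMap L (v.adicCompletion L) (c : L))} := by
    have h1 := Valued.isOpen_ball (v.adicCompletion L)
      (Valued.v.restrict (algebraMap L (v.adicCompletion L) (c : L)))
    have h2 : {y : v.adicCompletion L | Valued.v (y - η) <
        Valued.v (algebraMap L (v.adicCompletion L) (c : L))} =
        (fun y => y - η) ⁻¹' {x | Valued.v.restrict x <
          Valued.v.restrict (algebraMap L (v.adicCompletion L) (c : L))} := by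
      ext y
      simp [Valuation.restrict_lt_iff]
    rw [h2]
    exact h1.preimage (continuous_id.sub continuous_const)
  have hne : Valued.v (η - η) < Valued.v (algebraMap L (v.adicCompletion L) (c : L)) := by
    rw [sub_self, map_zero, hv1]
    exact zero_lt_iff.mpr hc0
  obtain ⟨y, hy⟩ := (HeightOneSpectrum.denseRange_algebraMap (R := 𝓞 L) L v).exists_mem_open
    hopen ⟨η, hne⟩
  have hy' : Valued.v (algebraMap L (v.adicCompletion L) y - η) <
      Valued.v (algebraMap L (v.adicCompletion L) (c : L)) := hy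
  have hy1 : v.valuation L y ≤ 1 := by
    rw [← hv1]
    have h1 : algebraMap L (v.adicCompletion L) y =
        (algebraMap L (v.adicCompletion L) y - η) + η := by ring
    rw [h1]
    refine (Valued.v.map_add _ _).trans (max_le ?_ hη)
    refine hy'.le.trans ?_
    rw [hv1]
    exact hc1
  obtain ⟨a, ha⟩ := HeightOneSpectrum.exists_valuation_sub_lt_of_integer (K := L) v hy1
    (Units.mk0 _ hc0)
  refine ⟨a, ?_⟩
  have h2 : algebraMap L (v.adicCompletion L) (a : L) - η =
      algebraMap L (v.adicCompletion L) ((a : L) - y) +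
        (algebraMap L (v.adicCompletion L) y - η) := by
    rw [map_sub]
    ring
  rw [h2]
  refine (Valued.v.map_add _ _).trans_lt (max_lt ?_ hy')
  rw [hv1, hv1]
  exact ha

/-- a bounded power of a global integer prime to `v` is `1` modulo a power of `v` -/
theorem exists_exponent (v : HeightOneSpectrum (𝓞 L)) (n : ℕ) :
    ∃ T : ℕ, T ≠ 0 ∧ ∀ a : 𝓞 L, a ∉ v.asIdeal → a ^ T - 1 ∈ v.asIdeal ^ n := by
  have hne : v.asIdeal ^ n ≠ ⊥ := pow_ne_zero _ v.ne_bot
  have hfin : Finite (𝓞 L ⧸ v.asIdeal ^ n) := Ideal.finiteQuotientOfFreeOfNeBot _ hne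
  refine ⟨Nat.card (𝓞 L ⧸ v.asIdeal ^ n)ˣ, Nat.card_pos.ne', ?_⟩
  intro a ha
  have h1 : Ideal.span {a} ⊔ v.asIdeal = ⊤ := by
    have := v.isMaximal.eq_of_le (J := Ideal.span {a} ⊔ v.asIdeal)
    by_contra hcon
    have h2 := this hcon le_sup_right
    apply ha
    rw [h2]
    exact Ideal.mem_sup_left (Ideal.mem_span_singleton_self a)
  have h2 : Ideal.span {a} ⊔ v.asIdeal ^ n = ⊤ := Ideal.sup_pow_eq_top h1
  have h3 : (1 : 𝓞 L) ∈ Ideal.span {a} ⊔ v.asIdeal ^ n := by
    rw [h2]
    trivial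
  rw [Submodule.mem_sup] at h3
  obtain ⟨y, hy, z, hz, hyz⟩ := h3
  rw [Ideal.mem_span_singleton'] at hy
  obtain ⟨b, rfl⟩ := hy
  have h4 : (Ideal.Quotient.mk (v.asIdeal ^ n) a) * (Ideal.Quotient.mk (v.asIdeal ^ n) b) = 1 := by
    rw [← map_mul, ← map_one (Ideal.Quotient.mk (v.asIdeal ^ n)), Ideal.Quotient.eq]
    have : a * b - 1 = -z := by
      rw [← hyz]
      ring
    rw [this]
    exact neg_mem hz
  have h5 : IsUnit (Ideal.Quotient.mk (v.asIdeal ^ n) a) := IsUnit.of_mul_eq_one _ h4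
  obtain ⟨w, hw⟩ := h5
  have h6 : w ^ Nat.card (𝓞 L ⧸ v.asIdeal ^ n)ˣ = 1 := pow_card_eq_one'
  rw [← Ideal.Quotient.eq, map_pow, ← hw, ← Units.val_pow_eq_pow_val, h6]
  simp

/-- a bounded power of a local unit is `1` modulo a given nonzero global integer -/
theorem exists_exponent_local (v : HeightOneSpectrum (𝓞 L)) (c : 𝓞 L) (hc : c ≠ 0) :
    ∃ T : ℕ, T ≠ 0 ∧ ∀ η : v.adicCompletionIntegers L, Valued.v (η : v.adicCompletion L) = 1 →
      algebraMap (𝓞 L) (v.adicCompletionIntegers L) c ∣ η ^ T - 1 := by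
  have hv1 : ∀ k : L, Valued.v (algebraMap L (v.adicCompletion L) k) = v.valuation L k :=
    fun k => HeightOneSpectrum.valuedAdicCompletion_eq_valuation' v k
  have hI := HeightOneSpectrum.adicCompletionIntegers.integers (R := 𝓞 L) L v
  have hcoe : ∀ x : 𝓞 L, ((algebraMap (𝓞 L) (v.adicCompletionIntegers L) x :
      v.adicCompletionIntegers L) : v.adicCompletion L) =
      algebraMap L (v.adicCompletion L) (x : L) := fun x => rfl
  obtain ⟨T, hT, hT2⟩ := exists_exponent L v
    ((Associates.mk v.asIdeal).count (Associates.mk (Ideal.span {c})).factors)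
  refine ⟨T, hT, ?_⟩
  intro η hη
  obtain ⟨a, ha⟩ := exists_int_approx L v (η : v.adicCompletion L) hη.le c hc
  have hc1 : v.valuation L (c : L) ≤ 1 := HeightOneSpectrum.valuation_le_one v c
  have ha1 : Valued.v (algebraMap L (v.adicCompletion L) (a : L)) = 1 := by
    have h1 : algebraMap L (v.adicCompletion L) (a : L) =
        (algebraMap L (v.adicCompletion L) (a : L) - η) + η := by ring
    rw [h1, Valuation.map_add_eq_of_lt_right, hη]
    rw [hη]
    refine ha.trans_le ?_
    rw [hv1]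
    exact hc1
  have ha2 : a ∉ v.asIdeal := by
    rw [hv1] at ha1
    exact (HeightOneSpectrum.valuation_eq_one_iff_notMem (K := L) v).mp ha1
  have h3 := hT2 a ha2
  rw [← HeightOneSpectrum.intValuation_le_pow_iff_mem, ← HeightOneSpectrum.intValuation_if_neg v hc,
    ← HeightOneSpectrum.valuation_of_algebraMap (K := L),
    ← HeightOneSpectrum.valuation_of_algebraMap (K := L)] at h3
  have d1 : algebraMap (𝓞 L) (v.adicCompletionIntegers L) c ∣
      algebraMap (𝓞 L) (v.adicCompletionIntegers L) (a ^ T - 1) := by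
    apply hI.dvd_of_le
    show Valued.v (algebraMap L (v.adicCompletion L) ((a ^ T - 1 : 𝓞 L) : L)) ≤
      Valued.v (algebraMap L (v.adicCompletion L) (c : L))
    rw [hv1, hv1]
    exact h3
  have d2 : algebraMap (𝓞 L) (v.adicCompletionIntegers L) c ∣
      algebraMap (𝓞 L) (v.adicCompletionIntegers L) a - η := by
    apply hI.dvd_of_le
    exact ha.le
  have d3 : algebraMap (𝓞 L) (v.adicCompletionIntegers L) c ∣
      (algebraMap (𝓞 L) (v.adicCompletionIntegers L) a) ^ T - η ^ T :=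
    d2.trans (sub_dvd_pow_sub_pow _ _ _)
  have h4 : η ^ T - 1 = algebraMap (𝓞 L) (v.adicCompletionIntegers L) (a ^ T - 1) -
      ((algebraMap (𝓞 L) (v.adicCompletionIntegers L) a) ^ T - η ^ T) := by
    rw [map_sub, map_pow, map_one]
    ring
  rw [h4]
  exact dvd_sub d1 d3

theorem exists_local_exponent (p : ℕ) (hp : p.Prime) : ∃ T : ℕ, T ≠ 0 ∧
    ∀ (n : ℕ) (u : (𝓞 L)ˣ), (∀ v : HeightOneSpectrum (𝓞 L), (p : 𝓞 L) ∈ v.asIdeal →
      ∃ η : v.adicCompletion L, η ^ (p ^ n) = algebraMap L (v.adicCompletion L) ((u : 𝓞 L) : L)) →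
      (p : 𝓞 L) ^ (n + 1) ∣ (u : 𝓞 L) ^ T - 1 := by
  classical
  have hp0 : (p : 𝓞 L) ≠ 0 := by
    exact_mod_cast hp.ne_zero
  have hfin : {v : HeightOneSpectrum (𝓞 L) | v.asIdeal ∣ Ideal.span {(p : 𝓞 L)}}.Finite := by
    apply Ideal.finite_factors
    intro h
    exact hp0 (Ideal.span_singleton_eq_bot.mp h)
  choose T hT hT2 using fun v => exists_exponent_local L v (p : 𝓞 L) hp0
  refine ⟨∏ v ∈ hfin.toFinset, T v, Finset.prod_ne_zero_iff.mpr fun v _ => hT v, ?_⟩
  intro n u hu
  set S := ∏ v ∈ hfin.toFinset, T v with hS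
  have hpL : ((p : 𝓞 L) : L) ≠ 0 := by
    rw [Ne, RingOfIntegers.coe_eq_zero_iff]
    exact hp0
  have key : ∀ v : HeightOneSpectrum (𝓞 L),
      v.valuation L (((((u : 𝓞 L) ^ S - 1 : 𝓞 L)) : L) / ((p : 𝓞 L) : L) ^ (n + 1)) ≤ 1 := by
    intro v
    have hv1 : ∀ k : L, Valued.v (algebraMap L (v.adicCompletion L) k) = v.valuation L k :=
      fun k => HeightOneSpectrum.valuedAdicCompletion_eq_valuation' v k
    by_cases hv : (p : 𝓞 L) ∈ v.asIdeal
    · have hI := HeightOneSpectrum.adicCompletionIntegers.integers (R := 𝓞 L) L v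
      obtain ⟨η, hη⟩ := hu v hv
      have hu1 : v.valuation L (((u : 𝓞 L)) : L) = 1 := by
        apply (HeightOneSpectrum.valuation_eq_one_iff_notMem (K := L) v).mpr
        intro h1
        exact v.isPrime.ne_top (Ideal.eq_top_of_isUnit_mem _ h1 u.isUnit)
      have hη1 : Valued.v η = 1 := by
        have h1 : Valued.v η ^ (p ^ n) = 1 := by
          rw [← map_pow, hη, hv1, hu1]
        exact (pow_eq_one_iff_of_nonneg zero_le (pow_ne_zero _ hp.ne_zero)).mp h1
      let η' : v.adicCompletionIntegers L := ⟨η, by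
        rw [HeightOneSpectrum.mem_adicCompletionIntegers]
        exact hη1.le⟩
      have d1 := hT2 v η' hη1
      have hTS : T v ∣ S := by
        apply Finset.dvd_prod_of_mem
        rw [Set.Finite.mem_toFinset]
        show v.asIdeal ∣ Ideal.span {(p : 𝓞 L)}
        rw [Ideal.dvd_span_singleton]
        exact hv
      have d2 : ((p : ℕ) : v.adicCompletionIntegers L) ∣ η' ^ S - 1 := by
        have h1 : algebraMap (𝓞 L) (v.adicCompletionIntegers L) (p : 𝓞 L) =
            ((p : ℕ) : v.adicCompletionIntegers L) := map_natCast _ _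
        rw [← h1]
        obtain ⟨m, hm⟩ := hTS
        rw [hm, pow_mul]
        refine d1.trans ?_
        have := sub_dvd_pow_sub_pow (η' ^ T v) 1 m
        rwa [one_pow] at this
      have d3 := dvd_sub_pow_of_dvd_sub d2 n
      rw [one_pow] at d3
      have h2 : (η' ^ S) ^ p ^ n = algebraMap (𝓞 L) (v.adicCompletionIntegers L)
          ((u : 𝓞 L) ^ S) := by
        apply Subtype.ext
        rw [← pow_mul, mul_comm, pow_mul, map_pow]
        show (η ^ p ^ n) ^ S = (algebraMap L (v.adicCompletion L) ((u : 𝓞 L) : L)) ^ S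
        rw [hη]
      rw [h2, ← map_one (algebraMap (𝓞 L) (v.adicCompletionIntegers L)), ← map_sub] at d3
      have h3 := hI.le_of_dvd d3
      have h4 : Valued.v (algebraMap L (v.adicCompletion L) (((u : 𝓞 L) ^ S - 1 : 𝓞 L) : L)) ≤
          Valued.v (algebraMap L (v.adicCompletion L) (((p : 𝓞 L) : L) ^ (n + 1))) := by
        refine h3.trans (le_of_eq ?_)
        simp
      rw [hv1, hv1] at h4
      rw [map_div₀]
      exact div_le_one_of_le₀ h4 (by simp)
    · have h1 : v.valuation L ((p : 𝓞 L) : L) = 1 :=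
        (HeightOneSpectrum.valuation_eq_one_iff_notMem (K := L) v).mpr hv
      rw [map_div₀, map_pow, h1, one_pow, div_one]
      exact HeightOneSpectrum.valuation_le_one v _
  obtain ⟨w, hw⟩ := HeightOneSpectrum.mem_integers_of_valuation_le_one L _ key
  refine ⟨w, ?_⟩
  apply RingOfIntegers.coe_injective
  have h5 : ((w : 𝓞 L) : L) = (((u : 𝓞 L) ^ S - 1 : 𝓞 L) : L) / ((p : 𝓞 L) : L) ^ (n + 1) := hw
  have h6 : algebraMap (𝓞 L) L ((p : 𝓞 L) ^ (n + 1) * w) =
      ((p : 𝓞 L) : L) ^ (n + 1) * (w : L) := by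
    rw [map_mul, map_pow]
  rw [h6, h5]
  field_simp

end Pool.Agent.Work.MP_59f3ad_nt

end

section

/-!
Ramification: an element of `L` which is an `n`-th power in `L_S` has, at every finite place
outside `S`, a valuation which is an `n`-th power.
-/

open NumberField IsDedekindDomain

namespace Pool.Agent.Work.MP_59f3ad_nt

universe u

/-- Two algebra homomorphisms which agree modulo a prime `W` are equal if the source is unramified
at the preimage of `W`. -/
theorem algHom_eq_of_unramified {R A B : Type*} [CommRing R] [CommRing A] [CommRing B] [Algebra R A]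
    [Algebra R B] [IsDomain B] [IsNoetherianRing B] (W : Ideal B) [W.IsPrime] (f g : A →ₐ[R] B)
    (h : ∀ a, f a - g a ∈ W) (P : Ideal A) [P.IsPrime] (hP : P = W.comap f)
    (hun : Algebra.IsUnramifiedAt R P) : f = g := by
  have hP' : P = W.comap g := by
    rw [hP]
    ext a
    rw [Ideal.mem_comap, Ideal.mem_comap]
    constructor
    · intro ha
      have := sub_mem ha (h a)
      simpa using this
    · intro ha
      have := add_mem (h a) ha
      simpa using this
  let f' := Localization.localAlgHom P W f hP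
  let g' := Localization.localAlgHom P W g hP'
  have hf' : ∀ a, f' (algebraMap A _ a) = algebraMap B (Localization.AtPrime W) (f a) := by
    intro a
    simp [f']
  have hg' : ∀ a, g' (algebraMap A _ a) = algebraMap B (Localization.AtPrime W) (g a) := by
    intro a
    simp [g']
  have hfg : f' = g' := by
    apply Algebra.FormallyUnramified.ext_of_iInf (I := IsLocalRing.maximalIdeal (Localization.AtPrime W))
    · exact Ideal.iInf_pow_eq_bot_of_isLocalRing _ (Ideal.IsPrime.ne_top inferInstance)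
    · intro x
      have : ((Ideal.Quotient.mk (IsLocalRing.maximalIdeal (Localization.AtPrime W))).comp f'.toRingHom)
        = ((Ideal.Quotient.mk (IsLocalRing.maximalIdeal (Localization.AtPrime W))).comp g'.toRingHom) := by
        apply IsLocalization.ringHom_ext P.primeCompl
        ext a
        change Ideal.Quotient.mk _ (f' (algebraMap A _ a)) = Ideal.Quotient.mk _ (g' (algebraMap A _ a))
        rw [hf', hg', Ideal.Quotient.eq, ← map_sub]
        exact (IsLocalization.AtPrime.to_map_mem_maximal_iff (Localization.AtPrime W) W _).mpr (h a)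
      exact congrArg (fun φ => φ x) this
  ext a
  have h1 : f' (algebraMap A _ a) = g' (algebraMap A _ a) := by rw [hfg]
  rw [hf', hg'] at h1
  exact IsLocalization.injective (Localization.AtPrime W) W.primeCompl_le_nonZeroDivisors h1

variable (L : Type u) [Field L]

/-- If `β` in a Galois extension `N` of `L` is fixed by the inertia group of a prime `W` above `w`,
then the valuations of the elements `α` of `L` which are powers of `β` come from `L`. -/
theorem exists_valuation_eq [NumberField L] (N : Type u) [Field N] [NumberField N] [Algebra L N] [IsGalois L N]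
    (w : HeightOneSpectrum (𝓞 L)) (W : Ideal (𝓞 N)) [W.IsPrime] [hWw : W.LiesOver w.asIdeal]
    (β : N) (hβ : ∀ σ ∈ W.inertia Gal(N/L), σ β = β) :
    ∃ y : L, ∀ (n : ℕ) (α : L), algebraMap L N α = β ^ n →
      w.valuation L α = w.valuation L y ^ n := by
  let E : IntermediateField L N := FixedPoints.intermediateField (W.inertia Gal(N/L))
  let PE : Ideal (𝓞 E) := W.under (𝓞 E)
  have hPEw : PE.LiesOver w.asIdeal := by
    constructor
    rw [hWw.over]
    simp only [PE, Ideal.under_def, Ideal.comap_comap]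
    rw [← IsScalarTower.algebraMap_eq]
  have hPEbot : PE ≠ ⊥ := Ideal.ne_bot_of_liesOver_of_ne_bot w.ne_bot PE
  have hWbot : W ≠ ⊥ := Ideal.ne_bot_of_liesOver_of_ne_bot w.ne_bot W
  have _ : W.IsMaximal := Ideal.IsPrime.isMaximal inferInstance hWbot
  have _ : PE.IsPrime := inferInstance
  have _ : PE.IsMaximal := Ideal.IsPrime.isMaximal inferInstance hPEbot
  have _ : w.asIdeal.IsMaximal := w.isMaximal
  have gal1 : IsGaloisGroup Gal(N/L) (𝓞 L) (𝓞 N) := .of_isFractionRing _ _ _ L N
  have gal2 : IsGaloisGroup (W.inertia Gal(N/L)) (𝓞 E) (𝓞 N) := .of_isFractionRing _ _ _ E N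
  have fin1 : Finite ((𝓞 L) ⧸ w.asIdeal) := Ring.HasFiniteQuotients.finiteQuotient w.ne_bot
  have fin2 : Finite ((𝓞 E) ⧸ PE) := Ring.HasFiniteQuotients.finiteQuotient hPEbot
  have c1 := Ideal.card_inertia_eq_ramificationIdxIn (G := Gal(N/L)) w.asIdeal W
  have c2 := Ideal.card_inertia_eq_ramificationIdxIn (G := W.inertia Gal(N/L)) PE W
  have c3 : W.inertia (W.inertia Gal(N/L)) = ⊤ := by
    rw [eq_top_iff]
    intro σ _
    exact Ideal.coe_mem_inertia.mp σ.2
  have c4 : Nat.card (W.inertia (W.inertia Gal(N/L))) = Nat.card (W.inertia Gal(N/L)) := by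
    rw [c3]
    exact Nat.card_congr Subgroup.topEquiv.toEquiv
  rw [Ideal.ramificationIdxIn_eq_ramificationIdx w.asIdeal W Gal(N/L)] at c1
  rw [Ideal.ramificationIdxIn_eq_ramificationIdx PE W (W.inertia Gal(N/L))] at c2
  have tow := Ideal.ramificationIdx_tower (R := 𝓞 L) PE W
  have hpos : 0 < W.ramificationIdx (𝓞 L) := Ideal.ramificationIdx_pos W (𝓞 L)
  have e1 : PE.ramificationIdx (𝓞 L) = 1 := by
    rw [c4, c1] at c2
    rw [← c2] at tow
    exact Nat.eq_of_mul_eq_mul_right hpos (by rw [one_mul]; exact tow.symm)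
  let PEs : HeightOneSpectrum (𝓞 E) := ⟨PE, inferInstance, hPEbot⟩
  have _ : PEs.asIdeal.LiesOver w.asIdeal := hPEw
  have hβE : β ∈ E := by
    intro σ
    exact hβ σ.1 σ.2
  obtain ⟨y, hy⟩ := w.valuation_surjective L (PEs.valuation E ⟨β, hβE⟩)
  refine ⟨y, fun n α hα => ?_⟩
  have h1 : (algebraMap L E α) = (⟨β, hβE⟩ : E) ^ n := by
    apply Subtype.ext
    exact hα
  have h2 := HeightOneSpectrum.valuation_liesOver E w PEs α
  have h3 : w.asIdeal.ramificationIdx' PEs.asIdeal = 1 := by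
    rw [Ideal.ramificationIdx'_eq_ramificationIdx w.asIdeal PEs.asIdeal w.ne_bot]
    exact e1
  rw [h3, pow_one, h1, map_pow] at h2
  rw [h2, hy]

/-- An element of the inertia group of `W` fixes every subfield in which the prime below `W` is
unramified. -/
theorem inertia_fixes (F N : Type u) [Field F] [Field N] [NumberField F] [NumberField N]
    [Algebra L F] [Algebra L N] (i : F →ₐ[L] N)
    (w : HeightOneSpectrum (𝓞 L)) (W : Ideal (𝓞 N)) [W.IsPrime] [hWw : W.LiesOver w.asIdeal]
    (hF : Algebra.IsUnramifiedIn (𝓞 F) w.asIdeal)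
    (σ : Gal(N/L)) (hσ : σ ∈ W.inertia Gal(N/L)) (x : F) : σ (i x) = i x := by
  let f : 𝓞 F →ₐ[𝓞 L] 𝓞 N := RingOfIntegers.mapAlgHom i
  let g : 𝓞 F →ₐ[𝓞 L] 𝓞 N := RingOfIntegers.mapAlgHom ((σ : N →ₐ[L] N).comp i)
  let P : Ideal (𝓞 F) := W.comap f
  have hPprime : P.IsPrime := inferInstance
  have hPw : P.LiesOver w.asIdeal := by
    constructor
    rw [hWw.over]
    ext a
    simp only [P, Ideal.under_def, Ideal.mem_comap]
    rw [AlgHom.commutes]
  have hfg : f = g := by
    apply algHom_eq_of_unramified W f g ?_ P rfl (hF P hPprime hPw)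
    intro a
    have h1 := hσ (f a)
    have h2 : g a = σ • (f a) := by
      apply RingOfIntegers.ext
      rfl
    rw [h2]
    have h3 := neg_mem h1
    simpa using h3
  obtain ⟨a, b, hb, rfl⟩ := IsFractionRing.div_surjective (A := 𝓞 F) x
  have h4 : ∀ a : 𝓞 F, σ (i (algebraMap (𝓞 F) F a)) = i (algebraMap (𝓞 F) F a) := by
    intro a
    have h5 : f a = g a := by rw [hfg]
    have h6 := congrArg (algebraMap (𝓞 N) N) h5
    exact h6.symm
  rw [map_div₀, map_div₀, h4, h4]

/-- If `α ∈ L` is an `n`-th power in `L_S`, then at every finite place `w ∉ S` the valuation of `α`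
is an `n`-th power. -/
theorem valuation_pow_of_mem_maxUnram [NumberField L] (S : Set (HeightOneSpectrum (𝓞 L)))
    (w : HeightOneSpectrum (𝓞 L)) (hw : w ∉ S) (n : ℕ) (β : AlgebraicClosure L)
    (hβ : β ∈ maxUnram L S) (α : L) (hα0 : α ≠ 0)
    (hα : algebraMap L (AlgebraicClosure L) α = β ^ n) :
    ∃ y : L, w.valuation L α = w.valuation L y ^ n := by
  obtain ⟨s, hs⟩ := IntermediateField.exists_finset_of_mem_iSup hβ
  have _ : ∀ i : {F : IntermediateField L (AlgebraicClosure L) //
    FiniteDimensional L F ∧ UnramOutside L S F}, FiniteDimensional L i.1 := fun i => i.2.1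
  let M : IntermediateField L (AlgebraicClosure L) := ⨆ i ∈ s, i.1
  have _ : FiniteDimensional L M := IntermediateField.finiteDimensional_iSup_of_finset
  let N : IntermediateField L (AlgebraicClosure L) := IntermediateField.normalClosure L M (AlgebraicClosure L)
  have hMN : M ≤ N := IntermediateField.le_normalClosure M
  have _ : FiniteDimensional L N := inferInstance
  have _ : Normal L N := inferInstance
  have _ : IsGalois L N := { }
  have _ : NumberField N := NumberField.of_module_finite L N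
  obtain ⟨W, hWprime, hWw⟩ : Nonempty (w.asIdeal.primesOver (𝓞 N)) := inferInstance
  have hβN : β ∈ N := hMN hs
  obtain ⟨y, hy⟩ := exists_valuation_eq L N w W ⟨β, hβN⟩ (by
    intro σ hσ
    let Kσ : IntermediateField L (AlgebraicClosure L) :=
      (IntermediateField.fixedField (Subgroup.zpowers σ)).map N.val
    have hle : M ≤ Kσ := by
      apply iSup₂_le
      intro i hi x hx
      have hiN : i.1 ≤ N := le_trans (le_iSup₂_of_le i hi le_rfl) hMN
      have _ : NumberField i.1 := NumberField.of_module_finite L i.1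
      have h1 := inertia_fixes L i.1 N (IntermediateField.inclusion hiN) w W (i.2.2 w hw) σ hσ ⟨x, hx⟩
      refine ⟨⟨x, hiN hx⟩, ?_, rfl⟩
      intro τ
      have h2 : Subgroup.zpowers σ ≤ MulAction.stabilizer Gal(N/L) (⟨x, hiN hx⟩ : N) := by
        rw [Subgroup.zpowers_le]
        exact h1
      exact h2 τ.2
    obtain ⟨z, hz, hz2⟩ := hle hs
    have hzβ : z = ⟨β, hβN⟩ := Subtype.ext hz2
    rw [← hzβ]
    exact hz ⟨σ, Subgroup.mem_zpowers σ⟩)
  refine ⟨y, hy n α ?_⟩
  apply Subtype.ext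
  exact hα

end Pool.Agent.Work.MP_59f3ad_nt

end

section

/-!
`p`-adic powers of `p^n`-th roots of unity.
-/

open NumberField IsDedekindDomain

namespace Pool.Agent.Work.MP_59f3ad_nt

universe u

section zpw

variable {F : Type*} [Field F] (p : ℕ) [Fact p.Prime] (n : ℕ)

/-- `ζ^a` for `a ∈ ℤ_p`, when `ζ^(p^n) = 1`. -/
noncomputable def zpw (ζ : F) (a : ℤ_[p]) : F := ζ ^ (PadicInt.toZModPow n a).val

variable {p n} {ζ : F} (hζ : ζ ^ p ^ n = 1)

include hζ

theorem pow_val_mod (m : ℕ) : ζ ^ (m % p ^ n) = ζ ^ m := by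
  conv_rhs => rw [← Nat.mod_add_div m (p ^ n), pow_add, pow_mul, hζ, one_pow, mul_one]

theorem zpw_add (a b : ℤ_[p]) : zpw p n ζ (a + b) = zpw p n ζ a * zpw p n ζ b := by
  have : NeZero (p ^ n) := ⟨pow_ne_zero _ (Fact.out : p.Prime).ne_zero⟩
  rw [zpw, zpw, zpw, map_add, ZMod.val_add, pow_val_mod hζ, pow_add]

theorem zpw_zero : zpw p n ζ 0 = 1 := by
  rw [zpw, map_zero, ZMod.val_zero, pow_zero]

theorem zpw_ne_zero (a : ℤ_[p]) : zpw p n ζ a ≠ 0 := by
  refine pow_ne_zero _ ?_
  rintro rfl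
  rw [zero_pow (pow_ne_zero _ (Fact.out : p.Prime).ne_zero)] at hζ
  exact zero_ne_one hζ

theorem zpw_neg (a : ℤ_[p]) : zpw p n ζ (-a) = (zpw p n ζ a)⁻¹ := by
  have h := zpw_add hζ a (-a)
  rw [add_neg_cancel, zpw_zero hζ] at h
  exact eq_inv_of_mul_eq_one_right h.symm

theorem zpw_natCast_mul (k : ℕ) (a : ℤ_[p]) : zpw p n ζ (k * a) = zpw p n ζ a ^ k := by
  induction k with
  | zero => rw [Nat.cast_zero, zero_mul, zpw_zero hζ, pow_zero]
  | succ k ih => rw [Nat.cast_succ, add_mul, one_mul, zpw_add hζ, ih, pow_succ]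

theorem zpw_one : zpw p n ζ 1 = ζ := by
  rcases n with _ | n
  · rw [pow_zero, pow_one] at hζ
    rw [hζ, zpw, one_pow]
  · have : Fact (1 < p ^ (n + 1)) := ⟨Nat.one_lt_pow (by omega) (Fact.out : p.Prime).one_lt⟩
    rw [zpw, map_one, ZMod.val_one, pow_one]

theorem zpw_natCast (k : ℕ) : zpw p n ζ (k : ℤ_[p]) = ζ ^ k := by
  have := zpw_natCast_mul hζ k 1
  rwa [mul_one, zpw_one hζ] at this

theorem zpw_pow (a : ℤ_[p]) : zpw p n ζ a ^ p ^ n = 1 := by
  rw [zpw, ← pow_mul, mul_comm, pow_mul, hζ, one_pow]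

omit hζ in
theorem zpw_eq_one_iff (hζ' : IsPrimitiveRoot ζ (p ^ n)) (a : ℤ_[p]) :
    zpw p n ζ a = 1 ↔ (p : ℤ_[p]) ^ n ∣ a := by
  have : NeZero (p ^ n) := ⟨pow_ne_zero _ (Fact.out : p.Prime).ne_zero⟩
  have hker : (p : ℤ_[p]) ^ n ∣ a ↔ PadicInt.toZModPow n a = 0 := by
    rw [← Ideal.mem_span_singleton, ← PadicInt.ker_toZModPow, RingHom.mem_ker]
  rw [zpw, hζ'.pow_eq_one_iff_dvd, hker]
  constructor
  · intro h
    have h1 := Nat.eq_zero_of_dvd_of_lt h (ZMod.val_lt _)
    exact (ZMod.val_eq_zero _).mp h1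
  · intro h
    rw [h, ZMod.val_zero]
    exact dvd_zero _

end zpw

section galois

variable (L : Type u) [Field L] [CharZero L] (p : ℕ) [Fact p.Prime]

theorem hasRoots (i : ℕ) : HasEnoughRootsOfUnity (AlgebraicClosure L) (p ^ i) := by
  have h1 : NeZero (p ^ i) := ⟨pow_ne_zero _ (Fact.out : p.Prime).ne_zero⟩
  have h2 : CharZero (AlgebraicClosure L) :=
    charZero_of_injective_algebraMap (algebraMap L (AlgebraicClosure L)).injective
  have h3 : NeZero ((p ^ i : ℕ) : AlgebraicClosure L) := ⟨by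
    exact_mod_cast pow_ne_zero i (Fact.out : p.Prime).ne_zero⟩
  infer_instance

theorem zpw_galois (n : ℕ) (ζ : AlgebraicClosure L) (hζ : ζ ^ p ^ n = 1) (g : GK L) (a : ℤ_[p]) :
    g (zpw p n ζ a) = zpw p n ζ ((cyc L p g : ℤ_[p]) * a) := by
  have : ∀ i, HasEnoughRootsOfUnity (AlgebraicClosure L) (p ^ i) := hasRoots L p
  have : NeZero (p ^ n) := ⟨pow_ne_zero _ (Fact.out : p.Prime).ne_zero⟩
  have h1 : g ζ = ζ ^ ((cyc L p g : ℤ_[p]).toZModPow n).val :=
    cyclotomicCharacter.spec p (MulSemiringAction.toRingAut (GK L) (AlgebraicClosure L) g) ζ hζ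
  rw [zpw, zpw, map_pow, h1, map_mul, ZMod.val_mul, pow_val_mod hζ, pow_mul]

omit [CharZero L] in
theorem cyc_continuous : Continuous fun g : GK L => ((cyc L p g : ℤ_[p]ˣ) : ℤ_[p]) :=
  Units.continuous_val.comp (cyclotomicCharacter.continuous p L (AlgebraicClosure L))

end galois

end Pool.Agent.Work.MP_59f3ad_nt

end

section

/-!
Kummer theory for the elements of the Tate-Shafarevich group of `ℤ_p(1)`.
-/

open NumberField IsDedekindDomain

namespace Pool.Agent.Work.MP_59f3ad_nt

universe u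

variable (L : Type u) [Field L] [NumberField L] (p : ℕ) [Fact p.Prime]

theorem twist_one_eq (g : GK L) : twist L p 1 g = (cyc L p g : ℤ_[p]) := by
  rw [twist, zpow_one]

/-- A continuous cocycle is divisible by `p^n` on an open subgroup. -/
theorem exists_field_dvd (φ : GK L → ℤ_[p]) (hφ : φ ∈ Z1 L p 1) (n : ℕ) :
    ∃ E : IntermediateField L (AlgebraicClosure L), FiniteDimensional L E ∧
      ∀ g ∈ E.fixingSubgroup, (p : ℤ_[p]) ^ n ∣ φ g := by
  obtain ⟨hcont, hcoc⟩ := hφ
  have h1 : φ 1 = 0 := by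
    have := hcoc 1 1
    rw [mul_one, twist_one_eq, map_one, Units.val_one, one_mul] at this
    exact (left_eq_add.mp this)
  have h2 : {a : ℤ_[p] | (p : ℤ_[p]) ^ n ∣ a} ∈ nhds (0 : ℤ_[p]) := by
    refine Metric.mem_nhds_iff.mpr ⟨(p : ℝ) ^ (-n : ℤ), ?_, ?_⟩
    · have : (0 : ℝ) < p := by exact_mod_cast (Fact.out : p.Prime).pos
      positivity
    · intro a ha
      rw [Metric.mem_ball, dist_zero_right] at ha
      exact (PadicInt.norm_le_pow_iff_mem_span_pow a n).mp ha.le |> Ideal.mem_span_singleton.mp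
  have h3 : φ ⁻¹' {a : ℤ_[p] | (p : ℤ_[p]) ^ n ∣ a} ∈ nhds (1 : GK L) := by
    apply hcont.continuousAt.preimage_mem_nhds
    rw [h1]
    exact h2
  rw [krullTopology_mem_nhds_one_iff] at h3
  obtain ⟨E, hE, hsub⟩ := h3
  exact ⟨E, hE, fun g hg => hsub hg⟩

theorem kummer_data (S : Set (HeightOneSpectrum (𝓞 L))) (φ : GK L → ℤ_[p])
    (hφ : φ ∈ ShaZ L p 1 S) (n : ℕ) (ζ : AlgebraicClosure L) (hζ : IsPrimitiveRoot ζ (p ^ n)) :
    ∃ (β : AlgebraicClosure L) (α : L), β ≠ 0 ∧ (∀ g : GK L, g β = zpw p n ζ (φ g) * β) ∧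
      algebraMap L (AlgebraicClosure L) α = β ^ p ^ n ∧ β ∈ maxUnram L S ∧
      ∀ v ∈ S, ∃ η : v.adicCompletion L, η ^ p ^ n = algebraMap L (v.adicCompletion L) α := by
  obtain ⟨⟨hZ, hvan⟩, hloc, -⟩ := hφ
  have hζ1 : ζ ^ p ^ n = 1 := hζ.pow_eq_one
  obtain ⟨E, hE, hEφ⟩ := exists_field_dvd L p φ hZ n
  have hcoc : ∀ g h, φ (g * h) = φ g + (cyc L p g : ℤ_[p]) * φ h := by
    intro g h
    rw [← twist_one_eq]
    exact hZ.2 g h
  obtain ⟨β, hβ0, hβ⟩ := hilbert90_cont L (fun g => zpw p n ζ (φ g))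
    (fun g => zpw_ne_zero hζ1 _) (fun g h => by
      rw [hcoc, zpw_add hζ1, zpw_galois L p n ζ hζ1]) E
    (fun g hg => (zpw_eq_one_iff hζ _).mpr (hEφ g hg))
  have hGal : IsGalois L (AlgebraicClosure L) := ⟨⟩
  obtain ⟨α, hα⟩ : ∃ α : L, algebraMap L (AlgebraicClosure L) α = β ^ p ^ n := by
    refine (InfiniteGalois.mem_range_algebraMap_iff_fixed (β ^ p ^ n)).mpr fun g => ?_
    rw [map_pow, hβ g, mul_pow, zpw_pow hζ1, one_mul]
  refine ⟨β, α, hβ0, hβ, hα, ?_, ?_⟩
  · rw [← InfiniteGalois.fixedField_fixingSubgroup (maxUnram L S)]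
    rintro ⟨g, hg⟩
    change g β = β
    rw [hβ g, hvan g hg, zpw_zero hζ1, one_mul]
  · intro v hv
    have hchar : CharZero (v.adicCompletion L) :=
      charZero_of_injective_algebraMap (algebraMap L (v.adicCompletion L)).injective
    let ι : AlgebraicClosure L →ₐ[L] AlgebraicClosure (v.adicCompletion L) := IsAlgClosed.lift
    obtain ⟨c, hc⟩ := hloc v hv ι
    obtain ⟨η, hη⟩ := exists_local_root L (v.adicCompletion L) ι (β * zpw p n ζ (-c)) (by
      intro g h hgh
      rw [map_mul, hβ h, zpw_galois L p n ζ hζ1, hc g h hgh, twist_one_eq]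
      have h1 : zpw p n ζ (((cyc L p h : ℤ_[p]) - 1) * c) * zpw p n ζ ((cyc L p h : ℤ_[p]) * -c) =
          zpw p n ζ (-c) := by
        rw [← zpw_add hζ1]
        congr 1
        ring
      calc zpw p n ζ (((cyc L p h : ℤ_[p]) - 1) * c) * β *
            zpw p n ζ ((cyc L p h : ℤ_[p]) * -c) =
          β * (zpw p n ζ (((cyc L p h : ℤ_[p]) - 1) * c) *
            zpw p n ζ ((cyc L p h : ℤ_[p]) * -c)) := by ring
        _ = β * zpw p n ζ (-c) := by rw [h1])
    refine ⟨η, ?_⟩
    apply (algebraMap (v.adicCompletion L) (AlgebraicClosure (v.adicCompletion L))).injective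
    rw [map_pow, hη, ← map_pow, mul_pow, zpw_pow hζ1, mul_one, ← hα, ι.commutes]
    exact IsScalarTower.algebraMap_apply L (v.adicCompletion L) _ α

end Pool.Agent.Work.MP_59f3ad_nt

end
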