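import Mathlib
import Pool.Agent.Work.MP_59f3ad_nt.EvT

/-! Bundle of small proof modules (one section per former module). -/

section

/-!
# Density: a union over primes `p ≤ √X` of sets of size `≤ C p` is small
-/

namespace MP59f3adDensity

open Real Nat

/-- explicit Chebyshev upper bound for natural numbers -/
theorem pi_le_nat (y : ℕ) (hy : 2 ≤ y) :
    ((Nat.primeCounting y : ℕ) : ℝ) ≤ 5 * y / Real.log y := by
  have hy1 : (1 : ℝ) < (y : ℝ) := by exact_mod_cast hy
  have hpos : (0 : ℝ) < (y : ℝ) := by linarith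
  have h := Chebyshev.pi_le_log4_mul_div hy1
  rw [Nat.floor_natCast] at h
  have hlog : 0 < Real.log y := Real.log_pos hy1
  have hsq : Real.log (√(y : ℝ)) = Real.log y / 2 := Real.log_sqrt hpos.le
  have hspos : 0 < √(y : ℝ) := Real.sqrt_pos.mpr hpos
  have h1 : Real.log (√(y : ℝ)) ≤ √(y : ℝ) - 1 := Real.log_le_sub_one_of_pos hspos
  have hss : √(y : ℝ) * √(y : ℝ) = y := Real.mul_self_sqrt hpos.le
  have h2 : √(y : ℝ) * Real.log y ≤ 2 * y := by
    rw [hsq] at h1
    nlinarith
  have h4 : Real.log 4 ≤ 3 / 2 := by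
    have : (4 : ℝ) = 2 ^ 2 := by norm_num
    rw [this, Real.log_pow]
    have := Real.log_two_lt_d9
    push_cast
    linarith
  have h5 : Real.log 4 * y / Real.log (√(y : ℝ)) ≤ 3 * y / Real.log y := by
    rw [hsq, div_div_eq_mul_div]
    apply div_le_div_of_nonneg_right _ hlog.le
    nlinarith
  have h6 : √(y : ℝ) ≤ 2 * y / Real.log y := by
    rw [le_div_iff₀ hlog]
    exact h2
  calc ((Nat.primeCounting y : ℕ) : ℝ) ≤ _ := h
    _ ≤ 3 * y / Real.log y + 2 * y / Real.log y := by linarith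
    _ = 5 * y / Real.log y := by ring

theorem density_bound (Bad : ℕ → Set ℤ) (C : ℕ)
    (hBad : ∀ p, p.Prime → (Bad p).Finite ∧ (Bad p).ncard ≤ C * p) :
    ∃ C' : ℝ, ∀ X : ℕ, 2 ≤ X →
      {t : ℤ | |t| ≤ X ∧ ∃ p : ℕ, p.Prime ∧ p ^ 2 ≤ X ∧ t ∈ Bad p}.Finite ∧
      ({t : ℤ | |t| ≤ X ∧ ∃ p : ℕ, p.Prime ∧ p ^ 2 ≤ X ∧ t ∈ Bad p}.ncard : ℝ) ≤
        C' * X / Real.log X := by
  refine ⟨20 * C, fun X hX => ?_⟩
  set S : Set ℤ := {t : ℤ | |t| ≤ X ∧ ∃ p : ℕ, p.Prime ∧ p ^ 2 ≤ X ∧ t ∈ Bad p} with hS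
  have hfin : S.Finite := by
    apply (Set.finite_Icc (-(X : ℤ)) X).subset
    intro t ht
    exact abs_le.mp ht.1
  refine ⟨hfin, ?_⟩
  have hX1 : (1 : ℝ) < (X : ℝ) := by exact_mod_cast hX
  have hlogX : 0 < Real.log X := Real.log_pos hX1
  set y := Nat.sqrt X with hy
  have hyX : y * y ≤ X := Nat.sqrt_le X
  by_cases hy2 : 2 ≤ y
  · -- main case
    set P := (Finset.range (y + 1)).filter Nat.Prime with hP
    have hPp : ∀ p ∈ P, p.Prime := fun p hp => (Finset.mem_filter.mp hp).2
    have hPy : ∀ p ∈ P, p ≤ y := fun p hp => by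
      have := (Finset.mem_range.mp (Finset.mem_filter.mp hp).1); omega
    have hsub : S ⊆ ⋃ p ∈ P, Bad p := by
      rintro t ⟨-, p, hp, hpX, ht⟩
      simp only [Set.mem_iUnion]
      refine ⟨p, ?_, ht⟩
      rw [hP, Finset.mem_filter, Finset.mem_range]
      refine ⟨?_, hp⟩
      have : p ≤ y := by
        rw [hy]; exact Nat.le_sqrt'.mpr hpX
      omega
    have hfinU : (⋃ p ∈ P, Bad p).Finite :=
      P.finite_toSet.biUnion (fun p hp => (hBad p (hPp p hp)).1)
    have hcard : S.ncard ≤ C * y * P.card := by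
      calc S.ncard ≤ (⋃ p ∈ P, Bad p).ncard := Set.ncard_le_ncard hsub hfinU
        _ ≤ ∑ p ∈ P, (Bad p).ncard := by
            classical
            have : ∀ Q : Finset ℕ, Q ⊆ P →
                (⋃ p ∈ Q, Bad p).ncard ≤ ∑ p ∈ Q, (Bad p).ncard := by
              intro Q
              induction Q using Finset.induction_on with
              | empty => intro _; simp
              | insert a s has ih =>
                intro hs
                rw [Finset.sum_insert has, Finset.set_biUnion_insert]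
                refine (Set.ncard_union_le _ _).trans ?_
                have := ih (fun x hx => hs (Finset.mem_insert_of_mem hx))
                omega
            exact this P (Finset.Subset.refl _)
        _ ≤ ∑ _p ∈ P, C * y := by
            apply Finset.sum_le_sum
            intro p hp
            exact (hBad p (hPp p hp)).2.trans (Nat.mul_le_mul_left _ (hPy p hp))
        _ = C * y * P.card := by rw [Finset.sum_const, smul_eq_mul, mul_comm]
    have hPcard : P.card = Nat.primeCounting y := by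
      rw [hP, Nat.primeCounting, Nat.primeCounting', Nat.count_eq_card_filter_range]
    have hpi := pi_le_nat y hy2
    rw [← hPcard] at hpi
    have hy1 : (1 : ℝ) < (y : ℝ) := by exact_mod_cast hy2
    have hlogy : 0 < Real.log y := Real.log_pos hy1
    have hlogle : Real.log X ≤ 4 * Real.log y := by
      have h1 : X < (y + 1) * (y + 1) := Nat.lt_succ_sqrt X
      have h2 : X ≤ y ^ 4 := by
        have : y + 1 ≤ y * y := by nlinarith
        have h3 : (y + 1) * (y + 1) ≤ (y * y) * (y * y) := Nat.mul_le_mul this this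
        calc X ≤ (y + 1) * (y + 1) := h1.le
          _ ≤ (y * y) * (y * y) := h3
          _ = y ^ 4 := by ring
      have h3 : (X : ℝ) ≤ (y : ℝ) ^ 4 := by exact_mod_cast h2
      calc Real.log X ≤ Real.log ((y : ℝ) ^ 4) := Real.log_le_log (by linarith) h3
        _ = 4 * Real.log y := by rw [Real.log_pow]; norm_num
    have hyXr : (y : ℝ) * y ≤ X := by exact_mod_cast hyX
    have hC : (0 : ℝ) ≤ C := Nat.cast_nonneg C
    have hmain : (S.ncard : ℝ) ≤ C * y * P.card := by exact_mod_cast hcard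
    rw [le_div_iff₀ hlogX]
    have hcardnn : (0 : ℝ) ≤ P.card := Nat.cast_nonneg _
    have hpi' : (P.card : ℝ) * Real.log y ≤ 5 * y := by
      rwa [le_div_iff₀ hlogy] at hpi
    calc (S.ncard : ℝ) * Real.log X ≤ (C * y * P.card) * Real.log X :=
          mul_le_mul_of_nonneg_right hmain hlogX.le
      _ ≤ (C * y * P.card) * (4 * Real.log y) := by
          apply mul_le_mul_of_nonneg_left hlogle
          positivity
      _ = 4 * (C * y) * (P.card * Real.log y) := by ring
      _ ≤ 4 * (C * y) * (5 * y) := by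
          apply mul_le_mul_of_nonneg_left hpi'
          positivity
      _ = 20 * C * (y * y) := by ring
      _ ≤ 20 * C * X := by
          apply mul_le_mul_of_nonneg_left hyXr
          positivity
  · -- the set is empty
    have : S = ∅ := by
      ext t
      simp only [Set.mem_empty_iff_false, iff_false]
      rintro ⟨-, p, hp, hpX, -⟩
      have h1 : p ≤ y := by rw [hy]; exact Nat.le_sqrt'.mpr hpX
      have := hp.two_le
      omega
    rw [this, Set.ncard_empty]
    have : (0 : ℝ) ≤ 20 * C * X / Real.log X := by positivity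
    simpa using this

end MP59f3adDensity

end

section

set_option autoImplicit false

/-!
# Restriction of an integral polynomial to a line, top form, good directions
-/

namespace Pool.Agent.Work.MP_59f3ad_nt

open Polynomial

/-- Restriction of integral polynomials to the line `y + T v`. -/
noncomputable def lineHom {σ : Type*} (v : σ → ℤ) (y : σ → ℂ) : MvPolynomial σ ℤ →+* ℂ[X] :=
  MvPolynomial.eval₂Hom (Int.castRingHom ℂ[X]) (fun i => C (y i) + C (v i : ℂ) * X)

namespace DirLine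

theorem lin_natDegree (a b : ℂ) : (C a + C b * X : ℂ[X]).natDegree ≤ 1 := by
  refine (natDegree_add_le _ _).trans ?_
  rw [natDegree_C]
  exact max_le (Nat.zero_le _) (natDegree_C_mul_le b X |>.trans natDegree_X_le)

theorem lin_coeff (a b : ℂ) : (C a + C b * X : ℂ[X]).coeff 1 = b := by
  rw [coeff_add, coeff_C_of_ne_zero one_ne_zero, coeff_C_mul, coeff_X_one, zero_add, mul_one]

theorem lin_pow (a b : ℂ) (k : ℕ) : ((C a + C b * X : ℂ[X]) ^ k).natDegree ≤ k ∧
    ((C a + C b * X : ℂ[X]) ^ k).coeff k = b ^ k := by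
  induction k with
  | zero => simp
  | succ k ih =>
    constructor
    · rw [pow_succ]
      exact natDegree_mul_le.trans (add_le_add ih.1 (lin_natDegree a b))
    · rw [pow_succ, coeff_mul_add_eq_of_natDegree_le ih.1 (lin_natDegree a b), ih.2, lin_coeff, pow_succ]

theorem lin_prod {σ : Type*} (s : Finset σ) (a b : σ → ℂ) (k : σ → ℕ) :
    (∏ i ∈ s, (C (a i) + C (b i) * X : ℂ[X]) ^ k i).natDegree ≤ ∑ i ∈ s, k i ∧
    (∏ i ∈ s, (C (a i) + C (b i) * X : ℂ[X]) ^ k i).coeff (∑ i ∈ s, k i) =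
      ∏ i ∈ s, b i ^ k i := by
  classical
  induction s using Finset.induction_on with
  | empty => simp
  | insert i s hi ih =>
    rw [Finset.prod_insert hi, Finset.sum_insert hi, Finset.prod_insert hi]
    have h1 := lin_pow (a i) (b i) (k i)
    constructor
    · exact natDegree_mul_le.trans (add_le_add h1.1 ih.1)
    · rw [coeff_mul_add_eq_of_natDegree_le h1.1 ih.1, h1.2, ih.2]

theorem lineHom_apply {σ : Type*} (v : σ → ℤ) (y : σ → ℂ) (c : MvPolynomial σ ℤ) :
    lineHom v y c = ∑ m ∈ c.support, C ((c.coeff m : ℤ) : ℂ) *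
      ∏ i ∈ m.support, (C (y i) + C (v i : ℂ) * X : ℂ[X]) ^ m i := by
  rw [lineHom, MvPolynomial.coe_eval₂Hom, MvPolynomial.eval₂_eq]
  refine Finset.sum_congr rfl fun m _ => ?_
  congr 1

theorem degree_eq {σ : Type*} (m : σ →₀ ℕ) : ∑ i ∈ m.support, m i = m.degree := rfl

end DirLine

open DirLine

theorem natDegree_lineHom_le {σ : Type*} (v : σ → ℤ) (y : σ → ℂ) (c : MvPolynomial σ ℤ) :
    (lineHom v y c).natDegree ≤ c.totalDegree := by
  rw [lineHom_apply]
  refine natDegree_sum_le_of_forall_le _ _ fun m hm => ?_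
  refine (natDegree_C_mul_le _ _).trans ((lin_prod m.support y (fun i => (v i : ℂ)) m).1.trans ?_)
  exact MvPolynomial.le_totalDegree hm

theorem coeff_lineHom {σ : Type*} (v : σ → ℤ) (y : σ → ℂ) (c : MvPolynomial σ ℤ) :
    (lineHom v y c).coeff c.totalDegree =
      ((MvPolynomial.eval v (MvPolynomial.homogeneousComponent c.totalDegree c) : ℤ) : ℂ) := by
  classical
  rw [lineHom_apply, finsetSum_coeff, MvPolynomial.homogeneousComponent_apply, map_sum,
    Int.cast_sum, Finset.sum_filter]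
  refine Finset.sum_congr rfl fun m hm => ?_
  have h1 := lin_prod m.support y (fun i => (v i : ℂ)) m
  rw [coeff_C_mul]
  split_ifs with h
  · have h2 : ∑ i ∈ m.support, m i = c.totalDegree := h
    rw [← h2, h1.2, MvPolynomial.eval_monomial, Finsupp.prod, Int.cast_mul, Int.cast_prod]
    congr 1
    exact Finset.prod_congr rfl fun i _ => by rw [Int.cast_pow]
  · have h2 : ∑ i ∈ m.support, m i < c.totalDegree :=
      lt_of_le_of_ne (MvPolynomial.le_totalDegree hm) h
    rw [coeff_eq_zero_of_natDegree_lt (h1.1.trans_lt h2), mul_zero]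

namespace DirLine

theorem top_ne_zero {σ : Type*} {c : MvPolynomial σ ℤ} (hc : c ≠ 0) :
    MvPolynomial.homogeneousComponent c.totalDegree c ≠ 0 := by
  classical
  have h1 : c.support.Nonempty := MvPolynomial.support_nonempty.mpr hc
  obtain ⟨m, hm, hmax⟩ := Finset.exists_max_image c.support (fun m => m.degree) h1
  have h2 : m.degree = c.totalDegree := by
    apply le_antisymm
    · exact MvPolynomial.le_totalDegree hm
    · rw [MvPolynomial.totalDegree]
      exact Finset.sup_le fun b hb => hmax b hb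
  intro h
  have h3 := congrArg (MvPolynomial.coeff m) h
  rw [MvPolynomial.coeff_homogeneousComponent, if_pos h2, MvPolynomial.coeff_zero] at h3
  exact (MvPolynomial.mem_support_iff.mp hm) h3

end DirLine

theorem exists_direction {σ : Type*} (S : Finset (MvPolynomial σ ℤ)) (hS : ∀ c ∈ S, c ≠ 0)
    (i0 : σ) : ∃ v : σ → ℤ, v i0 ≠ 0 ∧ ∀ c ∈ S,
      MvPolynomial.eval v (MvPolynomial.homogeneousComponent c.totalDegree c) ≠ 0 := by
  classical
  set Q : MvPolynomial σ ℤ := MvPolynomial.X i0 *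
    ∏ c ∈ S, MvPolynomial.homogeneousComponent c.totalDegree c with hQ
  have hQ0 : Q ≠ 0 :=
    mul_ne_zero (MvPolynomial.X_ne_zero i0)
      (Finset.prod_ne_zero_iff.mpr fun c hc => top_ne_zero (hS c hc))
  have h1 : ∃ v : σ → ℤ, MvPolynomial.eval v Q ≠ 0 := by
    by_contra hcon
    push Not at hcon
    exact hQ0 (MvPolynomial.funext fun v => by rw [hcon v, map_zero])
  obtain ⟨v, hv⟩ := h1
  refine ⟨v, ?_, ?_⟩
  · intro h
    apply hv
    rw [hQ, map_mul, MvPolynomial.eval_X, h, zero_mul]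
  · intro c hc h
    apply hv
    rw [hQ, map_mul, map_prod, Finset.prod_eq_zero hc h, mul_zero]

end Pool.Agent.Work.MP_59f3ad_nt

end

section

/-!
# Embedding a domain of cardinality at most the continuum in the complex numbers (helper36)
-/

open Cardinal Polynomial

namespace Pool.Agent.Work.MP_59f3ad_nt

theorem exists_embedding (R : Type) [CommRing R] [IsDomain R] (hR : #R ≤ 𝔠)
    (x : R) (hx : Transcendental ℤ x) (τ : ℂ) (hτ : Transcendental ℤ τ) :
    ∃ f : R →+* ℂ, Function.Injective f ∧ f x = τ := by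
  classical
  let K := FractionRing R
  let iK : ℤ[X] →+* K := (algebraMap R K).comp (aeval x : ℤ[X] →ₐ[ℤ] R).toRingHom
  let iC : ℤ[X] →+* ℂ := (aeval τ : ℤ[X] →ₐ[ℤ] ℂ).toRingHom
  have h1 : Function.Injective (algebraMap R K) := IsFractionRing.injective R K
  have hiK : Function.Injective iK := h1.comp (transcendental_iff_injective.1 hx)
  have hiC : Function.Injective iC := transcendental_iff_injective.1 hτ
  let : Algebra ℤ[X] K := iK.toAlgebra
  let : Algebra ℤ[X] ℂ := iC.toAlgebra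
  have : FaithfulSMul ℤ[X] K := (faithfulSMul_iff_algebraMap_injective _ _).2 hiK
  have : FaithfulSMul ℤ[X] ℂ := (faithfulSMul_iff_algebraMap_injective _ _).2 hiC
  obtain ⟨s, hs⟩ := exists_isTranscendenceBasis ℤ[X] K
  obtain ⟨t, ht⟩ := exists_isTranscendenceBasis ℤ[X] ℂ
  have hA : #ℤ[X] ≤ ℵ₀ := by
    refine (Polynomial.cardinalMk_le_max).trans ?_
    simp
  have hC : ℵ₀ < #ℂ := by
    rw [Cardinal.mk_complex]; exact aleph0_lt_continuum
  have htc : #ℂ = #t := IsAlgClosed.cardinal_eq_cardinal_transcendence_basis_of_aleph0_lt' _ ht hA hC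
  have hKc : #K ≤ 𝔠 := by
    have hs1 : Function.Surjective (fun p : R × nonZeroDivisors R =>
      IsLocalization.mk' K p.1 p.2) := by
      intro z
      obtain ⟨a, b, hab⟩ := IsLocalization.exists_mk'_eq (nonZeroDivisors R) z
      exact ⟨(a, b), hab⟩
    have h2 : #K ≤ #(R × nonZeroDivisors R) := mk_le_of_surjective hs1
    have h3 : #(nonZeroDivisors R) ≤ #R := mk_le_of_injective Subtype.val_injective
    calc #K ≤ #(R × nonZeroDivisors R) := h2
      _ = #R * #(nonZeroDivisors R) := by simp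
      _ ≤ 𝔠 * 𝔠 := mul_le_mul' hR (h3.trans hR)
      _ = 𝔠 := continuum_mul_self
  have hst : #s ≤ #t := by
    rw [← htc, Cardinal.mk_complex]
    exact (mk_le_of_injective Subtype.val_injective).trans hKc
  obtain ⟨g⟩ : Nonempty (s ↪ t) := hst
  have hg : AlgebraicIndependent ℤ[X] (fun i : s => ((g i : t) : ℂ)) := ht.1.comp g g.injective
  let B := Algebra.adjoin ℤ[X] (Set.range ((↑) : s → K))
  let φ : B →ₐ[ℤ[X]] ℂ :=
    (MvPolynomial.aeval (fun i : s => ((g i : t) : ℂ))).comp
      (hs.1.aevalEquiv.symm : B →ₐ[ℤ[X]] MvPolynomial s ℤ[X])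
  have hφ : Function.Injective φ := by
    have h2 : Function.Injective (MvPolynomial.aeval (R := ℤ[X]) (fun i : s => ((g i : t) : ℂ))) :=
      hg
    exact h2.comp hs.1.aevalEquiv.symm.injective
  let : Algebra B ℂ := φ.toRingHom.toAlgebra
  have hBC : Module.IsTorsionFree B ℂ := Module.isTorsionFree_iff_algebraMap_injective.2 hφ
  have hBK : Module.IsTorsionFree B K :=
    Module.isTorsionFree_iff_algebraMap_injective.2 Subtype.val_injective
  have halg : Algebra.IsAlgebraic B K := hs.isAlgebraic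
  let F : K →ₐ[B] ℂ := IsAlgClosed.lift
  refine ⟨(F : K →+* ℂ).comp (algebraMap R K), ?_, ?_⟩
  · exact (F : K →+* ℂ).injective.comp h1
  · have e1 : algebraMap R K x = algebraMap B K (algebraMap ℤ[X] B X) := by
      have : algebraMap B K (algebraMap ℤ[X] B X) = algebraMap ℤ[X] K X := rfl
      rw [this]
      show algebraMap R K x = algebraMap R K (aeval x X)
      rw [aeval_X]
    have e2 : F (algebraMap B K (algebraMap ℤ[X] B X)) = algebraMap B ℂ (algebraMap ℤ[X] B X) :=
      F.commutes _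
    have e3 : algebraMap B ℂ (algebraMap ℤ[X] B X) = algebraMap ℤ[X] ℂ X := φ.commutes X
    have e4 : algebraMap ℤ[X] ℂ X = τ := by
      show aeval τ X = τ
      rw [aeval_X]
    rw [RingHom.comp_apply, e1]
    exact e2.trans (e3.trans e4)

end Pool.Agent.Work.MP_59f3ad_nt

end

section

/-!
# Embedding a domain of cardinality at most the continuum in the complex numbers, over a
countable ring (adapted from helper36's `Embed.lean`)
-/

open Cardinal Polynomial

namespace Pool.Agent.Work.MP_59f3ad_nt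

theorem exists_embedding_over (P : Type) [CommRing P] [IsDomain P] [Countable P]
    (R : Type) [CommRing R] [IsDomain R] (hR : #R ≤ 𝔠)
    (α : P →+* R) (hα : Function.Injective α) (β : P →+* ℂ) (hβ : Function.Injective β) :
    ∃ f : R →+* ℂ, Function.Injective f ∧ f.comp α = β := by
  classical
  let K := FractionRing R
  let iK : P →+* K := (algebraMap R K).comp α
  have h1 : Function.Injective (algebraMap R K) := IsFractionRing.injective R K
  have hiK : Function.Injective iK := h1.comp hα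
  let : Algebra P K := iK.toAlgebra
  let : Algebra P ℂ := β.toAlgebra
  have : FaithfulSMul P K := (faithfulSMul_iff_algebraMap_injective _ _).2 hiK
  have : FaithfulSMul P ℂ := (faithfulSMul_iff_algebraMap_injective _ _).2 hβ
  obtain ⟨s, hs⟩ := exists_isTranscendenceBasis P K
  obtain ⟨t, ht⟩ := exists_isTranscendenceBasis P ℂ
  have hA : #P ≤ ℵ₀ := Cardinal.mk_le_aleph0
  have hC : ℵ₀ < #ℂ := by
    rw [Cardinal.mk_complex]; exact aleph0_lt_continuum
  have htc : #ℂ = #t := IsAlgClosed.cardinal_eq_cardinal_transcendence_basis_of_aleph0_lt' _ ht hA hC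
  have hKc : #K ≤ 𝔠 := by
    have hs1 : Function.Surjective (fun p : R × nonZeroDivisors R =>
      IsLocalization.mk' K p.1 p.2) := by
      intro z
      obtain ⟨a, b, hab⟩ := IsLocalization.exists_mk'_eq (nonZeroDivisors R) z
      exact ⟨(a, b), hab⟩
    have h2 : #K ≤ #(R × nonZeroDivisors R) := mk_le_of_surjective hs1
    have h3 : #(nonZeroDivisors R) ≤ #R := mk_le_of_injective Subtype.val_injective
    calc #K ≤ #(R × nonZeroDivisors R) := h2
      _ = #R * #(nonZeroDivisors R) := by simp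
      _ ≤ 𝔠 * 𝔠 := mul_le_mul' hR (h3.trans hR)
      _ = 𝔠 := continuum_mul_self
  have hst : #s ≤ #t := by
    rw [← htc, Cardinal.mk_complex]
    exact (mk_le_of_injective Subtype.val_injective).trans hKc
  obtain ⟨g⟩ : Nonempty (s ↪ t) := hst
  have hg : AlgebraicIndependent P (fun i : s => ((g i : t) : ℂ)) := ht.1.comp g g.injective
  let B := Algebra.adjoin P (Set.range ((↑) : s → K))
  let φ : B →ₐ[P] ℂ :=
    (MvPolynomial.aeval (fun i : s => ((g i : t) : ℂ))).comp
      (hs.1.aevalEquiv.symm : B →ₐ[P] MvPolynomial s P)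
  have hφ : Function.Injective φ := by
    have h2 : Function.Injective (MvPolynomial.aeval (R := P) (fun i : s => ((g i : t) : ℂ))) :=
      hg
    exact h2.comp hs.1.aevalEquiv.symm.injective
  let : Algebra B ℂ := φ.toRingHom.toAlgebra
  have hBC : Module.IsTorsionFree B ℂ := Module.isTorsionFree_iff_algebraMap_injective.2 hφ
  have hBK : Module.IsTorsionFree B K :=
    Module.isTorsionFree_iff_algebraMap_injective.2 Subtype.val_injective
  have halg : Algebra.IsAlgebraic B K := hs.isAlgebraic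
  let F : K →ₐ[B] ℂ := IsAlgClosed.lift
  refine ⟨(F : K →+* ℂ).comp (algebraMap R K), ?_, ?_⟩
  · exact (F : K →+* ℂ).injective.comp h1
  · refine RingHom.ext fun x => ?_
    have e1 : algebraMap R K (α x) = algebraMap B K (algebraMap P B x) := rfl
    have e2 : F (algebraMap B K (algebraMap P B x)) = algebraMap B ℂ (algebraMap P B x) :=
      F.commutes _
    have e3 : algebraMap B ℂ (algebraMap P B x) = algebraMap P ℂ x := φ.commutes x
    rw [RingHom.comp_apply, RingHom.comp_apply, e1]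
    exact e2.trans e3

/-- The version for ring homomorphisms with the same kernel. -/
theorem exists_embedding_ker (P : Type) [CommRing P] [Countable P]
    (R : Type) [CommRing R] [IsDomain R] (hR : #R ≤ 𝔠)
    (α : P →+* R) (β : P →+* ℂ) (h : RingHom.ker α = RingHom.ker β) :
    ∃ f : R →+* ℂ, Function.Injective f ∧ f.comp α = β := by
  have : (RingHom.ker α).IsPrime := RingHom.ker_isPrime α
  let β' : P ⧸ RingHom.ker α →+* ℂ := Ideal.Quotient.lift (RingHom.ker α) β
    (fun a ha => by rw [h] at ha; exact ha)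
  have hβ' : Function.Injective β' := by
    rw [injective_iff_map_eq_zero]
    intro a ha
    obtain ⟨a, rfl⟩ := Ideal.Quotient.mk_surjective a
    have ha' : β a = 0 := ha
    rw [Ideal.Quotient.eq_zero_iff_mem, h]
    exact ha'
  have hcount : Countable (P ⧸ RingHom.ker α) := Ideal.Quotient.mk_surjective.countable
  obtain ⟨f, hf1, hf2⟩ := exists_embedding_over (P ⧸ RingHom.ker α) R hR (RingHom.kerLift α)
    (RingHom.kerLift_injective α) β' hβ'
  refine ⟨f, hf1, RingHom.ext fun x => ?_⟩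
  have h1 := congrArg (fun g : P ⧸ RingHom.ker α →+* ℂ => g (Ideal.Quotient.mk _ x)) hf2
  exact h1

end Pool.Agent.Work.MP_59f3ad_nt

end

section

/-!
The differential equation for the logarithm of a power series over a `p`-adic field.
-/

open Polynomial

namespace Pool.Agent.Work.MP_59f3ad_nt

section bd

variable {Ω : Type*} [NormedField Ω]

/-- Sequences of power series with, for each `k`, bounded `k`-th coefficients. -/
def Bd (Z : ℕ → PowerSeries Ω) : Prop :=
  ∀ k, ∃ C : ℝ, ∀ N, ‖PowerSeries.coeff k (Z N)‖ ≤ C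

theorem Bd.const (f : PowerSeries Ω) : Bd (fun _ => f) := fun _ => ⟨_, fun _ => le_rfl⟩

theorem Bd.add {Y Z : ℕ → PowerSeries Ω} (hY : Bd Y) (hZ : Bd Z) : Bd (fun N => Y N + Z N) := by
  intro k
  obtain ⟨C, hC⟩ := hY k
  obtain ⟨D, hD⟩ := hZ k
  refine ⟨C + D, fun N => ?_⟩
  rw [map_add]
  exact (norm_add_le _ _).trans (add_le_add (hC N) (hD N))

theorem Bd.neg {Z : ℕ → PowerSeries Ω} (hZ : Bd Z) : Bd (fun N => - Z N) := by
  intro k
  obtain ⟨D, hD⟩ := hZ k
  refine ⟨D, fun N => ?_⟩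
  rw [map_neg, norm_neg]
  exact hD N

theorem Bd.mul {Y Z : ℕ → PowerSeries Ω} (hY : Bd Y) (hZ : Bd Z) : Bd (fun N => Y N * Z N) := by
  intro k
  choose C hC using hY
  choose D hD using hZ
  refine ⟨∑ ij ∈ Finset.HasAntidiagonal.antidiagonal k, C ij.1 * D ij.2, fun N => ?_⟩
  rw [PowerSeries.coeff_mul]
  refine (norm_sum_le _ _).trans (Finset.sum_le_sum fun ij _ => ?_)
  rw [norm_mul]
  exact mul_le_mul (hC _ N) (hD _ N) (norm_nonneg _) ((norm_nonneg _).trans (hC _ N))

theorem Bd.sum {ι : Type*} (s : Finset ι) {Z : ι → ℕ → PowerSeries Ω} (hZ : ∀ i, Bd (Z i)) :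
    Bd (fun N => ∑ i ∈ s, Z i N) := by
  classical
  induction s using Finset.induction_on with
  | empty => simpa using Bd.const 0
  | insert i s hi ih =>
    simp only [Finset.sum_insert hi]
    exact (hZ i).add ih

theorem Bd.deriv {Z : ℕ → PowerSeries Ω} (hZ : Bd Z) :
    Bd (fun N => PowerSeries.derivative Ω (Z N)) := by
  intro k
  obtain ⟨D, hD⟩ := hZ (k + 1)
  refine ⟨D * ‖((k : Ω) + 1)‖, fun N => ?_⟩
  rw [PowerSeries.coeff_derivative, norm_mul]
  exact mul_le_mul_of_nonneg_right (hD N) (norm_nonneg _)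

theorem Bd.map {R : Type*} [CommRing R] (σ : R →+* Ω) (hσ : ∀ r, ‖σ r‖ ≤ 1)
    (w : ℕ → PowerSeries R) : Bd (fun N => PowerSeries.map σ (w N)) := by
  intro k
  refine ⟨1, fun N => ?_⟩
  rw [PowerSeries.coeff_map]
  exact hσ _

theorem eq_zero_of_bd (p : ℕ) (hp1 : ‖(p : Ω)‖ < 1) (f : PowerSeries Ω) (Z : ℕ → PowerSeries Ω)
    (hZ : Bd Z) (h : ∀ N, f = PowerSeries.C ((p : Ω) ^ (N + 1)) * Z N) : f = 0 := by
  ext k
  obtain ⟨D, hD⟩ := hZ k
  rw [map_zero, ← norm_le_zero_iff]
  have h1 : Filter.Tendsto (fun N : ℕ => ‖(p : Ω)‖ ^ (N + 1) * D) Filter.atTop (nhds (0 * D)) :=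
    ((tendsto_pow_atTop_nhds_zero_of_lt_one (norm_nonneg _) hp1).comp
      (Filter.tendsto_add_atTop_nat 1)).mul_const D
  rw [zero_mul] at h1
  refine ge_of_tendsto' h1 fun N => ?_
  rw [h N, PowerSeries.coeff_C_mul, norm_mul, norm_pow]
  exact mul_le_mul_of_nonneg_left (hD N) (by positivity)

end bd

/-- Integral polynomials in the parameter as power series. -/
noncomputable def toPS (R : Type*) [CommRing R] : ℤ[X] →+* PowerSeries R :=
  (PowerSeries.map (Int.castRingHom R)).comp Polynomial.coeToPowerSeries.ringHom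

theorem toPS_C (R : Type*) [CommRing R] (n : ℤ) :
    toPS R (Polynomial.C n) = PowerSeries.C (n : R) := by
  simp [toPS]

theorem toPS_X (R : Type*) [CommRing R] : toPS R (Polynomial.X) = PowerSeries.X := by
  simp [toPS]

theorem coeff_toPS (R : Type*) [CommRing R] (f : ℤ[X]) (k : ℕ) :
    PowerSeries.coeff k (toPS R f) = (f.coeff k : R) := by
  simp [toPS]

theorem map_toPS {R S : Type*} [CommRing R] [CommRing S] (σ : R →+* S) (f : ℤ[X]) :
    PowerSeries.map σ (toPS R f) = toPS S f := by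
  ext k
  rw [PowerSeries.coeff_map, coeff_toPS, coeff_toPS, map_intCast]

/-- The differential equation of the logarithms. -/
theorem formal_ode {Ω : Type*} [NormedField Ω] [CharZero Ω] {R : Type*} [CommRing R]
    (σ : R →+* Ω) (hσ : ∀ r, ‖σ r‖ ≤ 1) (p : ℕ) (hp0 : (p : Ω) ≠ 0) (hp1 : ‖(p : Ω)‖ < 1)
    (F H : ℤ[X][X]) (M : ℕ) (V : ℕ → ℤ[X][X]) (d : ℕ) (hd : 1 ≤ d)
    (hV1 : ∀ N, (V N).degree < d)
    (hV2 : ∀ N, F ∣ H ^ (M * p ^ N) - 1 - Polynomial.C (Polynomial.C ((p : ℤ) ^ (N + 2))) * V N)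
    (m : Fin d → PowerSeries R)
    (hm : ∀ N i, PowerSeries.C ((p : R) ^ (N + 1)) ∣ m i - toPS R ((V N).coeff i))
    (ξ : PowerSeries Ω) (hξ : eval₂ (toPS Ω) ξ F = 0) :
    PowerSeries.C (M : Ω) * PowerSeries.derivative Ω (eval₂ (toPS Ω) ξ H) =
      PowerSeries.C ((p : Ω) ^ 2) * eval₂ (toPS Ω) ξ H *
        PowerSeries.derivative Ω (∑ i, PowerSeries.map σ (m i) * ξ ^ (i : ℕ)) := by
  choose w hw using hm
  let Φ : ℤ[X][X] →+* PowerSeries Ω := eval₂RingHom (toPS Ω) ξ
  set υ : PowerSeries Ω := eval₂ (toPS Ω) ξ H with hυ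
  set y : ℕ → PowerSeries Ω := fun N => Φ (V N) with hy
  set Y : PowerSeries Ω := ∑ i, PowerSeries.map σ (m i) * ξ ^ (i : ℕ) with hY
  have hΦC : ∀ n : ℤ, Φ (Polynomial.C (Polynomial.C n)) = PowerSeries.C (n : Ω) := fun n => by
    show eval₂ (toPS Ω) ξ _ = _
    rw [eval₂_C, toPS_C]
  have h1 : ∀ N, υ ^ (M * p ^ N) = 1 + PowerSeries.C ((p : Ω) ^ (N + 2)) * y N := by
    intro N
    obtain ⟨G, hG⟩ := hV2 N
    have h2 := congrArg Φ hG
    rw [map_mul, map_sub, map_sub, map_mul, map_pow, map_one, hΦC] at h2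
    have h3 : Φ F = 0 := hξ
    have h4 : Φ H = υ := rfl
    rw [h3, zero_mul, h4] at h2
    push_cast at h2
    linear_combination h2
  have h2 : ∀ n : ℕ, υ * PowerSeries.derivative Ω (υ ^ n) =
      PowerSeries.C (n : Ω) * υ ^ n * PowerSeries.derivative Ω υ := by
    intro n
    rw [Derivation.leibniz_pow, nsmul_eq_mul, smul_eq_mul, map_natCast]
    rcases Nat.eq_zero_or_pos n with rfl | hn
    · simp
    · obtain ⟨k, rfl⟩ : ∃ k, n = k + 1 := ⟨n - 1, by omega⟩
      rw [Nat.add_sub_cancel]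
      ring
  have hDC : ∀ (c : Ω) (g : PowerSeries Ω), PowerSeries.derivative Ω (PowerSeries.C c * g) =
      PowerSeries.C c * PowerSeries.derivative Ω g := fun c g => by
    rw [Derivation.leibniz, smul_eq_mul, smul_eq_mul, PowerSeries.derivative_C, mul_zero, add_zero]
  have h3 : ∀ N, PowerSeries.C ((p : Ω) ^ 2) * υ * PowerSeries.derivative Ω (y N) =
      PowerSeries.C (M : Ω) * (1 + PowerSeries.C ((p : Ω) ^ (N + 2)) * y N) *
        PowerSeries.derivative Ω υ := by
    intro N
    have h4 := h2 (M * p ^ N)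
    rw [h1 N, map_add, Derivation.map_one_eq_zero, zero_add, hDC] at h4
    have h5 : (PowerSeries.C ((p : Ω) ^ N) : PowerSeries Ω) ≠ 0 := by
      rw [Ne, map_eq_zero_iff _ PowerSeries.C_injective]
      exact pow_ne_zero _ hp0
    apply mul_left_cancel₀ h5
    have h6 : (PowerSeries.C ((p : Ω) ^ (N + 2)) : PowerSeries Ω) =
        PowerSeries.C ((p : Ω) ^ N) * PowerSeries.C ((p : Ω) ^ 2) := by
      rw [← map_mul, pow_add]
    have h7 : (PowerSeries.C (((M * p ^ N : ℕ) : Ω)) : PowerSeries Ω) =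
        PowerSeries.C ((p : Ω) ^ N) * PowerSeries.C (M : Ω) := by
      rw [← map_mul]; congr 1; push_cast; ring
    rw [h7] at h4
    have h8 : (PowerSeries.C ((p : Ω) ^ N) : PowerSeries Ω) *
        (PowerSeries.C ((p : Ω) ^ 2) * υ * PowerSeries.derivative Ω (y N)) =
        υ * (PowerSeries.C ((p : Ω) ^ (N + 2)) * PowerSeries.derivative Ω (y N)) := by
      rw [h6]; ring
    rw [h8, h4]
    ring
  have hyN : ∀ N, y N = ∑ i : Fin d, toPS Ω ((V N).coeff i) * ξ ^ (i : ℕ) := by
    intro N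
    have h6 : (V N).natDegree < d := by
      by_cases h0 : V N = 0
      · rw [h0, natDegree_zero]; omega
      · exact (natDegree_lt_iff_degree_lt h0).mpr (hV1 N)
    show eval₂ (toPS Ω) ξ (V N) = _
    rw [eval₂_eq_sum_range' _ h6, Fin.sum_univ_eq_sum_range (fun i => toPS Ω ((V N).coeff i) *
      ξ ^ i)]
  have hYy : ∀ N, Y = y N + PowerSeries.C ((p : Ω) ^ (N + 1)) *
      ∑ i, PowerSeries.map σ (w N i) * ξ ^ (i : ℕ) := by
    intro N
    rw [hyN, hY, Finset.mul_sum, ← Finset.sum_add_distrib]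
    refine Finset.sum_congr rfl fun i _ => ?_
    have h5 := congrArg (PowerSeries.map σ) (hw N i)
    rw [map_sub, map_mul, map_toPS, PowerSeries.map_C, map_pow, map_natCast] at h5
    linear_combination ξ ^ (i : ℕ) * h5
  have hbd : Bd (fun N => -(PowerSeries.C ((M : Ω) * p) * (y N * PowerSeries.derivative Ω υ) +
      PowerSeries.C ((p : Ω) ^ 2) * υ * PowerSeries.derivative Ω
        (∑ i, PowerSeries.map σ (w N i) * ξ ^ (i : ℕ)))) := by
    refine Bd.neg (Bd.add (Bd.mul (Bd.const _) (Bd.mul ?_ (Bd.const _))) (Bd.mul (Bd.const _) ?_))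
    · have h10 : y = fun N => ∑ i : Fin d, toPS Ω ((V N).coeff i) * ξ ^ (i : ℕ) := funext hyN
      rw [h10]
      refine Bd.sum _ fun i => Bd.mul ?_ (Bd.const _)
      have h9 := Bd.map σ hσ (fun N => toPS R ((V N).coeff i))
      simp only [map_toPS] at h9
      exact h9
    · exact Bd.deriv (Bd.sum _ fun i => Bd.mul (Bd.map σ hσ _) (Bd.const _))
  rw [← sub_eq_zero]
  refine eq_zero_of_bd p hp1 _ _ hbd fun N => ?_
  have h4 := h3 N
  rw [hYy N, map_add, hDC]
  have h6 : (PowerSeries.C ((p : Ω) ^ (N + 2)) : PowerSeries Ω) =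
      PowerSeries.C ((p : Ω) ^ (N + 1)) * PowerSeries.C (p : Ω) := by
    rw [← map_mul, pow_succ]
  have h7 : (PowerSeries.C ((M : Ω) * p) : PowerSeries Ω) =
      PowerSeries.C (M : Ω) * PowerSeries.C (p : Ω) := by
    rw [← map_mul]
  rw [h6] at h4
  rw [h7]
  linear_combination -h4

end Pool.Agent.Work.MP_59f3ad_nt

end

section

set_option autoImplicit false

namespace Pool.Agent.Work.MP_59f3ad_nt

open Cardinal

lemma mk_padic_le (p : ℕ) [Fact p.Prime] : #ℚ_[p] ≤ 𝔠 := by
  have h1 : #ℚ_[p] ≤ #(CauSeq ℚ (padicNorm p)) := by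
    apply mk_le_of_surjective (f := fun s => (Padic.mk s : ℚ_[p]))
    intro x
    exact Quotient.exists_rep x
  have h2 : #(CauSeq ℚ (padicNorm p)) ≤ #(ℕ → ℚ) :=
    mk_le_of_injective (f := fun s : CauSeq ℚ (padicNorm p) => s.1) Subtype.val_injective
  have h3 : #(ℕ → ℚ) = 𝔠 := by
    rw [← power_def]
    simp
  exact h1.trans (h2.trans h3.le)

theorem mk_padicAlgCl (p : ℕ) [Fact p.Prime] : #(PadicAlgCl p) = 𝔠 := by
  apply le_antisymm
  · have h := Algebra.IsAlgebraic.cardinalMk_le_max ℚ_[p] (PadicAlgCl p)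
    exact h.trans (max_le (mk_padic_le p) aleph0_le_continuum)
  · have h := continuum_le_cardinal_of_nontriviallyNormedField ℚ_[p]
    exact h.trans (mk_le_of_injective (algebraMap ℚ_[p] (PadicAlgCl p)).injective)

theorem nonempty_padicAlgCl_equiv_complex (p : ℕ) [Fact p.Prime] :
    Nonempty (PadicAlgCl p ≃+* ℂ) := by
  have h := mk_padicAlgCl p
  have hc : #ℂ = 𝔠 := mk_complex
  have : CharZero (PadicAlgCl p) := charZero_of_injective_algebraMap
    (algebraMap ℚ_[p] (PadicAlgCl p)).injective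
  apply IsAlgClosed.ringEquiv_of_equiv_of_charZero
  · rw [h]
    exact aleph0_lt_continuum
  · exact Cardinal.eq.mp (h.trans hc.symm)

end Pool.Agent.Work.MP_59f3ad_nt

end

section

/-!
# MP_59f3ad_nt, item U3: a value of small valuation in a residue class
-/

open Polynomial

theorem exists_shift (G : ℤ[X]) (p : ℕ) (hp : p.Prime) (hdeg : G.natDegree < p)
    (hlc : ¬ (p : ℤ) ∣ G.leadingCoeff) (r : ℤ) :
    ∃ c : ℤ, ¬ (p : ℤ) ^ (G.natDegree + 1) ∣ G.eval (r + p * c) := by
  by_contra hcon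
  push Not at hcon
  have hp0 : (p : ℤ) ≠ 0 := by exact_mod_cast hp.ne_zero
  set L : ℤ[X] := C (p : ℤ) * X + C r with hL
  have hLdeg : L.natDegree = 1 := natDegree_linear hp0
  have hLlc : L.leadingCoeff = p := leadingCoeff_linear hp0
  set P : ℤ[X] := G.comp L with hP
  have hPdeg : P.natDegree = G.natDegree := by rw [hP, natDegree_comp, hLdeg, mul_one]
  have hPlc : P.leadingCoeff = G.leadingCoeff * (p : ℤ) ^ G.natDegree := by
    rw [hP, leadingCoeff_comp (by rw [hLdeg]; exact one_ne_zero), hLlc]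
  have hev : ∀ c : ℤ, (p : ℤ) ^ (G.natDegree + 1) ∣ P.eval c := by
    intro c
    have h := hcon c
    have h2 : P.eval c = G.eval (r + p * c) := by
      rw [hP, eval_comp, hL]
      congr 1
      simp
      ring
    rwa [h2]
  have hfac := congrFun (fwdDiff_iter_degree_eq_factorial P) 0
  rw [fwdDiff_iter_eq_sum_shift] at hfac
  have hdvd : (p : ℤ) ^ (G.natDegree + 1) ∣
      (P.leadingCoeff • ((P.natDegree.factorial : ℕ) : ℤ → ℤ)) 0 := by
    rw [← hfac]
    apply Finset.dvd_sum
    intro k _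
    rw [smul_eq_mul]
    exact Dvd.dvd.mul_left (hev _) _
  have hval : (P.leadingCoeff • ((P.natDegree.factorial : ℕ) : ℤ → ℤ)) 0
      = (p : ℤ) ^ G.natDegree * (G.leadingCoeff * (G.natDegree.factorial : ℤ)) := by
    rw [hPlc, hPdeg]
    simp
    ring
  rw [hval, pow_succ] at hdvd
  have h3 := (mul_dvd_mul_iff_left (pow_ne_zero _ hp0)).1 hdvd
  have hpp : Prime (p : ℤ) := Nat.prime_iff_prime_int.1 hp
  rcases hpp.dvd_or_dvd h3 with h | h
  · exact hlc h
  · have h4 : p ∣ G.natDegree.factorial := by exact_mod_cast h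
    rw [hp.dvd_factorial] at h4
    omega

end

section

/-!
A primitive polynomial has a value of bounded valuation in every residue class.
-/

open Polynomial

namespace Pool.Agent.Work.MP_59f3ad_nt

theorem factorial_dvd_descPoch (D : ℕ) (c : ℤ) :
    (D.factorial : ℤ) ∣ (descPochhammer ℤ D).eval c := by
  have h := Ring.descPochhammer_eq_factorial_smul_choose c D
  rw [← Polynomial.eval_eq_smeval] at h
  rw [h, nsmul_eq_mul]
  exact dvd_mul_right _ _

theorem dvd_factorial_mul_coeff (q : ℤ) (D : ℕ) : ∀ g : ℤ[X], g.natDegree ≤ D →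
    (∀ c : ℤ, q ∣ g.eval c) → ∀ i, q ∣ (D.factorial : ℤ) * g.coeff i := by
  induction D with
  | zero =>
    intro g hg hq i
    have h1 : g = C (g.coeff 0) := eq_C_of_natDegree_le_zero hg
    have h2 := hq 0
    rw [h1, eval_C] at h2
    rw [h1, coeff_C]
    split_ifs
    · exact h2.mul_left _
    · simp
  | succ D ih =>
    intro g hg hq i
    -- the leading coefficient
    have hlead : q ∣ ((D + 1).factorial : ℤ) * g.coeff (D + 1) := by
      rcases hg.lt_or_eq with h | h
      · rw [coeff_eq_zero_of_natDegree_lt h, mul_zero]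
        exact dvd_zero _
      · have hfac := congrFun (fwdDiff_iter_degree_eq_factorial g) 0
        rw [fwdDiff_iter_eq_sum_shift] at hfac
        have hdvd : q ∣ (g.leadingCoeff • ((g.natDegree.factorial : ℕ) : ℤ → ℤ)) 0 := by
          rw [← hfac]
          apply Finset.dvd_sum
          intro k _
          rw [smul_eq_mul]
          exact Dvd.dvd.mul_left (hq _) _
        have hval : (g.leadingCoeff • ((g.natDegree.factorial : ℕ) : ℤ → ℤ)) 0
            = ((D + 1).factorial : ℤ) * g.coeff (D + 1) := by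
          rw [leadingCoeff, h]
          simp
          ring
        rwa [hval] at hdvd
    set P : ℤ[X] := descPochhammer ℤ (D + 1) with hP
    have hPm : P.Monic := monic_descPochhammer ℤ (D + 1)
    have hPd : P.natDegree = D + 1 := descPochhammer_natDegree ℤ (D + 1)
    set h : ℤ[X] := g - C (g.coeff (D + 1)) * P with hh
    have hhd : h.natDegree ≤ D := by
      rw [natDegree_le_iff_coeff_eq_zero]
      intro j hj
      rw [hh, coeff_sub, coeff_C_mul]
      rcases (Nat.succ_le_of_lt hj).lt_or_eq with h1 | h1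
      · rw [coeff_eq_zero_of_natDegree_lt (p := g) (lt_of_le_of_lt hg h1),
          coeff_eq_zero_of_natDegree_lt (p := P) (by rw [hPd]; exact h1), mul_zero, sub_zero]
      · have h2 : P.coeff (D + 1) = 1 := by
          have := hPm.coeff_natDegree
          rwa [hPd] at this
        rw [← h1]
        show g.coeff (D + 1) - g.coeff (D + 1) * P.coeff (D + 1) = 0
        rw [h2]
        ring
    have hhq : ∀ c : ℤ, q ∣ h.eval c := by
      intro c
      rw [hh, eval_sub, eval_mul, eval_C]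
      refine dvd_sub (hq c) ?_
      obtain ⟨w, hw⟩ := factorial_dvd_descPoch (D + 1) c
      rw [hP, hw]
      have h1 : g.coeff (D + 1) * (((D + 1).factorial : ℤ) * w) =
          ((D + 1).factorial : ℤ) * g.coeff (D + 1) * w := by ring
      rw [h1]
      exact hlead.mul_right _
    have h3 := ih h hhd hhq i
    have h4 : ((D + 1).factorial : ℤ) * g.coeff i =
        (D + 1) * ((D.factorial : ℤ) * h.coeff i) +
          ((D + 1).factorial : ℤ) * g.coeff (D + 1) * P.coeff i := by
      rw [hh, coeff_sub, coeff_C_mul, Nat.factorial_succ]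
      push_cast
      ring
    rw [h4]
    exact dvd_add (h3.mul_left _) (hlead.mul_right _)

theorem pow_dvd_of_mul_aux {π a b : ℤ} (hπ : Prime π) {D m : ℕ} (ha : ¬ π ^ (D + 1) ∣ a)
    (h : π ^ (D + m) ∣ a * b) : π ^ m ∣ b := by
  have ha0 : a ≠ 0 := fun h0 => ha (h0 ▸ dvd_zero _)
  obtain ⟨v, w, hw1, hw2⟩ := WfDvdMonoid.max_power_factor ha0 hπ.irreducible
  have hv : v ≤ D := by
    by_contra hcon
    apply ha
    rw [hw2]
    exact (pow_dvd_pow _ (by omega)).mul_right _
  rw [hw2, mul_assoc, show D + m = v + (D + m - v) by omega, pow_add] at h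
  have h1 := (mul_dvd_mul_iff_left (pow_ne_zero v hπ.ne_zero)).mp h
  have h2 := hπ.pow_dvd_of_dvd_mul_left _ hw1 h1
  exact (pow_dvd_pow _ (by omega)).trans h2

theorem exists_shift_all (G : ℤ[X]) (p : ℕ) (hp : p.Prime) (D : ℕ) (hD : G.natDegree ≤ D)
    (hG : ∃ i, ¬ (p : ℤ) ∣ G.coeff i) (r : ℤ) :
    ∃ c : ℤ, ¬ (p : ℤ) ^ (2 * D + 1) ∣ G.eval (r + p * c) := by
  have : Fact p.Prime := ⟨hp⟩
  by_contra hcon
  push Not at hcon
  have hpp : Prime (p : ℤ) := Nat.prime_iff_prime_int.1 hp
  have hp0 : (p : ℤ) ≠ 0 := hpp.ne_zero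
  set Tr : ℤ[X] := taylor r G with hTr
  set g : ℤ[X] := Tr.comp (C (p : ℤ) * X) with hg
  have hgd : g.natDegree ≤ D := by
    refine natDegree_comp_le.trans ?_
    have h1 : (C (p : ℤ) * X : ℤ[X]).natDegree ≤ 1 :=
      (natDegree_C_mul_le _ _).trans natDegree_X_le
    calc Tr.natDegree * (C (p : ℤ) * X : ℤ[X]).natDegree ≤ Tr.natDegree * 1 :=
          Nat.mul_le_mul_left _ h1
      _ ≤ D := by rw [mul_one, hTr, natDegree_taylor]; exact hD
  have hgev : ∀ c : ℤ, g.eval c = G.eval (r + p * c) := by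
    intro c
    rw [hg, eval_comp, hTr, taylor_apply, eval_comp]
    congr 1
    simp
    ring
  have hgc : ∀ i, g.coeff i = (p : ℤ) ^ i * Tr.coeff i := by
    intro i
    rw [hg, comp_C_mul_X_coeff, mul_comm]
  have h1 := dvd_factorial_mul_coeff ((p : ℤ) ^ (2 * D + 1)) D g hgd
    (fun c => by rw [hgev]; exact hcon c)
  -- remove the factorial
  have hfac : ¬ (p : ℤ) ^ (D + 1) ∣ (D.factorial : ℤ) := by
    intro h
    have h2 : p ^ (D + 1) ∣ D.factorial := by exact_mod_cast h
    rw [padicValNat_dvd_iff_le D.factorial_ne_zero] at h2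
    rcases Nat.eq_zero_or_pos D with h0 | h0
    · subst h0
      simp at h2
    · have h3 := padicValNat_factorial_lt_of_ne_zero p h0.ne'
      omega
  have h2 : ∀ i, (p : ℤ) ^ (D + 1) ∣ g.coeff i := by
    intro i
    have h3 := h1 i
    rw [show 2 * D + 1 = D + (D + 1) by ring] at h3
    exact pow_dvd_of_mul_aux hpp hfac h3
  have h3 : ∀ i, (p : ℤ) ∣ Tr.coeff i := by
    intro i
    by_cases hi : i ≤ D
    · have h4 := h2 i
      rw [hgc, show D + 1 = i + (D + 1 - i) by omega, pow_add] at h4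
      have h5 := (mul_dvd_mul_iff_left (pow_ne_zero i hp0)).mp h4
      exact (dvd_pow_self _ (by omega)).trans h5
    · rw [coeff_eq_zero_of_natDegree_lt]
      · exact dvd_zero _
      · rw [hTr, natDegree_taylor]
        omega
  have h4 : C (p : ℤ) ∣ Tr := (C_dvd_iff_dvd_coeff _ _).mpr h3
  have h5 := map_dvd (taylorAlgHom (-r)) h4
  rw [hTr, taylorAlgHom_apply, taylorAlgHom_apply, taylor_taylor, taylor_C, neg_add_cancel,
    taylor_zero] at h5
  obtain ⟨i, hi⟩ := hG
  exact hi ((C_dvd_iff_dvd_coeff _ _).mp h5 i)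

end Pool.Agent.Work.MP_59f3ad_nt

end

section

set_option autoImplicit false

namespace Pool.Agent.Work.MP_59f3ad_nt

open Polynomial

lemma strass_unique (a : ℤ) (f Q : ℤ[X]) (r : ℤ) (h : f = (X - C a) * Q + C r) :
    f /ₘ (X - C a) = Q := by
  have h1 := div_modByMonic_unique (f := f) (g := X - C a) Q (C r) (monic_X_sub_C a)
    ⟨by rw [h]; ring, by
      rw [degree_X_sub_C]
      exact lt_of_le_of_lt degree_C_le (by norm_num)⟩
  exact h1.1

lemma strass_decomp (a : ℤ) (f : ℤ[X]) :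
    f = (X - C a) * (f /ₘ (X - C a)) + C (f.eval a) := by
  have h := modByMonic_add_div f (X - C a)
  rw [modByMonic_X_sub_C_eq_C_eval] at h
  rw [add_comm]
  exact h.symm

lemma strass_dvd_divByMonic (c a : ℤ) (A : ℤ[X]) (h : C c ∣ A) : C c ∣ A /ₘ (X - C a) := by
  obtain ⟨B, rfl⟩ := h
  have h1 : (C c * B) /ₘ (X - C a) = C c * (B /ₘ (X - C a)) := by
    apply strass_unique a _ _ (c * B.eval a)
    conv_lhs => rw [strass_decomp a B]
    rw [C_mul]
    ring
  rw [h1]
  exact dvd_mul_right _ _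

lemma strass_stable (p : ℕ) (D : ℕ → ℤ[X])
    (hD : ∀ N, C ((p : ℤ) ^ (N + 1)) ∣ D (N + 1) - D N) (N s : ℕ) :
    C ((p : ℤ) ^ (N + 1)) ∣ D (N + s) - D N := by
  induction s with
  | zero => simp
  | succ s ih =>
    have h1 : C ((p : ℤ) ^ (N + 1)) ∣ D (N + s + 1) - D (N + s) := by
      refine dvd_trans ?_ (hD (N + s))
      exact (C_dvd_iff_dvd_coeff _ _).mpr fun i => by
        rw [coeff_C]
        split_ifs
        · exact pow_dvd_pow _ (by omega)
        · exact dvd_zero _
    have h2 := dvd_add h1 ih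
    have h3 : D (N + s + 1) - D (N + s) + (D (N + s) - D N) = D (N + (s + 1)) - D N := by
      rw [← add_assoc]
      ring
    rwa [h3] at h2

lemma strass_eval_dvd {c : ℤ} {A : ℤ[X]} (h : C c ∣ A) (t : ℤ) : c ∣ A.eval t := by
  obtain ⟨B, rfl⟩ := h
  rw [eval_mul, eval_C]
  exact dvd_mul_right _ _

lemma strass_main (p : ℕ) (hp : p.Prime) (d : ℕ) : ∀ (D : ℕ → ℤ[X]),
    (∀ N, C ((p : ℤ) ^ (N + 1)) ∣ D (N + 1) - D N) →
    (D 0).map (Int.castRingHom (ZMod p)) ≠ 0 →
    ((D 0).map (Int.castRingHom (ZMod p))).natDegree = d →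
    {t : ℤ | ∀ N, (p : ℤ) ^ (N + 1) ∣ (D N).eval t}.Finite := by
  have : Fact p.Prime := ⟨hp⟩
  induction d with
  | zero =>
    intro D hD hne hdeg
    have : {t : ℤ | ∀ N, (p : ℤ) ^ (N + 1) ∣ (D N).eval t} = ∅ := by
      ext t
      simp only [Set.mem_ofPred_eq, Set.mem_empty_iff_false, iff_false]
      intro h
      have h0 := h 0
      rw [zero_add, pow_one] at h0
      rw [natDegree_eq_zero] at hdeg
      obtain ⟨x, hx⟩ := hdeg
      have h1 : ((D 0).map (Int.castRingHom (ZMod p))).eval (t : ZMod p) = 0 := by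
        have h2 : ((D 0).map (Int.castRingHom (ZMod p))).eval (Int.castRingHom (ZMod p) t)
            = Int.castRingHom (ZMod p) ((D 0).eval t) := by
          rw [eval_map, ← eval₂_at_apply]
        have h3 : Int.castRingHom (ZMod p) ((D 0).eval t) = 0 := by
          rw [eq_intCast, ZMod.intCast_zmod_eq_zero_iff_dvd]
          exact h0
        rw [h3] at h2
        simpa using h2
      rw [← hx, eval_C] at h1
      apply hne
      rw [← hx, h1, C_0]
    rw [this]
    exact Set.finite_empty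
  | succ d ih =>
    intro D hD hne hdeg
    by_cases hex : ∃ t0 : ℤ, ∀ N, (p : ℤ) ^ (N + 1) ∣ (D N).eval t0
    · obtain ⟨t0, ht0⟩ := hex
      set G : ℕ → ℤ[X] := fun N => (D N) /ₘ (X - C t0) with hG
      have hdec : ∀ N, D N = (X - C t0) * G N + C ((D N).eval t0) := fun N =>
        strass_decomp t0 (D N)
      have hGD : ∀ N, C ((p : ℤ) ^ (N + 1)) ∣ G (N + 1) - G N := by
        intro N
        have h1 : G (N + 1) - G N = (D (N + 1) - D N) /ₘ (X - C t0) := by
          symm
          apply strass_unique t0 _ _ ((D (N + 1)).eval t0 - (D N).eval t0)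
          conv_lhs => rw [hdec (N + 1), hdec N]
          rw [C_sub]
          ring
        rw [h1]
        exact strass_dvd_divByMonic _ _ _ (hD N)
      have hmap : (D 0).map (Int.castRingHom (ZMod p))
          = (X - C (t0 : ZMod p)) * (G 0).map (Int.castRingHom (ZMod p)) := by
        conv_lhs => rw [hdec 0]
        rw [Polynomial.map_add, Polynomial.map_mul, Polynomial.map_sub, map_X, map_C, map_C]
        have h3 : Int.castRingHom (ZMod p) ((D 0).eval t0) = 0 := by
          rw [eq_intCast, ZMod.intCast_zmod_eq_zero_iff_dvd]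
          simpa using ht0 0
        rw [h3, C_0, add_zero, eq_intCast]
      have hG0 : (G 0).map (Int.castRingHom (ZMod p)) ≠ 0 := by
        intro h
        apply hne
        rw [hmap, h, mul_zero]
      have hGdeg : ((G 0).map (Int.castRingHom (ZMod p))).natDegree = d := by
        have h1 := hdeg
        rw [hmap, natDegree_mul (X_sub_C_ne_zero _) hG0, natDegree_X_sub_C] at h1
        omega
      have hfin := ih G hGD hG0 hGdeg
      refine (hfin.insert t0).subset ?_
      intro t ht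
      rw [Set.mem_insert_iff]
      by_cases htt : t = t0
      · exact Or.inl htt
      · right
        rw [Set.mem_ofPred_eq] at ht ⊢
        have hne0 : t - t0 ≠ 0 := sub_ne_zero.mpr htt
        have hpi : Prime (p : ℤ) := Nat.prime_iff_prime_int.mp hp
        have hfm : FiniteMultiplicity (p : ℤ) (t - t0) :=
          FiniteMultiplicity.of_prime_left hpi hne0
        obtain ⟨u, hu1, hu2⟩ := hfm.exists_eq_pow_mul_and_not_dvd
        set s := multiplicity (p : ℤ) (t - t0) with hs
        intro N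
        have h1 : (p : ℤ) ^ (N + s + 1) ∣ (t - t0) * (G (N + s)).eval t := by
          have h2 := congrArg (fun P => eval t P) (hdec (N + s))
          simp only [eval_add, eval_mul, eval_sub, eval_X, eval_C] at h2
          have h3 : (t - t0) * (G (N + s)).eval t = (D (N + s)).eval t - (D (N + s)).eval t0 := by
            rw [h2]; ring
          rw [h3]
          exact dvd_sub (ht (N + s)) (ht0 (N + s))
        rw [hu1, mul_assoc, show N + s + 1 = s + (N + 1) by ring, pow_add] at h1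
        have h4 : (p : ℤ) ^ (N + 1) ∣ u * (G (N + s)).eval t :=
          (mul_dvd_mul_iff_left (pow_ne_zero s hpi.ne_zero)).mp h1
        have h5 : (p : ℤ) ^ (N + 1) ∣ (G (N + s)).eval t :=
          hpi.pow_dvd_of_dvd_mul_left _ hu2 h4
        have h6 := strass_eval_dvd (strass_stable p G hGD N s) t
        rw [eval_sub] at h6
        have h7 : (G N).eval t = (G (N + s)).eval t - ((G (N + s)).eval t - (G N).eval t) := by
          ring
        rw [h7]
        exact dvd_sub h5 h6
    · have : {t : ℤ | ∀ N, (p : ℤ) ^ (N + 1) ∣ (D N).eval t} = ∅ := by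
        ext t
        simp only [Set.mem_ofPred_eq, Set.mem_empty_iff_false, iff_false]
        exact fun h => hex ⟨t, h⟩
      rw [this]
      exact Set.finite_empty

theorem finite_zeros (p : ℕ) (hp : p.Prime) (D : ℕ → ℤ[X])
    (hD : ∀ N k, (p : ℤ) ^ (N + 1) ∣ (D (N + 1) - D N).coeff k)
    (hne : ∃ N k, ¬ (p : ℤ) ^ (N + 1) ∣ (D N).coeff k) :
    {t : ℤ | ∀ N, (p : ℤ) ^ (N + 1) ∣ (D N).eval t}.Finite := by
  classical
  have : Fact p.Prime := ⟨hp⟩
  have hpi : Prime (p : ℤ) := Nat.prime_iff_prime_int.mp hp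
  have hD' : ∀ N, C ((p : ℤ) ^ (N + 1)) ∣ D (N + 1) - D N := fun N =>
    (C_dvd_iff_dvd_coeff _ _).mpr (hD N)
  set e := Nat.find hne with he
  have hfind := Nat.find_spec hne
  rw [← he] at hfind
  have hmin : ∀ N < e, ∀ k, (p : ℤ) ^ (N + 1) ∣ (D N).coeff k := by
    intro N hN k
    have h := Nat.find_min hne hN
    push Not at h
    exact h k
  -- D_e is divisible by p^e
  have hDe : C ((p : ℤ) ^ e) ∣ D e := by
    rcases Nat.eq_zero_or_pos e with h0 | h0
    · rw [h0, pow_zero, C_1]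
      exact one_dvd _
    · obtain ⟨m, hm⟩ : ∃ m, e = m + 1 := ⟨e - 1, by omega⟩
      have h1 : C ((p : ℤ) ^ (m + 1)) ∣ D m :=
        (C_dvd_iff_dvd_coeff _ _).mpr (hmin m (by omega))
      have h2 := dvd_add (hD' m) h1
      rw [sub_add_cancel] at h2
      rw [hm]
      exact h2
  have hDN : ∀ N, C ((p : ℤ) ^ e) ∣ D (N + e) := by
    intro N
    have h1 := strass_stable p D hD' e N
    have h2 : C ((p : ℤ) ^ e) ∣ D (e + N) - D e := by
      refine dvd_trans ?_ h1
      rw [pow_succ, C_mul]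
      exact dvd_mul_right _ _
    have h3 := dvd_add h2 hDe
    rw [sub_add_cancel, add_comm] at h3
    exact h3
  choose G hG using hDN
  have hpe : (p : ℤ) ^ e ≠ 0 := pow_ne_zero e hpi.ne_zero
  have hGD : ∀ N, C ((p : ℤ) ^ (N + 1)) ∣ G (N + 1) - G N := by
    intro N
    have h1 := hD' (N + e)
    have h2 : D (N + e + 1) = C ((p : ℤ) ^ e) * G (N + 1) := by
      rw [← hG (N + 1)]
      congr 1
      ring
    rw [h2, hG N, ← mul_sub, show N + e + 1 = e + (N + 1) by ring, pow_add, C_mul] at h1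
    exact (mul_dvd_mul_iff_left (by rwa [Ne, C_eq_zero])).mp h1
  have hG0 : (G 0).map (Int.castRingHom (ZMod p)) ≠ 0 := by
    intro h
    obtain ⟨k, hk⟩ := hfind
    apply hk
    have h1 := hG 0
    rw [zero_add] at h1
    rw [h1, coeff_C_mul, pow_succ]
    apply mul_dvd_mul_left
    have h2 := congrArg (fun P => coeff P k) h
    simp only [coeff_map, coeff_zero, eq_intCast] at h2
    rwa [ZMod.intCast_zmod_eq_zero_iff_dvd] at h2
  refine (strass_main p hp _ G hGD hG0 rfl).subset ?_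
  intro t ht
  rw [Set.mem_ofPred_eq] at ht ⊢
  intro N
  have h1 := ht (N + e)
  rw [hG N, eval_mul, eval_C, show N + e + 1 = e + (N + 1) by ring, pow_add] at h1
  exact (mul_dvd_mul_iff_left hpe).mp h1

end Pool.Agent.Work.MP_59f3ad_nt

end

section

/-!
The derivation `F_X ∂_s - F_s ∂_X` of `A[X]`, where `∂_s` is induced by a derivation of `A`.
-/

open Polynomial

namespace Pool.Agent.Work.MP_59f3ad_nt

/-- Derivations of a ring. -/
structure Der (A : Type*) [CommRing A] where
  /-- the additive map -/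
  d : A →+ A
  /-- the Leibniz rule -/
  leib : ∀ a b : A, d (a * b) = a * d b + b * d a

section der

variable {A : Type*} [CommRing A]

/-- The associated derivation. -/
noncomputable def Der.toD (δ : Der A) : Derivation ℤ A A :=
  Derivation.mk' δ.d.toIntLinearMap fun a b => δ.leib a b

theorem Der.toD_apply (δ : Der A) (a : A) : δ.toD a = δ.d a := rfl

/-- A derivation of `A` applied to the coefficients of a polynomial. -/
noncomputable def cw (δ : Der A) : Derivation ℤ A[X] A[X] :=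
  @Differential.mapCoeffs A _ ⟨δ.toD⟩

theorem coeff_cw (δ : Der A) (P : A[X]) (i : ℕ) : (cw δ P).coeff i = δ.d (P.coeff i) :=
  rfl

/-- The derivation `F_X ∂_s - F_s ∂_X`. -/
noncomputable def DD (δ : Der A) (F P : A[X]) : A[X] :=
  derivative F * cw δ P - cw δ F * derivative P

theorem DD_self (δ : Der A) (F : A[X]) : DD δ F F = 0 := by
  rw [DD]; ring

theorem DD_mul (δ : Der A) (F P Q : A[X]) :
    DD δ F (P * Q) = P * DD δ F Q + Q * DD δ F P := by
  rw [DD, DD, DD, Derivation.leibniz, derivative_mul, smul_eq_mul, smul_eq_mul]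
  ring

theorem DD_add (δ : Der A) (F P Q : A[X]) :
    DD δ F (P + Q) = DD δ F P + DD δ F Q := by
  rw [DD, DD, DD, map_add, derivative_add]
  ring

theorem DD_natCast (δ : Der A) (F : A[X]) (m : ℕ) : DD δ F (m : A[X]) = 0 := by
  rw [DD, Derivation.map_natCast, derivative_natCast]
  ring

theorem DD_one (δ : Der A) (F : A[X]) : DD δ F 1 = 0 := by
  have := DD_natCast δ F 1
  rwa [Nat.cast_one] at this

theorem mul_DD_pow (δ : Der A) (F P : A[X]) (m : ℕ) :
    P * DD δ F (P ^ m) = m * P ^ m * DD δ F P := by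
  induction m with
  | zero => rw [pow_zero, DD_one]; simp
  | succ m ih =>
    rw [pow_succ, DD_mul, mul_add]
    have h1 : P * (P * DD δ F (P ^ m)) = P * (m * P ^ m * DD δ F P) := by rw [ih]
    rw [h1]
    push_cast
    ring

/-- The differential equation of the approximate logarithms, modulo `F`. -/
theorem dvd_ode (δ : Der A) (F H V : A[X]) (hF : F.Monic) (M q : ℕ)
    (hq : ∀ a : A, (q : A) * a = 0 → a = 0) (h : F ∣ H ^ (M * q) - 1 - (q : A[X]) * V) :
    F ∣ H * DD δ F V - M * DD δ F H - M * q * (V * DD δ F H) := by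
  obtain ⟨g, hg⟩ := h
  have h1 : H ^ (M * q) = 1 + (q : A[X]) * V + F * g := by rw [← hg]; ring
  have h2 := mul_DD_pow δ F H (M * q)
  rw [h1, DD_add, DD_add, DD_one, DD_mul, DD_mul, DD_self, DD_natCast] at h2
  have h3 : (q : A[X]) * (H * DD δ F V - M * DD δ F H - M * q * (V * DD δ F H)) =
      F * (((M * q : ℕ) : A[X]) * g * DD δ F H - H * DD δ F g) := by
    push_cast at h2 ⊢
    linear_combination h2
  rw [← modByMonic_eq_zero_iff_dvd hF]
  set Z := H * DD δ F V - M * DD δ F H - M * q * (V * DD δ F H) with hZ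
  have h4 : ((q : A[X]) * Z) %ₘ F = 0 := by
    rw [modByMonic_eq_zero_iff_dvd hF, h3]
    exact dvd_mul_right _ _
  have h5 : (q : A[X]) * Z = (q : A) • Z := by
    rw [smul_eq_C_mul, C_eq_natCast]
  rw [h5, smul_modByMonic] at h4
  ext i
  have h6 := congrArg (fun P => coeff P i) h4
  simp only [coeff_smul, smul_eq_mul, coeff_zero] at h6
  rw [coeff_zero]
  exact hq _ h6

variable {B : Type*} [CommRing B]

theorem cw_map (δ : Der A) (δ' : Der B) (φ : A →+* B)
    (h : ∀ a, δ'.d (φ a) = φ (δ.d a)) (P : A[X]) : cw δ' (P.map φ) = (cw δ P).map φ := by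
  ext i
  rw [coeff_cw, coeff_map, coeff_map, coeff_cw, h]

theorem DD_map (δ : Der A) (δ' : Der B) (φ : A →+* B)
    (h : ∀ a, δ'.d (φ a) = φ (δ.d a)) (F P : A[X]) :
    DD δ' (F.map φ) (P.map φ) = (DD δ F P).map φ := by
  rw [DD, DD, cw_map δ δ' φ h, cw_map δ δ' φ h, derivative_map, derivative_map,
    Polynomial.map_sub, Polynomial.map_mul, Polynomial.map_mul]

/-- The chain rule. -/
theorem deriv_eval (δ : Der A) (P : A[X]) (x : A) :
    δ.d (P.eval x) = (cw δ P).eval x + (derivative P).eval x * δ.d x := by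
  rw [← Der.toD_apply, ← Der.toD_apply]
  induction P using Polynomial.induction_on' with
  | add P Q hP hQ =>
    rw [eval_add, map_add, hP, hQ, map_add, eval_add, derivative_add, eval_add]
    ring
  | monomial n a =>
    have h1 : cw δ (monomial n a) = monomial n (δ.d a) := by
      ext i
      rw [coeff_cw, coeff_monomial, coeff_monomial]
      split_ifs
      · rfl
      · exact map_zero _
    rw [← Der.toD_apply] at h1
    rw [h1, eval_monomial, eval_monomial, derivative_monomial, eval_monomial, Derivation.leibniz,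
      Derivation.leibniz_pow, smul_eq_mul, smul_eq_mul, nsmul_eq_mul, smul_eq_mul]
    ring

theorem DD_eval (δ : Der A) (F P : A[X]) (x : A) (hx : F.eval x = 0) :
    (DD δ F P).eval x = (derivative F).eval x * δ.d (P.eval x) := by
  have h1 := deriv_eval δ F x
  rw [hx, map_zero] at h1
  rw [DD, eval_sub, eval_mul, eval_mul, deriv_eval δ P x]
  linear_combination (derivative P).eval x * h1

end der

end Pool.Agent.Work.MP_59f3ad_nt

end

section

/-!
Analytic root functions near infinity of a monic polynomial in `ℤ[T][X]`.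
-/

open Polynomial Filter Topology Set
open scoped ContDiff

namespace Pool.Agent.Work.MP_59f3ad_nt

namespace AnRoots

/-- For large real parameters the specialisation is separable. -/
theorem exists_bound (F : ℤ[X][X]) (hF : F.Monic) (t0 : ℂ) (h0 : (F.map (evT t0)).Separable) :
    ∃ B : ℝ, ∀ t : ℝ, B < t → (F.map (evT t)).Separable := by
  by_cases hd : F.natDegree = 0
  · refine ⟨0, fun t _ => ?_⟩
    rw [hF.natDegree_eq_zero.1 hd, Polynomial.map_one]
    exact separable_one
  let D : ℤ[X] := resultant F (derivative F) F.natDegree (F.natDegree - 1)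
  have key : ∀ z : ℂ, (F.map (evT z)).Separable ↔ evT z D ≠ 0 := by
    intro z
    have h1 : evT z D = resultant (F.map (evT z)) (derivative (F.map (evT z))) := by
      have hn : (F.map (evT z)).natDegree = F.natDegree := hF.natDegree_map _
      have hn' : (derivative (F.map (evT z))).natDegree = F.natDegree - 1 := by
        apply natDegree_eq_of_degree_eq_some
        rw [degree_derivative (by rwa [hn]), hn]
      rw [hn, hn', derivative_map, resultant_map_map]
    rw [h1, Ne, resultant_eq_zero_iff]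
    have h2 : F.map (evT z) ≠ 0 := (hF.map _).ne_zero
    constructor
    · intro h3 h4
      exact h4.2 h3
    · intro h3
      by_contra h4
      exact h3 ⟨Or.inl h2, h4⟩
  have hD : evT t0 D ≠ 0 := (key t0).1 h0
  have hDC : D.map (Int.castRingHom ℂ) ≠ 0 := by
    intro h
    apply hD
    change eval₂ (Int.castRingHom ℂ) t0 D = 0
    rw [← eval_map, h, eval_zero]
  have hfin : ((fun t : ℝ => (t : ℂ)) ⁻¹' {z : ℂ | (D.map (Int.castRingHom ℂ)).IsRoot z}).Finite :=
    (finite_setOfPred_isRoot hDC).preimage Complex.ofReal_injective.injOn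
  obtain ⟨B, hB⟩ := hfin.bddAbove
  refine ⟨B, fun t ht => (key t).2 fun h => ?_⟩
  have : t ≤ B := hB (by
    change eval (t : ℂ) (D.map (Int.castRingHom ℂ)) = 0
    rw [eval_map]
    exact h)
  exact absurd this (not_le.2 ht)

/-- All the roots are among `d` distinct roots. -/
theorem complete {d : ℕ} {p : ℂ[X]} (hp : p.natDegree = d) (hp0 : p ≠ 0) {ζ : Fin d → ℂ}
    (hζ : Function.Injective ζ) (hr : ∀ j, p.eval (ζ j) = 0) {z : ℂ} (hz : p.eval z = 0) :
    ∃ j, ζ j = z := by
  by_contra hcon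
  push Not at hcon
  apply hp0
  let f : Option (Fin d) → ℂ := fun o => o.elim z ζ
  apply eq_zero_of_natDegree_lt_card_of_eval_eq_zero p (f := f)
  · intro x y hxy
    rcases x with _ | x <;> rcases y with _ | y
    · rfl
    · exact absurd hxy.symm (hcon y)
    · exact absurd hxy (hcon x)
    · exact congrArg some (hζ hxy)
  · intro o
    rcases o with _ | j
    · exact hz
    · exact hr j
  · rw [hp, Fintype.card_option, Fintype.card_fin]
    exact Nat.lt_succ_self d

/-- A separable polynomial of degree `d` has `d` distinct roots. -/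
theorem exists_roots {d : ℕ} {p : ℂ[X]} (hp : p.natDegree = d) (hs : p.Separable) :
    ∃ ζ : Fin d → ℂ, Function.Injective ζ ∧ ∀ j, p.eval (ζ j) = 0 := by
  classical
  have hcard : p.roots.toFinset.card = d := by
    rw [Multiset.toFinset_card_of_nodup (nodup_roots hs),
      ← (IsAlgClosed.splits p).natDegree_eq_card_roots, hp]
  let e := (p.roots.toFinset.equivFinOfCardEq hcard).symm
  refine ⟨fun j => (e j : ℂ), fun i j h => e.injective (Subtype.ext h), fun j => ?_⟩
  have := (e j).2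
  rw [Multiset.mem_toFinset, mem_roots'] at this
  exact this.2

/-- the family as a function of two variables -/
noncomputable def ff (F : ℤ[X][X]) (p : ℝ × ℂ) : ℂ := (F.map (evT (p.1 : ℂ))).eval p.2

theorem evT_contDiff (a : ℤ[X]) : ContDiff ℝ ω (fun p : ℝ × ℂ => evT (p.1 : ℂ) a) := by
  have h : (fun p : ℝ × ℂ => evT (p.1 : ℂ) a) = fun p : ℝ × ℂ =>
      ∑ i ∈ Finset.range (a.natDegree + 1), ((a.coeff i : ℤ) : ℂ) * (p.1 : ℂ) ^ i := by
    funext p
    change eval₂ (Int.castRingHom ℂ) _ a = _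
    rw [eval₂_eq_sum_range]
    rfl
  rw [h]
  refine ContDiff.sum fun i _ => contDiff_const.mul (ContDiff.pow ?_ _)
  exact Complex.ofRealCLM.contDiff.comp contDiff_fst

theorem ff_contDiff (F : ℤ[X][X]) : ContDiff ℝ ω (ff F) := by
  have h : ff F = fun p : ℝ × ℂ =>
      ∑ i ∈ Finset.range (F.natDegree + 1), evT (p.1 : ℂ) (F.coeff i) * p.2 ^ i := by
    funext p
    rw [ff, eval_map, eval₂_eq_sum_range]
  rw [h]
  exact ContDiff.sum fun i _ => (evT_contDiff _).mul (contDiff_snd.pow _)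

/-- The local analytic root through a simple root. -/
theorem exists_local (F : ℤ[X][X]) (t1 : ℝ) (z1 : ℂ) (hz : (F.map (evT (t1 : ℂ))).eval z1 = 0)
    (hz' : (derivative (F.map (evT (t1 : ℂ)))).eval z1 ≠ 0) :
    ∃ ζ : ℝ → ℂ, ζ t1 = z1 ∧ AnalyticAt ℝ ζ t1 ∧
      ∀ᶠ t : ℝ in 𝓝 t1, (F.map (evT (t : ℂ))).eval (ζ t) = 0 := by
  have hf : ContDiffAt ℝ ω (ff F) (t1, z1) := (ff_contDiff F).contDiffAt
  have hfd : HasFDerivAt (ff F) (fderiv ℝ (ff F) (t1, z1)) (t1, z1) :=
    (hf.differentiableAt (by simp)).hasFDerivAt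
  have h2 : HasFDerivAt (fun z : ℂ => ff F (t1, z))
      ((fderiv ℝ (ff F) (t1, z1)).comp (ContinuousLinearMap.inr ℝ ℝ ℂ)) z1 :=
    hfd.comp z1 (hasFDerivAt_prodMk_right t1 z1)
  have h3 : HasFDerivAt (fun z : ℂ => ff F (t1, z))
      ((((ContinuousLinearEquiv.unitsEquivAut ℂ (Units.mk0 _ hz')).restrictScalars ℝ :
        ℂ ≃L[ℝ] ℂ)) : ℂ →L[ℝ] ℂ) z1 := by
    have h4 : HasDerivAt (fun z : ℂ => ff F (t1, z))
        ((derivative (F.map (evT (t1 : ℂ)))).eval z1) z1 :=
      (F.map (evT (t1 : ℂ))).hasDerivAt z1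
    have h5 := h4.hasFDerivAt.restrictScalars ℝ
    convert! h5 using 1
  have hinv : ((fderiv ℝ (ff F) (t1, z1)).comp (ContinuousLinearMap.inr ℝ ℝ ℂ)).IsInvertible := by
    rw [h2.unique h3]
    exact ContinuousLinearMap.isInvertible_equiv
  have hn : (ω : ℕ∞ω) ≠ 0 := by simp
  refine ⟨hf.implicitFunction hn hinv, hf.implicitFunction_apply_self hn hinv, ?_, ?_⟩
  · exact (hf.contDiffAt_implicitFunction hn hinv).analyticAt
  · filter_upwards [hf.eventually_apply_implicitFunction hn hinv] with t ht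
    have h6 : ff F (t1, z1) = 0 := hz
    rw [h6] at ht
    exact ht

section Glue

variable {F : ℤ[X][X]} {B0 : ℝ}

/-- `z` is a root at the parameter `t` -/
def Rt (F : ℤ[X][X]) (t : ℝ) (z : ℂ) : Prop := (F.map (evT (t : ℂ))).eval z = 0

/-- a local system of roots at `t1` -/
structure LocSys (F : ℤ[X][X]) (t1 : ℝ) (ζ : Fin F.natDegree → ℝ → ℂ) : Prop where
  an : ∀ j, AnalyticAt ℝ (ζ j) t1
  inj : Function.Injective fun j => ζ j t1
  rt : ∀ᶠ t in 𝓝 t1, ∀ j, Rt F t (ζ j t)

theorem exists_locSys (hF : F.Monic) {t1 : ℝ} (hs : (F.map (evT (t1 : ℂ))).Separable) :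
    ∃ ζ, LocSys F t1 ζ := by
  obtain ⟨z, hz, hr⟩ := exists_roots (hF.natDegree_map _) hs
  have hz' : ∀ j, (derivative (F.map (evT (t1 : ℂ)))).eval (z j) ≠ 0 := by
    intro j h0
    obtain ⟨u, v, huv⟩ := hs
    have := congrArg (eval (z j)) huv
    rw [eval_add, eval_mul, eval_mul, hr j, h0, eval_one, mul_zero, mul_zero, add_zero] at this
    exact zero_ne_one this
  choose ζ h1 h2 h3 using fun j => exists_local F t1 (z j) (hr j) (hz' j)
  refine ⟨ζ, h2, ?_, eventually_all.2 h3⟩
  simp only [h1]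
  exact hz

theorem LocSys.eventually_inj {t1 : ℝ} {ζ : Fin F.natDegree → ℝ → ℂ} (h : LocSys F t1 ζ) :
    ∀ᶠ t in 𝓝 t1, Function.Injective fun j => ζ j t := by
  have h1 : ∀ i j : Fin F.natDegree, i ≠ j → ∀ᶠ t in 𝓝 t1, ζ i t ≠ ζ j t := by
    intro i j hij
    have h2 : ContinuousAt (fun t => ζ i t - ζ j t) t1 :=
      (h.an i).continuousAt.sub (h.an j).continuousAt
    have h3 : ζ i t1 - ζ j t1 ≠ 0 := by
      rw [sub_ne_zero]
      exact fun h' => hij (h.inj h')
    filter_upwards [h2.eventually_ne h3] with t ht h4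
    exact ht (sub_eq_zero.2 h4)
  have h2 : ∀ᶠ t in 𝓝 t1, ∀ i j : Fin F.natDegree, i ≠ j → ζ i t ≠ ζ j t := by
    simp only [eventually_all]
    exact h1
  filter_upwards [h2] with t ht i j hij
  by_contra hne
  exact ht i j hne hij

/-- local uniqueness -/
theorem LocSys.unique (hF : F.Monic) {t1 : ℝ} {ζ : Fin F.natDegree → ℝ → ℂ} (h : LocSys F t1 ζ)
    {s : Set ℝ} {ξ : ℝ → ℂ} (hξ : ContinuousWithinAt ξ s t1) (hr : ∀ t ∈ s, Rt F t (ξ t))
    {j : Fin F.natDegree} (hj : ξ t1 = ζ j t1) : ∀ᶠ t in 𝓝[s] t1, ξ t = ζ j t := by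
  have h1 : ∀ k, k ≠ j → ∀ᶠ t in 𝓝[s] t1, ξ t ≠ ζ k t := by
    intro k hk
    have h2 : ContinuousWithinAt (fun t => ξ t - ζ k t) s t1 :=
      hξ.sub (h.an k).continuousAt.continuousWithinAt
    have h3 : ξ t1 - ζ k t1 ≠ 0 := by
      rw [hj, sub_ne_zero]
      exact fun h' => hk (h.inj h').symm
    filter_upwards [h2.eventually_ne h3] with t ht h4
    exact ht (sub_eq_zero.2 h4)
  have h2 : ∀ᶠ t in 𝓝[s] t1, ∀ k, k ≠ j → ξ t ≠ ζ k t := by
    simp only [eventually_all]
    exact h1
  filter_upwards [h2, nhdsWithin_le_nhds h.eventually_inj, nhdsWithin_le_nhds h.rt,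
    self_mem_nhdsWithin] with t ht hinj hrt hts
  obtain ⟨k, hk⟩ := complete (hF.natDegree_map _) (hF.map _).ne_zero hinj hrt (hr t hts)
  by_cases hkj : k = j
  · rw [← hkj]
    exact hk.symm
  · exact absurd hk.symm (ht k hkj)

/-- uniqueness -/
theorem unique (hF : F.Monic) (hB : ∀ t : ℝ, B0 < t → (F.map (evT (t : ℂ))).Separable)
    {s : Set ℝ} (hs : IsPreconnected s) (hsB : ∀ t ∈ s, B0 < t) {ξ η : ℝ → ℂ}
    (hξ : ContinuousOn ξ s) (hη : ContinuousOn η s) (hrξ : ∀ t ∈ s, Rt F t (ξ t))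
    (hrη : ∀ t ∈ s, Rt F t (η t)) {t0 : ℝ} (ht0 : t0 ∈ s) (h0 : ξ t0 = η t0) {t : ℝ} (ht : t ∈ s) :
    ξ t = η t := by
  have key : (ξ t0 = η t0 ↔ ξ t = η t) := by
    refine hs.induction₂ (fun x y => (ξ x = η x ↔ ξ y = η y)) ?_ ?_ ?_ ht0 ht
    · intro x hx
      by_cases hxe : ξ x = η x
      · obtain ⟨ζ, hζ⟩ := exists_locSys hF (hB x (hsB x hx))
        obtain ⟨j, hj⟩ := complete (hF.natDegree_map _) (hF.map _).ne_zero hζ.inj
          (fun j => hζ.rt.self_of_nhds j) (hrξ x hx)
        filter_upwards [hζ.unique hF (hξ x hx) hrξ hj.symm,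
          hζ.unique hF (hη x hx) hrη (hxe.symm.trans hj.symm)] with y h1 h2
        rw [h1, h2]
        exact ⟨fun _ => rfl, fun _ => hxe⟩
      · have h1 : ContinuousWithinAt (fun t => ξ t - η t) s x := (hξ x hx).sub (hη x hx)
        filter_upwards [h1.eventually_ne (sub_ne_zero.2 hxe)] with y hy
        exact ⟨fun h => absurd h hxe, fun h => absurd (sub_eq_zero.2 h) hy⟩
    · intro x y z _ _ _ h1 h2
      exact h1.trans h2
    · intro x y _ _ h1
      exact h1.symm
  exact key.1 h0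

/-- a system of roots on `[t0, b]` with given initial values -/
structure Sys (F : ℤ[X][X]) (t0 b : ℝ) (z : Fin F.natDegree → ℂ)
    (ξ : Fin F.natDegree → ℝ → ℂ) : Prop where
  cont : ∀ j, ContinuousOn (ξ j) (Icc t0 b)
  inj : ∀ t ∈ Icc t0 b, Function.Injective fun j => ξ j t
  rt : ∀ t ∈ Icc t0 b, ∀ j, Rt F t (ξ j t)
  init : ∀ j, ξ j t0 = z j

theorem Sys.restrict {t0 a b : ℝ} (hab : a ≤ b) {z : Fin F.natDegree → ℂ}
    {ξ : Fin F.natDegree → ℝ → ℂ} (h : Sys F t0 b z ξ) : Sys F t0 a z ξ where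
  cont := fun j => (h.cont j).mono (Icc_subset_Icc_right hab)
  inj := fun t ht => h.inj t (Icc_subset_Icc_right hab ht)
  rt := fun t ht => h.rt t (Icc_subset_Icc_right hab ht)
  init := h.init

theorem Sys.glue (hF : F.Monic) {t0 a b : ℝ} (h0a : t0 ≤ a) (hab : a ≤ b)
    {z : Fin F.natDegree → ℂ} {ξ ζ : Fin F.natDegree → ℝ → ℂ} (h : Sys F t0 a z ξ)
    (hc : ∀ j, ContinuousOn (ζ j) (Icc a b))
    (hi : ∀ t ∈ Icc a b, Function.Injective fun j => ζ j t)
    (hr : ∀ t ∈ Icc a b, ∀ j, Rt F t (ζ j t)) : ∃ η, Sys F t0 b z η := by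
  have haI : a ∈ Icc a b := ⟨le_rfl, hab⟩
  have haI' : a ∈ Icc t0 a := ⟨h0a, le_rfl⟩
  choose σ hσ using fun j => complete (hF.natDegree_map _) (hF.map _).ne_zero (hi a haI)
    (hr a haI) (h.rt a haI' j)
  have hσi : Function.Injective σ := by
    intro i j hij
    apply h.inj a haI'
    change ξ i a = ξ j a
    rw [← hσ i, ← hσ j, hij]
  let η : Fin F.natDegree → ℝ → ℂ := fun j t => if t ≤ a then ξ j t else ζ (σ j) t
  have e1 : ∀ j, EqOn (η j) (ξ j) (Icc t0 a) := fun j t ht => if_pos ht.2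
  have e2 : ∀ j, EqOn (η j) (ζ (σ j)) (Icc a b) := by
    intro j t ht
    rcases eq_or_lt_of_le ht.1 with h1 | h1
    · subst h1
      change (if a ≤ a then ξ j a else ζ (σ j) a) = _
      rw [if_pos le_rfl]
      exact (hσ j).symm
    · exact if_neg (not_le.2 h1)
  have hun : Icc t0 b = Icc t0 a ∪ Icc a b := (Icc_union_Icc_eq_Icc h0a hab).symm
  refine ⟨η, ⟨fun j => ?_, ?_, ?_, fun j => ?_⟩⟩
  · rw [hun]
    exact ((h.cont j).congr (e1 j)).union_of_isClosed ((hc (σ j)).congr (e2 j)) isClosed_Icc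
      isClosed_Icc
  · intro t ht i j hij
    rw [hun] at ht
    rcases ht with ht | ht
    · apply h.inj t ht
      change η i t = η j t at hij
      rw [e1 i ht, e1 j ht] at hij
      exact hij
    · apply hσi
      apply hi t ht
      change η i t = η j t at hij
      rw [e2 i ht, e2 j ht] at hij
      exact hij
  · intro t ht j
    rw [hun] at ht
    rcases ht with ht | ht
    · rw [e1 j ht]
      exact h.rt t ht j
    · rw [e2 j ht]
      exact hr t ht (σ j)
  · rw [e1 j ⟨le_rfl, h0a⟩]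
    exact h.init j

theorem exists_sys (hF : F.Monic) (hB : ∀ t : ℝ, B0 < t → (F.map (evT (t : ℂ))).Separable)
    {t0 : ℝ} (ht0 : B0 < t0) {z : Fin F.natDegree → ℂ} (hz : Function.Injective z)
    (hr : ∀ j, Rt F t0 (z j)) {b : ℝ} (hb : t0 ≤ b) : ∃ ξ, Sys F t0 b z ξ := by
  have key : (∃ ξ, Sys F t0 t0 z ξ) ↔ ∃ ξ, Sys F t0 b z ξ := by
    refine (isPreconnected_Ici (a := t0)).induction₂
      (fun x y => ((∃ ξ, Sys F t0 x z ξ) ↔ ∃ ξ, Sys F t0 y z ξ)) ?_ ?_ ?_ (mem_Ici.2 le_rfl)
      (mem_Ici.2 hb)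
    · intro x hx
      obtain ⟨ζ, hζ⟩ := exists_locSys hF (hB x (lt_of_lt_of_le ht0 hx))
      have hall : ∀ᶠ t in 𝓝 x, (∀ j, AnalyticAt ℝ (ζ j) t) ∧ (Function.Injective fun j => ζ j t) ∧
          ∀ j, Rt F t (ζ j t) :=
        (eventually_all.2 fun j => (hζ.an j).eventually_analyticAt).and
          (hζ.eventually_inj.and hζ.rt)
      obtain ⟨ε, hε, hball⟩ := Metric.eventually_nhds_iff_ball.1 hall
      have hlocal : ∀ p q : ℝ, p ∈ Metric.ball x ε → q ∈ Metric.ball x ε →
          (∀ j, ContinuousOn (ζ j) (Icc p q)) ∧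
          (∀ t ∈ Icc p q, Function.Injective fun j => ζ j t) ∧
          (∀ t ∈ Icc p q, ∀ j, Rt F t (ζ j t)) := by
        intro p q hp hq
        have hsub : Icc p q ⊆ Metric.ball x ε := by
          rw [Real.ball_eq_Ioo] at *
          exact fun t ht => ⟨lt_of_lt_of_le hp.1 ht.1, lt_of_le_of_lt ht.2 hq.2⟩
        exact ⟨fun j t ht => ((hball t (hsub ht)).1 j).continuousAt.continuousWithinAt,
          fun t ht => (hball t (hsub ht)).2.1, fun t ht => (hball t (hsub ht)).2.2⟩
      filter_upwards [self_mem_nhdsWithin, nhdsWithin_le_nhds (Metric.ball_mem_nhds x hε)]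
        with y hy hyb
      constructor
      · rintro ⟨ξ, hξ⟩
        rcases le_total y x with hyx | hxy
        · exact ⟨ξ, hξ.restrict hyx⟩
        · obtain ⟨h1, h2, h3⟩ := hlocal x y (Metric.mem_ball_self hε) hyb
          exact hξ.glue hF hx hxy h1 h2 h3
      · rintro ⟨ξ, hξ⟩
        rcases le_total x y with hxy | hyx
        · exact ⟨ξ, hξ.restrict hxy⟩
        · obtain ⟨h1, h2, h3⟩ := hlocal y x hyb (Metric.mem_ball_self hε)
          exact hξ.glue hF hy hyx h1 h2 h3
    · intro x y z _ _ _ h1 h2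
      exact h1.trans h2
    · intro x y _ _ h1
      exact h1.symm
  refine key.1 ⟨fun j _ => z j, ⟨fun j => continuousOn_const, fun t _ => hz, fun t ht j => ?_,
    fun j => rfl⟩⟩
  have : t = t0 := le_antisymm ht.2 ht.1
  rw [this]
  exact hr j

end Glue

end AnRoots

open AnRoots in
theorem exists_analytic_roots (F : ℤ[X][X]) (hF : F.Monic) (t0 : ℂ)
    (h0 : (F.map (evT t0)).Separable) :
    ∃ (B : ℝ) (ξ : Fin F.natDegree → ℝ → ℂ), (∀ j, AnalyticOnNhd ℝ (ξ j) (Set.Ioi B)) ∧
      ∀ t : ℝ, B < t → Function.Injective (fun j => ξ j t) ∧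
        ∀ j, (F.map (evT t)).eval (ξ j t) = 0 := by
  obtain ⟨B0, hB⟩ := exists_bound F hF t0 h0
  let b : ℝ := B0 + 1
  have hb : B0 < b := lt_add_one B0
  obtain ⟨z, hz, hr⟩ := exists_roots (hF.natDegree_map _) (hB b hb)
  have hex : ∀ t : ℝ, ∃ ξ, b ≤ t → Sys F b t z ξ := by
    intro t
    by_cases ht : b ≤ t
    · obtain ⟨ξ, hξ⟩ := exists_sys hF hB hb hz hr ht
      exact ⟨ξ, fun _ => hξ⟩
    · exact ⟨fun _ _ => 0, fun h => absurd h ht⟩
  choose Ξ hΞ using hex
  let ξ : Fin F.natDegree → ℝ → ℂ := fun j t => Ξ t j t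
  have hcoin : ∀ {s t : ℝ}, b ≤ t → t ≤ s → ∀ j, ξ j t = Ξ s j t := by
    intro s t hbt hts j
    have h1 := hΞ t hbt
    have h2 := (hΞ s (hbt.trans hts)).restrict hts
    exact unique hF hB isPreconnected_Icc (fun u hu => lt_of_lt_of_le hb hu.1) (h1.cont j)
      (h2.cont j) (fun u hu => h1.rt u hu j) (fun u hu => h2.rt u hu j) ⟨le_rfl, hbt⟩
      ((h1.init j).trans (h2.init j).symm) ⟨hbt, le_rfl⟩
  refine ⟨b, ξ, fun j t ht => ?_, fun t ht => ⟨?_, fun j => ?_⟩⟩
  · have ht : b < t := ht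
    have hs := hΞ (t + 1) (by linarith)
    obtain ⟨ζ, hζ⟩ := exists_locSys hF (hB t (hb.trans ht))
    have htI : t ∈ Icc b (t + 1) := ⟨ht.le, by linarith⟩
    obtain ⟨k, hk⟩ := complete (hF.natDegree_map _) (hF.map _).ne_zero hζ.inj
      (fun j => hζ.rt.self_of_nhds j) (hs.rt t htI j)
    have h1 := hζ.unique hF (hs.cont j t htI) (fun u hu => hs.rt u hu j) hk.symm
    have hnb : Icc b (t + 1) ∈ 𝓝 t := Icc_mem_nhds ht (by linarith)
    rw [nhdsWithin_eq_nhds.2 hnb] at h1
    refine (hζ.an k).congr ?_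
    filter_upwards [h1, hnb] with u hu huI
    rw [hcoin huI.1 huI.2, hu]
  · exact (hΞ t ht.le).inj t ⟨ht.le, le_rfl⟩
  · exact (hΞ t ht.le).rt t ⟨ht.le, le_rfl⟩ j

end Pool.Agent.Work.MP_59f3ad_nt

end

section

/-!
# Counting bad points of a box along parallel lines
-/

namespace Pool.Agent.Work.MP_59f3ad_nt

theorem ncard_biUnion_le_sum {α ι : Type*} [DecidableEq ι] (f : ι → Set α) (P : Finset ι) :
    (⋃ p ∈ P, f p).ncard ≤ ∑ p ∈ P, (f p).ncard := by
  induction P using Finset.induction_on with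
  | empty => simp
  | insert a s has ih =>
    rw [Finset.sum_insert has, Finset.set_biUnion_insert]
    refine (Set.ncard_union_le _ _).trans ?_
    omega

theorem box_count {σ : Type*} [Fintype σ] (v : σ → ℤ) (i0 : σ) (hv : v i0 ≠ 0) :
    ∃ C : ℕ, ∀ (N : ℕ) (Z : (σ → ℤ) → Set ℤ), (∀ y, (Z y).Finite ∧ (Z y).ncard ≤ N) →
      ∀ H : ℕ, 1 ≤ H →
      {t : σ → ℤ | (∀ i, |t i| ≤ H) ∧ t i0 / v i0 ∈ Z (fun i => t i - t i0 / v i0 * v i)}.ncard ≤
        C * N * H ^ (Fintype.card σ - 1) := by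
  classical
  set V : ℤ := ∑ i, |v i| with hV
  have hVi : ∀ i, |v i| ≤ V := fun i =>
    Finset.single_le_sum (f := fun i => |v i|) (fun j _ => abs_nonneg _) (Finset.mem_univ i)
  have hV0 : 0 ≤ V := (abs_nonneg _).trans (hVi i0)
  set B : ℕ := 1 + V.toNat with hB
  have hBV : (B : ℤ) = 1 + V := by
    rw [hB]; push_cast; rw [Int.toNat_of_nonneg hV0]
  refine ⟨(|v i0|).toNat * (3 * B) ^ (Fintype.card σ - 1), fun N Z hZ H hH => ?_⟩
  set Y : Finset (σ → ℤ) := Fintype.piFinset (fun i =>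
    if i = i0 then Finset.Ico 0 |v i0| else Finset.Icc (-((B * H : ℕ) : ℤ)) ((B * H : ℕ) : ℤ))
    with hY
  have hYcard : Y.card = (|v i0|).toNat * (2 * (B * H) + 1) ^ (Fintype.card σ - 1) := by
    rw [hY, Fintype.card_piFinset, ← Finset.mul_prod_erase Finset.univ _ (Finset.mem_univ i0)]
    rw [if_pos rfl, Int.card_Ico, sub_zero]
    congr 1
    rw [Finset.prod_congr rfl (g := fun _ => 2 * (B * H) + 1)]
    · rw [Finset.prod_const, Finset.card_erase_of_mem (Finset.mem_univ i0), Finset.card_univ]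
    · intro i hi
      rw [if_neg (Finset.ne_of_mem_erase hi), Int.card_Icc]
      omega
  have hsub : {t : σ → ℤ | (∀ i, |t i| ≤ H) ∧
      t i0 / v i0 ∈ Z (fun i => t i - t i0 / v i0 * v i)} ⊆
      ⋃ y ∈ Y, (fun s : ℤ => fun i => y i + s * v i) '' Z y := by
    rintro t ⟨ht, htZ⟩
    simp only [Set.mem_iUnion]
    refine ⟨fun i => t i - t i0 / v i0 * v i, ?_, t i0 / v i0, htZ, ?_⟩
    · rw [hY, Fintype.mem_piFinset]
      intro i
      by_cases hi : i = i0
      · rw [if_pos hi, hi, Finset.mem_Ico]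
        have h1 : t i0 - t i0 / v i0 * v i0 = t i0 % v i0 := by
          have := Int.emod_add_mul_ediv (t i0) (v i0)
          linarith [mul_comm (v i0) (t i0 / v i0)]
        rw [h1]
        exact ⟨Int.emod_nonneg _ hv, Int.emod_lt_abs _ hv⟩
      · rw [if_neg hi, Finset.mem_Icc, ← abs_le]
        have h1 : |t i0 / v i0| ≤ H := by
          refine le_trans ?_ (ht i0)
          rw [Int.abs_eq_natAbs, Int.abs_eq_natAbs]
          exact_mod_cast Int.natAbs_ediv_le_natAbs _ _
        calc |t i - t i0 / v i0 * v i| ≤ |t i| + |t i0 / v i0 * v i| := abs_sub _ _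
          _ ≤ H + H * V := by
              rw [abs_mul]
              exact add_le_add (ht i) (mul_le_mul h1 (hVi i) (abs_nonneg _) (by positivity))
          _ = ((B * H : ℕ) : ℤ) := by push_cast; rw [hBV]; ring
    · funext i
      ring
  have hfinU : (⋃ y ∈ Y, (fun s : ℤ => fun i => y i + s * v i) '' Z y).Finite :=
    Y.finite_toSet.biUnion (fun y _ => ((hZ y).1).image _)
  calc _ ≤ (⋃ y ∈ Y, (fun s : ℤ => fun i => y i + s * v i) '' Z y).ncard :=
        Set.ncard_le_ncard hsub hfinU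
    _ ≤ ∑ y ∈ Y, ((fun s : ℤ => fun i => y i + s * v i) '' Z y).ncard :=
        ncard_biUnion_le_sum _ _
    _ ≤ ∑ _y ∈ Y, N := Finset.sum_le_sum fun y _ =>
        (Set.ncard_image_le (hZ y).1).trans (hZ y).2
    _ = Y.card * N := by rw [Finset.sum_const, smul_eq_mul]
    _ ≤ ((|v i0|).toNat * (3 * B * H) ^ (Fintype.card σ - 1)) * N := by
        rw [hYcard]
        have hB1 : 1 ≤ B * H := Nat.mul_pos (by omega) hH
        gcongr
        nlinarith
    _ = _ := by rw [mul_pow]; ring

theorem density_bound_box {σ : Type*} [Fintype σ] [Nonempty σ] (Bad : ℕ → Set (σ → ℤ)) (C : ℕ)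
    (hBad : ∀ p : ℕ, p.Prime → ∀ H : ℕ, 1 ≤ H →
      {t : σ → ℤ | (∀ i, |t i| ≤ H) ∧ t ∈ Bad p}.ncard ≤ C * p * H ^ (Fintype.card σ - 1)) :
    ∃ C' : ℝ, ∀ H : ℕ, 2 ≤ H →
      ({t : σ → ℤ | (∀ i, |t i| ≤ H) ∧ ∃ p : ℕ, p.Prime ∧ p ^ 2 ≤ H ∧ t ∈ Bad p}.ncard : ℝ) ≤
        C' * (H : ℝ) ^ (Fintype.card σ) / Real.log H := by
  classical
  refine ⟨20 * C, fun X hX => ?_⟩
  set S : Set (σ → ℤ) := {t : σ → ℤ | (∀ i, |t i| ≤ X) ∧
    ∃ p : ℕ, p.Prime ∧ p ^ 2 ≤ X ∧ t ∈ Bad p} with hS
  have hbox : {t : σ → ℤ | ∀ i, |t i| ≤ X}.Finite := by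
    apply (Fintype.piFinset (fun _ : σ => Finset.Icc (-(X : ℤ)) X)).finite_toSet.subset
    intro t ht
    rw [Finset.mem_coe, Fintype.mem_piFinset]
    intro i
    rw [Finset.mem_Icc]
    exact abs_le.mp (ht i)
  have hX1 : (1 : ℝ) < (X : ℝ) := by exact_mod_cast hX
  have hlogX : 0 < Real.log X := Real.log_pos hX1
  set y := Nat.sqrt X with hy
  have hyX : y * y ≤ X := Nat.sqrt_le X
  by_cases hy2 : 2 ≤ y
  · -- main case
    set P := (Finset.range (y + 1)).filter Nat.Prime with hP
    have hPp : ∀ p ∈ P, p.Prime := fun p hp => (Finset.mem_filter.mp hp).2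
    have hPy : ∀ p ∈ P, p ≤ y := fun p hp => by
      have := (Finset.mem_range.mp (Finset.mem_filter.mp hp).1); omega
    have hsub : S ⊆ ⋃ p ∈ P, {t : σ → ℤ | (∀ i, |t i| ≤ X) ∧ t ∈ Bad p} := by
      rintro t ⟨hb, p, hp, hpX, ht⟩
      simp only [Set.mem_iUnion]
      refine ⟨p, ?_, hb, ht⟩
      rw [hP, Finset.mem_filter, Finset.mem_range]
      refine ⟨?_, hp⟩
      have : p ≤ y := by
        rw [hy]; exact Nat.le_sqrt'.mpr hpX
      omega
    have hfinU : (⋃ p ∈ P, {t : σ → ℤ | (∀ i, |t i| ≤ X) ∧ t ∈ Bad p}).Finite :=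
      P.finite_toSet.biUnion (fun p _ => hbox.subset fun t ht => ht.1)
    have hcard : S.ncard ≤ C * y * X ^ (Fintype.card σ - 1) * P.card := by
      calc S.ncard ≤ (⋃ p ∈ P, {t : σ → ℤ | (∀ i, |t i| ≤ X) ∧ t ∈ Bad p}).ncard :=
            Set.ncard_le_ncard hsub hfinU
        _ ≤ ∑ p ∈ P, {t : σ → ℤ | (∀ i, |t i| ≤ X) ∧ t ∈ Bad p}.ncard :=
            ncard_biUnion_le_sum _ _
        _ ≤ ∑ _p ∈ P, C * y * X ^ (Fintype.card σ - 1) := by
            apply Finset.sum_le_sum
            intro p hp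
            refine (hBad p (hPp p hp) X (by omega)).trans ?_
            gcongr
            exact hPy p hp
        _ = C * y * X ^ (Fintype.card σ - 1) * P.card := by
            rw [Finset.sum_const, smul_eq_mul, mul_comm]
    have hPcard : P.card = Nat.primeCounting y := by
      rw [hP, Nat.primeCounting, Nat.primeCounting', Nat.count_eq_card_filter_range]
    have hpi := MP59f3adDensity.pi_le_nat y hy2
    rw [← hPcard] at hpi
    have hy1 : (1 : ℝ) < (y : ℝ) := by exact_mod_cast hy2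
    have hlogy : 0 < Real.log y := Real.log_pos hy1
    have hlogle : Real.log X ≤ 4 * Real.log y := by
      have h1 : X < (y + 1) * (y + 1) := Nat.lt_succ_sqrt X
      have h2 : X ≤ y ^ 4 := by
        have : y + 1 ≤ y * y := by nlinarith
        have h3 : (y + 1) * (y + 1) ≤ (y * y) * (y * y) := Nat.mul_le_mul this this
        calc X ≤ (y + 1) * (y + 1) := h1.le
          _ ≤ (y * y) * (y * y) := h3
          _ = y ^ 4 := by ring
      have h3 : (X : ℝ) ≤ (y : ℝ) ^ 4 := by exact_mod_cast h2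
      calc Real.log X ≤ Real.log ((y : ℝ) ^ 4) := Real.log_le_log (by linarith) h3
        _ = 4 * Real.log y := by rw [Real.log_pow]; norm_num
    have hyXr : (y : ℝ) * y ≤ X := by exact_mod_cast hyX
    have hC : (0 : ℝ) ≤ C := Nat.cast_nonneg C
    have hmain : (S.ncard : ℝ) ≤ C * y * (X : ℝ) ^ (Fintype.card σ - 1) * P.card := by
      exact_mod_cast hcard
    rw [le_div_iff₀ hlogX]
    have hcardnn : (0 : ℝ) ≤ P.card := Nat.cast_nonneg _
    have hpi' : (P.card : ℝ) * Real.log y ≤ 5 * y := by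
      rwa [le_div_iff₀ hlogy] at hpi
    have hE : (0 : ℝ) ≤ (X : ℝ) ^ (Fintype.card σ - 1) := by positivity
    have hXp : (X : ℝ) ^ (Fintype.card σ) = X * (X : ℝ) ^ (Fintype.card σ - 1) := by
      have : Fintype.card σ = (Fintype.card σ - 1) + 1 := by
        have := Fintype.card_pos (α := σ); omega
      conv_lhs => rw [this, pow_succ, mul_comm]
    calc (S.ncard : ℝ) * Real.log X
        ≤ (C * y * (X : ℝ) ^ (Fintype.card σ - 1) * P.card) * Real.log X :=
          mul_le_mul_of_nonneg_right hmain hlogX.le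
      _ ≤ (C * y * (X : ℝ) ^ (Fintype.card σ - 1) * P.card) * (4 * Real.log y) := by
          apply mul_le_mul_of_nonneg_left hlogle
          positivity
      _ = 4 * (C * y * (X : ℝ) ^ (Fintype.card σ - 1)) * (P.card * Real.log y) := by ring
      _ ≤ 4 * (C * y * (X : ℝ) ^ (Fintype.card σ - 1)) * (5 * y) := by
          apply mul_le_mul_of_nonneg_left hpi'
          positivity
      _ = 20 * C * (X : ℝ) ^ (Fintype.card σ - 1) * (y * y) := by ring
      _ ≤ 20 * C * (X : ℝ) ^ (Fintype.card σ - 1) * X := by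
          apply mul_le_mul_of_nonneg_left hyXr
          positivity
      _ = 20 * C * (X : ℝ) ^ (Fintype.card σ) := by rw [hXp]; ring
  · -- the set is empty
    have : S = ∅ := by
      ext t
      simp only [Set.mem_empty_iff_false, iff_false]
      rintro ⟨-, p, hp, hpX, -⟩
      have h1 : p ≤ y := by rw [hy]; exact Nat.le_sqrt'.mpr hpX
      have := hp.two_le
      omega
    rw [this, Set.ncard_empty]
    have : (0 : ℝ) ≤ 20 * C * (X : ℝ) ^ (Fintype.card σ) / Real.log X := by positivity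
    simpa using this

end Pool.Agent.Work.MP_59f3ad_nt

end

section

open Polynomial Filter Topology

namespace Pool.Agent.Work.MP_59f3ad_nt

/-- A function which is continuous near infinity and whose values approach a finite set
has a limit in this set. -/
theorem growth_cluster {X : Type*} [MetricSpace X] (f : ℝ → X) (S : Finset X) (B : ℝ)
    (hf : ContinuousOn f (Set.Ioi B))
    (h : ∀ ε : ℝ, 0 < ε → ∀ᶠ t in atTop, ∃ s ∈ S, dist (f t) s < ε) :
    ∃ s ∈ S, Tendsto f atTop (𝓝 s) := by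
  classical
  have h1 : ∀ᶠ δ : ℝ in 𝓝[>] 0, ∀ p ∈ S.offDiag, 2 * δ < dist p.1 p.2 := by
    rw [Filter.eventually_all_finset]
    intro p hp
    have hpos : 0 < dist p.1 p.2 := dist_pos.mpr (Finset.mem_offDiag.mp hp).2.2
    have : Tendsto (fun δ : ℝ => 2 * δ) (𝓝[>] 0) (𝓝 0) := by
      have h0 : Tendsto (fun δ : ℝ => 2 * δ) (𝓝 0) (𝓝 (2 * 0)) :=
        (tendsto_id (α := ℝ)).const_mul 2
      rw [mul_zero] at h0
      exact h0.mono_left nhdsWithin_le_nhds
    exact this.eventually_lt_const hpos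
  obtain ⟨δ, hδ, hδ0⟩ := (h1.and (self_mem_nhdsWithin : ∀ᶠ δ : ℝ in 𝓝[>] 0, δ ∈ Set.Ioi 0)).exists
  have hδ0 : 0 < δ := hδ0
  obtain ⟨T0, hT0⟩ := eventually_atTop.mp (h δ hδ0)
  set T := max T0 (B + 1) with hT
  have hT1 : ∀ t ≥ T, ∃ s ∈ S, dist (f t) s < δ := fun t ht => hT0 t (le_trans (le_max_left _ _) ht)
  obtain ⟨s0, hs0, hs0'⟩ := hT1 T le_rfl
  have hpre : IsPreconnected (f '' Set.Ici T) := by
    apply isPreconnected_Ici.image
    apply hf.mono
    intro t ht
    have : B + 1 ≤ t := le_trans (le_max_right _ _) ht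
    show B < t
    linarith
  have hsep : ∀ s ∈ S, s ≠ s0 → 2 * δ < dist s s0 := fun s hs hne =>
    hδ (s, s0) (Finset.mem_offDiag.mpr ⟨hs, hs0, hne⟩)
  have hsub : f '' Set.Ici T ⊆ Metric.ball s0 δ := by
    apply IsPreconnected.subset_left_of_subset_union (v := ⋃ s ∈ S.erase s0, Metric.ball s δ)
      Metric.isOpen_ball (isOpen_biUnion fun s _ => Metric.isOpen_ball)
    · rw [Set.disjoint_iUnion₂_right]
      intro s hs
      apply Metric.ball_disjoint_ball
      have := hsep s (Finset.mem_of_mem_erase hs) (Finset.ne_of_mem_erase hs)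
      rw [dist_comm] at this
      linarith
    · rintro _ ⟨t, ht, rfl⟩
      obtain ⟨s, hs, hs'⟩ := hT1 t ht
      by_cases hss : s = s0
      · left
        rw [← hss]
        exact hs'
      · right
        exact Set.mem_iUnion₂.mpr ⟨s, Finset.mem_erase.mpr ⟨hss, hs⟩, hs'⟩
    · exact ⟨f T, ⟨T, Set.mem_Ici.mpr le_rfl, rfl⟩, hs0'⟩
    · exact hpre
  refine ⟨s0, hs0, ?_⟩
  rw [Metric.tendsto_atTop]
  intro ε hε
  obtain ⟨T2, hT2⟩ := eventually_atTop.mp (h (min ε δ) (lt_min hε hδ0))
  refine ⟨max T T2, fun t ht => ?_⟩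
  obtain ⟨s, hs, hs'⟩ := hT2 t (le_trans (le_max_right _ _) ht)
  have h3 : dist (f t) s0 < δ := hsub ⟨t, le_trans (le_max_left _ _) ht, rfl⟩
  by_cases hss : s = s0
  · rw [← hss]
    exact lt_of_lt_of_le hs' (min_le_left _ _)
  · exfalso
    have h4 := hsep s hs hss
    have h5 : dist s s0 ≤ dist (f t) s + dist (f t) s0 := dist_triangle_left _ _ _
    have h6 := lt_of_lt_of_le hs' (min_le_right _ _)
    linarith

/-- If nonzero complex numbers have sum zero, then two of them are comparable. -/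
theorem growth_pair (S : Finset ℕ) (hS : S.Nonempty) (x : ℕ → ℂ) (hx : ∀ k ∈ S, x k ≠ 0)
    (hsum : ∑ k ∈ S, x k = 0) :
    ∃ k ∈ S, ∃ l ∈ S, k ≠ l ∧ |Real.log ‖x k‖ - Real.log ‖x l‖| ≤ Real.log S.card := by
  classical
  obtain ⟨k, hk, hmax⟩ := S.exists_max_image (fun k => ‖x k‖) hS
  have hcard : (0 : ℝ) < S.card := by exact_mod_cast hS.card_pos
  have hxk : 0 < ‖x k‖ := norm_pos_iff.mpr (hx k hk)
  have hex : ∃ l ∈ S.erase k, ‖x k‖ / S.card ≤ ‖x l‖ := by
    by_contra hcon
    push Not at hcon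
    have h1 : x k = - ∑ l ∈ S.erase k, x l := by
      rw [← Finset.add_sum_erase S x hk] at hsum
      exact eq_neg_of_add_eq_zero_left hsum
    have h2 : ‖x k‖ ≤ ∑ l ∈ S.erase k, ‖x l‖ := by
      conv_lhs => rw [h1, norm_neg]
      exact norm_sum_le _ _
    have h3 : ∑ l ∈ S.erase k, ‖x l‖ ≤ ∑ l ∈ S.erase k, ‖x k‖ / S.card :=
      Finset.sum_le_sum fun l hl => (hcon l hl).le
    rw [Finset.sum_const, Finset.card_erase_of_mem hk, nsmul_eq_mul] at h3
    have h4 : ((S.card - 1 : ℕ) : ℝ) < S.card := by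
      exact_mod_cast Nat.sub_lt hS.card_pos one_pos
    have h5 : ((S.card - 1 : ℕ) : ℝ) * (‖x k‖ / S.card) < S.card * (‖x k‖ / S.card) :=
      mul_lt_mul_of_pos_right h4 (div_pos hxk hcard)
    rw [mul_div_cancel₀ _ hcard.ne'] at h5
    linarith
  obtain ⟨l, hl, hl'⟩ := hex
  have hlS := Finset.mem_of_mem_erase hl
  refine ⟨k, hk, l, hlS, (Finset.ne_of_mem_erase hl).symm, ?_⟩
  have hxl : 0 < ‖x l‖ := norm_pos_iff.mpr (hx l hlS)
  have h1 : Real.log ‖x l‖ ≤ Real.log ‖x k‖ := Real.log_le_log hxl (hmax l hlS)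
  have h2 := Real.log_le_log (div_pos hxk hcard) hl'
  rw [Real.log_div hxk.ne' hcard.ne'] at h2
  rw [abs_of_nonneg (by linarith)]
  linarith

/-- The value of an integral polynomial divided by the leading power. -/
theorem growth_lead (a : ℤ[X]) :
    Tendsto (fun t : ℝ => evT (t : ℂ) a / (t : ℂ) ^ a.natDegree) atTop
      (𝓝 ((a.leadingCoeff : ℤ) : ℂ)) := by
  have h1 := (a.map (Int.castRingHom ℝ)).div_tendsto_atTop_leadingCoeff_div_of_degree_eq
    (X ^ a.natDegree : ℝ[X])
  by_cases ha : a = 0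
  · subst ha
    simp
  have h2 : (a.map (Int.castRingHom ℝ)).degree = (X ^ a.natDegree : ℝ[X]).degree := by
    rw [degree_map_eq_of_injective (RingHom.injective_int _), degree_X_pow,
      degree_eq_natDegree ha]
  have h3 := h1 h2
  rw [leadingCoeff_map_of_injective (RingHom.injective_int _), leadingCoeff_X_pow, div_one] at h3
  have h4 := (Complex.continuous_ofReal.tendsto _).comp h3
  have e1 : ((((Int.castRingHom ℝ) a.leadingCoeff : ℝ)) : ℂ) = ((a.leadingCoeff : ℤ) : ℂ) := by
    simp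
  rw [← e1]
  refine h4.congr fun t => ?_
  have e2 : evT (t : ℂ) a = ((eval t (a.map (Int.castRingHom ℝ)) : ℝ) : ℂ) := by
    rw [← Complex.ofRealHom_eq_coe, ← Complex.ofRealHom_eq_coe, eval_map, hom_eval₂]
    show eval₂ _ _ _ = _
    congr 1
  simp only [Function.comp_apply, eval_pow, eval_X]
  rw [e2]
  push_cast
  rfl

/-- The logarithm of the value of an integral polynomial divided by the leading power
is bounded. -/
theorem growth_log (a : ℤ[X]) (ha : a ≠ 0) :
    ∀ᶠ t : ℝ in atTop, evT (t : ℂ) a ≠ 0 ∧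
      |Real.log ‖evT (t : ℂ) a‖ - a.natDegree * Real.log t| ≤
        |Real.log ‖((a.leadingCoeff : ℤ) : ℂ)‖| + 1 := by
  have hl : ((a.leadingCoeff : ℤ) : ℂ) ≠ 0 := by
    exact_mod_cast leadingCoeff_ne_zero.mpr ha
  have h1 := growth_lead a
  have h2 : Tendsto (fun t : ℝ => Real.log ‖evT (t : ℂ) a / (t : ℂ) ^ a.natDegree‖) atTop
      (𝓝 (Real.log ‖((a.leadingCoeff : ℤ) : ℂ)‖)) :=
    (h1.norm).log (norm_ne_zero_iff.mpr hl)
  have h3 := (h1.eventually_ne hl)
  have h4 := (h2.abs).eventually_lt_const (lt_add_one _)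
  filter_upwards [h3, h4, eventually_gt_atTop 0] with t ht3 ht4 ht0
  have hne : evT (t : ℂ) a ≠ 0 := fun h => ht3 (by rw [h, zero_div])
  refine ⟨hne, ?_⟩
  have e1 : Real.log ‖evT (t : ℂ) a / (t : ℂ) ^ a.natDegree‖ =
      Real.log ‖evT (t : ℂ) a‖ - a.natDegree * Real.log t := by
    rw [norm_div, norm_pow, Complex.norm_real, Real.norm_of_nonneg ht0.le,
      Real.log_div (norm_ne_zero_iff.mpr hne) (pow_pos ht0 _).ne', Real.log_pow]
  rw [← e1]
  exact ht4.le

/-- The slopes of a bivariate polynomial. -/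
noncomputable def growthSlope (G : ℤ[X][X]) (p : ℕ × ℕ) : ℚ :=
  (((G.coeff p.2).natDegree : ℚ) - (G.coeff p.1).natDegree) / ((p.1 : ℚ) - p.2)

theorem growth_sum (G : ℤ[X][X]) (t : ℝ) (z : ℂ) :
    (G.map (evT t)).eval z = ∑ k ∈ G.support, evT t (G.coeff k) * z ^ k := by
  rw [eval_map, eval₂_eq_sum, sum_def]

theorem growth_slope (G : ℤ[X][X]) (hG : G ≠ 0) (B : ℝ) (h : ℝ → ℂ)
    (hc : ContinuousOn h (Set.Ioi B)) (h0 : ∀ t : ℝ, B < t → h t ≠ 0)
    (hroot : ∀ t : ℝ, B < t → (G.map (evT t)).eval (h t) = 0) :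
    ∃ (v : ℚ) (C : ℝ), ∀ᶠ t : ℝ in atTop, |Real.log ‖h t‖ - v * Real.log t| ≤ C := by
  classical
  have hSne : G.support.Nonempty := support_nonempty.mpr hG
  set D : ℝ := ∑ k ∈ G.support, (|Real.log ‖(((G.coeff k).leadingCoeff : ℤ) : ℂ)‖| + 1) with hD
  have hDk : ∀ k ∈ G.support,
      |Real.log ‖(((G.coeff k).leadingCoeff : ℤ) : ℂ)‖| + 1 ≤ D := by
    intro k hk
    exact Finset.single_le_sum
      (f := fun k => |Real.log ‖(((G.coeff k).leadingCoeff : ℤ) : ℂ)‖| + 1)
      (fun i _ => by positivity) hk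
  set C : ℝ := Real.log G.support.card + 2 * D with hC
  -- at every time one of the slopes is right
  have hkey : ∀ᶠ t : ℝ in atTop, ∃ p ∈ G.support.offDiag,
      |Real.log ‖h t‖ - (growthSlope G p : ℝ) * Real.log t| ≤ C := by
    have h1 : ∀ᶠ t : ℝ in atTop, ∀ k ∈ G.support, evT (t : ℂ) (G.coeff k) ≠ 0 ∧
      |Real.log ‖evT (t : ℂ) (G.coeff k)‖ - (G.coeff k).natDegree * Real.log t| ≤ D := by
      rw [Filter.eventually_all_finset]
      intro k hk
      filter_upwards [growth_log (G.coeff k) (mem_support_iff.mp hk)] with t ht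
      exact ⟨ht.1, ht.2.trans (hDk k hk)⟩
    filter_upwards [h1, eventually_gt_atTop B] with t ht htB
    have h2 := hroot t htB
    rw [growth_sum] at h2
    have hht := h0 t htB
    obtain ⟨k, hk, l, hl, hkl, h3⟩ := growth_pair G.support hSne
      (fun k => evT t (G.coeff k) * h t ^ k)
      (fun k hk => mul_ne_zero (ht k hk).1 (pow_ne_zero _ hht)) h2
    refine ⟨(k, l), Finset.mem_offDiag.mpr ⟨hk, hl, hkl⟩, ?_⟩
    have hlog : ∀ k ∈ G.support, Real.log ‖evT t (G.coeff k) * h t ^ k‖ =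
        Real.log ‖evT (t : ℂ) (G.coeff k)‖ + k * Real.log ‖h t‖ := by
      intro k hk
      rw [norm_mul, norm_pow, Real.log_mul (norm_ne_zero_iff.mpr (ht k hk).1)
        (pow_ne_zero _ (norm_ne_zero_iff.mpr hht)), Real.log_pow]
    rw [hlog k hk, hlog l hl] at h3
    have h4 := (ht k hk).2
    have h5 := (ht l hl).2
    have hkl' : ((k : ℝ) - l) ≠ 0 := by
      rw [sub_ne_zero]
      exact_mod_cast hkl
    have hkl1 : 1 ≤ |((k : ℝ) - l)| := by
      have : (1 : ℤ) ≤ |(k : ℤ) - l| := Int.one_le_abs (by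
        rw [sub_ne_zero]; exact_mod_cast hkl)
      exact_mod_cast this
    have h6 : Real.log ‖h t‖ - (growthSlope G (k, l) : ℝ) * Real.log t =
        (((k : ℝ) - l) * Real.log ‖h t‖ -
          (((G.coeff l).natDegree : ℝ) - (G.coeff k).natDegree) * Real.log t) / ((k : ℝ) - l) := by
      unfold growthSlope
      push_cast
      field_simp
    rw [h6, abs_div]
    have h7 : |((k : ℝ) - l) * Real.log ‖h t‖ -
          (((G.coeff l).natDegree : ℝ) - (G.coeff k).natDegree) * Real.log t| ≤ C := by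
      rw [abs_le] at h3 h4 h5 ⊢
      constructor <;> linarith [h3.1, h3.2, h4.1, h4.2, h5.1, h5.2]
    exact (div_le_self (abs_nonneg _) hkl1).trans h7
  -- the quotient converges
  have hlogt : Tendsto Real.log atTop atTop := Real.tendsto_log_atTop
  have hcl : ∃ s ∈ (G.support.offDiag.image fun p => (growthSlope G p : ℝ)),
      Tendsto (fun t => Real.log ‖h t‖ / Real.log t) atTop (𝓝 s) := by
    apply growth_cluster _ _ (max B 1)
    · apply ContinuousOn.div
      · apply ContinuousOn.log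
        · exact (hc.mono (fun t ht => Set.mem_Ioi.mpr
          (lt_of_le_of_lt (le_max_left _ _) (Set.mem_Ioi.mp ht)))).norm
        · intro t ht
          exact norm_ne_zero_iff.mpr (h0 t (lt_of_le_of_lt (le_max_left _ _) ht))
      · apply Real.continuousOn_log.mono
        intro t ht
        have : 1 < t := lt_of_le_of_lt (le_max_right _ _) ht
        exact (by linarith : (0:ℝ) < t).ne'
      · intro t ht
        have : 1 < t := lt_of_le_of_lt (le_max_right _ _) ht
        exact (Real.log_pos this).ne'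
    · intro ε hε
      have h8 : ∀ᶠ t : ℝ in atTop, C / ε < Real.log t := hlogt.eventually_gt_atTop _
      filter_upwards [hkey, h8, eventually_gt_atTop 1] with t ht1 ht2 ht3
      obtain ⟨p, hp, hp'⟩ := ht1
      refine ⟨(growthSlope G p : ℝ), Finset.mem_image.mpr ⟨p, hp, rfl⟩, ?_⟩
      have hlt : 0 < Real.log t := Real.log_pos ht3
      rw [Real.dist_eq]
      have e : Real.log ‖h t‖ / Real.log t - (growthSlope G p : ℝ) =
          (Real.log ‖h t‖ - (growthSlope G p : ℝ) * Real.log t) / Real.log t := by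
        field_simp
      rw [e, abs_div, abs_of_pos hlt, div_lt_iff₀ hlt]
      rw [div_lt_iff₀ hε] at ht2
      linarith
  obtain ⟨s, hs, hlim⟩ := hcl
  obtain ⟨p0, hp0, rfl⟩ := Finset.mem_image.mp hs
  refine ⟨growthSlope G p0, C, ?_⟩
  -- choose a separation
  have h9 : ∀ᶠ t : ℝ in atTop, ∀ p ∈ G.support.offDiag, growthSlope G p ≠ growthSlope G p0 →
      ¬ |Real.log ‖h t‖ - (growthSlope G p : ℝ) * Real.log t| ≤ C := by
    rw [Filter.eventually_all_finset]
    intro p hp
    by_cases hpp : growthSlope G p = growthSlope G p0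
    · exact Eventually.of_forall fun t h' => absurd hpp h'
    set δ : ℝ := |(growthSlope G p0 : ℝ) - growthSlope G p| with hδ
    have hδ0 : 0 < δ := abs_pos.mpr (sub_ne_zero.mpr (by exact_mod_cast Ne.symm hpp))
    have h10 := (Metric.tendsto_atTop.mp hlim) (δ / 2) (half_pos hδ0)
    obtain ⟨N, hN⟩ := h10
    have h11 : ∀ᶠ t : ℝ in atTop, C / (δ / 2) < Real.log t := hlogt.eventually_gt_atTop _
    filter_upwards [h11, eventually_ge_atTop N, eventually_gt_atTop 1] with t ht1 ht2 ht3 _ hcon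
    have h12 := hN t ht2
    have hlt : 0 < Real.log t := Real.log_pos ht3
    rw [Real.dist_eq] at h12
    have h13 : |Real.log ‖h t‖ / Real.log t - (growthSlope G p : ℝ)| < δ / 2 := by
      have e : Real.log ‖h t‖ / Real.log t - (growthSlope G p : ℝ) =
          (Real.log ‖h t‖ - (growthSlope G p : ℝ) * Real.log t) / Real.log t := by
        field_simp
      rw [e, abs_div, abs_of_pos hlt, div_lt_iff₀ hlt]
      rw [div_lt_iff₀ (half_pos hδ0)] at ht1
      linarith
    have h14 : δ ≤ |Real.log ‖h t‖ / Real.log t - (growthSlope G p0 : ℝ)| +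
        |Real.log ‖h t‖ / Real.log t - (growthSlope G p : ℝ)| := by
      calc δ = |(Real.log ‖h t‖ / Real.log t - (growthSlope G p : ℝ)) -
          (Real.log ‖h t‖ / Real.log t - (growthSlope G p0 : ℝ))| := by
            rw [hδ]; congr 1; ring
        _ ≤ _ := by
            refine (abs_sub _ _).trans ?_
            rw [add_comm]
    linarith
  filter_upwards [hkey, h9] with t ht1 ht2
  obtain ⟨p, hp, hp'⟩ := ht1
  by_cases hpp : growthSlope G p = growthSlope G p0
  · rw [← hpp]
    exact hp'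
  · exact absurd hp' (ht2 p hp hpp)

theorem growth_prod (m : Multiset ℂ) (z : ℂ) (ε : ℝ) (hε : 0 ≤ ε)
    (hm : ∀ s ∈ m, ε ≤ ‖z - s‖) : ε ^ m.card ≤ ‖(m.map fun s => z - s).prod‖ := by
  induction m using Multiset.induction_on with
  | empty => simp
  | cons a m ih =>
    rw [Multiset.card_cons, Multiset.map_cons, Multiset.prod_cons, norm_mul, pow_succ, mul_comm]
    exact mul_le_mul (hm a (Multiset.mem_cons_self _ _))
      (ih fun s hs => hm s (Multiset.mem_cons_of_mem hs)) (pow_nonneg hε _) (norm_nonneg _)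

theorem growth_near_root (W : ℂ[X]) (z : ℂ) (ε : ℝ) (hε : 0 < ε)
    (h : ‖W.eval z‖ < ‖W.leadingCoeff‖ * ε ^ W.natDegree) : ∃ s ∈ W.roots.toFinset,
      dist z s < ε := by
  by_contra hcon
  push Not at hcon
  have hs := IsAlgClosed.splits W
  have h1 := growth_prod W.roots z ε hε.le (fun s hs => by
    rw [← dist_eq_norm]
    exact hcon s (Multiset.mem_toFinset.mpr hs))
  have h2 : W.eval z = W.leadingCoeff * (W.roots.map fun s => z - s).prod :=
    hs.eval_eq_prod_roots z
  rw [h2, norm_mul] at h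
  rw [← hs.natDegree_eq_card_roots] at h1
  exact absurd h (not_lt.mpr (mul_le_mul_of_nonneg_left h1 (norm_nonneg _)))

/-- The growth exponent of an algebraic function at infinity. -/
theorem exists_growth (G : ℤ[X][X]) (hG : G ≠ 0) (B : ℝ) (h : ℝ → ℂ)
    (hc : ContinuousOn h (Set.Ioi B)) (h0 : ∀ t : ℝ, B < t → h t ≠ 0)
    (hroot : ∀ t : ℝ, B < t → (G.map (evT t)).eval (h t) = 0) :
    ∃ (e : ℕ) (m : ℤ) (c : ℂ), e ≠ 0 ∧ c ≠ 0 ∧
      Tendsto (fun t : ℝ => h t ^ e / (t : ℂ) ^ m) atTop (𝓝 c) := by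
  classical
  obtain ⟨v, C, hv⟩ := growth_slope G hG B h hc h0 hroot
  have hSne : G.support.Nonempty := support_nonempty.mpr hG
  set w : ℝ → ℂ := fun t => h t / ((t ^ (v : ℝ) : ℝ) : ℂ) with hw
  set β : ℕ → ℝ := fun k => ((G.coeff k).natDegree : ℝ) + v * k with hβ
  obtain ⟨k0, hk0, hmax⟩ := G.support.exists_max_image β hSne
  set L : ℕ → ℂ := fun k => if β k = β k0 then (((G.coeff k).leadingCoeff : ℤ) : ℂ) else 0 with hL
  set W : ℂ[X] := ∑ k ∈ G.support, Polynomial.C (L k) * X ^ k with hW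
  have hLk0 : L k0 ≠ 0 := by
    simp only [hL, if_true]
    exact_mod_cast leadingCoeff_ne_zero.mpr (mem_support_iff.mp hk0)
  have hW0 : W ≠ 0 := by
    intro h'
    have := congrArg (fun P => coeff P k0) h'
    simp only [hW, finsetSum_coeff, coeff_C_mul, coeff_X_pow, coeff_zero] at this
    rw [Finset.sum_eq_single k0] at this
    · rw [if_pos rfl, mul_one] at this
      exact hLk0 this
    · intro b _ hb
      rw [if_neg (Ne.symm hb), mul_zero]
    · intro h''
      exact absurd hk0 h''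
  have hwlog : ∀ᶠ t : ℝ in atTop, w t ≠ 0 ∧ |Real.log ‖w t‖| ≤ C := by
    filter_upwards [hv, eventually_gt_atTop B, eventually_gt_atTop 0] with t ht htB ht0
    have htv : 0 < t ^ (v : ℝ) := Real.rpow_pos_of_pos ht0 _
    have hne : ((t ^ (v : ℝ) : ℝ) : ℂ) ≠ 0 := by exact_mod_cast htv.ne'
    refine ⟨div_ne_zero (h0 t htB) hne, ?_⟩
    have e : Real.log ‖w t‖ = Real.log ‖h t‖ - v * Real.log t := by
      simp only [hw]
      rw [norm_div, Complex.norm_real, Real.norm_of_nonneg htv.le,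
        Real.log_div (norm_ne_zero_iff.mpr (h0 t htB)) htv.ne', Real.log_rpow ht0]
    rw [e]
    exact ht
  have hwub : ∀ᶠ t : ℝ in atTop, ‖w t‖ ≤ Real.exp C := by
    filter_upwards [hwlog] with t ht
    rw [← Real.log_le_iff_le_exp (norm_pos_iff.mpr ht.1)]
    exact (abs_le.mp ht.2).2
  have hwlb : ∀ᶠ t : ℝ in atTop, Real.exp (-C) ≤ ‖w t‖ := by
    filter_upwards [hwlog] with t ht
    rw [← Real.le_log_iff_exp_le (norm_pos_iff.mpr ht.1)]
    exact (abs_le.mp ht.2).1
  -- the coefficients converge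
  set g : ℕ → ℝ → ℂ := fun k t => evT (t : ℂ) (G.coeff k) / (t : ℂ) ^ (G.coeff k).natDegree *
    ((t ^ (β k - β k0) : ℝ) : ℂ) with hg
  have hgL : ∀ k ∈ G.support, Tendsto (g k) atTop (𝓝 (L k)) := by
    intro k hk
    have h1 := growth_lead (G.coeff k)
    by_cases hkk : β k = β k0
    · have h2 : L k = (((G.coeff k).leadingCoeff : ℤ) : ℂ) := by
        simp only [hL]
        rw [if_pos hkk]
      rw [h2]
      refine h1.congr fun t => ?_
      simp only [hg]
      rw [hkk, sub_self, Real.rpow_zero, Complex.ofReal_one, mul_one]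
    · have h2 : L k = (((G.coeff k).leadingCoeff : ℤ) : ℂ) * ((0 : ℝ) : ℂ) := by
        simp only [hL]
        rw [if_neg hkk, Complex.ofReal_zero, mul_zero]
      rw [h2]
      apply h1.mul
      apply (Complex.continuous_ofReal.tendsto _).comp
      have h3 : 0 < β k0 - β k := sub_pos.mpr (lt_of_le_of_ne (hmax k hk) hkk)
      have h4 := tendsto_rpow_neg_atTop h3
      rwa [neg_sub] at h4
  have hWw : Tendsto (fun t => W.eval (w t)) atTop (𝓝 0) := by
    have h1 : Tendsto (fun t => ∑ k ∈ G.support, (g k t - L k) * w t ^ k) atTop (𝓝 0) := by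
      rw [← Finset.sum_const_zero (s := G.support)]
      apply tendsto_finsetSum
      intro k hk
      have h2 : Tendsto (fun t => g k t - L k) atTop (𝓝 0) := by
        rw [← sub_self (L k)]
        exact (hgL k hk).sub_const _
      rw [tendsto_zero_iff_norm_tendsto_zero] at h2 ⊢
      have h3 : Tendsto (fun t => ‖g k t - L k‖ * (Real.exp C) ^ k) atTop (𝓝 0) := by
        have := h2.mul_const ((Real.exp C) ^ k)
        rwa [zero_mul] at this
      refine squeeze_zero' (Eventually.of_forall fun t => norm_nonneg _) ?_ h3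
      filter_upwards [hwub] with t ht
      rw [norm_mul, norm_pow]
      gcongr
    have h4 : Tendsto (fun t => - ∑ k ∈ G.support, (g k t - L k) * w t ^ k) atTop (𝓝 0) := by
      rw [← neg_zero]
      exact h1.neg
    refine h4.congr' ?_
    filter_upwards [eventually_gt_atTop B, eventually_gt_atTop 0] with t htB ht0
    have h5 : ∑ k ∈ G.support, g k t * w t ^ k = 0 := by
      have h6 := hroot t htB
      rw [growth_sum] at h6
      have h7 : ∀ k ∈ G.support, g k t * w t ^ k =
          ((t ^ (- β k0) : ℝ) : ℂ) * (evT t (G.coeff k) * h t ^ k) := by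
        intro k _
        simp only [hg, hw]
        have e1 : t ^ (β k - β k0) = t ^ ((G.coeff k).natDegree) * (t ^ (v : ℝ)) ^ k *
            t ^ (- β k0) := by
          rw [← Real.rpow_natCast t, ← Real.rpow_mul_natCast ht0.le, ← Real.rpow_add ht0,
            ← Real.rpow_add ht0]
          congr 1
        have ht0' : (t : ℂ) ≠ 0 := by exact_mod_cast ht0.ne'
        have hne : ((t ^ (v : ℝ) : ℝ) : ℂ) ≠ 0 := by
          exact_mod_cast (Real.rpow_pos_of_pos ht0 _).ne'
        rw [e1]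
        push_cast
        rw [div_pow]
        field_simp
      rw [Finset.sum_congr rfl h7, ← Finset.mul_sum, h6, mul_zero]
    have h8 : W.eval (w t) = ∑ k ∈ G.support, L k * w t ^ k := by
      simp only [hW, eval_finsetSum, eval_mul, eval_C, eval_pow, eval_X]
    rw [h8]
    simp only [sub_mul, Finset.sum_sub_distrib]
    rw [h5]
    ring
  obtain ⟨c, hc1, hc2⟩ := growth_cluster w W.roots.toFinset (max B 0) (by
      apply ContinuousOn.div
      · exact hc.mono fun t ht => Set.mem_Ioi.mpr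
          (lt_of_le_of_lt (le_max_left _ _) (Set.mem_Ioi.mp ht))
      · apply Complex.continuous_ofReal.comp_continuousOn
        apply ContinuousOn.rpow_const continuousOn_id
        intro t ht
        have : 0 < t := lt_of_le_of_lt (le_max_right _ _) (Set.mem_Ioi.mp ht)
        exact Or.inl this.ne'
      · intro t ht
        have : 0 < t := lt_of_le_of_lt (le_max_right _ _) (Set.mem_Ioi.mp ht)
        exact_mod_cast (Real.rpow_pos_of_pos this _).ne') (by
      intro ε hε
      have h9 : 0 < ‖W.leadingCoeff‖ * ε ^ W.natDegree :=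
        mul_pos (norm_pos_iff.mpr (leadingCoeff_ne_zero.mpr hW0)) (pow_pos hε _)
      have h10 := hWw.norm
      rw [norm_zero] at h10
      filter_upwards [h10.eventually_lt_const h9] with t ht
      exact growth_near_root W (w t) ε hε ht)
  have hc0 : c ≠ 0 := by
    have h11 : Real.exp (-C) ≤ ‖c‖ := ge_of_tendsto hc2.norm hwlb
    exact norm_pos_iff.mp (lt_of_lt_of_le (Real.exp_pos _) h11)
  refine ⟨v.den, v.num, c ^ v.den, v.den_nz, pow_ne_zero _ hc0, ?_⟩
  refine (hc2.pow v.den).congr' ?_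
  filter_upwards [eventually_gt_atTop 0] with t ht0
  simp only [hw]
  rw [div_pow]
  congr 1
  rw [← Complex.ofReal_pow, ← Complex.ofReal_zpow]
  congr 1
  rw [← Real.rpow_mul_natCast ht0.le, ← Real.rpow_intCast]
  congr 1
  have : v * v.den = v.num := Rat.mul_den_eq_num v
  exact_mod_cast this

end Pool.Agent.Work.MP_59f3ad_nt

end

section

set_option autoImplicit false

namespace Pool.Agent.Work.MP_59f3ad_nt

open Polynomial

lemma strass_main_count (p : ℕ) (hp : p.Prime) (d : ℕ) : ∀ (D : ℕ → ℤ[X]),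
    (∀ N, C ((p : ℤ) ^ (N + 1)) ∣ D (N + 1) - D N) →
    (D 0).map (Int.castRingHom (ZMod p)) ≠ 0 →
    ((D 0).map (Int.castRingHom (ZMod p))).natDegree = d →
    {t : ℤ | ∀ N, (p : ℤ) ^ (N + 1) ∣ (D N).eval t}.Finite ∧
      {t : ℤ | ∀ N, (p : ℤ) ^ (N + 1) ∣ (D N).eval t}.ncard ≤ d := by
  have : Fact p.Prime := ⟨hp⟩
  induction d with
  | zero =>
    intro D hD hne hdeg
    have : {t : ℤ | ∀ N, (p : ℤ) ^ (N + 1) ∣ (D N).eval t} = ∅ := by
      ext t
      simp only [Set.mem_ofPred_eq, Set.mem_empty_iff_false, iff_false]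
      intro h
      have h0 := h 0
      rw [zero_add, pow_one] at h0
      rw [natDegree_eq_zero] at hdeg
      obtain ⟨x, hx⟩ := hdeg
      have h1 : ((D 0).map (Int.castRingHom (ZMod p))).eval (t : ZMod p) = 0 := by
        have h2 : ((D 0).map (Int.castRingHom (ZMod p))).eval (Int.castRingHom (ZMod p) t)
            = Int.castRingHom (ZMod p) ((D 0).eval t) := by
          rw [eval_map, ← eval₂_at_apply]
        have h3 : Int.castRingHom (ZMod p) ((D 0).eval t) = 0 := by
          rw [eq_intCast, ZMod.intCast_zmod_eq_zero_iff_dvd]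
          exact h0
        rw [h3] at h2
        simpa using h2
      rw [← hx, eval_C] at h1
      apply hne
      rw [← hx, h1, C_0]
    rw [this]
    exact ⟨Set.finite_empty, by simp⟩
  | succ d ih =>
    intro D hD hne hdeg
    by_cases hex : ∃ t0 : ℤ, ∀ N, (p : ℤ) ^ (N + 1) ∣ (D N).eval t0
    · obtain ⟨t0, ht0⟩ := hex
      set G : ℕ → ℤ[X] := fun N => (D N) /ₘ (X - C t0) with hG
      have hdec : ∀ N, D N = (X - C t0) * G N + C ((D N).eval t0) := fun N =>
        strass_decomp t0 (D N)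
      have hGD : ∀ N, C ((p : ℤ) ^ (N + 1)) ∣ G (N + 1) - G N := by
        intro N
        have h1 : G (N + 1) - G N = (D (N + 1) - D N) /ₘ (X - C t0) := by
          symm
          apply strass_unique t0 _ _ ((D (N + 1)).eval t0 - (D N).eval t0)
          conv_lhs => rw [hdec (N + 1), hdec N]
          rw [C_sub]
          ring
        rw [h1]
        exact strass_dvd_divByMonic _ _ _ (hD N)
      have hmap : (D 0).map (Int.castRingHom (ZMod p))
          = (X - C (t0 : ZMod p)) * (G 0).map (Int.castRingHom (ZMod p)) := by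
        conv_lhs => rw [hdec 0]
        rw [Polynomial.map_add, Polynomial.map_mul, Polynomial.map_sub, map_X, map_C, map_C]
        have h3 : Int.castRingHom (ZMod p) ((D 0).eval t0) = 0 := by
          rw [eq_intCast, ZMod.intCast_zmod_eq_zero_iff_dvd]
          simpa using ht0 0
        rw [h3, C_0, add_zero, eq_intCast]
      have hG0 : (G 0).map (Int.castRingHom (ZMod p)) ≠ 0 := by
        intro h
        apply hne
        rw [hmap, h, mul_zero]
      have hGdeg : ((G 0).map (Int.castRingHom (ZMod p))).natDegree = d := by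
        have h1 := hdeg
        rw [hmap, natDegree_mul (X_sub_C_ne_zero _) hG0, natDegree_X_sub_C] at h1
        omega
      have hfin := ih G hGD hG0 hGdeg
      have hcore : ∀ t ∈ {t : ℤ | ∀ N, (p : ℤ) ^ (N + 1) ∣ (D N).eval t},
          t ∈ insert t0 {t : ℤ | ∀ N, (p : ℤ) ^ (N + 1) ∣ (G N).eval t} := by
        intro t ht
        rw [Set.mem_insert_iff]
        by_cases htt : t = t0
        · exact Or.inl htt
        · right
          rw [Set.mem_ofPred_eq] at ht ⊢
          have hne0 : t - t0 ≠ 0 := sub_ne_zero.mpr htt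
          have hpi : Prime (p : ℤ) := Nat.prime_iff_prime_int.mp hp
          have hfm : FiniteMultiplicity (p : ℤ) (t - t0) :=
            FiniteMultiplicity.of_prime_left hpi hne0
          obtain ⟨u, hu1, hu2⟩ := hfm.exists_eq_pow_mul_and_not_dvd
          set s := multiplicity (p : ℤ) (t - t0) with hs
          intro N
          have h1 : (p : ℤ) ^ (N + s + 1) ∣ (t - t0) * (G (N + s)).eval t := by
            have h2 := congrArg (fun P => eval t P) (hdec (N + s))
            simp only [eval_add, eval_mul, eval_sub, eval_X, eval_C] at h2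
            have h3 : (t - t0) * (G (N + s)).eval t = (D (N + s)).eval t - (D (N + s)).eval t0 := by
              rw [h2]; ring
            rw [h3]
            exact dvd_sub (ht (N + s)) (ht0 (N + s))
          rw [hu1, mul_assoc, show N + s + 1 = s + (N + 1) by ring, pow_add] at h1
          have h4 : (p : ℤ) ^ (N + 1) ∣ u * (G (N + s)).eval t :=
            (mul_dvd_mul_iff_left (pow_ne_zero s hpi.ne_zero)).mp h1
          have h5 : (p : ℤ) ^ (N + 1) ∣ (G (N + s)).eval t :=
            hpi.pow_dvd_of_dvd_mul_left _ hu2 h4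
          have h6 := strass_eval_dvd (strass_stable p G hGD N s) t
          rw [eval_sub] at h6
          have h7 : (G N).eval t = (G (N + s)).eval t - ((G (N + s)).eval t - (G N).eval t) := by
            ring
          rw [h7]
          exact dvd_sub h5 h6
      have hsub : {t : ℤ | ∀ N, (p : ℤ) ^ (N + 1) ∣ (D N).eval t} ⊆
          insert t0 {t : ℤ | ∀ N, (p : ℤ) ^ (N + 1) ∣ (G N).eval t} := by
        intro t ht
        exact hcore t ht
      exact ⟨(hfin.1.insert t0).subset hsub, (Set.ncard_le_ncard hsub (hfin.1.insert t0)).trans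
        ((Set.ncard_insert_le _ _).trans (by omega))⟩
    · have : {t : ℤ | ∀ N, (p : ℤ) ^ (N + 1) ∣ (D N).eval t} = ∅ := by
        ext t
        simp only [Set.mem_ofPred_eq, Set.mem_empty_iff_false, iff_false]
        exact fun h => hex ⟨t, h⟩
      rw [this]
      exact ⟨Set.finite_empty, by simp⟩

/-- The number of common zeros is at most the degree bound. -/
theorem ncard_zeros_le (p : ℕ) (hp : p.Prime) (D : ℕ → ℤ[X])
    (hD : ∀ N k, (p : ℤ) ^ (N + 1) ∣ (D (N + 1) - D N).coeff k) (e B : ℕ)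
    (hne : ∃ k, ¬ (p : ℤ) ^ (e + 1) ∣ (D e).coeff k)
    (hB : ∀ k, B < k → (p : ℤ) ^ (e + 1) ∣ (D e).coeff k) :
    {t : ℤ | ∀ N, (p : ℤ) ^ (N + 1) ∣ (D N).eval t}.Finite ∧
      {t : ℤ | ∀ N, (p : ℤ) ^ (N + 1) ∣ (D N).eval t}.ncard ≤ B := by
  classical
  have : Fact p.Prime := ⟨hp⟩
  have hpi : Prime (p : ℤ) := Nat.prime_iff_prime_int.mp hp
  have hD' : ∀ N, C ((p : ℤ) ^ (N + 1)) ∣ D (N + 1) - D N := fun N =>
    (C_dvd_iff_dvd_coeff _ _).mpr (hD N)
  have hne0 : ∃ N k, ¬ (p : ℤ) ^ (N + 1) ∣ (D N).coeff k := ⟨e, hne⟩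
  obtain ⟨e0, he0⟩ : ∃ e0, e0 = e := ⟨e, rfl⟩
  have hBe : ∀ k, B < k → (p : ℤ) ^ (e0 + 1) ∣ (D e0).coeff k := by
    intro k hk
    rw [he0]
    exact hB k hk
  have hle : Nat.find hne0 ≤ e0 := by
    apply Nat.find_min'
    rw [he0]
    exact hne
  clear hB hne he0 e
  set e := Nat.find hne0 with he
  have hfind := Nat.find_spec hne0
  rw [← he] at hfind
  have hmin : ∀ N < e, ∀ k, (p : ℤ) ^ (N + 1) ∣ (D N).coeff k := by
    intro N hN k
    have h := Nat.find_min hne0 hN
    push Not at h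
    exact h k
  -- D_e is divisible by p^e
  have hDe : C ((p : ℤ) ^ e) ∣ D e := by
    rcases Nat.eq_zero_or_pos e with h0 | h0
    · rw [h0, pow_zero, C_1]
      exact one_dvd _
    · obtain ⟨m, hm⟩ : ∃ m, e = m + 1 := ⟨e - 1, by omega⟩
      have h1 : C ((p : ℤ) ^ (m + 1)) ∣ D m :=
        (C_dvd_iff_dvd_coeff _ _).mpr (hmin m (by omega))
      have h2 := dvd_add (hD' m) h1
      rw [sub_add_cancel] at h2
      rw [hm]
      exact h2
  have hDN : ∀ N, C ((p : ℤ) ^ e) ∣ D (N + e) := by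
    intro N
    have h1 := strass_stable p D hD' e N
    have h2 : C ((p : ℤ) ^ e) ∣ D (e + N) - D e := by
      refine dvd_trans ?_ h1
      rw [pow_succ, C_mul]
      exact dvd_mul_right _ _
    have h3 := dvd_add h2 hDe
    rw [sub_add_cancel, add_comm] at h3
    exact h3
  choose G hG using hDN
  have hpe : (p : ℤ) ^ e ≠ 0 := pow_ne_zero e hpi.ne_zero
  have hGD : ∀ N, C ((p : ℤ) ^ (N + 1)) ∣ G (N + 1) - G N := by
    intro N
    have h1 := hD' (N + e)
    have h2 : D (N + e + 1) = C ((p : ℤ) ^ e) * G (N + 1) := by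
      rw [← hG (N + 1)]
      congr 1
      ring
    rw [h2, hG N, ← mul_sub, show N + e + 1 = e + (N + 1) by ring, pow_add, C_mul] at h1
    exact (mul_dvd_mul_iff_left (by rwa [Ne, C_eq_zero])).mp h1
  have hG0 : (G 0).map (Int.castRingHom (ZMod p)) ≠ 0 := by
    intro h
    obtain ⟨k, hk⟩ := hfind
    apply hk
    have h1 := hG 0
    rw [zero_add] at h1
    rw [h1, coeff_C_mul, pow_succ]
    apply mul_dvd_mul_left
    have h2 := congrArg (fun P => coeff P k) h
    simp only [coeff_map, coeff_zero, eq_intCast] at h2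
    rwa [ZMod.intCast_zmod_eq_zero_iff_dvd] at h2
  have hdegB : ((G 0).map (Int.castRingHom (ZMod p))).natDegree ≤ B := by
    rw [natDegree_le_iff_coeff_eq_zero]
    intro k hk
    rw [coeff_map, eq_intCast, ZMod.intCast_zmod_eq_zero_iff_dvd]
    obtain ⟨s, hs⟩ : ∃ s, e0 = e + s := ⟨e0 - e, by omega⟩
    have h1 := strass_stable p D hD' e s
    rw [← hs, C_dvd_iff_dvd_coeff] at h1
    have h2 := h1 k
    rw [coeff_sub] at h2
    have h3 : (p : ℤ) ^ (e + 1) ∣ (D e0).coeff k :=
      (pow_dvd_pow _ (by omega)).trans (hBe k hk)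
    have h4 : (p : ℤ) ^ (e + 1) ∣ (D e).coeff k := by
      have h5 := dvd_sub h3 h2
      rwa [sub_sub_cancel] at h5
    have h6 := hG 0
    rw [zero_add] at h6
    rw [h6, coeff_C_mul, pow_succ] at h4
    exact (mul_dvd_mul_iff_left hpe).mp h4
  have hmain := strass_main_count p hp _ G hGD hG0 rfl
  have hsub : {t : ℤ | ∀ N, (p : ℤ) ^ (N + 1) ∣ (D N).eval t} ⊆
      {t : ℤ | ∀ N, (p : ℤ) ^ (N + 1) ∣ (G N).eval t} := by
    intro t ht
    rw [Set.mem_ofPred_eq] at ht ⊢
    intro N
    have h1 := ht (N + e)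
    rw [hG N, eval_mul, eval_C, show N + e + 1 = e + (N + 1) by ring, pow_add] at h1
    exact (mul_dvd_mul_iff_left hpe).mp h1
  exact ⟨hmain.1.subset hsub, (Set.ncard_le_ncard hsub hmain.1).trans (hmain.2.trans hdegB)⟩

end Pool.Agent.Work.MP_59f3ad_nt

end
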