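import Mathlib
import Pool.Agent.Work.MP_59f3ad_nt.EvC
import Pool.Agent.Work.MP_59f3ad_nt.Bd.B02
import Pool.Agent.Work.MP_59f3ad_nt.RTaylor
import Pool.Agent.Work.MP_59f3ad_nt.GrowthMinorC
import Pool.Agent.Work.MP_59f3ad_nt.Bridge
import Pool.Agent.Work.MP_59f3ad_nt.Gen

/-! Bundle of small proof modules (one section per former module). -/

section

/-!
Analytic root functions near infinity of a monic polynomial in `ℂ[T][X]`.
-/

open Polynomial Filter Topology Set
open scoped ContDiff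

namespace Pool.Agent.Work.MP_59f3ad_nt

namespace AnRootsC

/-- For large real parameters the specialisation is separable. -/
theorem exists_bound (F : ℂ[X][X]) (hF : F.Monic) (t0 : ℂ) (h0 : (F.map (evC t0)).Separable) :
    ∃ B : ℝ, ∀ t : ℝ, B < t → (F.map (evC t)).Separable := by
  by_cases hd : F.natDegree = 0
  · refine ⟨0, fun t _ => ?_⟩
    rw [hF.natDegree_eq_zero.1 hd, Polynomial.map_one]
    exact separable_one
  let D : ℂ[X] := resultant F (derivative F) F.natDegree (F.natDegree - 1)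
  have key : ∀ z : ℂ, (F.map (evC z)).Separable ↔ evC z D ≠ 0 := by
    intro z
    have h1 : evC z D = resultant (F.map (evC z)) (derivative (F.map (evC z))) := by
      have hn : (F.map (evC z)).natDegree = F.natDegree := hF.natDegree_map _
      have hn' : (derivative (F.map (evC z))).natDegree = F.natDegree - 1 := by
        apply natDegree_eq_of_degree_eq_some
        rw [degree_derivative (by rwa [hn]), hn]
      rw [hn, hn', derivative_map, resultant_map_map]
    rw [h1, Ne, resultant_eq_zero_iff]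
    have h2 : F.map (evC z) ≠ 0 := (hF.map _).ne_zero
    constructor
    · intro h3 h4
      exact h4.2 h3
    · intro h3
      by_contra h4
      exact h3 ⟨Or.inl h2, h4⟩
  have hD : evC t0 D ≠ 0 := (key t0).1 h0
  have hDC : D ≠ 0 := by
    intro h
    apply hD
    rw [h, map_zero]
  have hfin : ((fun t : ℝ => (t : ℂ)) ⁻¹' {z : ℂ | D.IsRoot z}).Finite :=
    (finite_setOfPred_isRoot hDC).preimage Complex.ofReal_injective.injOn
  obtain ⟨B, hB⟩ := hfin.bddAbove
  refine ⟨B, fun t ht => (key t).2 fun h => ?_⟩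
  have : t ≤ B := hB (by
    exact h)
  exact absurd this (not_le.2 ht)

/-- All the roots are among `d` distinct roots. -/
theorem complete {d : ℕ} {p : ℂ[X]} (hp : p.natDegree = d) (hp0 : p ≠ 0) {ζ : Fin d → ℂ}
    (hζ : Function.Injective ζ) (hr : ∀ j, p.eval (ζ j) = 0) {z : ℂ} (hz : p.eval z = 0) :
    ∃ j, ζ j = z := by
  by_contra hcon
  push Not at hcon
  apply hp0
  let f : Option (Fin d) → ℂ := fun o => o.elim z ζ
  apply eq_zero_of_natDegree_lt_card_of_eval_eq_zero p (f := f)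
  · intro x y hxy
    rcases x with _ | x <;> rcases y with _ | y
    · rfl
    · exact absurd hxy.symm (hcon y)
    · exact absurd hxy (hcon x)
    · exact congrArg some (hζ hxy)
  · intro o
    rcases o with _ | j
    · exact hz
    · exact hr j
  · rw [hp, Fintype.card_option, Fintype.card_fin]
    exact Nat.lt_succ_self d

/-- A separable polynomial of degree `d` has `d` distinct roots. -/
theorem exists_roots {d : ℕ} {p : ℂ[X]} (hp : p.natDegree = d) (hs : p.Separable) :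
    ∃ ζ : Fin d → ℂ, Function.Injective ζ ∧ ∀ j, p.eval (ζ j) = 0 := by
  classical
  have hcard : p.roots.toFinset.card = d := by
    rw [Multiset.toFinset_card_of_nodup (nodup_roots hs),
      ← (IsAlgClosed.splits p).natDegree_eq_card_roots, hp]
  let e := (p.roots.toFinset.equivFinOfCardEq hcard).symm
  refine ⟨fun j => (e j : ℂ), fun i j h => e.injective (Subtype.ext h), fun j => ?_⟩
  have := (e j).2
  rw [Multiset.mem_toFinset, mem_roots'] at this
  exact this.2

/-- the family as a function of two variables -/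
noncomputable def ff (F : ℂ[X][X]) (p : ℝ × ℂ) : ℂ := (F.map (evC (p.1 : ℂ))).eval p.2

theorem evC_contDiff (a : ℂ[X]) : ContDiff ℝ ω (fun p : ℝ × ℂ => evC (p.1 : ℂ) a) := by
  have h : (fun p : ℝ × ℂ => evC (p.1 : ℂ) a) = fun p : ℝ × ℂ =>
      ∑ i ∈ Finset.range (a.natDegree + 1), a.coeff i * (p.1 : ℂ) ^ i := by
    funext p
    rw [evC_apply, eval_eq_sum_range]
  rw [h]
  refine ContDiff.sum fun i _ => contDiff_const.mul (ContDiff.pow ?_ _)
  exact Complex.ofRealCLM.contDiff.comp contDiff_fst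

theorem ff_contDiff (F : ℂ[X][X]) : ContDiff ℝ ω (ff F) := by
  have h : ff F = fun p : ℝ × ℂ =>
      ∑ i ∈ Finset.range (F.natDegree + 1), evC (p.1 : ℂ) (F.coeff i) * p.2 ^ i := by
    funext p
    rw [ff, eval_map, eval₂_eq_sum_range]
  rw [h]
  exact ContDiff.sum fun i _ => (evC_contDiff _).mul (contDiff_snd.pow _)

/-- The local analytic root through a simple root. -/
theorem exists_local (F : ℂ[X][X]) (t1 : ℝ) (z1 : ℂ) (hz : (F.map (evC (t1 : ℂ))).eval z1 = 0)
    (hz' : (derivative (F.map (evC (t1 : ℂ)))).eval z1 ≠ 0) :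
    ∃ ζ : ℝ → ℂ, ζ t1 = z1 ∧ AnalyticAt ℝ ζ t1 ∧
      ∀ᶠ t : ℝ in 𝓝 t1, (F.map (evC (t : ℂ))).eval (ζ t) = 0 := by
  have hf : ContDiffAt ℝ ω (ff F) (t1, z1) := (ff_contDiff F).contDiffAt
  have hfd : HasFDerivAt (ff F) (fderiv ℝ (ff F) (t1, z1)) (t1, z1) :=
    (hf.differentiableAt (by simp)).hasFDerivAt
  have h2 : HasFDerivAt (fun z : ℂ => ff F (t1, z))
      ((fderiv ℝ (ff F) (t1, z1)).comp (ContinuousLinearMap.inr ℝ ℝ ℂ)) z1 :=
    hfd.comp z1 (hasFDerivAt_prodMk_right t1 z1)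
  have h3 : HasFDerivAt (fun z : ℂ => ff F (t1, z))
      ((((ContinuousLinearEquiv.unitsEquivAut ℂ (Units.mk0 _ hz')).restrictScalars ℝ :
        ℂ ≃L[ℝ] ℂ)) : ℂ →L[ℝ] ℂ) z1 := by
    have h4 : HasDerivAt (fun z : ℂ => ff F (t1, z))
        ((derivative (F.map (evC (t1 : ℂ)))).eval z1) z1 :=
      (F.map (evC (t1 : ℂ))).hasDerivAt z1
    have h5 := h4.hasFDerivAt.restrictScalars ℝ
    convert! h5 using 1
  have hinv : ((fderiv ℝ (ff F) (t1, z1)).comp (ContinuousLinearMap.inr ℝ ℝ ℂ)).IsInvertible := by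
    rw [h2.unique h3]
    exact ContinuousLinearMap.isInvertible_equiv
  have hn : (ω : ℕ∞ω) ≠ 0 := by simp
  refine ⟨hf.implicitFunction hn hinv, hf.implicitFunction_apply_self hn hinv, ?_, ?_⟩
  · exact (hf.contDiffAt_implicitFunction hn hinv).analyticAt
  · filter_upwards [hf.eventually_apply_implicitFunction hn hinv] with t ht
    have h6 : ff F (t1, z1) = 0 := hz
    rw [h6] at ht
    exact ht

section Glue

variable {F : ℂ[X][X]} {B0 : ℝ}

/-- `z` is a root at the parameter `t` -/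
def Rt (F : ℂ[X][X]) (t : ℝ) (z : ℂ) : Prop := (F.map (evC (t : ℂ))).eval z = 0

/-- a local system of roots at `t1` -/
structure LocSys (F : ℂ[X][X]) (t1 : ℝ) (ζ : Fin F.natDegree → ℝ → ℂ) : Prop where
  an : ∀ j, AnalyticAt ℝ (ζ j) t1
  inj : Function.Injective fun j => ζ j t1
  rt : ∀ᶠ t in 𝓝 t1, ∀ j, Rt F t (ζ j t)

theorem exists_locSys (hF : F.Monic) {t1 : ℝ} (hs : (F.map (evC (t1 : ℂ))).Separable) :
    ∃ ζ, LocSys F t1 ζ := by
  obtain ⟨z, hz, hr⟩ := exists_roots (hF.natDegree_map _) hs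
  have hz' : ∀ j, (derivative (F.map (evC (t1 : ℂ)))).eval (z j) ≠ 0 := by
    intro j h0
    obtain ⟨u, v, huv⟩ := hs
    have := congrArg (eval (z j)) huv
    rw [eval_add, eval_mul, eval_mul, hr j, h0, eval_one, mul_zero, mul_zero, add_zero] at this
    exact zero_ne_one this
  choose ζ h1 h2 h3 using fun j => exists_local F t1 (z j) (hr j) (hz' j)
  refine ⟨ζ, h2, ?_, eventually_all.2 h3⟩
  simp only [h1]
  exact hz

theorem LocSys.eventually_inj {t1 : ℝ} {ζ : Fin F.natDegree → ℝ → ℂ} (h : LocSys F t1 ζ) :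
    ∀ᶠ t in 𝓝 t1, Function.Injective fun j => ζ j t := by
  have h1 : ∀ i j : Fin F.natDegree, i ≠ j → ∀ᶠ t in 𝓝 t1, ζ i t ≠ ζ j t := by
    intro i j hij
    have h2 : ContinuousAt (fun t => ζ i t - ζ j t) t1 :=
      (h.an i).continuousAt.sub (h.an j).continuousAt
    have h3 : ζ i t1 - ζ j t1 ≠ 0 := by
      rw [sub_ne_zero]
      exact fun h' => hij (h.inj h')
    filter_upwards [h2.eventually_ne h3] with t ht h4
    exact ht (sub_eq_zero.2 h4)
  have h2 : ∀ᶠ t in 𝓝 t1, ∀ i j : Fin F.natDegree, i ≠ j → ζ i t ≠ ζ j t := by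
    simp only [eventually_all]
    exact h1
  filter_upwards [h2] with t ht i j hij
  by_contra hne
  exact ht i j hne hij

/-- local uniqueness -/
theorem LocSys.unique (hF : F.Monic) {t1 : ℝ} {ζ : Fin F.natDegree → ℝ → ℂ} (h : LocSys F t1 ζ)
    {s : Set ℝ} {ξ : ℝ → ℂ} (hξ : ContinuousWithinAt ξ s t1) (hr : ∀ t ∈ s, Rt F t (ξ t))
    {j : Fin F.natDegree} (hj : ξ t1 = ζ j t1) : ∀ᶠ t in 𝓝[s] t1, ξ t = ζ j t := by
  have h1 : ∀ k, k ≠ j → ∀ᶠ t in 𝓝[s] t1, ξ t ≠ ζ k t := by
    intro k hk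
    have h2 : ContinuousWithinAt (fun t => ξ t - ζ k t) s t1 :=
      hξ.sub (h.an k).continuousAt.continuousWithinAt
    have h3 : ξ t1 - ζ k t1 ≠ 0 := by
      rw [hj, sub_ne_zero]
      exact fun h' => hk (h.inj h').symm
    filter_upwards [h2.eventually_ne h3] with t ht h4
    exact ht (sub_eq_zero.2 h4)
  have h2 : ∀ᶠ t in 𝓝[s] t1, ∀ k, k ≠ j → ξ t ≠ ζ k t := by
    simp only [eventually_all]
    exact h1
  filter_upwards [h2, nhdsWithin_le_nhds h.eventually_inj, nhdsWithin_le_nhds h.rt,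
    self_mem_nhdsWithin] with t ht hinj hrt hts
  obtain ⟨k, hk⟩ := complete (hF.natDegree_map _) (hF.map _).ne_zero hinj hrt (hr t hts)
  by_cases hkj : k = j
  · rw [← hkj]
    exact hk.symm
  · exact absurd hk.symm (ht k hkj)

/-- uniqueness -/
theorem unique (hF : F.Monic) (hB : ∀ t : ℝ, B0 < t → (F.map (evC (t : ℂ))).Separable)
    {s : Set ℝ} (hs : IsPreconnected s) (hsB : ∀ t ∈ s, B0 < t) {ξ η : ℝ → ℂ}
    (hξ : ContinuousOn ξ s) (hη : ContinuousOn η s) (hrξ : ∀ t ∈ s, Rt F t (ξ t))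
    (hrη : ∀ t ∈ s, Rt F t (η t)) {t0 : ℝ} (ht0 : t0 ∈ s) (h0 : ξ t0 = η t0) {t : ℝ} (ht : t ∈ s) :
    ξ t = η t := by
  have key : (ξ t0 = η t0 ↔ ξ t = η t) := by
    refine hs.induction₂ (fun x y => (ξ x = η x ↔ ξ y = η y)) ?_ ?_ ?_ ht0 ht
    · intro x hx
      by_cases hxe : ξ x = η x
      · obtain ⟨ζ, hζ⟩ := exists_locSys hF (hB x (hsB x hx))
        obtain ⟨j, hj⟩ := complete (hF.natDegree_map _) (hF.map _).ne_zero hζ.inj
          (fun j => hζ.rt.self_of_nhds j) (hrξ x hx)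
        filter_upwards [hζ.unique hF (hξ x hx) hrξ hj.symm,
          hζ.unique hF (hη x hx) hrη (hxe.symm.trans hj.symm)] with y h1 h2
        rw [h1, h2]
        exact ⟨fun _ => rfl, fun _ => hxe⟩
      · have h1 : ContinuousWithinAt (fun t => ξ t - η t) s x := (hξ x hx).sub (hη x hx)
        filter_upwards [h1.eventually_ne (sub_ne_zero.2 hxe)] with y hy
        exact ⟨fun h => absurd h hxe, fun h => absurd (sub_eq_zero.2 h) hy⟩
    · intro x y z _ _ _ h1 h2
      exact h1.trans h2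
    · intro x y _ _ h1
      exact h1.symm
  exact key.1 h0

/-- a system of roots on `[t0, b]` with given initial values -/
structure Sys (F : ℂ[X][X]) (t0 b : ℝ) (z : Fin F.natDegree → ℂ)
    (ξ : Fin F.natDegree → ℝ → ℂ) : Prop where
  cont : ∀ j, ContinuousOn (ξ j) (Icc t0 b)
  inj : ∀ t ∈ Icc t0 b, Function.Injective fun j => ξ j t
  rt : ∀ t ∈ Icc t0 b, ∀ j, Rt F t (ξ j t)
  init : ∀ j, ξ j t0 = z j

theorem Sys.restrict {t0 a b : ℝ} (hab : a ≤ b) {z : Fin F.natDegree → ℂ}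
    {ξ : Fin F.natDegree → ℝ → ℂ} (h : Sys F t0 b z ξ) : Sys F t0 a z ξ where
  cont := fun j => (h.cont j).mono (Icc_subset_Icc_right hab)
  inj := fun t ht => h.inj t (Icc_subset_Icc_right hab ht)
  rt := fun t ht => h.rt t (Icc_subset_Icc_right hab ht)
  init := h.init

theorem Sys.glue (hF : F.Monic) {t0 a b : ℝ} (h0a : t0 ≤ a) (hab : a ≤ b)
    {z : Fin F.natDegree → ℂ} {ξ ζ : Fin F.natDegree → ℝ → ℂ} (h : Sys F t0 a z ξ)
    (hc : ∀ j, ContinuousOn (ζ j) (Icc a b))
    (hi : ∀ t ∈ Icc a b, Function.Injective fun j => ζ j t)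
    (hr : ∀ t ∈ Icc a b, ∀ j, Rt F t (ζ j t)) : ∃ η, Sys F t0 b z η := by
  have haI : a ∈ Icc a b := ⟨le_rfl, hab⟩
  have haI' : a ∈ Icc t0 a := ⟨h0a, le_rfl⟩
  choose σ hσ using fun j => complete (hF.natDegree_map _) (hF.map _).ne_zero (hi a haI)
    (hr a haI) (h.rt a haI' j)
  have hσi : Function.Injective σ := by
    intro i j hij
    apply h.inj a haI'
    change ξ i a = ξ j a
    rw [← hσ i, ← hσ j, hij]
  let η : Fin F.natDegree → ℝ → ℂ := fun j t => if t ≤ a then ξ j t else ζ (σ j) t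
  have e1 : ∀ j, EqOn (η j) (ξ j) (Icc t0 a) := fun j t ht => if_pos ht.2
  have e2 : ∀ j, EqOn (η j) (ζ (σ j)) (Icc a b) := by
    intro j t ht
    rcases eq_or_lt_of_le ht.1 with h1 | h1
    · subst h1
      change (if a ≤ a then ξ j a else ζ (σ j) a) = _
      rw [if_pos le_rfl]
      exact (hσ j).symm
    · exact if_neg (not_le.2 h1)
  have hun : Icc t0 b = Icc t0 a ∪ Icc a b := (Icc_union_Icc_eq_Icc h0a hab).symm
  refine ⟨η, ⟨fun j => ?_, ?_, ?_, fun j => ?_⟩⟩
  · rw [hun]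
    exact ((h.cont j).congr (e1 j)).union_of_isClosed ((hc (σ j)).congr (e2 j)) isClosed_Icc
      isClosed_Icc
  · intro t ht i j hij
    rw [hun] at ht
    rcases ht with ht | ht
    · apply h.inj t ht
      change η i t = η j t at hij
      rw [e1 i ht, e1 j ht] at hij
      exact hij
    · apply hσi
      apply hi t ht
      change η i t = η j t at hij
      rw [e2 i ht, e2 j ht] at hij
      exact hij
  · intro t ht j
    rw [hun] at ht
    rcases ht with ht | ht
    · rw [e1 j ht]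
      exact h.rt t ht j
    · rw [e2 j ht]
      exact hr t ht (σ j)
  · rw [e1 j ⟨le_rfl, h0a⟩]
    exact h.init j

theorem exists_sys (hF : F.Monic) (hB : ∀ t : ℝ, B0 < t → (F.map (evC (t : ℂ))).Separable)
    {t0 : ℝ} (ht0 : B0 < t0) {z : Fin F.natDegree → ℂ} (hz : Function.Injective z)
    (hr : ∀ j, Rt F t0 (z j)) {b : ℝ} (hb : t0 ≤ b) : ∃ ξ, Sys F t0 b z ξ := by
  have key : (∃ ξ, Sys F t0 t0 z ξ) ↔ ∃ ξ, Sys F t0 b z ξ := by
    refine (isPreconnected_Ici (a := t0)).induction₂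
      (fun x y => ((∃ ξ, Sys F t0 x z ξ) ↔ ∃ ξ, Sys F t0 y z ξ)) ?_ ?_ ?_ (mem_Ici.2 le_rfl)
      (mem_Ici.2 hb)
    · intro x hx
      obtain ⟨ζ, hζ⟩ := exists_locSys hF (hB x (lt_of_lt_of_le ht0 hx))
      have hall : ∀ᶠ t in 𝓝 x, (∀ j, AnalyticAt ℝ (ζ j) t) ∧ (Function.Injective fun j => ζ j t) ∧
          ∀ j, Rt F t (ζ j t) :=
        (eventually_all.2 fun j => (hζ.an j).eventually_analyticAt).and
          (hζ.eventually_inj.and hζ.rt)
      obtain ⟨ε, hε, hball⟩ := Metric.eventually_nhds_iff_ball.1 hall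
      have hlocal : ∀ p q : ℝ, p ∈ Metric.ball x ε → q ∈ Metric.ball x ε →
          (∀ j, ContinuousOn (ζ j) (Icc p q)) ∧
          (∀ t ∈ Icc p q, Function.Injective fun j => ζ j t) ∧
          (∀ t ∈ Icc p q, ∀ j, Rt F t (ζ j t)) := by
        intro p q hp hq
        have hsub : Icc p q ⊆ Metric.ball x ε := by
          rw [Real.ball_eq_Ioo] at *
          exact fun t ht => ⟨lt_of_lt_of_le hp.1 ht.1, lt_of_le_of_lt ht.2 hq.2⟩
        exact ⟨fun j t ht => ((hball t (hsub ht)).1 j).continuousAt.continuousWithinAt,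
          fun t ht => (hball t (hsub ht)).2.1, fun t ht => (hball t (hsub ht)).2.2⟩
      filter_upwards [self_mem_nhdsWithin, nhdsWithin_le_nhds (Metric.ball_mem_nhds x hε)]
        with y hy hyb
      constructor
      · rintro ⟨ξ, hξ⟩
        rcases le_total y x with hyx | hxy
        · exact ⟨ξ, hξ.restrict hyx⟩
        · obtain ⟨h1, h2, h3⟩ := hlocal x y (Metric.mem_ball_self hε) hyb
          exact hξ.glue hF hx hxy h1 h2 h3
      · rintro ⟨ξ, hξ⟩
        rcases le_total x y with hxy | hyx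
        · exact ⟨ξ, hξ.restrict hxy⟩
        · obtain ⟨h1, h2, h3⟩ := hlocal y x hyb (Metric.mem_ball_self hε)
          exact hξ.glue hF hy hyx h1 h2 h3
    · intro x y z _ _ _ h1 h2
      exact h1.trans h2
    · intro x y _ _ h1
      exact h1.symm
  refine key.1 ⟨fun j _ => z j, ⟨fun j => continuousOn_const, fun t _ => hz, fun t ht j => ?_,
    fun j => rfl⟩⟩
  have : t = t0 := le_antisymm ht.2 ht.1
  rw [this]
  exact hr j

end Glue

end AnRootsC

open AnRootsC in
theorem exists_analytic_rootsC (F : ℂ[X][X]) (hF : F.Monic) (t0 : ℂ)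
    (h0 : (F.map (evC t0)).Separable) :
    ∃ (B : ℝ) (ξ : Fin F.natDegree → ℝ → ℂ), (∀ j, AnalyticOnNhd ℝ (ξ j) (Set.Ioi B)) ∧
      ∀ t : ℝ, B < t → Function.Injective (fun j => ξ j t) ∧
        ∀ j, (F.map (evC t)).eval (ξ j t) = 0 := by
  obtain ⟨B0, hB⟩ := exists_bound F hF t0 h0
  let b : ℝ := B0 + 1
  have hb : B0 < b := lt_add_one B0
  obtain ⟨z, hz, hr⟩ := exists_roots (hF.natDegree_map _) (hB b hb)
  have hex : ∀ t : ℝ, ∃ ξ, b ≤ t → Sys F b t z ξ := by
    intro t
    by_cases ht : b ≤ t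
    · obtain ⟨ξ, hξ⟩ := exists_sys hF hB hb hz hr ht
      exact ⟨ξ, fun _ => hξ⟩
    · exact ⟨fun _ _ => 0, fun h => absurd h ht⟩
  choose Ξ hΞ using hex
  let ξ : Fin F.natDegree → ℝ → ℂ := fun j t => Ξ t j t
  have hcoin : ∀ {s t : ℝ}, b ≤ t → t ≤ s → ∀ j, ξ j t = Ξ s j t := by
    intro s t hbt hts j
    have h1 := hΞ t hbt
    have h2 := (hΞ s (hbt.trans hts)).restrict hts
    exact unique hF hB isPreconnected_Icc (fun u hu => lt_of_lt_of_le hb hu.1) (h1.cont j)
      (h2.cont j) (fun u hu => h1.rt u hu j) (fun u hu => h2.rt u hu j) ⟨le_rfl, hbt⟩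
      ((h1.init j).trans (h2.init j).symm) ⟨hbt, le_rfl⟩
  refine ⟨b, ξ, fun j t ht => ?_, fun t ht => ⟨?_, fun j => ?_⟩⟩
  · have ht : b < t := ht
    have hs := hΞ (t + 1) (by linarith)
    obtain ⟨ζ, hζ⟩ := exists_locSys hF (hB t (hb.trans ht))
    have htI : t ∈ Icc b (t + 1) := ⟨ht.le, by linarith⟩
    obtain ⟨k, hk⟩ := complete (hF.natDegree_map _) (hF.map _).ne_zero hζ.inj
      (fun j => hζ.rt.self_of_nhds j) (hs.rt t htI j)
    have h1 := hζ.unique hF (hs.cont j t htI) (fun u hu => hs.rt u hu j) hk.symm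
    have hnb : Icc b (t + 1) ∈ 𝓝 t := Icc_mem_nhds ht (by linarith)
    rw [nhdsWithin_eq_nhds.2 hnb] at h1
    refine (hζ.an k).congr ?_
    filter_upwards [h1, hnb] with u hu huI
    rw [hcoin huI.1 huI.2, hu]
  · exact (hΞ t ht.le).inj t ⟨ht.le, le_rfl⟩
  · exact (hΞ t ht.le).rt t ⟨ht.le, le_rfl⟩ j

end Pool.Agent.Work.MP_59f3ad_nt

end

section

/-!
Growth of algebraic functions, for families with complex coefficients.
-/

open Polynomial Filter Topology

namespace Pool.Agent.Work.MP_59f3ad_nt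

/-- The value of a polynomial divided by the leading power. -/
theorem growth_leadC (a : ℂ[X]) :
    Tendsto (fun t : ℝ => evC (t : ℂ) a / (t : ℂ) ^ a.natDegree) atTop
      (𝓝 a.leadingCoeff) := by
  have hsum : ∀ᶠ t : ℝ in atTop, ∑ i ∈ Finset.range (a.natDegree + 1),
      a.coeff i * (((t : ℝ) : ℂ)⁻¹) ^ (a.natDegree - i) =
      evC (t : ℂ) a / (t : ℂ) ^ a.natDegree := by
    filter_upwards [eventually_gt_atTop 0] with t ht
    have ht0 : (t : ℂ) ≠ 0 := by exact_mod_cast ht.ne'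
    rw [evC_apply, eval_eq_sum_range, Finset.sum_div]
    refine Finset.sum_congr rfl fun i hi => ?_
    have hi' : i ≤ a.natDegree := by
      have := Finset.mem_range.mp hi
      omega
    have h1 : (t : ℂ) ^ a.natDegree = (t : ℂ) ^ i * (t : ℂ) ^ (a.natDegree - i) := by
      rw [← pow_add]
      congr 1
      omega
    rw [h1, inv_pow]
    field_simp
  have hinv : Tendsto (fun t : ℝ => ((t : ℂ))⁻¹) atTop (𝓝 0) := by
    have h1 : Tendsto (fun t : ℝ => t⁻¹) atTop (𝓝 0) := tendsto_inv_atTop_zero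
    have h2 := (Complex.continuous_ofReal.tendsto 0).comp h1
    simp only [Complex.ofReal_zero] at h2
    refine h2.congr fun t => ?_
    simp
  have hlim : Tendsto (fun t : ℝ => ∑ i ∈ Finset.range (a.natDegree + 1),
      a.coeff i * (((t : ℝ) : ℂ)⁻¹) ^ (a.natDegree - i)) atTop
      (𝓝 (∑ i ∈ Finset.range (a.natDegree + 1), a.coeff i * (0 : ℂ) ^ (a.natDegree - i))) :=
    tendsto_finsetSum _ fun i _ => (hinv.pow _).const_mul _
  have hval : ∑ i ∈ Finset.range (a.natDegree + 1), a.coeff i * (0 : ℂ) ^ (a.natDegree - i) =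
      a.leadingCoeff := by
    rw [Finset.sum_range_succ, Nat.sub_self, pow_zero, mul_one]
    have : ∑ i ∈ Finset.range a.natDegree, a.coeff i * (0 : ℂ) ^ (a.natDegree - i) = 0 := by
      refine Finset.sum_eq_zero fun i hi => ?_
      have := Finset.mem_range.mp hi
      rw [zero_pow (by omega), mul_zero]
    rw [this, zero_add]
    rfl
  rw [← hval]
  exact hlim.congr' hsum

/-- The logarithm of the value of an integral polynomial divided by the leading power
is bounded. -/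
theorem growth_logC (a : ℂ[X]) (ha : a ≠ 0) :
    ∀ᶠ t : ℝ in atTop, evC (t : ℂ) a ≠ 0 ∧
      |Real.log ‖evC (t : ℂ) a‖ - a.natDegree * Real.log t| ≤
        |Real.log ‖a.leadingCoeff‖| + 1 := by
  have hl : a.leadingCoeff ≠ 0 := by
    exact_mod_cast leadingCoeff_ne_zero.mpr ha
  have h1 := growth_leadC a
  have h2 : Tendsto (fun t : ℝ => Real.log ‖evC (t : ℂ) a / (t : ℂ) ^ a.natDegree‖) atTop
      (𝓝 (Real.log ‖a.leadingCoeff‖)) :=
    (h1.norm).log (norm_ne_zero_iff.mpr hl)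
  have h3 := (h1.eventually_ne hl)
  have h4 := (h2.abs).eventually_lt_const (lt_add_one _)
  filter_upwards [h3, h4, eventually_gt_atTop 0] with t ht3 ht4 ht0
  have hne : evC (t : ℂ) a ≠ 0 := fun h => ht3 (by rw [h, zero_div])
  refine ⟨hne, ?_⟩
  have e1 : Real.log ‖evC (t : ℂ) a / (t : ℂ) ^ a.natDegree‖ =
      Real.log ‖evC (t : ℂ) a‖ - a.natDegree * Real.log t := by
    rw [norm_div, norm_pow, Complex.norm_real, Real.norm_of_nonneg ht0.le,
      Real.log_div (norm_ne_zero_iff.mpr hne) (pow_pos ht0 _).ne', Real.log_pow]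
  rw [← e1]
  exact ht4.le

/-- The slopes of a bivariate polynomial. -/
noncomputable def growthSlopeC (G : ℂ[X][X]) (p : ℕ × ℕ) : ℚ :=
  (((G.coeff p.2).natDegree : ℚ) - (G.coeff p.1).natDegree) / ((p.1 : ℚ) - p.2)

theorem growth_sumC (G : ℂ[X][X]) (t : ℝ) (z : ℂ) :
    (G.map (evC t)).eval z = ∑ k ∈ G.support, evC t (G.coeff k) * z ^ k := by
  rw [eval_map, eval₂_eq_sum, sum_def]

theorem growth_slopeC_mem (G : ℂ[X][X]) (hG : G ≠ 0) (B : ℝ) (h : ℝ → ℂ)
    (hc : ContinuousOn h (Set.Ioi B)) (h0 : ∀ t : ℝ, B < t → h t ≠ 0)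
    (hroot : ∀ t : ℝ, B < t → (G.map (evC t)).eval (h t) = 0) :
    ∃ p0 ∈ G.support.offDiag, ∃ C : ℝ,
      ∀ᶠ t : ℝ in atTop, |Real.log ‖h t‖ - (growthSlopeC G p0 : ℝ) * Real.log t| ≤ C := by
  classical
  have hSne : G.support.Nonempty := support_nonempty.mpr hG
  set D : ℝ := ∑ k ∈ G.support, (|Real.log ‖(G.coeff k).leadingCoeff‖| + 1) with hD
  have hDk : ∀ k ∈ G.support,
      |Real.log ‖(G.coeff k).leadingCoeff‖| + 1 ≤ D := by
    intro k hk
    exact Finset.single_le_sum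
      (f := fun k => |Real.log ‖(G.coeff k).leadingCoeff‖| + 1)
      (fun i _ => by positivity) hk
  set C : ℝ := Real.log G.support.card + 2 * D with hC
  -- at every time one of the slopes is right
  have hkey : ∀ᶠ t : ℝ in atTop, ∃ p ∈ G.support.offDiag,
      |Real.log ‖h t‖ - (growthSlopeC G p : ℝ) * Real.log t| ≤ C := by
    have h1 : ∀ᶠ t : ℝ in atTop, ∀ k ∈ G.support, evC (t : ℂ) (G.coeff k) ≠ 0 ∧
      |Real.log ‖evC (t : ℂ) (G.coeff k)‖ - (G.coeff k).natDegree * Real.log t| ≤ D := by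
      rw [Filter.eventually_all_finset]
      intro k hk
      filter_upwards [growth_logC (G.coeff k) (mem_support_iff.mp hk)] with t ht
      exact ⟨ht.1, ht.2.trans (hDk k hk)⟩
    filter_upwards [h1, eventually_gt_atTop B] with t ht htB
    have h2 := hroot t htB
    rw [growth_sumC] at h2
    have hht := h0 t htB
    obtain ⟨k, hk, l, hl, hkl, h3⟩ := growth_pair G.support hSne
      (fun k => evC t (G.coeff k) * h t ^ k)
      (fun k hk => mul_ne_zero (ht k hk).1 (pow_ne_zero _ hht)) h2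
    refine ⟨(k, l), Finset.mem_offDiag.mpr ⟨hk, hl, hkl⟩, ?_⟩
    have hlog : ∀ k ∈ G.support, Real.log ‖evC t (G.coeff k) * h t ^ k‖ =
        Real.log ‖evC (t : ℂ) (G.coeff k)‖ + k * Real.log ‖h t‖ := by
      intro k hk
      rw [norm_mul, norm_pow, Real.log_mul (norm_ne_zero_iff.mpr (ht k hk).1)
        (pow_ne_zero _ (norm_ne_zero_iff.mpr hht)), Real.log_pow]
    rw [hlog k hk, hlog l hl] at h3
    have h4 := (ht k hk).2
    have h5 := (ht l hl).2
    have hkl' : ((k : ℝ) - l) ≠ 0 := by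
      rw [sub_ne_zero]
      exact_mod_cast hkl
    have hkl1 : 1 ≤ |((k : ℝ) - l)| := by
      have : (1 : ℤ) ≤ |(k : ℤ) - l| := Int.one_le_abs (by
        rw [sub_ne_zero]; exact_mod_cast hkl)
      exact_mod_cast this
    have h6 : Real.log ‖h t‖ - (growthSlopeC G (k, l) : ℝ) * Real.log t =
        (((k : ℝ) - l) * Real.log ‖h t‖ -
          (((G.coeff l).natDegree : ℝ) - (G.coeff k).natDegree) * Real.log t) / ((k : ℝ) - l) := by
      unfold growthSlopeC
      push_cast
      field_simp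
    rw [h6, abs_div]
    have h7 : |((k : ℝ) - l) * Real.log ‖h t‖ -
          (((G.coeff l).natDegree : ℝ) - (G.coeff k).natDegree) * Real.log t| ≤ C := by
      rw [abs_le] at h3 h4 h5 ⊢
      constructor <;> linarith [h3.1, h3.2, h4.1, h4.2, h5.1, h5.2]
    exact (div_le_self (abs_nonneg _) hkl1).trans h7
  -- the quotient converges
  have hlogt : Tendsto Real.log atTop atTop := Real.tendsto_log_atTop
  have hcl : ∃ s ∈ (G.support.offDiag.image fun p => (growthSlopeC G p : ℝ)),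
      Tendsto (fun t => Real.log ‖h t‖ / Real.log t) atTop (𝓝 s) := by
    apply growth_cluster _ _ (max B 1)
    · apply ContinuousOn.div
      · apply ContinuousOn.log
        · exact (hc.mono (fun t ht => Set.mem_Ioi.mpr
          (lt_of_le_of_lt (le_max_left _ _) (Set.mem_Ioi.mp ht)))).norm
        · intro t ht
          exact norm_ne_zero_iff.mpr (h0 t (lt_of_le_of_lt (le_max_left _ _) ht))
      · apply Real.continuousOn_log.mono
        intro t ht
        have : 1 < t := lt_of_le_of_lt (le_max_right _ _) ht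
        exact (by linarith : (0:ℝ) < t).ne'
      · intro t ht
        have : 1 < t := lt_of_le_of_lt (le_max_right _ _) ht
        exact (Real.log_pos this).ne'
    · intro ε hε
      have h8 : ∀ᶠ t : ℝ in atTop, C / ε < Real.log t := hlogt.eventually_gt_atTop _
      filter_upwards [hkey, h8, eventually_gt_atTop 1] with t ht1 ht2 ht3
      obtain ⟨p, hp, hp'⟩ := ht1
      refine ⟨(growthSlopeC G p : ℝ), Finset.mem_image.mpr ⟨p, hp, rfl⟩, ?_⟩
      have hlt : 0 < Real.log t := Real.log_pos ht3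
      rw [Real.dist_eq]
      have e : Real.log ‖h t‖ / Real.log t - (growthSlopeC G p : ℝ) =
          (Real.log ‖h t‖ - (growthSlopeC G p : ℝ) * Real.log t) / Real.log t := by
        field_simp
      rw [e, abs_div, abs_of_pos hlt, div_lt_iff₀ hlt]
      rw [div_lt_iff₀ hε] at ht2
      linarith
  obtain ⟨s, hs, hlim⟩ := hcl
  obtain ⟨p0, hp0, rfl⟩ := Finset.mem_image.mp hs
  refine ⟨p0, hp0, C, ?_⟩
  -- choose a separation
  have h9 : ∀ᶠ t : ℝ in atTop, ∀ p ∈ G.support.offDiag, growthSlopeC G p ≠ growthSlopeC G p0 →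
      ¬ |Real.log ‖h t‖ - (growthSlopeC G p : ℝ) * Real.log t| ≤ C := by
    rw [Filter.eventually_all_finset]
    intro p hp
    by_cases hpp : growthSlopeC G p = growthSlopeC G p0
    · exact Eventually.of_forall fun t h' => absurd hpp h'
    set δ : ℝ := |(growthSlopeC G p0 : ℝ) - growthSlopeC G p| with hδ
    have hδ0 : 0 < δ := abs_pos.mpr (sub_ne_zero.mpr (by exact_mod_cast Ne.symm hpp))
    have h10 := (Metric.tendsto_atTop.mp hlim) (δ / 2) (half_pos hδ0)
    obtain ⟨N, hN⟩ := h10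
    have h11 : ∀ᶠ t : ℝ in atTop, C / (δ / 2) < Real.log t := hlogt.eventually_gt_atTop _
    filter_upwards [h11, eventually_ge_atTop N, eventually_gt_atTop 1] with t ht1 ht2 ht3 _ hcon
    have h12 := hN t ht2
    have hlt : 0 < Real.log t := Real.log_pos ht3
    rw [Real.dist_eq] at h12
    have h13 : |Real.log ‖h t‖ / Real.log t - (growthSlopeC G p : ℝ)| < δ / 2 := by
      have e : Real.log ‖h t‖ / Real.log t - (growthSlopeC G p : ℝ) =
          (Real.log ‖h t‖ - (growthSlopeC G p : ℝ) * Real.log t) / Real.log t := by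
        field_simp
      rw [e, abs_div, abs_of_pos hlt, div_lt_iff₀ hlt]
      rw [div_lt_iff₀ (half_pos hδ0)] at ht1
      linarith
    have h14 : δ ≤ |Real.log ‖h t‖ / Real.log t - (growthSlopeC G p0 : ℝ)| +
        |Real.log ‖h t‖ / Real.log t - (growthSlopeC G p : ℝ)| := by
      calc δ = |(Real.log ‖h t‖ / Real.log t - (growthSlopeC G p : ℝ)) -
          (Real.log ‖h t‖ / Real.log t - (growthSlopeC G p0 : ℝ))| := by
            rw [hδ]; congr 1; ring
        _ ≤ _ := by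
            refine (abs_sub _ _).trans ?_
            rw [add_comm]
    linarith
  filter_upwards [hkey, h9] with t ht1 ht2
  obtain ⟨p, hp, hp'⟩ := ht1
  by_cases hpp : growthSlopeC G p = growthSlopeC G p0
  · rw [← hpp]
    exact hp'
  · exact absurd hp' (ht2 p hp hpp)

theorem growth_slopeC (G : ℂ[X][X]) (hG : G ≠ 0) (B : ℝ) (h : ℝ → ℂ)
    (hc : ContinuousOn h (Set.Ioi B)) (h0 : ∀ t : ℝ, B < t → h t ≠ 0)
    (hroot : ∀ t : ℝ, B < t → (G.map (evC t)).eval (h t) = 0) :
    ∃ (v : ℚ) (C : ℝ), ∀ᶠ t : ℝ in atTop, |Real.log ‖h t‖ - v * Real.log t| ≤ C := by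
  obtain ⟨p0, -, C, h1⟩ := growth_slopeC_mem G hG B h hc h0 hroot
  exact ⟨_, C, h1⟩

/-- The growth exponent of an algebraic function at infinity. -/
theorem exists_growthC_mem (G : ℂ[X][X]) (hG : G ≠ 0) (B : ℝ) (h : ℝ → ℂ)
    (hc : ContinuousOn h (Set.Ioi B)) (h0 : ∀ t : ℝ, B < t → h t ≠ 0)
    (hroot : ∀ t : ℝ, B < t → (G.map (evC t)).eval (h t) = 0) :
    ∃ p0 ∈ G.support.offDiag, ∃ c : ℂ, c ≠ 0 ∧
      Tendsto (fun t : ℝ => h t ^ (growthSlopeC G p0).den / (t : ℂ) ^ (growthSlopeC G p0).num)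
        atTop (𝓝 c) := by
  classical
  obtain ⟨p0, hp0, C, hv⟩ := growth_slopeC_mem G hG B h hc h0 hroot
  set v : ℚ := growthSlopeC G p0 with hvdef
  have hSne : G.support.Nonempty := support_nonempty.mpr hG
  set w : ℝ → ℂ := fun t => h t / ((t ^ (v : ℝ) : ℝ) : ℂ) with hw
  set β : ℕ → ℝ := fun k => ((G.coeff k).natDegree : ℝ) + v * k with hβ
  obtain ⟨k0, hk0, hmax⟩ := G.support.exists_max_image β hSne
  set L : ℕ → ℂ := fun k => if β k = β k0 then (G.coeff k).leadingCoeff else 0 with hL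
  set W : ℂ[X] := ∑ k ∈ G.support, Polynomial.C (L k) * X ^ k with hW
  have hLk0 : L k0 ≠ 0 := by
    simp only [hL, if_true]
    exact_mod_cast leadingCoeff_ne_zero.mpr (mem_support_iff.mp hk0)
  have hW0 : W ≠ 0 := by
    intro h'
    have := congrArg (fun P => coeff P k0) h'
    simp only [hW, finsetSum_coeff, coeff_C_mul, coeff_X_pow, coeff_zero] at this
    rw [Finset.sum_eq_single k0] at this
    · rw [if_pos rfl, mul_one] at this
      exact hLk0 this
    · intro b _ hb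
      rw [if_neg (Ne.symm hb), mul_zero]
    · intro h''
      exact absurd hk0 h''
  have hwlog : ∀ᶠ t : ℝ in atTop, w t ≠ 0 ∧ |Real.log ‖w t‖| ≤ C := by
    filter_upwards [hv, eventually_gt_atTop B, eventually_gt_atTop 0] with t ht htB ht0
    have htv : 0 < t ^ (v : ℝ) := Real.rpow_pos_of_pos ht0 _
    have hne : ((t ^ (v : ℝ) : ℝ) : ℂ) ≠ 0 := by exact_mod_cast htv.ne'
    refine ⟨div_ne_zero (h0 t htB) hne, ?_⟩
    have e : Real.log ‖w t‖ = Real.log ‖h t‖ - v * Real.log t := by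
      simp only [hw]
      rw [norm_div, Complex.norm_real, Real.norm_of_nonneg htv.le,
        Real.log_div (norm_ne_zero_iff.mpr (h0 t htB)) htv.ne', Real.log_rpow ht0]
    rw [e]
    exact ht
  have hwub : ∀ᶠ t : ℝ in atTop, ‖w t‖ ≤ Real.exp C := by
    filter_upwards [hwlog] with t ht
    rw [← Real.log_le_iff_le_exp (norm_pos_iff.mpr ht.1)]
    exact (abs_le.mp ht.2).2
  have hwlb : ∀ᶠ t : ℝ in atTop, Real.exp (-C) ≤ ‖w t‖ := by
    filter_upwards [hwlog] with t ht
    rw [← Real.le_log_iff_exp_le (norm_pos_iff.mpr ht.1)]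
    exact (abs_le.mp ht.2).1
  -- the coefficients converge
  set g : ℕ → ℝ → ℂ := fun k t => evC (t : ℂ) (G.coeff k) / (t : ℂ) ^ (G.coeff k).natDegree *
    ((t ^ (β k - β k0) : ℝ) : ℂ) with hg
  have hgL : ∀ k ∈ G.support, Tendsto (g k) atTop (𝓝 (L k)) := by
    intro k hk
    have h1 := growth_leadC (G.coeff k)
    by_cases hkk : β k = β k0
    · have h2 : L k = (G.coeff k).leadingCoeff := by
        simp only [hL]
        rw [if_pos hkk]
      rw [h2]
      refine h1.congr fun t => ?_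
      simp only [hg]
      rw [hkk, sub_self, Real.rpow_zero, Complex.ofReal_one, mul_one]
    · have h2 : L k = (G.coeff k).leadingCoeff * ((0 : ℝ) : ℂ) := by
        simp only [hL]
        rw [if_neg hkk, Complex.ofReal_zero, mul_zero]
      rw [h2]
      apply h1.mul
      apply (Complex.continuous_ofReal.tendsto _).comp
      have h3 : 0 < β k0 - β k := sub_pos.mpr (lt_of_le_of_ne (hmax k hk) hkk)
      have h4 := tendsto_rpow_neg_atTop h3
      rwa [neg_sub] at h4
  have hWw : Tendsto (fun t => W.eval (w t)) atTop (𝓝 0) := by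
    have h1 : Tendsto (fun t => ∑ k ∈ G.support, (g k t - L k) * w t ^ k) atTop (𝓝 0) := by
      rw [← Finset.sum_const_zero (s := G.support)]
      apply tendsto_finsetSum
      intro k hk
      have h2 : Tendsto (fun t => g k t - L k) atTop (𝓝 0) := by
        rw [← sub_self (L k)]
        exact (hgL k hk).sub_const _
      rw [tendsto_zero_iff_norm_tendsto_zero] at h2 ⊢
      have h3 : Tendsto (fun t => ‖g k t - L k‖ * (Real.exp C) ^ k) atTop (𝓝 0) := by
        have := h2.mul_const ((Real.exp C) ^ k)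
        rwa [zero_mul] at this
      refine squeeze_zero' (Eventually.of_forall fun t => norm_nonneg _) ?_ h3
      filter_upwards [hwub] with t ht
      rw [norm_mul, norm_pow]
      gcongr
    have h4 : Tendsto (fun t => - ∑ k ∈ G.support, (g k t - L k) * w t ^ k) atTop (𝓝 0) := by
      rw [← neg_zero]
      exact h1.neg
    refine h4.congr' ?_
    filter_upwards [eventually_gt_atTop B, eventually_gt_atTop 0] with t htB ht0
    have h5 : ∑ k ∈ G.support, g k t * w t ^ k = 0 := by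
      have h6 := hroot t htB
      rw [growth_sumC] at h6
      have h7 : ∀ k ∈ G.support, g k t * w t ^ k =
          ((t ^ (- β k0) : ℝ) : ℂ) * (evC t (G.coeff k) * h t ^ k) := by
        intro k _
        simp only [hg, hw]
        have e1 : t ^ (β k - β k0) = t ^ ((G.coeff k).natDegree) * (t ^ (v : ℝ)) ^ k *
            t ^ (- β k0) := by
          rw [← Real.rpow_natCast t, ← Real.rpow_mul_natCast ht0.le, ← Real.rpow_add ht0,
            ← Real.rpow_add ht0]
          congr 1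
        have ht0' : (t : ℂ) ≠ 0 := by exact_mod_cast ht0.ne'
        have hne : ((t ^ (v : ℝ) : ℝ) : ℂ) ≠ 0 := by
          exact_mod_cast (Real.rpow_pos_of_pos ht0 _).ne'
        rw [e1]
        push_cast
        rw [div_pow]
        field_simp
      rw [Finset.sum_congr rfl h7, ← Finset.mul_sum, h6, mul_zero]
    have h8 : W.eval (w t) = ∑ k ∈ G.support, L k * w t ^ k := by
      simp only [hW, eval_finsetSum, eval_mul, eval_C, eval_pow, eval_X]
    rw [h8]
    simp only [sub_mul, Finset.sum_sub_distrib]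
    rw [h5]
    ring
  obtain ⟨c, hc1, hc2⟩ := growth_cluster w W.roots.toFinset (max B 0) (by
      apply ContinuousOn.div
      · exact hc.mono fun t ht => Set.mem_Ioi.mpr
          (lt_of_le_of_lt (le_max_left _ _) (Set.mem_Ioi.mp ht))
      · apply Complex.continuous_ofReal.comp_continuousOn
        apply ContinuousOn.rpow_const continuousOn_id
        intro t ht
        have : 0 < t := lt_of_le_of_lt (le_max_right _ _) (Set.mem_Ioi.mp ht)
        exact Or.inl this.ne'
      · intro t ht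
        have : 0 < t := lt_of_le_of_lt (le_max_right _ _) (Set.mem_Ioi.mp ht)
        exact_mod_cast (Real.rpow_pos_of_pos this _).ne') (by
      intro ε hε
      have h9 : 0 < ‖W.leadingCoeff‖ * ε ^ W.natDegree :=
        mul_pos (norm_pos_iff.mpr (leadingCoeff_ne_zero.mpr hW0)) (pow_pos hε _)
      have h10 := hWw.norm
      rw [norm_zero] at h10
      filter_upwards [h10.eventually_lt_const h9] with t ht
      exact growth_near_root W (w t) ε hε ht)
  have hc0 : c ≠ 0 := by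
    have h11 : Real.exp (-C) ≤ ‖c‖ := ge_of_tendsto hc2.norm hwlb
    exact norm_pos_iff.mp (lt_of_lt_of_le (Real.exp_pos _) h11)
  refine ⟨p0, hp0, c ^ v.den, pow_ne_zero _ hc0, ?_⟩
  refine (hc2.pow v.den).congr' ?_
  filter_upwards [eventually_gt_atTop 0] with t ht0
  simp only [hw]
  rw [div_pow]
  congr 1
  rw [← Complex.ofReal_pow, ← Complex.ofReal_zpow]
  congr 1
  rw [← Real.rpow_mul_natCast ht0.le, ← Real.rpow_intCast]
  congr 1
  have : v * v.den = v.num := Rat.mul_den_eq_num v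
  exact_mod_cast this

theorem exists_growthC (G : ℂ[X][X]) (hG : G ≠ 0) (B : ℝ) (h : ℝ → ℂ)
    (hc : ContinuousOn h (Set.Ioi B)) (h0 : ∀ t : ℝ, B < t → h t ≠ 0)
    (hroot : ∀ t : ℝ, B < t → (G.map (evC t)).eval (h t) = 0) :
    ∃ (e : ℕ) (m : ℤ) (c : ℂ), e ≠ 0 ∧ c ≠ 0 ∧
      Tendsto (fun t : ℝ => h t ^ e / (t : ℂ) ^ m) atTop (𝓝 c) := by
  obtain ⟨p0, -, c, hc0, hlim⟩ := exists_growthC_mem G hG B h hc h0 hroot
  exact ⟨_, _, c, (growthSlopeC G p0).den_nz, hc0, hlim⟩

end Pool.Agent.Work.MP_59f3ad_nt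

end

section

/-!
Determinants of logarithms of functions of prescribed growth do not vanish.
-/

open Filter Topology

namespace Pool.Agent.Work.MP_59f3ad_nt

open RTaylor

/-- A differentiable function whose exponential converges to a nonzero limit is bounded near
infinity. -/
theorem bounded_of_exp_tendsto (B : ℝ) (z : ℝ → ℂ) (hz : ∀ t, B < t → DifferentiableAt ℝ z t)
    (c : ℂ) (hc : c ≠ 0) (h : Tendsto (fun t => Complex.exp (z t)) atTop (𝓝 c)) :
    ∃ L : ℂ, Tendsto z atTop (𝓝 L) := by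
  have hw : Tendsto (fun t => Complex.exp (z t) / c) atTop (𝓝 1) := by
    have := h.div_const c
    rwa [div_self hc] at this
  have hev : ∀ᶠ t in atTop, Complex.exp (z t) / c ∈ Complex.slitPlane :=
    hw.eventually_mem (Complex.isOpen_slitPlane.mem_nhds Complex.one_mem_slitPlane)
  obtain ⟨t0, ht0⟩ := eventually_atTop.mp hev
  set t1 := max t0 (B + 1) with ht1
  -- the difference is constant
  have hder : ∀ t ∈ Set.Ici t1, HasDerivAt (fun t => z t - Complex.log (Complex.exp (z t) / c)) 0 t := by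
    intro t ht
    have h1 : B < t := by
      have := le_max_right t0 (B + 1)
      have h2 : t1 ≤ t := ht
      linarith
    have h2 : t0 ≤ t := (le_max_left _ _).trans ht
    have h3 := (hz t h1).hasDerivAt
    have h4 : HasDerivAt (fun t => Complex.exp (z t) / c) (Complex.exp (z t) * deriv z t / c) t :=
      h3.cexp.div_const c
    have h5 := h4.clog_real (ht0 t h2)
    have h6 := h3.sub h5
    have h7 : deriv z t - Complex.exp (z t) * deriv z t / c / (Complex.exp (z t) / c) = 0 := by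
      have := Complex.exp_ne_zero (z t)
      field_simp
      ring
    rw [h7] at h6
    exact h6
  have hconst : ∀ t ∈ Set.Ici t1, z t - Complex.log (Complex.exp (z t) / c) =
      z t1 - Complex.log (Complex.exp (z t1) / c) := by
    intro t ht
    have hconv : Convex ℝ (Set.Ici t1) := convex_Ici t1
    refine hconv.is_const_of_fderivWithin_eq_zero (𝕜 := ℝ)
      (f := fun t => z t - Complex.log (Complex.exp (z t) / c)) ?_ ?_ ht Set.self_mem_Ici
    · intro s hs
      exact (hder s hs).differentiableAt.differentiableWithinAt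
    · intro s hs
      have h1 := (hder s hs).hasFDerivAt.hasFDerivWithinAt (s := Set.Ici t1)
      rw [h1.fderivWithin ((uniqueDiffOn_Ici t1) s hs)]
      ext
      simp
  refine ⟨0 + (z t1 - Complex.log (Complex.exp (z t1) / c)), ?_⟩
  have hlog : Tendsto (fun t => Complex.log (Complex.exp (z t) / c)) atTop (𝓝 0) := by
    have h1 : ContinuousAt Complex.log 1 := continuousAt_clog Complex.one_mem_slitPlane
    have h2 := h1.tendsto.comp hw
    rwa [Complex.log_one] at h2
  refine (hlog.add_const _).congr' ?_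
  filter_upwards [eventually_ge_atTop t1] with t ht
  rw [← hconst t ht]
  ring

/-- Logarithmic primitives of a nonvanishing analytic function. -/
theorem exists_log (B : ℝ) (h : ℝ → ℂ) (han : AnalyticOnNhd ℝ h (Set.Ioi B))
    (h0 : ∀ t : ℝ, B < t → h t ≠ 0) :
    ∃ Y : ℝ → ℂ, AnalyticOnNhd ℝ Y (Set.Ioi B) ∧
      (∀ t : ℝ, B < t → HasDerivAt Y (deriv h t / h t) t) := by
  set g : ℝ → ℂ := fun t => deriv h t / h t with hg
  have hgan : AnalyticOnNhd ℝ g (Set.Ioi B) := fun t ht => (han t ht).deriv.div (han t ht) (h0 t ht)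
  have hgc : ContinuousOn g (Set.Ioi B) := hgan.continuousOn
  set t1 := B + 1 with ht1
  have hB1 : B < t1 := by linarith
  set Y : ℝ → ℂ := fun t => ∫ s in t1..t, g s with hY
  have hder : ∀ t : ℝ, B < t → HasDerivAt Y (g t) t := by
    intro t ht
    have hsub : Set.uIcc t1 t ⊆ Set.Ioi B := by
      intro s hs
      rw [Set.mem_uIcc] at hs
      rcases hs with hs | hs
      · exact lt_of_lt_of_le hB1 hs.1
      · exact lt_of_lt_of_le ht hs.1
    refine intervalIntegral.integral_hasDerivAt_right ?_ ?_ ?_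
    · exact (hgc.mono hsub).intervalIntegrable
    · exact hgc.stronglyMeasurableAtFilter isOpen_Ioi t ht
    · exact (hgan t ht).continuousAt
  refine ⟨Y, ?_, hder⟩
  intro t ht
  -- near `t`, compare with the logarithm
  have hlan : AnalyticAt ℝ (fun s => Complex.log (h s / h t)) t := by
    have h1 : AnalyticAt ℝ (fun s => h s / h t) t := (han t ht).div analyticAt_const (h0 t ht)
    have h2 : AnalyticAt ℝ Complex.log (h t / h t) := by
      rw [div_self (h0 t ht)]
      exact (analyticAt_clog Complex.one_mem_slitPlane).restrictScalars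
    exact AnalyticAt.comp (g := Complex.log) (f := fun s => h s / h t) (x := t) h2 h1
  have hev : ∀ᶠ s in 𝓝 t, h s / h t ∈ Complex.slitPlane ∧ B < s := by
    have h1 : ContinuousAt (fun s => h s / h t) t := (han t ht).continuousAt.div_const _
    have h2 : h t / h t ∈ Complex.slitPlane := by
      rw [div_self (h0 t ht)]; exact Complex.one_mem_slitPlane
    exact (h1.eventually_mem (Complex.isOpen_slitPlane.mem_nhds h2)).and (eventually_gt_nhds ht)
  obtain ⟨δ, hδ, hball⟩ := Metric.eventually_nhds_iff_ball.mp hev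
  have hconst : ∀ s ∈ Metric.ball t δ, Y s - Complex.log (h s / h t) = Y t - Complex.log (h t / h t) := by
    intro s hs
    have hder2 : ∀ s ∈ Metric.ball t δ, HasDerivAt (fun s => Y s - Complex.log (h s / h t)) 0 s := by
      intro s hs
      obtain ⟨h3, h4⟩ := hball s hs
      have h5 := (han s h4).differentiableAt.hasDerivAt.div_const (h t)
      have h6 := h5.clog_real h3
      have h7 := (hder s h4).sub h6
      have h8 : g s - deriv h s / h t / (h s / h t) = 0 := by
        have h9 := h0 s h4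
        have h10 := h0 t ht
        simp only [hg]
        field_simp
        ring
      rw [h8] at h7
      exact h7
    refine (convex_ball t δ).is_const_of_fderivWithin_eq_zero (𝕜 := ℝ)
      (f := fun s => Y s - Complex.log (h s / h t)) ?_ ?_ hs (Metric.mem_ball_self hδ)
    · intro s hs
      exact (hder2 s hs).differentiableAt.differentiableWithinAt
    · intro s hs
      have h1 := (hder2 s hs).hasFDerivAt.hasFDerivWithinAt (s := Metric.ball t δ)
      rw [h1.fderivWithin (Metric.isOpen_ball.uniqueDiffOn s hs)]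
      ext
      simp
  have han2 : AnalyticAt ℝ (fun s => Complex.log (h s / h t) + (Y t - Complex.log (h t / h t))) t :=
    hlan.add analyticAt_const
  refine han2.congr ?_
  filter_upwards [Metric.ball_mem_nhds t hδ] with s hs
  rw [← hconst s hs]
  ring

/-- The growth of the logarithm. -/
theorem tendsto_log_div (B : ℝ) (hB : 0 ≤ B) (h : ℝ → ℂ) (han : AnalyticOnNhd ℝ h (Set.Ioi B))
    (h0 : ∀ t : ℝ, B < t → h t ≠ 0) (e : ℕ) (he : e ≠ 0) (v : ℤ) (c : ℂ) (hc : c ≠ 0)
    (hv : Tendsto (fun t : ℝ => h t ^ e / (t : ℂ) ^ v) atTop (𝓝 c)) (Y : ℝ → ℂ)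
    (hY : ∀ t : ℝ, B < t → HasDerivAt Y (deriv h t / h t) t) :
    Tendsto (fun t : ℝ => Y t / (Real.log t : ℂ)) atTop (𝓝 ((v : ℂ) / e)) := by
  set t1 := B + 1 with ht1
  have hB1 : B < t1 := by linarith
  have hconst : ∀ t ∈ Set.Ioi B, h t ^ e * Complex.exp (-(e * Y t)) =
      h t1 ^ e * Complex.exp (-(e * Y t1)) := by
    intro t ht
    have hder : ∀ s ∈ Set.Ioi B, HasDerivAt (fun s => h s ^ e * Complex.exp (-(e * Y s))) 0 s := by
      intro s hs
      have h1 := (han s hs).differentiableAt.hasDerivAt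
      have h2 : HasDerivAt (fun s => h s ^ e * Complex.exp (-(e * Y s)))
          ((e : ℂ) * h s ^ (e - 1) * deriv h s * Complex.exp (-(e * Y s)) +
          h s ^ e * (Complex.exp (-(e * Y s)) * -(e * (deriv h s / h s)))) s :=
        (h1.pow e).mul ((hY s hs).const_mul (e : ℂ)).neg.cexp
      have h3 : (e : ℂ) * h s ^ (e - 1) * deriv h s * Complex.exp (-(e * Y s)) +
          h s ^ e * (Complex.exp (-(e * Y s)) * -(e * (deriv h s / h s))) = 0 := by
        obtain ⟨k, rfl⟩ : ∃ k, e = k + 1 := ⟨e - 1, by omega⟩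
        have h4 := h0 s hs
        rw [Nat.add_sub_cancel]
        field_simp
        ring
      rw [h3] at h2
      exact h2
    refine (convex_Ioi B).is_const_of_fderivWithin_eq_zero (𝕜 := ℝ)
      (f := fun s => h s ^ e * Complex.exp (-(e * Y s))) ?_ ?_ ht hB1
    · intro s hs
      exact (hder s hs).differentiableAt.differentiableWithinAt
    · intro s hs
      have h1 := (hder s hs).hasFDerivAt.hasFDerivWithinAt (s := Set.Ioi B)
      rw [h1.fderivWithin (isOpen_Ioi.uniqueDiffOn s hs)]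
      ext
      simp
  set C0 := h t1 ^ e * Complex.exp (-(e * Y t1)) with hC0
  have hC0ne : C0 ≠ 0 := mul_ne_zero (pow_ne_zero _ (h0 t1 hB1)) (Complex.exp_ne_zero _)
  set z : ℝ → ℂ := fun t => e * Y t - v * (Real.log t : ℂ) with hz
  have hzd : ∀ t, B < t → DifferentiableAt ℝ z t := by
    intro t ht
    have h1 := (hY t ht).const_mul (e : ℂ)
    have h2 : HasDerivAt (fun t : ℝ => (Real.log t : ℂ)) ((t⁻¹ : ℝ) : ℂ) t :=
      (Real.hasDerivAt_log (by linarith : t ≠ 0)).ofReal_comp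
    exact (h1.sub (h2.const_mul (v : ℂ))).differentiableAt
  have hexp : Tendsto (fun t => Complex.exp (z t)) atTop (𝓝 (c / C0)) := by
    refine (hv.div_const C0).congr' ?_
    filter_upwards [eventually_gt_atTop B] with t ht
    have h1 := hconst t ht
    have ht0 : 0 < t := by linarith
    have htC : (t : ℂ) ≠ 0 := by exact_mod_cast ht0.ne'
    have h2 : Complex.exp (v * (Real.log t : ℂ)) = (t : ℂ) ^ v := by
      rw [Complex.exp_int_mul, Complex.ofReal_log ht0.le, Complex.exp_log htC]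
    have h3 : Complex.exp (e * Y t) * Complex.exp (-(e * Y t)) = 1 := by
      rw [← Complex.exp_add]; simp
    rw [hz]
    simp only
    rw [Complex.exp_sub, h2]
    have h4 : h t ^ e = C0 * Complex.exp (e * Y t) := by
      rw [← h1]
      linear_combination -(h t ^ e) * h3
    rw [h4]
    field_simp
  obtain ⟨L, hL⟩ := bounded_of_exp_tendsto B z hzd _ (div_ne_zero hc hC0ne) hexp
  have hlog : Tendsto (fun R : ℝ => ((Real.log R : ℝ) : ℂ)⁻¹) atTop (𝓝 0) := by
    have h1 : Tendsto (fun R : ℝ => (Real.log R)⁻¹) atTop (𝓝 0) :=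
      tendsto_inv_atTop_zero.comp Real.tendsto_log_atTop
    have h2 := (Complex.continuous_ofReal.tendsto 0).comp h1
    simp only [Complex.ofReal_zero] at h2
    refine h2.congr fun R => ?_
    simp
  have heC : (e : ℂ) ≠ 0 := by exact_mod_cast he
  have h1 : Tendsto (fun t : ℝ => (v : ℂ) / e + z t * ((Real.log t : ℝ) : ℂ)⁻¹ / e) atTop
      (𝓝 ((v : ℂ) / e + L * 0 / e)) := ((hL.mul hlog).div_const _).const_add _
  rw [mul_zero, zero_div, add_zero] at h1
  refine h1.congr' ?_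
  filter_upwards [eventually_gt_atTop (max 1 B)] with t ht
  have h2 : Real.log t ≠ 0 := (Real.log_pos ((le_max_left _ _).trans_lt ht)).ne'
  have h3 : ((Real.log t : ℝ) : ℂ) ≠ 0 := by exact_mod_cast h2
  rw [hz]
  field_simp
  ring

/-- Determinants of logarithms of functions of prescribed growth do not vanish. -/
theorem det_ne_zero_of_growth (n : ℕ) (B : ℝ) (hB : 0 ≤ B) (h : Fin n → Fin n → ℝ → ℂ)
    (han : ∀ l j, AnalyticOnNhd ℝ (h l j) (Set.Ioi B)) (h0 : ∀ l j, ∀ t : ℝ, B < t → h l j t ≠ 0)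
    (e : ℕ) (he : e ≠ 0) (v : Fin n → Fin n → ℤ) (c : Fin n → Fin n → ℂ)
    (hc : ∀ l j, c l j ≠ 0)
    (hv : ∀ l j, Tendsto (fun t : ℝ => h l j t ^ e / (t : ℂ) ^ (v l j)) atTop (𝓝 (c l j)))
    (hdet : (Matrix.of v).det ≠ 0) (Q1 : ℝ) (hQ1 : B < Q1) (ε : ℝ) (hε : 0 < ε) (κ : ℂ)
    (hκ : κ ≠ 0) (y : Fin n → Fin n → PowerSeries ℂ)
    (hy : ∀ l j, PowerSeries.C κ * PowerSeries.derivative ℂ (Tay fun s => h l j (Q1 + ε * s)) =
      (Tay fun s => h l j (Q1 + ε * s)) * PowerSeries.derivative ℂ (y l j)) :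
    (Matrix.of y).det ≠ 0 := by
  intro hdet0
  choose Y hYan hYder using fun l j => exists_log B (h l j) (han l j) (h0 l j)
  -- composition with the line
  let L : ℝ → ℝ := fun s => Q1 + ε * s
  have hL : AnalyticAt ℝ L 0 := analyticAt_const.add (analyticAt_const.mul analyticAt_id)
  have hL0 : L 0 = Q1 := by simp [L]
  have hcomp : ∀ {f : ℝ → ℂ}, AnalyticOnNhd ℝ f (Set.Ioi B) →
      AnalyticAt ℝ (fun s => f (L s)) 0 := by
    intro f hf
    exact AnalyticAt.fun_comp (by rw [hL0]; exact hf _ hQ1) hL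
  have hLD : ∀ᶠ s in 𝓝 (0 : ℝ), B < L s :=
    hL.continuousAt.eventually_mem (by rw [hL0]; exact isOpen_Ioi.mem_nhds hQ1)
  have hLder : ∀ s, HasDerivAt L ε s := by
    intro s
    exact (((hasDerivAt_id s).const_mul ε).const_add Q1).congr_deriv (mul_one ε)
  -- the analytic functions with Taylor series `y`
  let c0 : Fin n → Fin n → ℂ := fun l j => PowerSeries.constantCoeff (y l j) - κ * Y l j Q1
  let Z : Fin n → Fin n → An := fun l j =>
    ⟨fun s => c0 l j + κ * Y l j (L s),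
      analyticAt_const.add (analyticAt_const.mul (hcomp (hYan l j)))⟩
  have hZ : ∀ l j, y l j = T (Z l j) := by
    intro l j
    have hEan : AnalyticAt ℝ (fun s => h l j (L s)) 0 := hcomp (han l j)
    have hE0 : Tay (fun s => h l j (L s)) ≠ 0 := by
      intro h1
      have := constantCoeff_tay (fun s => h l j (L s))
      rw [h1, map_zero] at this
      have h4 := h0 l j Q1 hQ1
      rw [← hL0] at h4
      exact h4 this.symm
    apply PowerSeries.derivative.ext
    · apply mul_left_cancel₀ hE0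
      have h1 := hy l j
      change PowerSeries.C κ * PowerSeries.derivative ℂ (Tay fun s => h l j (L s)) =
        (Tay fun s => h l j (L s)) * PowerSeries.derivative ℂ (y l j) at h1
      rw [← h1, T_apply, derivative_tay, derivative_tay, ← tay_const,
        ← tay_mul analyticAt_const hEan.deriv, ← tay_mul hEan (Z l j).2.deriv]
      apply tay_congr
      filter_upwards [hLD] with s hs
      have h5 : HasDerivAt (fun s => h l j (L s)) ((ε : ℝ) • deriv (h l j) (L s)) s :=
        (han l j (L s) hs).differentiableAt.hasDerivAt.scomp s (hLder s)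
      have h6 : HasDerivAt (fun s => c0 l j + κ * Y l j (L s))
          (κ * ((ε : ℝ) • (deriv (h l j) (L s) / h l j (L s)))) s :=
        (((hYder l j (L s) hs).scomp s (hLder s)).const_mul κ).const_add _
      simp only [Pi.mul_apply]
      rw [h5.deriv]
      have h7 : deriv (Z l j : ℝ → ℂ) s =
        κ * ((ε : ℝ) • (deriv (h l j) (L s) / h l j (L s))) := h6.deriv
      rw [h7]
      have h8 := h0 l j (L s) hs
      simp only [Complex.real_smul]
      field_simp
    · rw [T_apply, constantCoeff_tay]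
      change _ = c0 l j + κ * Y l j (L 0)
      rw [hL0]
      simp [c0]
  let Dt : An := (Matrix.of fun l j : Fin n => Z l j).det
  have hdet2 : T Dt = 0 := by
    rw [RingHom.map_det, ← hdet0]
    congr 1
    ext l j
    simp [hZ]
  have hdet3 := eventually_eq_zero Dt.2 hdet2
  have hdet4 : ∀ᶠ s in 𝓝 (0 : ℝ), (Matrix.of fun l j : Fin n =>
      c0 l j + κ * Y l j (L s)).det = 0 := by
    filter_upwards [hdet3] with s hs
    rw [← ev_apply, RingHom.map_det] at hs
    rw [← hs]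
    rfl
  -- vanishing on the whole half line
  let F : ℝ → ℂ := fun Q => (Matrix.of fun l j : Fin n => c0 l j + κ * Y l j Q).det
  have hF : AnalyticOnNhd ℝ F (Set.Ioi B) := by
    intro Q hQ
    simp only [F, Matrix.det_apply]
    refine Finset.analyticAt_fun_sum _ fun σ _ => ?_
    refine AnalyticAt.const_smul ?_
    refine Finset.analyticAt_fun_prod _ fun i _ => ?_
    exact analyticAt_const.add (analyticAt_const.mul (hYan _ _ Q hQ))
  have hF0' : F =ᶠ[𝓝 Q1] 0 := by
    have hback : Tendsto (fun Q : ℝ => (Q - Q1) / ε) (𝓝 Q1) (𝓝 0) := by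
      have : ContinuousAt (fun Q : ℝ => (Q - Q1) / ε) Q1 := by fun_prop
      have h8 := this.tendsto
      simpa using h8
    filter_upwards [hback.eventually hdet4] with Q hQ
    have h9 : L ((Q - Q1) / ε) = Q := by
      simp only [L]
      field_simp
      ring
    rw [h9] at hQ
    exact hQ
  have hF0 := hF.eqOn_zero_of_preconnected_of_eventuallyEq_zero isPreconnected_Ioi hQ1 hF0'
  -- the limit
  have hlog : Tendsto (fun R : ℝ => ((Real.log R : ℝ) : ℂ)⁻¹) atTop (𝓝 0) := by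
    have h1 : Tendsto (fun R : ℝ => (Real.log R)⁻¹) atTop (𝓝 0) :=
      tendsto_inv_atTop_zero.comp Real.tendsto_log_atTop
    have h2 := (Complex.continuous_ofReal.tendsto 0).comp h1
    simp only [Complex.ofReal_zero] at h2
    refine h2.congr fun R => ?_
    simp
  have hlim : Tendsto (fun R : ℝ => (Matrix.of fun l j : Fin n =>
      (c0 l j + κ * Y l j R) / (Real.log R : ℂ)).det) atTop
      (𝓝 (Matrix.of fun l j : Fin n => κ * ((v l j : ℂ) / e)).det) := by
    have hM : Tendsto (fun R : ℝ => (Matrix.of fun l j : Fin n =>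
        (c0 l j + κ * Y l j R) / (Real.log R : ℂ))) atTop
        (𝓝 (Matrix.of fun l j : Fin n => κ * ((v l j : ℂ) / e))) := by
      refine tendsto_pi_nhds.2 fun l => tendsto_pi_nhds.2 fun j => ?_
      have h1 : Tendsto (fun R : ℝ => c0 l j * ((Real.log R : ℝ) : ℂ)⁻¹ +
          κ * (Y l j R / (Real.log R : ℂ))) atTop
          (𝓝 (c0 l j * 0 + κ * ((v l j : ℂ) / e))) :=
        (tendsto_const_nhds.mul hlog).add (tendsto_const_nhds.mul
          (tendsto_log_div B hB (h l j) (han l j) (h0 l j) e he (v l j) (c l j) (hc l j) (hv l j)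
            (Y l j) (hYder l j)))
      rw [mul_zero, zero_add] at h1
      refine h1.congr fun R => ?_
      simp only [Matrix.of_apply]
      ring
    exact (Continuous.matrix_det continuous_id).continuousAt.tendsto.comp hM
  have hzero : ∀ᶠ R : ℝ in atTop, (Matrix.of fun l j : Fin n =>
      (c0 l j + κ * Y l j R) / (Real.log R : ℂ)).det = 0 := by
    filter_upwards [eventually_gt_atTop B] with R hR
    have h1 : (Matrix.of fun l j : Fin n => (c0 l j + κ * Y l j R) / (Real.log R : ℂ)) =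
        ((Real.log R : ℝ) : ℂ)⁻¹ • (Matrix.of fun l j : Fin n => (c0 l j + κ * Y l j R)) := by
      ext l j
      simp only [Matrix.of_apply, Matrix.smul_apply, smul_eq_mul]
      ring
    rw [h1, Matrix.det_smul]
    have h2 : F R = 0 := hF0 hR
    have h3 : (Matrix.of fun l j : Fin n => (c0 l j + κ * Y l j R)).det = 0 := h2
    rw [h3, mul_zero]
  have h4 : (Matrix.of fun l j : Fin n => κ * ((v l j : ℂ) / e)).det = 0 :=
    tendsto_nhds_unique (hlim.congr' hzero) tendsto_const_nhds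
  have h5 : (Matrix.of fun l j : Fin n => κ * ((v l j : ℂ) / e)) =
      (κ / e) • (Int.castRingHom ℂ).mapMatrix (Matrix.of v) := by
    ext l j
    simp
    ring
  rw [h5, Matrix.det_smul, ← RingHom.map_det] at h4
  have heC : (e : ℂ) ≠ 0 := by exact_mod_cast he
  rcases mul_eq_zero.mp h4 with h6 | h6
  · exact (pow_ne_zero _ (div_ne_zero hκ heC)) h6
  · apply hdet
    have h7 : (((Matrix.of v).det : ℤ) : ℂ) = 0 := h6
    exact_mod_cast h7

end Pool.Agent.Work.MP_59f3ad_nt

end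

section

/-!
The complex analytic input for a family with complex coefficients, at a large real base point.
-/

open Polynomial Filter Topology

namespace Pool.Agent.Work.MP_59f3ad_nt

/-- The ring homomorphism `T ↦ τ + s` to power series in `s`. -/
noncomputable def toPSc (τ : ℂ) : ℂ[X] →+* PowerSeries ℂ :=
  eval₂RingHom PowerSeries.C (PowerSeries.C τ + PowerSeries.X)

theorem toPSc_C (τ : ℂ) (a : ℂ) : toPSc τ (Polynomial.C a) = PowerSeries.C a := by
  simp [toPSc]

theorem toPSc_X (τ : ℂ) : toPSc τ Polynomial.X = PowerSeries.C τ + PowerSeries.X := by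
  simp [toPSc]

/-- The complex-analytic input at the real parameter `τ`: there are power series roots of the
family (in the variable `s`, the parameter being `τ + s`) for which every determinant of
logarithms of the units is nonzero. -/
def LogDetC {n : ℕ} (F : ℂ[X][X]) (H : Fin n → ℂ[X][X]) (τ : ℝ) : Prop :=
  ∀ κ : ℂ, κ ≠ 0 → ∃ ξ : Fin n → PowerSeries ℂ,
    (∀ j, (F.map (toPSc τ)).eval (ξ j) = 0) ∧
    (∀ j, (derivative (F.map (toPSc τ))).eval (ξ j) ≠ 0) ∧
    ∀ y : Fin n → Fin n → PowerSeries ℂ,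
      (∀ l j, PowerSeries.C κ * PowerSeries.derivative ℂ (((H l).map (toPSc τ)).eval (ξ j)) =
        ((H l).map (toPSc τ)).eval (ξ j) * PowerSeries.derivative ℂ (y l j)) →
      (Matrix.of y).det ≠ 0

section eval

variable (F : ℂ[X][X])

/-- The specialisation of `ℂ[T][X]/(F)` at a point of the curve `F = 0`. -/
noncomputable def specC (t z : ℂ) (h : (F.map (evC t)).eval z = 0) : AdjoinRoot F →+* ℂ :=
  AdjoinRoot.lift (evC t) z (by rwa [eval_map] at h)

theorem specC_mk (t z : ℂ) (h : (F.map (evC t)).eval z = 0) (P : ℂ[X][X]) :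
    specC F t z h (AdjoinRoot.mk F P) = (P.map (evC t)).eval z := by
  rw [specC, AdjoinRoot.lift_mk, eval_map]

/-- Values of a unit satisfy a fixed monic equation. -/
theorem exists_equationC (hF : F.Monic) (P : ℂ[X][X]) :
    ∃ G : ℂ[X][X], G ≠ 0 ∧ ∀ t z : ℂ, (F.map (evC t)).eval z = 0 →
      (G.map (evC t)).eval ((P.map (evC t)).eval z) = 0 := by
  have hfin : Module.Finite ℂ[X] (AdjoinRoot F) := hF.finite_adjoinRoot
  obtain ⟨G, hG, hG0⟩ := Algebra.IsIntegral.isIntegral (R := ℂ[X]) (AdjoinRoot.mk F P)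
  refine ⟨G, hG.ne_zero, fun t z h => ?_⟩
  have h1 := congrArg (specC F t z h) hG0
  rw [Polynomial.hom_eval₂, specC_mk, map_zero] at h1
  have h2 : (specC F t z h).comp (algebraMap ℂ[X] (AdjoinRoot F)) = evC t := by
    refine RingHom.ext fun f => ?_
    rw [RingHom.comp_apply, AdjoinRoot.algebraMap_eq]
    exact AdjoinRoot.lift_of _
  rw [h2] at h1
  rw [eval_map]
  exact h1

end eval

section analytic

theorem analyticAt_evC (f : ℂ[X]) (t0 : ℝ) : AnalyticAt ℝ (fun t : ℝ => evC (t : ℂ) f) t0 := by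
  have h1 : (fun t : ℝ => evC (t : ℂ) f) = fun t : ℝ => ∑ i ∈ Finset.range (f.natDegree + 1),
      f.coeff i * (t : ℂ) ^ i := by
    funext t
    rw [evC_apply, eval_eq_sum_range]
  rw [h1]
  refine Finset.analyticAt_fun_sum _ fun i _ => ?_
  exact analyticAt_const.mul ((Complex.ofRealCLM.analyticAt t0).pow i)

theorem analyticAt_valueC (P : ℂ[X][X]) (ξ : ℝ → ℂ) (t0 : ℝ) (hξ : AnalyticAt ℝ ξ t0) :
    AnalyticAt ℝ (fun t : ℝ => (P.map (evC t)).eval (ξ t)) t0 := by
  have h1 : (fun t : ℝ => (P.map (evC t)).eval (ξ t)) = fun t : ℝ =>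
      ∑ i ∈ Finset.range (P.natDegree + 1), evC (t : ℂ) (P.coeff i) * ξ t ^ i := by
    funext t
    rw [eval_map, eval₂_eq_sum_range]
  rw [h1]
  refine Finset.analyticAt_fun_sum _ fun i _ => ?_
  exact (analyticAt_evC _ t0).mul (hξ.pow i)

open RTaylor in
/-- The Taylor series of the values along `τ + s`. -/
theorem tay_valueC (τ : ℝ) (P : ℂ[X][X]) (ξ : ℝ → ℂ)
    (hξ : AnalyticAt ℝ (fun s : ℝ => ξ (τ + 1 * s)) 0) :
    (P.map (toPSc τ)).eval (Tay fun s : ℝ => ξ (τ + 1 * s)) =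
      Tay fun s : ℝ => (P.map (evC ((τ + 1 * s : ℝ) : ℂ))).eval (ξ (τ + 1 * s)) := by
  let X0 : An := ⟨fun s => ξ (τ + 1 * s), hξ⟩
  let cst : ℂ →+* An :=
    { toFun := fun a => ⟨fun _ => a, analyticAt_const⟩
      map_one' := rfl
      map_mul' := fun _ _ => rfl
      map_zero' := rfl
      map_add' := fun _ _ => rfl }
  let lam : ℂ[X] →+* An := eval₂RingHom cst (lin τ 1)
  have h1 : T.comp lam = toPSc τ := by
    apply Polynomial.ringHom_ext
    · intro a
      rw [RingHom.comp_apply, toPSc_C]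
      have h2 : lam (C a) = cst a := by simp [lam]
      rw [h2, T_apply]
      exact tay_const a
    · rw [RingHom.comp_apply]
      have h2 : lam X = lin τ 1 := by simp [lam]
      rw [h2, T_lin, toPSc_X]
      push_cast
      rw [map_one, one_mul]
  rw [eval_map, ← h1]
  have h2 : (Tay fun s : ℝ => ξ (τ + 1 * s)) = T X0 := rfl
  rw [h2, ← Polynomial.hom_eval₂, T_apply]
  congr 1
  funext s
  rw [← ev_apply, Polynomial.hom_eval₂, eval_map]
  have h3 : (ev s).comp lam = evC ((τ + 1 * s : ℝ) : ℂ) := by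
    apply Polynomial.ringHom_ext
    · intro a
      rw [RingHom.comp_apply, evC_C]
      have h2 : lam (C a) = cst a := by simp [lam]
      rw [h2]
      rfl
    · rw [RingHom.comp_apply]
      have h4 : lam X = lin τ 1 := by simp [lam]
      rw [h4, evC_X, ev_apply]
      simp [lin]
  rw [h3]
  rfl

end analytic

/-- The analytic input holds for all large real parameters. -/
theorem exists_logDetC (F : ℂ[X][X]) (hF : F.Monic) (t0 : ℂ) (hsep : (F.map (evC t0)).Separable)
    (n : ℕ) (u : Fin n → (AdjoinRoot F)ˣ)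
    (hu : ∀ E : Fin n → ℤ, E ≠ 0 →
      Transcendental ℂ ((∏ i, u i ^ E i : (AdjoinRoot F)ˣ) : AdjoinRoot F))
    (H G : Fin n → ℂ[X][X]) (hH : ∀ i, AdjoinRoot.mk F (H i) = u i)
    (hHG : ∀ l, F ∣ H l * G l - 1) :
    ∃ B : ℝ, ∀ τ : ℝ, B < τ → LogDetC F H τ := by
  classical
  obtain ⟨B0, ξ, hξan, hξ⟩ := exists_analytic_rootsC F hF t0 hsep
  obtain ⟨B1, hB1⟩ := AnRootsC.exists_bound F hF t0 hsep
  set B := max (max B0 0) B1 with hB
  have hB0 : B0 ≤ B := (le_max_left _ _).trans (le_max_left _ _)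
  have hBnn : 0 ≤ B := (le_max_right _ _).trans (le_max_left _ _)
  have hB1' : B1 ≤ B := le_max_right _ _
  have hξan' : ∀ j, AnalyticOnNhd ℝ (ξ j) (Set.Ioi B) := fun j t ht =>
    hξan j t (lt_of_le_of_lt hB0 ht)
  have hξ' : ∀ t : ℝ, B < t → Function.Injective (fun j => ξ j t) ∧
        ∀ j, (F.map (evC t)).eval (ξ j t) = 0 := fun t ht => hξ t (lt_of_le_of_lt hB0 ht)
  -- the values of the units
  set h : Fin n → Fin F.natDegree → ℝ → ℂ := fun l j t => ((H l).map (evC t)).eval (ξ j t) with hh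
  have han : ∀ l j, AnalyticOnNhd ℝ (h l j) (Set.Ioi B) := fun l j t ht =>
    analyticAt_valueC _ _ _ (hξan' j t ht)
  have h0 : ∀ l j, ∀ t : ℝ, B < t → h l j t ≠ 0 := by
    intro l j t ht hzero
    obtain ⟨g, hg⟩ := hHG l
    have h1 := congrArg (fun P : ℂ[X][X] => (P.map (evC t)).eval (ξ j t)) hg
    simp only [Polynomial.map_sub, Polynomial.map_mul, Polynomial.map_one, eval_sub, eval_mul,
      eval_one, (hξ' t ht).2 j, zero_mul] at h1
    have h2 : ((H l).map (evC t)).eval (ξ j t) = 0 := hzero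
    rw [h2, zero_mul, zero_sub, neg_eq_zero] at h1
    exact one_ne_zero h1
  -- the growth exponents
  have hgr : ∀ l j, ∃ (e : ℕ) (m : ℤ) (c : ℂ), e ≠ 0 ∧ c ≠ 0 ∧
      Tendsto (fun t : ℝ => h l j t ^ e / (t : ℂ) ^ m) atTop (𝓝 c) := by
    intro l j
    obtain ⟨G', hG', hG0⟩ := exists_equationC F hF (H l)
    exact exists_growthC G' hG' B (h l j) (han l j).continuousOn (h0 l j)
      fun t ht => hG0 t _ ((hξ' t ht).2 j)
  choose e m c he hc hlim using hgr
  set e0 : ℕ := ∏ l, ∏ j, e l j with he0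
  have he0ne : e0 ≠ 0 := Finset.prod_ne_zero_iff.mpr fun l _ =>
    Finset.prod_ne_zero_iff.mpr fun j _ => he l j
  have hdvd : ∀ l j, e l j ∣ e0 := fun l j =>
    (Finset.dvd_prod_of_mem _ (Finset.mem_univ j)).trans
      (Finset.dvd_prod_of_mem (fun l => ∏ j, e l j) (Finset.mem_univ l))
  choose q hq using hdvd
  set v : Fin n → Fin F.natDegree → ℤ := fun l j => m l j * q l j with hv
  set c' : Fin n → Fin F.natDegree → ℂ := fun l j => c l j ^ q l j with hc'
  have hc'0 : ∀ l j, c' l j ≠ 0 := fun l j => pow_ne_zero _ (hc l j)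
  have hlim' : ∀ l j, Tendsto (fun t : ℝ => h l j t ^ e0 / (t : ℂ) ^ (v l j)) atTop
      (𝓝 (c' l j)) := by
    intro l j
    refine ((hlim l j).pow (q l j)).congr fun t => ?_
    rw [div_pow, ← pow_mul, ← hq l j, hv]
    simp only
    rw [zpow_mul, zpow_natCast]
  obtain ⟨φ, hφ⟩ := exists_growth_minorC F hF B ξ hξ' n u H hH hu e0 he0ne v c' hc'0 hlim'
  refine ⟨B, fun τ hτ κ hκ => ?_⟩
  have hξs : ∀ j, AnalyticAt ℝ (fun s : ℝ => ξ (φ j) (τ + 1 * s)) 0 := by
    intro j
    have hL : AnalyticAt ℝ (fun s : ℝ => τ + 1 * s) 0 :=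
      analyticAt_const.add (analyticAt_const.mul analyticAt_id)
    exact AnalyticAt.fun_comp (by simpa using hξan' (φ j) _ hτ) hL
  refine ⟨fun j => Tay fun s : ℝ => ξ (φ j) (τ + 1 * s), fun j => ?_, fun j => ?_,
    fun y hy => ?_⟩
  · rw [tay_valueC τ F (ξ (φ j)) (hξs j)]
    have h1 : (fun s : ℝ => (F.map (evC ((τ + 1 * s : ℝ) : ℂ))).eval (ξ (φ j) (τ + 1 * s)))
        =ᶠ[𝓝 0] fun _ => 0 := by
      have hL : ContinuousAt (fun s : ℝ => τ + 1 * s) 0 := by fun_prop
      have h2 : ∀ᶠ s in 𝓝 (0 : ℝ), B < τ + 1 * s :=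
        hL.eventually_mem (isOpen_Ioi.mem_nhds (by simpa using hτ))
      filter_upwards [h2] with s hs
      exact (hξ' _ hs).2 _
    rw [RTaylor.tay_congr h1, RTaylor.tay_const, map_zero]
  · rw [Polynomial.derivative_map, tay_valueC τ (derivative F) (ξ (φ j)) (hξs j)]
    intro h1
    have h2 := congrArg PowerSeries.constantCoeff h1
    rw [RTaylor.constantCoeff_tay, map_zero] at h2
    have h3 : (τ + 1 * 0 : ℝ) = τ := by ring
    rw [h3, ← Polynomial.derivative_map] at h2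
    have h4 := (hB1 τ (lt_of_le_of_lt hB1' hτ)).eval₂_derivative_ne_zero (RingHom.id ℂ)
      (x := ξ (φ j) τ) (by
        rw [eval₂_id]
        exact (hξ' τ hτ).2 (φ j))
    rw [eval₂_id] at h4
    exact h4 h2
  · refine det_ne_zero_of_growth n B hBnn (fun l j => h l (φ j)) (fun l j => han l _)
      (fun l j => h0 l _) e0 he0ne (fun l j => v l (φ j)) (fun l j => c' l (φ j))
      (fun l j => hc'0 l _) (fun l j => hlim' l _) hφ τ hτ 1 one_pos κ hκ y fun l j => ?_
    have h1 := hy l j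
    rw [tay_valueC τ (H l) (ξ (φ j)) (hξs j)] at h1
    exact h1

end Pool.Agent.Work.MP_59f3ad_nt

end

section

/-!
Finiteness of relations, characteristic polynomials at points and separability polynomials, for
families of polynomials over general coefficient rings.
-/

open Polynomial

namespace Pool.Agent.Work.MP_59f3ad_nt

theorem exists_relFin (n d : ℕ) (S : Finset ℚ) :
    ∃ T : Finset (Fin n → ℤ), (∀ E ∈ T, E ≠ 0) ∧
      ∀ s : Fin n → Fin d → ℚ, (∀ i j, s i j ∈ S) →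
        (∃ E : Fin n → ℤ, E ≠ 0 ∧ ∀ j, ∑ i, (E i : ℚ) * s i j = 0) →
        ∃ E ∈ T, ∀ j, ∑ i, (E i : ℚ) * s i j = 0 := by
  classical
  let A : Finset (Fin n → Fin d → ℚ) :=
    (Fintype.piFinset fun _ : Fin n => Fintype.piFinset fun _ : Fin d => S).filter
      fun s => ∃ E : Fin n → ℤ, E ≠ 0 ∧ ∀ j, ∑ i, (E i : ℚ) * s i j = 0
  have hA : ∀ s : A, ∃ E : Fin n → ℤ, E ≠ 0 ∧ ∀ j, ∑ i, (E i : ℚ) * s.1 i j = 0 := fun s =>
    (Finset.mem_filter.1 s.2).2
  choose E hE0 hE using hA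
  refine ⟨Finset.univ.image E, ?_, ?_⟩
  · intro e he
    obtain ⟨s, -, rfl⟩ := Finset.mem_image.1 he
    exact hE0 s
  · intro s hs hex
    have hsA : s ∈ A := by
      refine Finset.mem_filter.2 ⟨?_, hex⟩
      rw [Fintype.mem_piFinset]
      intro i
      rw [Fintype.mem_piFinset]
      exact hs i
    exact ⟨E ⟨s, hsA⟩, Finset.mem_image_of_mem _ (Finset.mem_univ _), hE ⟨s, hsA⟩⟩

theorem charpoly_spec_gen {P : Type*} [CommRing P] [Nontrivial P] (F : P[X]) (hF : F.Monic)
    (ρ : P →+* ℂ) (x : Fin F.natDegree → ℂ)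
    (hx : Function.Injective x) (hr : ∀ j, F.eval₂ ρ (x j) = 0) (η : AdjoinRoot F) :
    ((Algebra.leftMulMatrix (AdjoinRoot.powerBasisAux' hF) η).charpoly).map ρ =
      ∏ j, (X - C (AdjoinRoot.lift ρ (x j) (hr j) η)) := by
  set b := AdjoinRoot.powerBasisAux' hF with hbdef
  have hb : ∀ j, b j = AdjoinRoot.root F ^ (j : ℕ) := fun j =>
    (AdjoinRoot.powerBasis' hF).basis_eq_pow j
  set M := Algebra.leftMulMatrix b η with hM
  set V := Matrix.vandermonde x with hV
  have hVu : IsUnit V := by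
    rw [Matrix.isUnit_iff_isUnit_det, isUnit_iff_ne_zero]
    exact Matrix.det_vandermonde_ne_zero_iff.mpr hx
  obtain ⟨U, hU⟩ := hVu
  have hmul : Matrix.diagonal (fun j => AdjoinRoot.lift ρ (x j) (hr j) η) * V = V * M.map ρ := by
    ext j k
    rw [Matrix.diagonal_mul, Matrix.mul_apply]
    have h1 : η * b k = ∑ l, M l k • b l := by
      rw [← b.sum_repr (η * b k)]
      refine Finset.sum_congr rfl fun l _ => ?_
      rw [hM, Algebra.leftMulMatrix_eq_repr_mul]
    have h2 := congrArg (AdjoinRoot.lift ρ (x j) (hr j)) h1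
    rw [map_mul, map_sum] at h2
    have h3 : ∀ l, AdjoinRoot.lift ρ (x j) (hr j) (b l) = V j l := by
      intro l
      rw [hb, map_pow, hV, Matrix.vandermonde_apply]
      congr 1
      rw [AdjoinRoot.lift_root]
    rw [h3] at h2
    rw [h2]
    refine Finset.sum_congr rfl fun l _ => ?_
    rw [Algebra.smul_def, map_mul, h3, mul_comm, Matrix.map_apply]
    congr 1
    rw [AdjoinRoot.algebraMap_eq, AdjoinRoot.lift_of]
  have hconj : Matrix.diagonal (fun j => AdjoinRoot.lift ρ (x j) (hr j) η) =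
      U.val * M.map ρ * U.val⁻¹ := by
    rw [hU, ← hmul, Matrix.mul_assoc, Matrix.mul_nonsing_inv, Matrix.mul_one]
    rw [← Matrix.isUnit_iff_isUnit_det]
    exact ⟨U, hU⟩
  rw [← Matrix.charpoly_map, ← Matrix.charpoly_units_conj U, ← Matrix.charpoly_diagonal, hconj]

theorem exists_sepPoly {P : Type*} [CommRing P] [IsDomain P] (F : P[X]) (hF : F.Monic)
    (ρ0 : P →+* ℂ) (h0 : (F.map ρ0).Separable) :
    ∃ g : P, g ≠ 0 ∧ ∀ ρ : P →+* ℂ, ρ g ≠ 0 → (F.map ρ).Separable := by
  by_cases hd : F.natDegree = 0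
  · refine ⟨1, one_ne_zero, fun ρ _ => ?_⟩
    rw [hF.natDegree_eq_zero.1 hd, Polynomial.map_one]
    exact separable_one
  let D : P := resultant F (derivative F) F.natDegree (F.natDegree - 1)
  have key : ∀ ρ : P →+* ℂ, (F.map ρ).Separable ↔ ρ D ≠ 0 := by
    intro ρ
    have h1 : ρ D = resultant (F.map ρ) (derivative (F.map ρ)) := by
      have hn : (F.map ρ).natDegree = F.natDegree := hF.natDegree_map _
      have hn' : (derivative (F.map ρ)).natDegree = F.natDegree - 1 := by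
        apply natDegree_eq_of_degree_eq_some
        rw [degree_derivative (by rwa [hn]), hn]
      rw [hn, hn', derivative_map, resultant_map_map]
    rw [h1, Ne, resultant_eq_zero_iff]
    have h2 : F.map ρ ≠ 0 := (hF.map _).ne_zero
    constructor
    · intro h3 h4
      exact h4.2 h3
    · intro h3
      by_contra h4
      exact h3 ⟨Or.inl h2, h4⟩
  have hD : ρ0 D ≠ 0 := (key ρ0).1 h0
  refine ⟨D, ?_, fun ρ h => (key ρ).2 h⟩
  intro h
  apply hD
  rw [h, map_zero]

theorem exists_coeff_totalDegree_pos {σ : Type*} (F : (MvPolynomial σ ℤ)[X]) (hF : F.Monic)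
    (η : AdjoinRoot F) (hη : Transcendental ℤ η) :
    ∃ k : ℕ, 0 < (((Algebra.leftMulMatrix (AdjoinRoot.powerBasisAux' hF) η).charpoly).coeff
      k).totalDegree := by
  by_contra hcon
  push Not at hcon
  set b := AdjoinRoot.powerBasisAux' hF with hbdef
  set χ : (MvPolynomial σ ℤ)[X] := (Algebra.leftMulMatrix b η).charpoly with hχ
  have hχm : χ.Monic := Matrix.charpoly_monic _
  set χ0 : ℤ[X] := χ.map (MvPolynomial.constantCoeff) with hχ0
  have hχeq : χ = χ0.map (MvPolynomial.C) := by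
    ext1 k
    rw [coeff_map, hχ0, coeff_map]
    have h1 : (χ.coeff k).totalDegree = 0 := Nat.le_zero.1 (hcon k)
    rw [MvPolynomial.totalDegree_eq_zero_iff_eq_C] at h1
    exact h1
  have hroot : aeval η χ = 0 := by
    apply Algebra.leftMulMatrix_injective b
    rw [← aeval_algHom_apply, map_zero]
    exact Matrix.aeval_self_charpoly _
  refine hη ⟨χ0, (hχm.map _).ne_zero, ?_⟩
  rw [hχeq, aeval_def, eval₂_map] at hroot
  rw [aeval_def, ← hroot]
  congr 1

end Pool.Agent.Work.MP_59f3ad_nt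

end

section

/-!
Two auxiliary lemmas for the defect inequality: a primitive relation between units, and compactness
with coefficient vectors.
-/

open NumberField IsDedekindDomain

namespace Pool.Agent.Work.MP_59f3ad_nt

universe u

theorem prod_zpow_gen {G ι : Type*} [CommGroup G] (s : Finset ι) (f : ι → G) (n : ℤ) :
    (∏ j ∈ s, f j) ^ n = ∏ j ∈ s, f j ^ n := by
  classical
  induction s using Finset.induction_on with
  | empty => simp
  | insert a s ha ih => rw [Finset.prod_insert ha, Finset.prod_insert ha, mul_zpow, ih]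

theorem prod_zpow_sum_gen {G ι : Type*} [CommGroup G] (s : Finset ι) (g : G) (a : ι → ℤ) :
    ∏ i ∈ s, g ^ a i = g ^ (∑ i ∈ s, a i) := by
  classical
  induction s using Finset.induction_on with
  | empty => simp
  | insert b s hb ih => rw [Finset.prod_insert hb, Finset.sum_insert hb, zpow_add, ih]

/-- More units than the unit rank satisfy a relation whose exponents are not all divisible by
`p`. -/
theorem exists_unit_relation (L : Type u) [Field L] [NumberField L] (p : ℕ) (hp : p.Prime)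
    {ι : Type*} [Fintype ι] (w : ι → (𝓞 L)ˣ) (h : Units.rank L < Fintype.card ι) :
    ∃ e : ι → ℤ, (∃ i, ¬ (p : ℤ) ∣ e i) ∧ (∏ i, w i ^ e i) ^ (Units.torsionOrder L) = 1 := by
  classical
  have hrep : ∀ i, ∃ (z : Units.torsion L) (M : Fin (Units.rank L) → ℤ),
      w i = z * ∏ j, Units.fundSystem L j ^ M j := by
    intro i
    obtain ⟨q, hq, -⟩ := Units.exist_unique_eq_mul_prod L (w i)
    exact ⟨q.1, q.2, hq⟩
  choose z M hM using hrep
  have hdep : ¬ LinearIndependent ℤ M := by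
    intro hli
    have := hli.fintype_card_le_finrank
    rw [Module.finrank_fin_fun] at this
    omega
  obtain ⟨e0, hsum, i0, hi0⟩ := Fintype.not_linearIndependent_iff.1 hdep
  obtain ⟨e, he, hgcd⟩ := Finset.extract_gcd (s := Finset.univ) e0 ⟨i0, Finset.mem_univ i0⟩
  set d : ℤ := Finset.univ.gcd e0 with hd
  have hd0 : d ≠ 0 := by
    intro h0
    exact hi0 (by rw [he i0 (Finset.mem_univ i0), h0, zero_mul])
  have hsum2 : ∀ j, ∑ i, M i j * e i = 0 := by
    intro j
    have h1 := congrFun hsum j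
    rw [Finset.sum_apply] at h1
    simp only [Pi.smul_apply, smul_eq_mul, Pi.zero_apply] at h1
    have h2 : d * ∑ i, M i j * e i = 0 := by
      rw [Finset.mul_sum, ← h1]
      refine Finset.sum_congr rfl fun i hi => ?_
      rw [he i hi]; ring
    rcases mul_eq_zero.1 h2 with h3 | h3
    · exact absurd h3 hd0
    · exact h3
  refine ⟨e, ?_, ?_⟩
  · by_contra hcon
    push Not at hcon
    have h1 : (p : ℤ) ∣ Finset.univ.gcd e := Finset.dvd_gcd fun i _ => hcon i
    rw [hgcd] at h1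
    have h2 := Int.isUnit_iff.1 (isUnit_of_dvd_one h1)
    have := hp.two_le
    omega
  · have h1 : ∏ i, w i ^ e i = ((∏ i, z i ^ e i : Units.torsion L) : (𝓞 L)ˣ) := by
      have h2 : ∀ i, w i ^ e i
          = ((z i : (𝓞 L)ˣ)) ^ e i * ∏ j, Units.fundSystem L j ^ (M i j * e i) := by
        intro i
        have h4 := prod_zpow_gen Finset.univ (fun j => Units.fundSystem L j ^ M i j) (e i)
        calc w i ^ e i = ((z i : (𝓞 L)ˣ) * ∏ j, Units.fundSystem L j ^ M i j) ^ e i := by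
              rw [← hM i]
          _ = ((z i : (𝓞 L)ˣ)) ^ e i * (∏ j, Units.fundSystem L j ^ M i j) ^ e i := mul_zpow _ _ _
          _ = _ := by
            rw [h4]
            congr 1
            refine Finset.prod_congr rfl fun j _ => ?_
            rw [zpow_mul]
      have h3 : ∏ i, ∏ j, Units.fundSystem L j ^ (M i j * e i) = 1 := by
        rw [Finset.prod_comm]
        refine Finset.prod_eq_one fun j _ => ?_
        have h4 := hsum2 j
        have h5 : ∏ i, Units.fundSystem L j ^ (M i j * e i)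
            = Units.fundSystem L j ^ (∑ i, M i j * e i) :=
          prod_zpow_sum_gen Finset.univ (Units.fundSystem L j) (fun i => M i j * e i)
        rw [h5, h4, zpow_zero]
      calc ∏ i, w i ^ e i
          = ∏ i, (((z i : (𝓞 L)ˣ)) ^ e i * ∏ j, Units.fundSystem L j ^ (M i j * e i)) :=
            Finset.prod_congr rfl fun i _ => h2 i
        _ = (∏ i, ((z i : (𝓞 L)ˣ)) ^ e i) := by rw [Finset.prod_mul_distrib, h3, mul_one]
        _ = _ := by push_cast; rfl
    rw [h1]
    have h3 : (∏ i, z i ^ e i : Units.torsion L) ^ (Nat.card (Units.torsion L)) = 1 :=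
      pow_card_eq_one'
    have h4 := congrArg (Subtype.val) h3
    exact h4

/-- Compactness with coefficient vectors. -/
theorem exists_coboundary_of_forall_mod_fam (G : Type*) (p : ℕ) [Fact p.Prime] (k : ℕ)
    (φ : Fin k → G → ℤ_[p]) (χ : G → ℤ_[p])
    (h : ∀ m : ℕ, ∃ (a : Fin k → ℤ_[p]) (x : ℤ_[p]), (∃ i, IsUnit (a i)) ∧
      ∀ g, (p : ℤ_[p]) ^ m ∣ ∑ i, a i * φ i g - χ g * x) :
    ∃ (a : Fin k → ℤ_[p]) (x : ℤ_[p]), (∃ i, IsUnit (a i)) ∧
      ∀ g, ∑ i, a i * φ i g = χ g * x := by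
  classical
  let C : ℕ → Set ((Fin k → ℤ_[p]) × ℤ_[p]) := fun m =>
    {q | (∃ i, IsUnit (q.1 i)) ∧ ∀ g, (p : ℤ_[p]) ^ m ∣ ∑ i, q.1 i * φ i g - χ g * q.2}
  have hclosed1 : ∀ m : ℕ, IsClosed {a : ℤ_[p] | (p : ℤ_[p]) ^ m ∣ a} := by
    intro m
    have h1 : {a : ℤ_[p] | (p : ℤ_[p]) ^ m ∣ a} = {a : ℤ_[p] | ‖a‖ ≤ (p : ℝ) ^ (-m : ℤ)} := by
      ext a
      rw [Set.mem_ofPred_eq, Set.mem_ofPred_eq, PadicInt.norm_le_pow_iff_mem_span_pow,
        Ideal.mem_span_singleton]
    rw [h1]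
    exact isClosed_le continuous_norm continuous_const
  have hclosed2 : IsClosed {q : (Fin k → ℤ_[p]) × ℤ_[p] | ∃ i, IsUnit (q.1 i)} := by
    have h1 : {q : (Fin k → ℤ_[p]) × ℤ_[p] | ∃ i, IsUnit (q.1 i)}
        = ⋃ i, {q | ‖q.1 i‖ = 1} := by
      ext q
      simp only [Set.mem_iUnion, Set.mem_ofPred_eq, PadicInt.isUnit_iff]
    rw [h1]
    refine isClosed_iUnion_of_finite fun i => ?_
    exact isClosed_eq (((continuous_apply i).comp continuous_fst).norm) continuous_const
  have hclosed : ∀ m, IsClosed (C m) := by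
    intro m
    have h1 : C m = {q : (Fin k → ℤ_[p]) × ℤ_[p] | ∃ i, IsUnit (q.1 i)} ∩
        ⋂ g, (fun q : (Fin k → ℤ_[p]) × ℤ_[p] => ∑ i, q.1 i * φ i g - χ g * q.2) ⁻¹'
          {a : ℤ_[p] | (p : ℤ_[p]) ^ m ∣ a} := by
      ext x
      simp [C]
    rw [h1]
    refine hclosed2.inter (isClosed_iInter fun g => (hclosed1 m).preimage ?_)
    refine Continuous.sub ?_ (continuous_const.mul continuous_snd)
    refine continuous_finsetSum _ fun i _ => ?_
    exact ((continuous_apply i).comp continuous_fst).mul continuous_const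
  obtain ⟨q, hq⟩ := IsCompact.nonempty_iInter_of_sequence_nonempty_isCompact_isClosed C
    (fun m x hx => ⟨hx.1, fun g => (pow_dvd_pow _ (Nat.le_succ m)).trans (hx.2 g)⟩)
    (fun m => by
      obtain ⟨a, x, h1, h2⟩ := h m
      exact ⟨(a, x), h1, h2⟩)
    (hclosed 0).isCompact hclosed
  rw [Set.mem_iInter] at hq
  refine ⟨q.1, q.2, (hq 0).1, fun g => ?_⟩
  rw [← sub_eq_zero]
  by_contra hne
  have h1 : ∀ m : ℕ, ‖∑ i, q.1 i * φ i g - χ g * q.2‖ ≤ (p : ℝ) ^ (-m : ℤ) := fun m =>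
    (PadicInt.norm_le_pow_iff_mem_span_pow _ m).mpr (Ideal.mem_span_singleton.mpr ((hq m).2 g))
  have h2 : 0 < ‖∑ i, q.1 i * φ i g - χ g * q.2‖ := norm_pos_iff.mpr hne
  obtain ⟨k', hk⟩ := PadicInt.exists_pow_neg_lt p h2
  exact absurd (h1 k') (not_le.mpr hk)

end Pool.Agent.Work.MP_59f3ad_nt

end

section

/-!
Finitely many relations suffice for the complex analytic input.
-/

open Polynomial Filter Topology

namespace Pool.Agent.Work.MP_59f3ad_nt

open GrowthMinorC
open GrowthMinor (exists_int_rel)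

/-- A relation between the growth exponents makes the corresponding product algebraic. -/
theorem isAlgebraic_of_growth_rel (F : ℂ[X][X]) (hF : F.Monic) (B : ℝ)
    (ξ : Fin F.natDegree → ℝ → ℂ)
    (hξ : ∀ t : ℝ, B < t → Function.Injective (fun j => ξ j t) ∧
        ∀ j, (F.map (evC t)).eval (ξ j t) = 0)
    (n : ℕ) (u : Fin n → (AdjoinRoot F)ˣ) (H : Fin n → ℂ[X][X])
    (hH : ∀ i, AdjoinRoot.mk F (H i) = u i)
    (e : ℕ) (he : e ≠ 0) (v : Fin n → Fin F.natDegree → ℤ) (c : Fin n → Fin F.natDegree → ℂ)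
    (hc : ∀ i j, c i j ≠ 0)
    (hv : ∀ i j, Tendsto (fun t : ℝ => ((H i).map (evC t)).eval (ξ j t) ^ e / (t : ℂ) ^ (v i j))
      atTop (𝓝 (c i j))) (E : Fin n → ℤ) (hEv : ∀ j, ∑ i, E i * v i j = 0) :
    IsAlgebraic ℂ ((∏ i, u i ^ E i : (AdjoinRoot F)ˣ) : AdjoinRoot F) := by
  set η : AdjoinRoot F := ((∏ i, u i ^ E i : (AdjoinRoot F)ˣ) : AdjoinRoot F) with hη
  -- the conjugates
  let y : Fin F.natDegree → ℝ → ℂ := fun j t => ∏ i, (((H i).map (evC t)).eval (ξ j t)) ^ (E i)
  have hy : ∀ (t : ℝ) (ht : B < t) (j : Fin F.natDegree),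
      ev F t (ξ j t) ((hξ t ht).2 j) η = y j t := by
    intro t ht j
    have h1 : ev F t (ξ j t) ((hξ t ht).2 j) η =
        ((Units.map (ev F t (ξ j t) ((hξ t ht).2 j) : AdjoinRoot F →* ℂ) (∏ i, u i ^ E i) : ℂˣ) : ℂ) := rfl
    rw [h1, map_prod, Units.coe_prod]
    refine Finset.prod_congr rfl fun i _ => ?_
    rw [map_zpow, Units.val_zpow_eq_zpow_val]
    congr 1
    rw [Units.coe_map, ← ev_mk F t (ξ j t) ((hξ t ht).2 j), hH]
    rfl
  have hlim : ∀ j, Tendsto (fun t : ℝ => y j t ^ e) atTop (𝓝 (∏ i, c i j ^ E i)) := by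
    intro j
    have h1 : Tendsto (fun t : ℝ => ∏ i, (((H i).map (evC t)).eval (ξ j t) ^ e /
        (t : ℂ) ^ (v i j)) ^ E i) atTop (𝓝 (∏ i, c i j ^ E i)) :=
      tendsto_finsetProd _ fun i _ => (hv i j).zpow₀ (E i) (Or.inl (hc i j))
    refine h1.congr' ?_
    filter_upwards [eventually_gt_atTop (0 : ℝ)] with t ht
    have ht' : (t : ℂ) ≠ 0 := by exact_mod_cast ht.ne'
    have h2 : ∀ i, (((H i).map (evC t)).eval (ξ j t) ^ e / (t : ℂ) ^ (v i j)) ^ E i =
        ((((H i).map (evC t)).eval (ξ j t)) ^ (E i)) ^ e * (t : ℂ) ^ (-(E i * v i j)) := by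
      intro i
      rw [div_zpow, ← zpow_mul, div_eq_mul_inv, ← zpow_neg, mul_comm (v i j)]
      congr 1
      rw [← zpow_natCast, ← zpow_natCast, ← zpow_mul, ← zpow_mul, mul_comm]
    rw [Finset.prod_congr rfl fun i _ => h2 i, Finset.prod_mul_distrib, Finset.prod_pow]
    have h3 : ∏ i, (t : ℂ) ^ (-(E i * v i j)) = 1 := by
      have h4 : ∀ s : Finset (Fin n), ∏ i ∈ s, (t : ℂ) ^ (-(E i * v i j)) =
          (t : ℂ) ^ (∑ i ∈ s, -(E i * v i j)) := by
        intro s
        induction s using Finset.induction_on with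
        | empty => simp
        | insert a s ha ih => rw [Finset.prod_insert ha, Finset.sum_insert ha, zpow_add₀ ht', ih]
      rw [h4, Finset.sum_neg_distrib, hEv, neg_zero, zpow_zero]
    rw [h3, mul_one]
  have hbd : ∃ K : ℝ, 0 ≤ K ∧ ∀ᶠ t : ℝ in atTop, ∀ j, ‖y j t‖ ≤ K := by
    have h1 : ∀ j, ∃ K : ℝ, 0 ≤ K ∧ ∀ᶠ t : ℝ in atTop, ‖y j t‖ ≤ K := by
      intro j
      refine ⟨max 1 (‖∏ i, c i j ^ E i‖ + 1), by positivity, ?_⟩
      have h2 := (hlim j).norm.eventually (Iio_mem_nhds (lt_add_one _))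
      filter_upwards [h2] with t ht
      rcases le_or_gt ‖y j t‖ 1 with h3 | h3
      · exact h3.trans (le_max_left _ _)
      · refine le_trans ?_ (le_max_right _ _)
        have h4 : ‖y j t‖ ≤ ‖y j t‖ ^ e := le_self_pow₀ h3.le he
        rw [← norm_pow] at h4
        exact h4.trans (le_of_lt ht)
    choose K hK0 hK using h1
    refine ⟨∑ j, K j, Finset.sum_nonneg fun j _ => hK0 j, ?_⟩
    rw [eventually_all]
    intro j
    filter_upwards [hK j] with t ht
    exact ht.trans (Finset.single_le_sum (fun j _ => hK0 j) (Finset.mem_univ j))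
  obtain ⟨K, hK0, hK⟩ := hbd
  set b := AdjoinRoot.powerBasisAux' hF with hbdef
  set χ : ℂ[X][X] := (Algebra.leftMulMatrix b η).charpoly with hχ
  have hχm : χ.Monic := Matrix.charpoly_monic _
  -- the values of the characteristic polynomial at integers are constant
  have hval : ∀ z : ℤ, χ.eval (C (z : ℂ)) = C ((χ.eval (C (z : ℂ))).eval 0) := by
    intro z
    apply eq_C_of_bounded _ ((|(z : ℝ)| + K) ^ F.natDegree)
    filter_upwards [hK, eventually_gt_atTop B] with t ht1 ht2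
    have h1 : evC (t : ℂ) (χ.eval (C (z : ℂ))) = (χ.map (evC t)).eval (z : ℂ) := by
      have h5 := eval₂_at_apply (evC (t : ℂ)) (C (z : ℂ)) (p := χ)
      rw [evC_C] at h5
      rw [eval_map, h5]
    rw [h1, hχ, charpoly_spec F hF t (fun j => ξ j t) (hξ t ht2).1 (hξ t ht2).2, eval_prod,
      norm_prod]
    calc ∏ j, ‖eval (z : ℂ) (X - C (ev F t (ξ j t) ((hξ t ht2).2 j) η))‖
        ≤ ∏ _j : Fin F.natDegree, (|(z : ℝ)| + K) := by
          refine Finset.prod_le_prod (fun _ _ => norm_nonneg _) fun j _ => ?_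
          rw [eval_sub, eval_X, eval_C, hy t ht2 j]
          refine (norm_sub_le _ _).trans ?_
          have h5 : ‖(z : ℂ)‖ = |(z : ℝ)| := Complex.norm_intCast z
          rw [h5]
          exact add_le_add le_rfl (ht1 j)
      _ = _ := by simp
  set χ0 : ℂ[X] := χ.map (evalRingHom 0) with hχ0
  have hχeq : χ = χ0.map C := by
    have hinf : Set.Infinite (Set.range (fun z : ℤ => (C (z : ℂ) : ℂ[X]))) :=
      Set.infinite_range_of_injective fun z w h => by
        have := C_injective h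
        exact_mod_cast this
    refine Polynomial.eq_of_infinite_eval_eq _ _ (hinf.mono ?_)
    rintro _ ⟨z, rfl⟩
    show χ.eval (C (z : ℂ)) = (χ0.map C).eval (C (z : ℂ))
    rw [hval z, eval_map, eval₂_at_apply]
    congr 1
    rw [hχ0, eval_map]
    have h6 : (χ.eval (C (z : ℂ))).eval 0 = (evalRingHom (0 : ℂ)) (χ.eval (C (z : ℂ))) := rfl
    rw [h6, ← eval₂_at_apply]
    simp
  have hroot : aeval η χ = 0 := by
    apply Algebra.leftMulMatrix_injective b
    rw [← aeval_algHom_apply, map_zero]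
    exact Matrix.aeval_self_charpoly _
  refine ⟨χ0, (hχm.map _).ne_zero, ?_⟩
  rw [hχeq, aeval_def, eval₂_map] at hroot
  rw [aeval_def, ← hroot]
  congr 1

/-- Finitely many integral relations suffice. -/
theorem exists_relFin' (n d : ℕ) (S : Finset ℚ) :
    ∃ T : Finset (Fin n → ℤ), (∀ E ∈ T, E ≠ 0) ∧
      ∀ s : Fin n → Fin d → ℚ, (∀ i j, s i j ∈ S) →
        (∃ E : Fin n → ℤ, E ≠ 0 ∧ ∀ j, ∑ i, (E i : ℚ) * s i j = 0) →
        ∃ E ∈ T, ∀ j, ∑ i, (E i : ℚ) * s i j = 0 := by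
  classical
  let A : Finset (Fin n → Fin d → ℚ) := Fintype.piFinset fun _ => Fintype.piFinset fun _ => S
  let P : (Fin n → Fin d → ℚ) → Prop := fun s =>
    ∃ E : Fin n → ℤ, E ≠ 0 ∧ ∀ j, ∑ i, (E i : ℚ) * s i j = 0
  let f : (Fin n → Fin d → ℚ) → (Fin n → ℤ) := fun s => if h : P s then h.choose else 0
  refine ⟨(A.filter P).image f, fun E hE => ?_, fun s hs h => ?_⟩
  · obtain ⟨s, hs, rfl⟩ := Finset.mem_image.mp hE
    have h1 : P s := (Finset.mem_filter.mp hs).2
    simp only [f, dif_pos h1]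
    exact h1.choose_spec.1
  · have hsA : s ∈ A := by
      simp only [A, Fintype.mem_piFinset]
      exact hs
    refine ⟨f s, Finset.mem_image.mpr ⟨s, Finset.mem_filter.mpr ⟨hsA, h⟩, rfl⟩, ?_⟩
    have h1 : P s := h
    simp only [f, dif_pos h1]
    exact h1.choose_spec.2

/-- The analytic input holds for all large real parameters as soon as a certain finite set of
products of the units consists of transcendental elements; the finite set depends only on the
number of units, the degree and a bound for the degrees of annihilating polynomials. -/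
theorem exists_logDetC_fin (n d D : ℕ) : ∃ T : Finset (Fin n → ℤ), (∀ E ∈ T, E ≠ 0) ∧
    ∀ (F : ℂ[X][X]) (_ : F.Monic) (_ : F.natDegree = d) (t0 : ℂ)
      (_ : (F.map (evC t0)).Separable) (u : Fin n → (AdjoinRoot F)ˣ)
      (_ : ∀ E ∈ T, Transcendental ℂ ((∏ i, u i ^ E i : (AdjoinRoot F)ˣ) : AdjoinRoot F))
      (H G : Fin n → ℂ[X][X]) (_ : ∀ i, AdjoinRoot.mk F (H i) = u i)
      (_ : ∀ l, F ∣ H l * G l - 1)
      (G' : Fin n → ℂ[X][X]) (_ : ∀ l, G' l ≠ 0) (_ : ∀ l, (G' l).natDegree ≤ d)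
      (_ : ∀ l k, ((G' l).coeff k).natDegree ≤ D)
      (_ : ∀ l (t z : ℂ), (F.map (evC t)).eval z = 0 →
        ((G' l).map (evC t)).eval (((H l).map (evC t)).eval z) = 0),
      ∃ B : ℝ, ∀ τ : ℝ, B < τ → LogDetC F H τ := by
  classical
  let S : Finset ℚ := ((Finset.Icc (-(D : ℤ)) D) ×ˢ (Finset.Icc (-(d : ℤ)) d)).image
    fun ab => (ab.1 : ℚ) / ab.2
  obtain ⟨T, hT0, hT⟩ := exists_relFin' n d S
  refine ⟨T, hT0, ?_⟩
  intro F hF hFd t0 hsep u hu H G hH hHG G' hG'0 hG'd hG'D hG'r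
  subst hFd
  obtain ⟨B0, ξ, hξan, hξ⟩ := exists_analytic_rootsC F hF t0 hsep
  obtain ⟨B1, hB1⟩ := AnRootsC.exists_bound F hF t0 hsep
  set B := max (max B0 0) B1 with hB
  have hB0 : B0 ≤ B := (le_max_left _ _).trans (le_max_left _ _)
  have hBnn : 0 ≤ B := (le_max_right _ _).trans (le_max_left _ _)
  have hB1' : B1 ≤ B := le_max_right _ _
  have hξan' : ∀ j, AnalyticOnNhd ℝ (ξ j) (Set.Ioi B) := fun j t ht =>
    hξan j t (lt_of_le_of_lt hB0 ht)
  have hξ' : ∀ t : ℝ, B < t → Function.Injective (fun j => ξ j t) ∧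
        ∀ j, (F.map (evC t)).eval (ξ j t) = 0 := fun t ht => hξ t (lt_of_le_of_lt hB0 ht)
  -- the values of the units
  set h : Fin n → Fin F.natDegree → ℝ → ℂ := fun l j t => ((H l).map (evC t)).eval (ξ j t) with hh
  have han : ∀ l j, AnalyticOnNhd ℝ (h l j) (Set.Ioi B) := fun l j t ht =>
    analyticAt_valueC _ _ _ (hξan' j t ht)
  have h0 : ∀ l j, ∀ t : ℝ, B < t → h l j t ≠ 0 := by
    intro l j t ht hzero
    obtain ⟨g, hg⟩ := hHG l
    have h1 := congrArg (fun P : ℂ[X][X] => (P.map (evC t)).eval (ξ j t)) hg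
    simp only [Polynomial.map_sub, Polynomial.map_mul, Polynomial.map_one, eval_sub, eval_mul,
      eval_one, (hξ' t ht).2 j, zero_mul] at h1
    have h2 : ((H l).map (evC t)).eval (ξ j t) = 0 := hzero
    rw [h2, zero_mul, zero_sub, neg_eq_zero] at h1
    exact one_ne_zero h1
  -- the growth exponents
  have hgr : ∀ l j, ∃ p0 ∈ (G' l).support.offDiag, ∃ c : ℂ, c ≠ 0 ∧
      Tendsto (fun t : ℝ => h l j t ^ (growthSlopeC (G' l) p0).den /
        (t : ℂ) ^ (growthSlopeC (G' l) p0).num) atTop (𝓝 c) := by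
    intro l j
    exact exists_growthC_mem (G' l) (hG'0 l) B (h l j) (han l j).continuousOn (h0 l j)
      fun t ht => hG'r l t _ ((hξ' t ht).2 j)
  choose p0 hp0 c hc hlim using hgr
  let s : Fin n → Fin F.natDegree → ℚ := fun l j => growthSlopeC (G' l) (p0 l j)
  have hsS : ∀ l j, s l j ∈ S := by
    intro l j
    obtain ⟨h1, h2, h3⟩ := Finset.mem_offDiag.mp (hp0 l j)
    have h4 : (p0 l j).1 ≤ F.natDegree := (le_natDegree_of_mem_supp _ h1).trans (hG'd l)
    have h5 : (p0 l j).2 ≤ F.natDegree := (le_natDegree_of_mem_supp _ h2).trans (hG'd l)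
    have h6 := hG'D l (p0 l j).1
    have h7 := hG'D l (p0 l j).2
    refine Finset.mem_image.mpr ⟨((((G' l).coeff (p0 l j).2).natDegree : ℤ) -
      ((G' l).coeff (p0 l j).1).natDegree, ((p0 l j).1 : ℤ) - (p0 l j).2), ?_, ?_⟩
    · rw [Finset.mem_product, Finset.mem_Icc, Finset.mem_Icc]
      refine ⟨⟨?_, ?_⟩, ?_, ?_⟩ <;> simp only <;> omega
    · simp only [s, growthSlopeC]
      push_cast
      rfl
  set e0 : ℕ := ∏ l, ∏ j, (s l j).den with he0
  have he0ne : e0 ≠ 0 := Finset.prod_ne_zero_iff.mpr fun l _ =>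
    Finset.prod_ne_zero_iff.mpr fun j _ => (s l j).den_nz
  have hdvd : ∀ l j, (s l j).den ∣ e0 := fun l j =>
    (Finset.dvd_prod_of_mem _ (Finset.mem_univ j)).trans
      (Finset.dvd_prod_of_mem (fun l => ∏ j, (s l j).den) (Finset.mem_univ l))
  choose q hq using hdvd
  set v : Fin n → Fin F.natDegree → ℤ := fun l j => (s l j).num * q l j with hv
  have hvs : ∀ l j, (v l j : ℚ) = s l j * e0 := by
    intro l j
    rw [hq l j, hv]
    push_cast
    rw [← mul_assoc, Rat.mul_den_eq_num]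
  set c' : Fin n → Fin F.natDegree → ℂ := fun l j => c l j ^ q l j with hc'
  have hc'0 : ∀ l j, c' l j ≠ 0 := fun l j => pow_ne_zero _ (hc l j)
  have hlim' : ∀ l j, Tendsto (fun t : ℝ => h l j t ^ e0 / (t : ℂ) ^ (v l j)) atTop
      (𝓝 (c' l j)) := by
    intro l j
    refine ((hlim l j).pow (q l j)).congr fun t => ?_
    rw [div_pow, ← pow_mul, ← hq l j, hv]
    simp only
    rw [zpow_mul, zpow_natCast]
  have hφ : ∃ φ : Fin n → Fin F.natDegree, (Matrix.of fun i j : Fin n => v i (φ j)).det ≠ 0 := by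
    by_contra hcon
    push Not at hcon
    obtain ⟨E, hE, hEv⟩ := exists_int_rel v hcon
    have he0Q : (e0 : ℚ) ≠ 0 := by exact_mod_cast he0ne
    obtain ⟨E', hE', hE's⟩ := hT s hsS ⟨E, hE, fun j => by
      have h1 : (∑ i, (E i : ℚ) * s i j) * e0 = 0 := by
        rw [Finset.sum_mul]
        have h2 : ∑ i, (E i : ℚ) * s i j * e0 = ((∑ i, E i * v i j : ℤ) : ℚ) := by
          push_cast
          refine Finset.sum_congr rfl fun i _ => ?_
          rw [hvs]
          ring
        rw [h2, hEv j]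
        norm_num
      exact (mul_eq_zero.mp h1).resolve_right he0Q⟩
    refine hu E' hE' ?_
    refine isAlgebraic_of_growth_rel F hF B ξ hξ' n u H hH e0 he0ne v c' hc'0 hlim' E' fun j => ?_
    have h3 : ((∑ i, E' i * v i j : ℤ) : ℚ) = 0 := by
      push_cast
      have h4 : ∑ i, (E' i : ℚ) * (v i j : ℚ) = (∑ i, (E' i : ℚ) * s i j) * e0 := by
        rw [Finset.sum_mul]
        refine Finset.sum_congr rfl fun i _ => ?_
        rw [hvs]
        ring
      rw [h4, hE's j, zero_mul]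
    exact_mod_cast h3
  obtain ⟨φ, hφ⟩ := hφ
  refine ⟨B, fun τ hτ κ hκ => ?_⟩
  have hξs : ∀ j, AnalyticAt ℝ (fun s : ℝ => ξ (φ j) (τ + 1 * s)) 0 := by
    intro j
    have hL : AnalyticAt ℝ (fun s : ℝ => τ + 1 * s) 0 :=
      analyticAt_const.add (analyticAt_const.mul analyticAt_id)
    exact AnalyticAt.fun_comp (by simpa using hξan' (φ j) _ hτ) hL
  refine ⟨fun j => Tay fun s : ℝ => ξ (φ j) (τ + 1 * s), fun j => ?_, fun j => ?_,
    fun y hy => ?_⟩
  · rw [tay_valueC τ F (ξ (φ j)) (hξs j)]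
    have h1 : (fun s : ℝ => (F.map (evC ((τ + 1 * s : ℝ) : ℂ))).eval (ξ (φ j) (τ + 1 * s)))
        =ᶠ[𝓝 0] fun _ => 0 := by
      have hL : ContinuousAt (fun s : ℝ => τ + 1 * s) 0 := by fun_prop
      have h2 : ∀ᶠ s in 𝓝 (0 : ℝ), B < τ + 1 * s :=
        hL.eventually_mem (isOpen_Ioi.mem_nhds (by simpa using hτ))
      filter_upwards [h2] with s hs
      exact (hξ' _ hs).2 _
    rw [RTaylor.tay_congr h1, RTaylor.tay_const, map_zero]
  · rw [Polynomial.derivative_map, tay_valueC τ (derivative F) (ξ (φ j)) (hξs j)]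
    intro h1
    have h2 := congrArg PowerSeries.constantCoeff h1
    rw [RTaylor.constantCoeff_tay, map_zero] at h2
    have h3 : (τ + 1 * 0 : ℝ) = τ := by ring
    rw [h3, ← Polynomial.derivative_map] at h2
    have h4 := (hB1 τ (lt_of_le_of_lt hB1' hτ)).eval₂_derivative_ne_zero (RingHom.id ℂ)
      (x := ξ (φ j) τ) (by
        rw [eval₂_id]
        exact (hξ' τ hτ).2 (φ j))
    rw [eval₂_id] at h4
    exact h4 h2
  · refine det_ne_zero_of_growth n B hBnn (fun l j => h l (φ j)) (fun l j => han l _)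
      (fun l j => h0 l _) e0 he0ne (fun l j => v l (φ j)) (fun l j => c' l (φ j))
      (fun l j => hc'0 l _) (fun l j => hlim' l _) hφ τ hτ 1 one_pos κ hκ y fun l j => ?_
    have h1 := hy l j
    rw [tay_valueC τ (H l) (ξ (φ j)) (hξs j)] at h1
    exact h1

end Pool.Agent.Work.MP_59f3ad_nt

end

section

/-!
An element stays transcendental on every line in a good direction.
-/

open Polynomial

namespace Pool.Agent.Work.MP_59f3ad_nt

theorem transcendental_line {σ : Type*} (F : (MvPolynomial σ ℤ)[X]) (hF : F.Monic)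
    (η : AdjoinRoot F) (k : ℕ) (c : MvPolynomial σ ℤ)
    (hc : ((Algebra.leftMulMatrix (AdjoinRoot.powerBasisAux' hF) η).charpoly).coeff k = c)
    (hdeg : 0 < c.totalDegree) (v : σ → ℤ)
    (hv : MvPolynomial.eval v (MvPolynomial.homogeneousComponent c.totalDegree c) ≠ 0)
    (y : σ → ℂ) (t0 : ℂ) (hsep : ((F.map (lineHom v y)).map (evC t0)).Separable)
    (h : AdjoinRoot F →+* AdjoinRoot (F.map (lineHom v y)))
    (hh : ∀ G : (MvPolynomial σ ℤ)[X], h (AdjoinRoot.mk F G) = AdjoinRoot.mk _ (G.map (lineHom v y))) :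
    Transcendental ℂ (h η) := by
  classical
  rintro ⟨P0, hP0, hP⟩
  have hLm : (F.map (lineHom v y)).Monic := hF.map _
  have hLd : (F.map (lineHom v y)).natDegree = F.natDegree := hF.natDegree_map _
  obtain ⟨g, hg0, hg⟩ := exists_sepPoly (F.map (lineHom v y)) hLm (evC t0) hsep
  let W : Finset ℂ := (Fintype.piFinset (fun _ : Fin F.natDegree => P0.roots.toFinset)).image
    (fun z => (∏ j, (X - C (z j))).coeff k)
  have hval : ∀ t : ℂ, g.eval t ≠ 0 → (lineHom v y c).eval t ∈ W := by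
    intro t ht
    have hs : ((F.map (lineHom v y)).map (evC t)).Separable := hg (evC t) ht
    obtain ⟨x, hx, hr⟩ := AnRootsC.exists_roots (d := F.natDegree)
      (p := (F.map (lineHom v y)).map (evC t)) ((hLm.natDegree_map _).trans hLd) hs
    have hr' : ∀ j, F.eval₂ ((evC t).comp (lineHom v y)) (x j) = 0 := by
      intro j
      have h1 := hr j
      rw [Polynomial.map_map, eval_map] at h1
      exact h1
    have hspec := charpoly_spec_gen F hF ((evC t).comp (lineHom v y)) x hx hr' η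
    refine Finset.mem_image.mpr ⟨fun j => AdjoinRoot.lift ((evC t).comp (lineHom v y)) (x j)
      (hr' j) η, ?_, ?_⟩
    · rw [Fintype.mem_piFinset]
      intro j
      rw [Multiset.mem_toFinset, mem_roots hP0, IsRoot.def]
      have hrj : (F.map (lineHom v y)).eval₂ (evC t) (x j) = 0 := by
        rw [eval₂_map]
        exact hr' j
      have h1 : ∀ ζ, AdjoinRoot.lift (evC t) (x j) hrj (h ζ) =
          AdjoinRoot.lift ((evC t).comp (lineHom v y)) (x j) (hr' j) ζ := by
        intro ζ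
        obtain ⟨G, rfl⟩ := AdjoinRoot.mk_surjective ζ
        rw [hh, AdjoinRoot.lift_mk, AdjoinRoot.lift_mk, eval₂_map]
      have h2 := congrArg (AdjoinRoot.lift (evC t) (x j) hrj) hP
      rw [map_zero, aeval_def, Polynomial.hom_eval₂, h1] at h2
      have h3 : (AdjoinRoot.lift (evC t) (x j) hrj).comp
          (algebraMap ℂ (AdjoinRoot (F.map (lineHom v y)))) = RingHom.id ℂ := by
        refine RingHom.ext fun a => ?_
        rw [RingHom.comp_apply, RingHom.id_apply]
        have h4 : algebraMap ℂ (AdjoinRoot (F.map (lineHom v y))) a =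
            AdjoinRoot.of (F.map (lineHom v y)) (C a) := rfl
        rw [h4, AdjoinRoot.lift_of, evC_C]
      rw [h3] at h2
      rw [← eval₂_id]
      exact h2
    · have h1 := congrArg (fun P => Polynomial.coeff P k) hspec
      simp only [coeff_map, hc] at h1
      rw [← h1]
      rfl
  -- infinitely many points
  have hfin : {t : ℂ | g.eval t = 0}.Finite := by
    have h1 : {t : ℂ | g.eval t = 0} = {t : ℂ | g.IsRoot t} := rfl
    rw [h1]
    exact finite_setOfPred_isRoot hg0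
  have hinf : {t : ℂ | g.eval t ≠ 0}.Infinite := by
    have h1 : {t : ℂ | g.eval t ≠ 0} = {t : ℂ | g.eval t = 0}ᶜ := rfl
    rw [h1]
    exact hfin.infinite_compl
  have hex : ∃ w ∈ W, {t : ℂ | (lineHom v y c).eval t = w}.Infinite := by
    by_contra hcon
    push Not at hcon
    apply hinf
    refine Set.Finite.subset (Set.Finite.biUnion W.finite_toSet fun w hw =>
      hcon w hw) ?_
    intro t ht
    rw [Set.mem_iUnion₂]
    exact ⟨_, hval t ht, rfl⟩
  obtain ⟨w, -, hw⟩ := hex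
  have hconst : lineHom v y c = C w := by
    refine Polynomial.eq_of_infinite_eval_eq _ _ (hw.mono ?_)
    intro t ht
    show (lineHom v y c).eval t = (C w).eval t
    rw [eval_C]
    exact ht
  have h1 := coeff_lineHom v y c
  rw [hconst, coeff_C_of_ne_zero hdeg.ne'] at h1
  exact hv (by exact_mod_cast h1.symm)

end Pool.Agent.Work.MP_59f3ad_nt

end

section

/-!
Approximate `p`-adic logarithms of the units of the family, as polynomials in the parameter.
-/

open Polynomial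

namespace Pool.Agent.Work.MP_59f3ad_nt

variable {r1 r2 : ℕ}

/-- An element of `ℤ[T][X]` with reduction zero is divisible by `p`. -/
theorem C_C_dvd_of_map_eq_zero (p : ℕ) (G : ℤ[X][X])
    (h : G.map (mapRingHom (Int.castRingHom (ZMod p))) = 0) : C (C (p : ℤ)) ∣ G := by
  rw [C_dvd_iff_dvd_coeff]
  intro i
  rw [C_dvd_iff_dvd_coeff]
  intro k
  have h1 := congrArg (fun P => (P.coeff i).coeff k) h
  simp only [coeff_map, coe_mapRingHom, coeff_zero] at h1
  exact (ZMod.intCast_zmod_eq_zero_iff_dvd _ p).mp h1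

theorem exists_pow_sub_one (p : ℕ) (hp : p.Prime) (a : Fin r1 → ℤ) (b : Fin r2 → ℤ) (Q1 : ℤ)
    (hd : 1 ≤ r1 + 2 * r2) :
    ∃ M : ℕ, M ≠ 0 ∧ ∀ l, ∃ G : ℤ[X][X], C (C (p : ℤ)) ∣
      (genH a b (C Q1 + C (p : ℤ) * X) l) ^ M - 1 - genF a b (C Q1 + C (p : ℤ) * X) * G := by
  have : Fact p.Prime := ⟨hp⟩
  set f : (ZMod p)[X] := genF a b (Q1 : ZMod p) with hf
  have hfm : f.Monic := genF_monic a b _ hd
  have hfin : Finite (AdjoinRoot f) := by
    have h1 : Module.Finite (ZMod p) (AdjoinRoot f) := hfm.finite_adjoinRoot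
    exact Module.finite_of_finite (ZMod p)
  have hprod : ∏ j, AdjoinRoot.mk f (genH a b (Q1 : ZMod p) j) = 1 := by
    have h1 : AdjoinRoot.mk f ((∏ j, genH a b (Q1 : ZMod p) j) - 1) = 0 :=
      (AdjoinRoot.mk_self : AdjoinRoot.mk f f = 0)
    rw [map_sub, map_one, map_prod, sub_eq_zero] at h1
    exact h1
  refine ⟨Nat.card (AdjoinRoot f)ˣ, Nat.card_pos.ne', fun l => ?_⟩
  have hu : IsUnit (AdjoinRoot.mk f (genH a b (Q1 : ZMod p) l)) := by
    rw [isUnit_iff_dvd_one, ← hprod]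
    exact Finset.dvd_prod_of_mem _ (Finset.mem_univ l)
  have h1 : AdjoinRoot.mk f (genH a b (Q1 : ZMod p) l ^ Nat.card (AdjoinRoot f)ˣ - 1) = 0 := by
    have h2 : hu.unit ^ Nat.card (AdjoinRoot f)ˣ = 1 := pow_card_eq_one'
    have h3 := congrArg Units.val h2
    rw [map_sub, map_pow, map_one, sub_eq_zero]
    exact h3
  rw [AdjoinRoot.mk_eq_zero] at h1
  obtain ⟨g, hg⟩ := h1
  obtain ⟨G, hG⟩ := Polynomial.map_surjective (mapRingHom (Int.castRingHom (ZMod p)))
    (Polynomial.map_surjective _ (ZMod.intCast_surjective)) (g.map C)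
  refine ⟨G, ?_⟩
  apply C_C_dvd_of_map_eq_zero
  have hq : mapRingHom (Int.castRingHom (ZMod p)) (C Q1 + C (p : ℤ) * X) = C (Q1 : ZMod p) := by
    simp
  rw [Polynomial.map_sub, Polynomial.map_sub, Polynomial.map_mul, Polynomial.map_pow,
    Polynomial.map_one, genF_map, genH_map, hG, hq, ← genF_map (C : ZMod p →+* _),
    ← genH_map (C : ZMod p →+* _), ← Polynomial.map_mul, ← hf, ← hg, Polynomial.map_sub,
    Polynomial.map_pow, Polynomial.map_one, sub_self]

theorem exists_V (p : ℕ) (hp : p.Prime) (a : Fin r1 → ℤ) (b : Fin r2 → ℤ) (Q1 : ℤ)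
    (hd : 1 ≤ r1 + 2 * r2) :
    ∃ M : ℕ, M ≠ 0 ∧ ∃ V : Fin r1 ⊕ Fin r2 → ℕ → ℤ[X][X],
      (∀ l N, (V l N).degree < (r1 + 2 * r2 : ℕ)) ∧
      (∀ l N, genF a b (C Q1 + C (p : ℤ) * X) ∣ (genH a b (C Q1 + C (p : ℤ) * X) l) ^ (M * p ^ N)
        - 1 - C (C ((p : ℤ) ^ (N + 2))) * V l N) ∧
      (∀ l N i, C ((p : ℤ) ^ (N + 1)) ∣ (V l (N + 1) - V l N).coeff i) := by
  obtain ⟨M0, hM0, hG⟩ := exists_pow_sub_one p hp a b Q1 hd
  set q : ℤ[X] := C Q1 + C (p : ℤ) * X with hq
  set F : ℤ[X][X] := genF a b q with hF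
  have hFm : F.Monic := genF_monic a b _ hd
  -- the ring
  let π : ℤ[X][X] →+* AdjoinRoot F := AdjoinRoot.mk F
  have hpp : π (C (C (p : ℤ))) = (p : AdjoinRoot F) := by
    simp [π]
  have hdvd : ∀ l, (p : AdjoinRoot F) ∣ π (genH a b q l) ^ M0 - 1 := fun l => by
    obtain ⟨G, hG⟩ := hG l
    have h1 := map_dvd π hG
    rw [hpp, map_sub, map_mul, map_sub, map_pow, map_one] at h1
    have h2 : π (genF a b q) = 0 := AdjoinRoot.mk_self
    rw [h2, zero_mul, sub_zero] at h1
    exact h1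
  have hdvd2 : ∀ l N, (p : AdjoinRoot F) ^ (N + 2) ∣ π (genH a b q l) ^ (M0 * p * p ^ N) - 1 := by
    intro l N
    have h1 := dvd_sub_pow_of_dvd_sub (hdvd l) (N + 1)
    rw [one_pow, ← pow_mul] at h1
    have h2 : M0 * p * p ^ N = M0 * p ^ (N + 1) := by rw [pow_succ]; ring
    rw [h2]
    exact h1
  choose y hy using hdvd2
  let red : AdjoinRoot F →ₗ[ℤ[X]] ℤ[X][X] := AdjoinRoot.modByMonicHom hFm
  have hred : ∀ z, π (red z) = z := fun z => AdjoinRoot.mk_leftInverse hFm z
  have hredinj : Function.Injective red := Function.LeftInverse.injective hred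
  have htf : ∀ (n : ℕ) (z w : AdjoinRoot F), (p : AdjoinRoot F) ^ n * z =
      (p : AdjoinRoot F) ^ n * w → z = w := by
    intro n z w h
    apply hredinj
    have h1 : ∀ z : AdjoinRoot F, (p : AdjoinRoot F) ^ n * z = (C ((p : ℤ) ^ n) : ℤ[X]) • z := by
      intro z
      rw [Algebra.smul_def, map_pow]
      simp
    rw [h1, h1] at h
    have h2 := congrArg red h
    rw [map_smul, map_smul] at h2
    exact smul_right_injective _ (by
      rw [Ne, C_eq_zero]
      exact pow_ne_zero _ (by exact_mod_cast hp.ne_zero)) h2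
  have hcong : ∀ l N, ∃ z, y l (N + 1) - y l N = (p : AdjoinRoot F) ^ (N + 1) * z := by
    intro l N
    have h1 : π (genH a b q l) ^ (M0 * p * p ^ (N + 1)) =
        (1 + (p : AdjoinRoot F) ^ (N + 2) * y l N) ^ p := by
      rw [← hy l N, pow_succ, ← mul_assoc, pow_mul]
      congr 1
      ring
    obtain ⟨k, hk⟩ := Polynomial.powAddExpansion 1 ((p : AdjoinRoot F) ^ (N + 2) * y l N) p
    have h2 := hy l (N + 1)
    rw [h1, hk] at h2
    refine ⟨k * y l N ^ 2, ?_⟩
    refine htf (N + 3) _ _ ?_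
    have h3 : (p : AdjoinRoot F) ^ (N + 3) * (y l (N + 1) - y l N) =
        (p : AdjoinRoot F) ^ (N + 1 + 2) * y l (N + 1) - (p : AdjoinRoot F) ^ (N + 3) * y l N := by
      ring
    rw [h3, ← h2]
    simp only [one_pow, mul_one]
    ring
  refine ⟨M0 * p, mul_ne_zero hM0 hp.ne_zero, fun l N => red (y l N), fun l N => ?_,
    fun l N => ?_, fun l N i => ?_⟩
  · have h1 : red (y l N) = red (y l N) %ₘ F := by
      have h2 := AdjoinRoot.modByMonicHom_mk hFm (red (y l N))
      rw [← h2]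
      exact congrArg red (hred (y l N)).symm
    have h3 : F.degree = (r1 + 2 * r2 : ℕ) := by
      rw [degree_eq_natDegree hFm.ne_zero, genF_natDegree]
    show (red (y l N)).degree < _
    rw [← h3, h1]
    exact degree_modByMonic_lt _ hFm
  · have h1 : π (genH a b q l ^ (M0 * p * p ^ N) - 1 - C (C ((p : ℤ) ^ (N + 2))) * red (y l N)) =
        0 := by
      rw [map_sub, map_sub, map_mul, map_pow, map_one, hred, hy l N]
      simp [π]
    exact AdjoinRoot.mk_eq_zero.mp h1
  · obtain ⟨z, hz⟩ := hcong l N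
    have h1 : (p : AdjoinRoot F) ^ (N + 1) * z = (C ((p : ℤ) ^ (N + 1)) : ℤ[X]) • z := by
      rw [Algebra.smul_def, map_pow]
      simp
    rw [← map_sub, hz, h1, map_smul, coeff_smul, smul_eq_mul]
    exact dvd_mul_right _ _

end Pool.Agent.Work.MP_59f3ad_nt

end

section

/-!
Approximate `p`-adic logarithms of the units of a general one-parameter family.
-/

open Polynomial

namespace Pool.Agent.Work.MP_59f3ad_nt

/-- The substitution `T ↦ Q1 + p T`. -/
noncomputable def subT (p : ℕ) (Q1 : ℤ) : ℤ[X] →+* ℤ[X] := compRingHom (C Q1 + C (p : ℤ) * X)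

theorem subT_mod (p : ℕ) (Q1 : ℤ) :
    (mapRingHom (Int.castRingHom (ZMod p))).comp (subT p Q1) =
      (C : ZMod p →+* (ZMod p)[X]).comp ((Int.castRingHom (ZMod p)).comp (evalRingHom Q1)) := by
  apply Polynomial.ringHom_ext
  · intro a
    simp [subT]
  · simp [subT]

theorem eval_subT (p : ℕ) (Q1 t : ℤ) :
    (evalRingHom t).comp (subT p Q1) = evalRingHom (Q1 + p * t) := by
  apply Polynomial.ringHom_ext
  · intro a
    simp [subT]
  · simp [subT]

variable {n : ℕ}

theorem exists_pow_sub_one_gen (p : ℕ) (hp : p.Prime) (F : ℤ[X][X]) (hF : F.Monic)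
    (H G : Fin n → ℤ[X][X]) (hHG : ∀ l, F ∣ H l * G l - 1) (Q1 : ℤ) :
    ∃ M : ℕ, M ≠ 0 ∧ ∀ l, ∃ g : ℤ[X][X], C (C (p : ℤ)) ∣
      ((H l).map (subT p Q1)) ^ M - 1 - F.map (subT p Q1) * g := by
  have : Fact p.Prime := ⟨hp⟩
  set χ : ℤ[X] →+* ZMod p := (Int.castRingHom (ZMod p)).comp (evalRingHom Q1) with hχ
  set f : (ZMod p)[X] := F.map χ with hf
  have hfm : f.Monic := hF.map _
  have hfin : Finite (AdjoinRoot f) := by
    have h1 : Module.Finite (ZMod p) (AdjoinRoot f) := hfm.finite_adjoinRoot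
    exact Module.finite_of_finite (ZMod p)
  refine ⟨Nat.card (AdjoinRoot f)ˣ, Nat.card_pos.ne', fun l => ?_⟩
  have hu : IsUnit (AdjoinRoot.mk f ((H l).map χ)) := by
    refine IsUnit.of_mul_eq_one (AdjoinRoot.mk f ((G l).map χ)) ?_
    have h1 := Polynomial.map_dvd χ (hHG l)
    rw [Polynomial.map_sub, Polynomial.map_one, Polynomial.map_mul, ← AdjoinRoot.mk_eq_zero,
      map_sub, map_one, map_mul, sub_eq_zero] at h1
    exact h1
  have h1 : AdjoinRoot.mk f ((H l).map χ ^ Nat.card (AdjoinRoot f)ˣ - 1) = 0 := by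
    have h2 : hu.unit ^ Nat.card (AdjoinRoot f)ˣ = 1 := pow_card_eq_one'
    have h3 := congrArg Units.val h2
    rw [map_sub, map_pow, map_one, sub_eq_zero]
    exact h3
  rw [AdjoinRoot.mk_eq_zero] at h1
  obtain ⟨g, hg⟩ := h1
  obtain ⟨G', hG'⟩ := Polynomial.map_surjective (mapRingHom (Int.castRingHom (ZMod p)))
    (Polynomial.map_surjective _ (ZMod.intCast_surjective)) (g.map C)
  refine ⟨G', ?_⟩
  apply C_C_dvd_of_map_eq_zero
  have hmap : ∀ P : ℤ[X][X], (P.map (subT p Q1)).map (mapRingHom (Int.castRingHom (ZMod p))) =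
      (P.map χ).map C := by
    intro P
    rw [Polynomial.map_map, subT_mod, ← Polynomial.map_map, hχ]
  rw [Polynomial.map_sub, Polynomial.map_sub, Polynomial.map_mul, Polynomial.map_pow,
    Polynomial.map_one, hmap, hmap, hG', ← hf, ← Polynomial.map_mul, ← hg, Polynomial.map_sub,
    Polynomial.map_pow, Polynomial.map_one, sub_self]

theorem exists_V_gen (p : ℕ) (hp : p.Prime) (F : ℤ[X][X]) (hF : F.Monic)
    (H G : Fin n → ℤ[X][X]) (hHG : ∀ l, F ∣ H l * G l - 1) (Q1 : ℤ) :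
    ∃ M : ℕ, M ≠ 0 ∧ ∃ V : Fin n → ℕ → ℤ[X][X],
      (∀ l N, (V l N).degree < F.natDegree) ∧
      (∀ l N, F.map (subT p Q1) ∣ ((H l).map (subT p Q1)) ^ (M * p ^ N)
        - 1 - C (C ((p : ℤ) ^ (N + 2))) * V l N) ∧
      (∀ l N i, C ((p : ℤ) ^ (N + 1)) ∣ (V l (N + 1) - V l N).coeff i) := by
  obtain ⟨M0, hM0, hG⟩ := exists_pow_sub_one_gen p hp F hF H G hHG Q1
  set F' : ℤ[X][X] := F.map (subT p Q1) with hF'
  have hFm : F'.Monic := hF.map _
  -- the ring
  let π : ℤ[X][X] →+* AdjoinRoot F' := AdjoinRoot.mk F'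
  have hpp : π (C (C (p : ℤ))) = (p : AdjoinRoot F') := by
    simp [π]
  have hdvd : ∀ l, (p : AdjoinRoot F') ∣ π ((H l).map (subT p Q1)) ^ M0 - 1 := fun l => by
    obtain ⟨G, hG⟩ := hG l
    have h1 := map_dvd π hG
    rw [hpp, map_sub, map_mul, map_sub, map_pow, map_one] at h1
    have h2 : π F' = 0 := AdjoinRoot.mk_self
    rw [h2, zero_mul, sub_zero] at h1
    exact h1
  have hdvd2 : ∀ l N, (p : AdjoinRoot F') ^ (N + 2) ∣
      π ((H l).map (subT p Q1)) ^ (M0 * p * p ^ N) - 1 := by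
    intro l N
    have h1 := dvd_sub_pow_of_dvd_sub (hdvd l) (N + 1)
    rw [one_pow, ← pow_mul] at h1
    have h2 : M0 * p * p ^ N = M0 * p ^ (N + 1) := by rw [pow_succ]; ring
    rw [h2]
    exact h1
  choose y hy using hdvd2
  let red : AdjoinRoot F' →ₗ[ℤ[X]] ℤ[X][X] := AdjoinRoot.modByMonicHom hFm
  have hred : ∀ z, π (red z) = z := fun z => AdjoinRoot.mk_leftInverse hFm z
  have hredinj : Function.Injective red := Function.LeftInverse.injective hred
  have htf : ∀ (n : ℕ) (z w : AdjoinRoot F'), (p : AdjoinRoot F') ^ n * z =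
      (p : AdjoinRoot F') ^ n * w → z = w := by
    intro n z w h
    apply hredinj
    have h1 : ∀ z : AdjoinRoot F', (p : AdjoinRoot F') ^ n * z = (C ((p : ℤ) ^ n) : ℤ[X]) • z := by
      intro z
      rw [Algebra.smul_def, map_pow]
      simp
    rw [h1, h1] at h
    have h2 := congrArg red h
    rw [map_smul, map_smul] at h2
    exact smul_right_injective _ (by
      rw [Ne, C_eq_zero]
      exact pow_ne_zero _ (by exact_mod_cast hp.ne_zero)) h2
  have hcong : ∀ l N, ∃ z, y l (N + 1) - y l N = (p : AdjoinRoot F') ^ (N + 1) * z := by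
    intro l N
    have h1 : π ((H l).map (subT p Q1)) ^ (M0 * p * p ^ (N + 1)) =
        (1 + (p : AdjoinRoot F') ^ (N + 2) * y l N) ^ p := by
      rw [← hy l N, pow_succ, ← mul_assoc, pow_mul]
      congr 1
      ring
    obtain ⟨k, hk⟩ := Polynomial.powAddExpansion 1 ((p : AdjoinRoot F') ^ (N + 2) * y l N) p
    have h2 := hy l (N + 1)
    rw [h1, hk] at h2
    refine ⟨k * y l N ^ 2, ?_⟩
    refine htf (N + 3) _ _ ?_
    have h3 : (p : AdjoinRoot F') ^ (N + 3) * (y l (N + 1) - y l N) =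
        (p : AdjoinRoot F') ^ (N + 1 + 2) * y l (N + 1) -
          (p : AdjoinRoot F') ^ (N + 3) * y l N := by
      ring
    rw [h3, ← h2]
    simp only [one_pow, mul_one]
    ring
  refine ⟨M0 * p, mul_ne_zero hM0 hp.ne_zero, fun l N => red (y l N), fun l N => ?_,
    fun l N => ?_, fun l N i => ?_⟩
  · have h1 : red (y l N) = red (y l N) %ₘ F' := by
      have h2 := AdjoinRoot.modByMonicHom_mk hFm (red (y l N))
      rw [← h2]
      exact congrArg red (hred (y l N)).symm
    have h3 : F'.degree = F.natDegree := by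
      rw [degree_eq_natDegree hFm.ne_zero, hF', hF.natDegree_map]
    show (red (y l N)).degree < _
    rw [← h3, h1]
    exact degree_modByMonic_lt _ hFm
  · have h1 : π (((H l).map (subT p Q1)) ^ (M0 * p * p ^ N) - 1 -
        C (C ((p : ℤ) ^ (N + 2))) * red (y l N)) = 0 := by
      rw [map_sub, map_sub, map_mul, map_pow, map_one, hred, hy l N]
      simp [π]
    exact AdjoinRoot.mk_eq_zero.mp h1
  · obtain ⟨z, hz⟩ := hcong l N
    have h1 : (p : AdjoinRoot F') ^ (N + 1) * z = (C ((p : ℤ) ^ (N + 1)) : ℤ[X]) • z := by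
      rw [Algebra.smul_def, map_pow]
      simp
    rw [← map_sub, hz, h1, map_smul, coeff_smul, smul_eq_mul]
    exact dvd_mul_right _ _

end Pool.Agent.Work.MP_59f3ad_nt

end

section

/-!
From a non-vanishing minor of approximate logarithms to the Leopoldt property.
-/

open Polynomial NumberField

namespace Pool.Agent.Work.MP_59f3ad_nt

section congr

variable {O : Type*} [CommRing O]

theorem units_zpow_congr (P : O) (w : Oˣ) (μ : O) (hw : (w : O) = 1 + P * μ) (E : ℤ) :
    P ^ 2 ∣ ((w ^ E : Oˣ) : O) - (1 + P * (E * μ)) := by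
  induction E using Int.induction_on with
  | zero => simp
  | succ i ih =>
    rw [zpow_add_one, Units.val_mul]
    have h1 : ((w ^ (i : ℤ) : Oˣ) : O) * (w : O) - (1 + P * (((i : ℤ) + 1 : ℤ) * μ)) =
        (((w ^ (i : ℤ) : Oˣ) : O) - (1 + P * (((i : ℤ) : O) * μ))) * (w : O) +
        P ^ 2 * (((i : ℤ) : O) * μ ^ 2) := by
      rw [hw]
      push_cast
      ring
    rw [h1]
    exact dvd_add (ih.mul_right _) (dvd_mul_right _ _)
  | pred i ih =>
    have h2 : w ^ (-(i : ℤ)) = w ^ (-(i : ℤ) - 1) * w := by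
      rw [← zpow_add_one]; congr 1; ring
    refine (Units.dvd_mul_right (u := w)).mp ?_
    have h1 : (((w ^ (-(i : ℤ) - 1) : Oˣ) : O) - (1 + P * ((-(i : ℤ) - 1 : ℤ) * μ))) * (w : O) =
        (((w ^ (-(i : ℤ)) : Oˣ) : O) - (1 + P * (((-(i : ℤ) : ℤ) : O) * μ))) +
        P ^ 2 * ((i + 1) * μ ^ 2) := by
      rw [h2, Units.val_mul, hw]
      push_cast
      ring
    rw [h1]
    exact dvd_add ih (dvd_mul_right _ _)

theorem prod_zpow_congr {J : Type*} (P : O) (w : J → Oˣ) (μ : J → O)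
    (hw : ∀ j, (w j : O) = 1 + P * μ j) (E : J → ℤ) (s : Finset J) :
    P ^ 2 ∣ ((∏ j ∈ s, w j ^ E j : Oˣ) : O) - (1 + P * ∑ j ∈ s, E j * μ j) := by
  classical
  induction s using Finset.induction_on with
  | empty => simp
  | insert i s hi ih =>
    rw [Finset.prod_insert hi, Finset.sum_insert hi, Units.val_mul]
    have h1 := units_zpow_congr P (w i) (μ i) (hw i) (E i)
    have h2 : ((w i ^ E i : Oˣ) : O) * ((∏ j ∈ s, w j ^ E j : Oˣ) : O) -
        (1 + P * (E i * μ i + ∑ j ∈ s, E j * μ j)) =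
        (((w i ^ E i : Oˣ) : O) - (1 + P * (E i * μ i))) * ((∏ j ∈ s, w j ^ E j : Oˣ) : O) +
        (1 + P * (E i * μ i)) * (((∏ j ∈ s, w j ^ E j : Oˣ) : O) -
          (1 + P * ∑ j ∈ s, E j * μ j)) +
        P ^ 2 * ((E i * μ i) * ∑ j ∈ s, E j * μ j) := by
      ring
    rw [h2]
    exact dvd_add (dvd_add (h1.mul_right _) (ih.mul_left _)) (dvd_mul_right _ _)

theorem dvd_pow_prime_sub_one (p : ℕ) (s : ℕ) (hs : 1 ≤ s) (a : O)
    (ha : (p : O) ^ s ∣ a - 1) : (p : O) ^ (s + 1) ∣ a ^ p - 1 := by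
  obtain ⟨t, ht⟩ := ha
  obtain ⟨k, hk⟩ := Polynomial.powAddExpansion 1 ((p : O) ^ s * t) p
  have h1 : a = 1 + (p : O) ^ s * t := by linear_combination ht
  rw [h1, hk]
  obtain ⟨r, rfl⟩ : ∃ r, s = r + 1 := ⟨s - 1, by omega⟩
  refine ⟨t + k * (p : O) ^ r * t ^ 2, ?_⟩
  simp only [one_pow, mul_one]
  ring

theorem dvd_pow_prime_pow_sub_one (p : ℕ) (s : ℕ) (hs : 1 ≤ s) (a : O)
    (ha : (p : O) ^ s ∣ a - 1) (N : ℕ) : (p : O) ^ (s + N) ∣ a ^ p ^ N - 1 := by
  induction N with
  | zero => simpa using ha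
  | succ N ih =>
    rw [pow_succ p N, pow_mul]
    exact dvd_pow_prime_sub_one p (s + N) (by omega) _ ih

end congr

variable {r1 r2 : ℕ}

/-- The minors of the matrices of approximate logarithms. -/
noncomputable def minorD (V : Fin r1 ⊕ Fin r2 → ℕ → ℤ[X][X]) (j0 : Fin r1 ⊕ Fin r2) {d : ℕ}
    (φ : {j : Fin r1 ⊕ Fin r2 // j ≠ j0} → Fin d) (N : ℕ) : ℤ[X] :=
  (Matrix.of fun l j : {j : Fin r1 ⊕ Fin r2 // j ≠ j0} => (V l N).coeff (φ j)).det

theorem minorD_congr (V : Fin r1 ⊕ Fin r2 → ℕ → ℤ[X][X]) (j0 : Fin r1 ⊕ Fin r2) {d : ℕ}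
    (φ : {j : Fin r1 ⊕ Fin r2 // j ≠ j0} → Fin d) (c : ℤ[X]) (N N' : ℕ)
    (h : ∀ l i, c ∣ (V l N' - V l N).coeff i) :
    c ∣ minorD V j0 φ N' - minorD V j0 φ N := by
  rw [← Ideal.mem_span_singleton, ← Ideal.Quotient.eq_zero_iff_mem, map_sub, sub_eq_zero, minorD,
    minorD, RingHom.map_det, RingHom.map_det]
  congr 1
  ext l j
  rw [RingHom.mapMatrix_apply, RingHom.mapMatrix_apply, Matrix.map_apply, Matrix.map_apply,
    Matrix.of_apply, Matrix.of_apply, Ideal.Quotient.eq, Ideal.mem_span_singleton, ← coeff_sub]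
  exact h _ _

theorem V_congr (p : ℕ) (V : Fin r1 ⊕ Fin r2 → ℕ → ℤ[X][X])
    (h : ∀ l N i, C ((p : ℤ) ^ (N + 1)) ∣ (V l (N + 1) - V l N).coeff i) (N k : ℕ) :
    ∀ l i, C ((p : ℤ) ^ (N + 1)) ∣ (V l (N + k) - V l N).coeff i := by
  intro l i
  induction k with
  | zero => simp
  | succ k ih =>
    have h1 : V l (N + (k + 1)) - V l N = (V l (N + k + 1) - V l (N + k)) +
        (V l (N + k) - V l N) := by
      rw [← add_assoc]; ring
    rw [h1, coeff_add]
    refine dvd_add (Dvd.dvd.trans ?_ (h l (N + k) i)) ih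
    rw [C_pow, C_pow]
    exact pow_dvd_pow _ (by omega)

theorem minorD_congr_add (p : ℕ) (V : Fin r1 ⊕ Fin r2 → ℕ → ℤ[X][X])
    (h : ∀ l N i, C ((p : ℤ) ^ (N + 1)) ∣ (V l (N + 1) - V l N).coeff i) (j0 : Fin r1 ⊕ Fin r2)
    {d : ℕ} (φ : {j : Fin r1 ⊕ Fin r2 // j ≠ j0} → Fin d) (N k : ℕ) :
    C ((p : ℤ) ^ (N + 1)) ∣ minorD V j0 φ (N + k) - minorD V j0 φ N :=
  minorD_congr V j0 φ _ _ _ (V_congr p V h N k)

/-- A non-vanishing minor gives the Leopoldt property. -/
theorem sleo_of_minor (p : ℕ) (hp : p.Prime) (a : Fin r1 → ℤ) (b : Fin r2 → ℤ)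
    (ha : Function.Injective a) (hb : Function.Injective b) (hd : 1 ≤ r1 + 2 * r2) (Q1 t : ℤ)
    (hQ4 : 4 ≤ |Q1 + p * t|) (M : ℕ) (V : Fin r1 ⊕ Fin r2 → ℕ → ℤ[X][X])
    (hV1 : ∀ l N, (V l N).degree < (r1 + 2 * r2 : ℕ))
    (hV2 : ∀ l N, genF a b (C Q1 + C (p : ℤ) * X) ∣
      (genH a b (C Q1 + C (p : ℤ) * X) l) ^ (M * p ^ N) - 1 - C (C ((p : ℤ) ^ (N + 2))) * V l N)
    (hV3 : ∀ l N i, C ((p : ℤ) ^ (N + 1)) ∣ (V l (N + 1) - V l N).coeff i)
    (j0 : Fin r1 ⊕ Fin r2) (φ : {j : Fin r1 ⊕ Fin r2 // j ≠ j0} → Fin (r1 + 2 * r2)) (N0 : ℕ)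
    (hN0 : ¬ (p : ℤ) ^ (N0 + 1) ∣ (minorD V j0 φ N0).eval t)
    {K : Type*} [Field K] [NumberField K] (x : 𝓞 K)
    (hfin : Module.finrank ℚ K = r1 + 2 * r2) (hx : aeval x (famF a b (Q1 + p * t)) = 0) :
    ∃ c, SLeo K p c := by
  classical
  have hQ0 : Q1 + p * t ≠ 0 := by intro h; rw [h] at hQ4; simp at hQ4
  have hpO : (p : 𝓞 K) ≠ 0 := by exact_mod_cast hp.ne_zero
  obtain ⟨u, hu, -⟩ := exists_units a b _ x hx
  obtain ⟨c1, hc1⟩ := exists_index_const p hp (r1 + 2 * r2) x
    (linearIndependent_of_root a b _ x hQ0 ha hb hd hx) hfin.symm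
  refine sleo_of_indep K p hp u (Pi.single j0 1) (2 + c1 + N0) ⟨j0, by simp⟩ ?_ ?_
  · have h1 := InfinitePlace.card_eq_nrRealPlaces_add_nrComplexPlaces K
    rw [nrReal_eq a b _ x hQ4 ha hb hd hfin hx, nrComplex_eq a b _ x hQ4 ha hb hd hfin hx] at h1
    rw [Units.rank, h1, Fintype.card_sum, Fintype.card_fin, Fintype.card_fin]
    omega
  intro m E hE hdvd
  have hE0 : E j0 = 0 := by
    simpa [Pi.single_apply] using hE
  -- the evaluation homomorphism
  let ev : ℤ[X] →+* 𝓞 K := (algebraMap ℤ (𝓞 K)).comp (evalRingHom t)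
  let Ψ : ℤ[X][X] →+* 𝓞 K := eval₂RingHom ev x
  have hevq : evalRingHom t (C Q1 + C (p : ℤ) * X) = Q1 + p * t := by simp
  have hΨF : Ψ (genF a b (C Q1 + C (p : ℤ) * X)) = 0 := by
    have h1 : Ψ (genF a b (C Q1 + C (p : ℤ) * X)) =
        eval₂ (algebraMap ℤ (𝓞 K)) x ((genF a b (C Q1 + C (p : ℤ) * X)).map (evalRingHom t)) := by
      rw [eval₂_map]; rfl
    rw [h1, genF_map, hevq, genF_int]
    exact hx
  have hΨH : ∀ l, Ψ (genH a b (C Q1 + C (p : ℤ) * X) l) = u l := fun l => by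
    have h1 : Ψ (genH a b (C Q1 + C (p : ℤ) * X) l) =
        eval₂ (algebraMap ℤ (𝓞 K)) x ((genH a b (C Q1 + C (p : ℤ) * X) l).map (evalRingHom t)) := by
      rw [eval₂_map]; rfl
    rw [h1, genH_map, hevq, genH_int, hu]
    rfl
  set m' := m + (2 + c1 + N0) with hm'
  set N := N0 + m' with hN
  set μ : Fin r1 ⊕ Fin r2 → 𝓞 K := fun l => Ψ (V l N) with hμ
  have hw : ∀ l, ((u l ^ (M * p ^ N) : (𝓞 K)ˣ) : 𝓞 K) = 1 + (p : 𝓞 K) ^ (N + 2) * μ l := by
    intro l
    obtain ⟨G, hG⟩ := hV2 l N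
    have h1 := congrArg Ψ hG
    rw [map_mul, hΨF, zero_mul, map_sub, map_sub, map_mul, map_pow, map_one, hΨH] at h1
    have h2 : Ψ (C (C ((p : ℤ) ^ (N + 2)))) = (p : 𝓞 K) ^ (N + 2) := by
      show eval₂ ev x (C (C ((p : ℤ) ^ (N + 2)))) = _
      rw [eval₂_C]
      simp only [ev, RingHom.comp_apply, coe_evalRingHom, eval_C, map_pow]
      simp
    rw [h2] at h1
    rw [Units.val_pow_eq_pow_val]
    linear_combination h1
  have h1 := prod_zpow_congr ((p : 𝓞 K) ^ (N + 2)) _ μ hw E Finset.univ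
  have h2 : ∏ j, (u j ^ (M * p ^ N)) ^ E j = (∏ j, u j ^ E j) ^ (M * p ^ N) := by
    rw [← Finset.prod_pow]
    refine Finset.prod_congr rfl fun j _ => ?_
    rw [← zpow_natCast, ← zpow_natCast, ← zpow_mul, ← zpow_mul, mul_comm]
  rw [h2] at h1
  have h3 : (p : 𝓞 K) ^ (m' + N) ∣ (((∏ j, u j ^ E j) ^ (M * p ^ N) : (𝓞 K)ˣ) : 𝓞 K) - 1 := by
    rw [mul_comm M, pow_mul, Units.val_pow_eq_pow_val, Units.val_pow_eq_pow_val]
    exact (dvd_pow_prime_pow_sub_one p m' (by omega) _ hdvd N).trans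
      (sub_one_dvd_pow_sub_one _ _)
  have h4 : (p : 𝓞 K) ^ (m' + N) ∣ (p : 𝓞 K) ^ (N + 2) * ∑ j, E j * μ j := by
    have h5 : (p : 𝓞 K) ^ (m' + N) ∣ ((p : 𝓞 K) ^ (N + 2)) ^ 2 := by
      rw [← pow_mul]
      exact pow_dvd_pow _ (by omega)
    have h6 := dvd_sub h3 (h5.trans h1)
    refine h6.trans (Dvd.intro 1 ?_)
    ring
  have h5 : (p : 𝓞 K) ^ (m' - 2) ∣ ∑ j, E j * μ j := by
    have h6 : (p : 𝓞 K) ^ (m' + N) = (p : 𝓞 K) ^ (N + 2) * (p : 𝓞 K) ^ (m' - 2) := by
      rw [← pow_add]; congr 1; omega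
    rw [h6] at h4
    exact (mul_dvd_mul_iff_left (pow_ne_zero _ hpO)).mp h4
  -- coefficients
  have hμ' : ∀ l, μ l = ∑ i ∈ Finset.range (r1 + 2 * r2), ((((V l N).coeff i).eval t : ℤ) : 𝓞 K) *
      x ^ i := by
    intro l
    have h6 : (V l N).natDegree < r1 + 2 * r2 := by
      by_cases h0 : V l N = 0
      · rw [h0, natDegree_zero]; omega
      · exact (natDegree_lt_iff_degree_lt h0).mpr (hV1 l N)
    show eval₂ ev x (V l N) = _
    rw [eval₂_eq_sum_range' _ h6]
    rfl
  have h6 : ∑ j, E j * μ j = ∑ i ∈ Finset.range (r1 + 2 * r2),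
      ((∑ l, E l * ((V l N).coeff i).eval t : ℤ) : 𝓞 K) * x ^ i := by
    simp only [hμ', Finset.mul_sum]
    rw [Finset.sum_comm]
    refine Finset.sum_congr rfl fun i _ => ?_
    push_cast
    rw [Finset.sum_mul]
    refine Finset.sum_congr rfl fun l _ => ?_
    ring
  rw [h6] at h5
  have h7 := hc1 _ _ h5
  -- the matrix
  set W : Matrix {j : Fin r1 ⊕ Fin r2 // j ≠ j0} {j : Fin r1 ⊕ Fin r2 // j ≠ j0} ℤ :=
    Matrix.of fun l j => ((V l N).coeff (φ j)).eval t with hW
  have hdet : W.det = (minorD V j0 φ N).eval t := by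
    have h8 := RingHom.map_det (evalRingHom t)
      (Matrix.of fun l j : {j : Fin r1 ⊕ Fin r2 // j ≠ j0} => (V l N).coeff (φ j))
    rw [coe_evalRingHom] at h8
    rw [minorD, h8]
    rfl
  have h8 : ∀ j, (p : ℤ) ^ (m + N0) ∣ (Matrix.vecMul
      (fun l : {j : Fin r1 ⊕ Fin r2 // j ≠ j0} => E l) W) j := by
    intro j
    have h9 := h7 (φ j) (φ j).2
    have h10 : m' - 2 - c1 = m + N0 := by omega
    rw [h10] at h9
    have h11 : (Matrix.vecMul (fun l : {j : Fin r1 ⊕ Fin r2 // j ≠ j0} => E l) W) j =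
        ∑ l, E l * ((V l N).coeff (φ j)).eval t := by
      rw [Matrix.vecMul, dotProduct]
      have h12 : ∑ l, E l * ((V l N).coeff (φ j)).eval t =
          ∑ l ∈ Finset.univ.erase j0, E l * ((V l N).coeff (φ j)).eval t := by
        rw [← Finset.add_sum_erase _ _ (Finset.mem_univ j0), hE0, zero_mul, zero_add]
      rw [h12]
      symm
      exact Finset.sum_subtype _ (by simp) _
    rw [h11]
    exact h9
  have h9 : ∀ j : {j : Fin r1 ⊕ Fin r2 // j ≠ j0}, (p : ℤ) ^ (m + N0) ∣ E j * W.det := by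
    intro j
    have h10 : Matrix.vecMul (Matrix.vecMul (fun l : {j : Fin r1 ⊕ Fin r2 // j ≠ j0} => E l) W)
        W.adjugate = fun l : {j : Fin r1 ⊕ Fin r2 // j ≠ j0} => E l * W.det := by
      rw [Matrix.vecMul_vecMul, Matrix.mul_adjugate]
      ext l
      rw [Matrix.vecMul_smul, Matrix.vecMul_one]
      simp [mul_comm]
    have h11 : E j * W.det = ∑ i, (Matrix.vecMul
        (fun l : {j : Fin r1 ⊕ Fin r2 // j ≠ j0} => E l) W) i * W.adjugate i j := by
      have := congrFun h10 j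
      rw [← this]
      rfl
    rw [h11]
    exact Finset.dvd_sum fun i _ => (h8 i).mul_right _
  have h10 : ¬ (p : ℤ) ^ (N0 + 1) ∣ W.det := by
    rw [hdet]
    intro h11
    apply hN0
    have h12 := minorD_congr_add p V hV3 j0 φ N0 m'
    have h13 := map_dvd (evalRingHom t) h12
    rw [map_sub] at h13
    simp only [coe_evalRingHom, eval_C] at h13
    exact (dvd_sub_right h11).mp h13
  intro j
  by_cases hj : j = j0
  · rw [hj, hE0]; exact dvd_zero _
  have h11 := h9 ⟨j, hj⟩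
  have hW0 : W.det ≠ 0 := fun h => h10 (h ▸ dvd_zero _)
  have hpp : Prime (p : ℤ) := Nat.prime_iff_prime_int.mp hp
  obtain ⟨v, w, hw1, hw2⟩ := WfDvdMonoid.max_power_factor hW0 hpp.irreducible
  have hv : v ≤ N0 := by
    by_contra hcon
    apply h10
    rw [hw2]
    exact (pow_dvd_pow _ (by omega)).mul_right _
  have hcop : IsCoprime ((p : ℤ) ^ (m + N0 - v)) w :=
    IsCoprime.pow_left ((Prime.coprime_iff_not_dvd hpp).mpr hw1)
  have h12 : (p : ℤ) ^ (m + N0 - v) ∣ E j := by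
    have h13 : (p : ℤ) ^ v * (p : ℤ) ^ (m + N0 - v) ∣ (p : ℤ) ^ v * (E j * w) := by
      rw [← pow_add]
      have h14 : v + (m + N0 - v) = m + N0 := by omega
      rw [h14]
      refine h11.trans (Dvd.intro 1 ?_)
      rw [hw2]
      ring
    rw [mul_dvd_mul_iff_left (pow_ne_zero _ hpp.ne_zero)] at h13
    exact hcop.dvd_of_dvd_mul_right h13
  exact (pow_dvd_pow _ (by omega)).trans h12

end Pool.Agent.Work.MP_59f3ad_nt

end

section

/-!
From a non-vanishing minor of approximate logarithms to the Leopoldt property, for a general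
family.
-/

open Polynomial NumberField

namespace Pool.Agent.Work.MP_59f3ad_nt

section lin

variable {K : Type*} [Field K] [NumberField K]

theorem linearIndependent_of_irreducible (f : ℤ[X]) (hf : f.Monic) (hirr : Irreducible f)
    (x : 𝓞 K) (hx : aeval x f = 0) :
    LinearIndependent ℤ (fun i : Fin f.natDegree => x ^ (i : ℕ)) := by
  have hirr' : Irreducible (f.map (Int.castRingHom ℚ)) :=
    (IsPrimitive.Int.irreducible_iff_irreducible_map_cast hf.isPrimitive).mp hirr
  have hx' : aeval (x : K) (f.map (Int.castRingHom ℚ)) = 0 := by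
    have h1 : aeval (x : K) (f.map (algebraMap ℤ ℚ)) = aeval (x : K) f :=
      aeval_map_algebraMap ℚ (x : K) f
    have h2 : aeval (x : K) f = algebraMap (𝓞 K) K (aeval x f) :=
      aeval_algebraMap_apply K x f
    rw [hx, map_zero] at h2
    exact h1.trans h2
  have hmin := minpoly.eq_of_irreducible_of_monic hirr' hx' (hf.map _)
  have hdeg : (minpoly ℚ (x : K)).natDegree = f.natDegree := by
    rw [← hmin, hf.natDegree_map]
  have h1 := linearIndependent_pow (K := ℚ) (x : K)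
  rw [hdeg] at h1
  have h2 : LinearIndependent ℤ (fun i : Fin f.natDegree => (x : K) ^ (i : ℕ)) :=
    h1.restrict_scalars' ℤ
  refine LinearIndependent.of_comp (Algebra.linearMap (𝓞 K) K |>.restrictScalars ℤ) ?_
  have h3 : (⇑(Algebra.linearMap (𝓞 K) K |>.restrictScalars ℤ) ∘
      fun i : Fin f.natDegree => x ^ (i : ℕ)) = fun i : Fin f.natDegree => (x : K) ^ (i : ℕ) := by
    funext i
    simp
  rw [h3]
  exact h2

end lin

variable {n : ℕ}

/-- The minors of the matrices of approximate logarithms. -/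
noncomputable def minorG (V : Fin n → ℕ → ℤ[X][X]) {d : ℕ} (φ : Fin n → Fin d) (N : ℕ) : ℤ[X] :=
  (Matrix.of fun l j : Fin n => (V l N).coeff (φ j)).det

theorem minorG_congr (V : Fin n → ℕ → ℤ[X][X]) {d : ℕ} (φ : Fin n → Fin d) (c : ℤ[X])
    (N N' : ℕ) (h : ∀ l i, c ∣ (V l N' - V l N).coeff i) :
    c ∣ minorG V φ N' - minorG V φ N := by
  rw [← Ideal.mem_span_singleton, ← Ideal.Quotient.eq_zero_iff_mem, map_sub, sub_eq_zero, minorG,
    minorG, RingHom.map_det, RingHom.map_det]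
  congr 1
  ext l j
  rw [RingHom.mapMatrix_apply, RingHom.mapMatrix_apply, Matrix.map_apply, Matrix.map_apply,
    Matrix.of_apply, Matrix.of_apply, Ideal.Quotient.eq, Ideal.mem_span_singleton, ← coeff_sub]
  exact h _ _

theorem V_congr_gen (p : ℕ) (V : Fin n → ℕ → ℤ[X][X])
    (h : ∀ l N i, C ((p : ℤ) ^ (N + 1)) ∣ (V l (N + 1) - V l N).coeff i) (N k : ℕ) :
    ∀ l i, C ((p : ℤ) ^ (N + 1)) ∣ (V l (N + k) - V l N).coeff i := by
  intro l i
  induction k with
  | zero => simp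
  | succ k ih =>
    have h1 : V l (N + (k + 1)) - V l N = (V l (N + k + 1) - V l (N + k)) +
        (V l (N + k) - V l N) := by
      rw [← add_assoc]; ring
    rw [h1, coeff_add]
    refine dvd_add (Dvd.dvd.trans ?_ (h l (N + k) i)) ih
    rw [C_pow, C_pow]
    exact pow_dvd_pow _ (by omega)

theorem minorG_congr_add (p : ℕ) (V : Fin n → ℕ → ℤ[X][X])
    (h : ∀ l N i, C ((p : ℤ) ^ (N + 1)) ∣ (V l (N + 1) - V l N).coeff i)
    {d : ℕ} (φ : Fin n → Fin d) (N k : ℕ) :
    C ((p : ℤ) ^ (N + 1)) ∣ minorG V φ (N + k) - minorG V φ N :=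
  minorG_congr V φ _ _ _ (V_congr_gen p V h N k)

/-- A non-vanishing minor gives the Leopoldt property. -/
theorem sleo_of_minor_gen (p : ℕ) (hp : p.Prime) (F : ℤ[X][X]) (hF : F.Monic)
    (H G : Fin n → ℤ[X][X]) (hHG : ∀ l, F ∣ H l * G l - 1) (Q1 t : ℤ)
    (hirr : Irreducible (F.map (evalRingHom (Q1 + p * t)))) (M : ℕ) (V : Fin n → ℕ → ℤ[X][X])
    (hV1 : ∀ l N, (V l N).degree < F.natDegree)
    (hV2 : ∀ l N, F.map (subT p Q1) ∣ ((H l).map (subT p Q1)) ^ (M * p ^ N)
        - 1 - C (C ((p : ℤ) ^ (N + 2))) * V l N)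
    (hV3 : ∀ l N i, C ((p : ℤ) ^ (N + 1)) ∣ (V l (N + 1) - V l N).coeff i)
    (φ : Fin n → Fin F.natDegree) (N0 : ℕ)
    (hN0 : ¬ (p : ℤ) ^ (N0 + 1) ∣ (minorG V φ N0).eval t)
    {K : Type*} [Field K] [NumberField K] (x : 𝓞 K)
    (hfin : Module.finrank ℚ K = F.natDegree)
    (hx : aeval x (F.map (evalRingHom (Q1 + p * t))) = 0) (hrank : Units.rank K = n) :
    ∃ c, SLeo K p c := by
  classical
  have hpO : (p : 𝓞 K) ≠ 0 := by exact_mod_cast hp.ne_zero
  have hd : 0 < F.natDegree := by rw [← hfin]; exact Module.finrank_pos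
  -- the evaluation homomorphisms
  let ev : ℤ[X] →+* 𝓞 K := (algebraMap ℤ (𝓞 K)).comp (evalRingHom t)
  let Ψ : ℤ[X][X] →+* 𝓞 K := eval₂RingHom ev x
  have hΨ : ∀ P : ℤ[X][X], Ψ (P.map (subT p Q1)) = aeval x (P.map (evalRingHom (Q1 + p * t))) := by
    intro P
    have h1 : Ψ (P.map (subT p Q1)) =
        eval₂ (algebraMap ℤ (𝓞 K)) x ((P.map (subT p Q1)).map (evalRingHom t)) := by
      rw [eval₂_map]; rfl
    rw [h1, Polynomial.map_map, eval_subT]
    rfl
  have hΨF : Ψ (F.map (subT p Q1)) = 0 := by rw [hΨ, hx]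
  have hunit : ∀ l, IsUnit (Ψ ((H l).map (subT p Q1))) := by
    intro l
    refine IsUnit.of_mul_eq_one (Ψ ((G l).map (subT p Q1))) ?_
    have h1 := map_dvd Ψ (Polynomial.map_dvd (subT p Q1) (hHG l))
    rw [hΨF, zero_dvd_iff, Polynomial.map_sub, Polynomial.map_mul, Polynomial.map_one, map_sub,
      map_mul, map_one, sub_eq_zero] at h1
    exact h1
  set u' : Fin n → (𝓞 K)ˣ := fun l => (hunit l).unit with hu'
  have hu : ∀ l, (u' l : 𝓞 K) = Ψ ((H l).map (subT p Q1)) := fun l => rfl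
  have hfd : (F.map (evalRingHom (Q1 + p * t))).natDegree = F.natDegree := hF.natDegree_map _
  have hlin := linearIndependent_of_irreducible _ (hF.map _) hirr x hx
  rw [hfd] at hlin
  obtain ⟨c1, hc1⟩ := exists_index_const p hp F.natDegree x hlin hfin.symm
  let u : Option (Fin n) → (𝓞 K)ˣ := fun o => o.elim 1 u'
  refine sleo_of_indep K p hp u (fun o => o.elim 1 (fun _ => 0)) (2 + c1 + N0) ⟨none, by simp⟩
    ?_ ?_
  · rw [Fintype.card_option, Fintype.card_fin, hrank]
  intro m E hE hdvd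
  have hE0 : E none = 0 := by
    rw [Fintype.sum_option] at hE
    simpa using hE
  have hprodE : ∏ o, u o ^ E o = ∏ l, u' l ^ E (some l) := by
    rw [Fintype.prod_option]
    simp [u]
  rw [hprodE] at hdvd
  set m' := m + (2 + c1 + N0) with hm'
  set N := N0 + m' with hN
  set μ : Fin n → 𝓞 K := fun l => Ψ (V l N) with hμ
  have hw : ∀ l, ((u' l ^ (M * p ^ N) : (𝓞 K)ˣ) : 𝓞 K) = 1 + (p : 𝓞 K) ^ (N + 2) * μ l := by
    intro l
    obtain ⟨g, hg⟩ := hV2 l N
    have h1 := congrArg Ψ hg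
    rw [map_mul, hΨF, zero_mul, map_sub, map_sub, map_mul, map_pow, map_one, ← hu] at h1
    have h2 : Ψ (C (C ((p : ℤ) ^ (N + 2)))) = (p : 𝓞 K) ^ (N + 2) := by
      show eval₂ ev x (C (C ((p : ℤ) ^ (N + 2)))) = _
      rw [eval₂_C]
      simp only [ev, RingHom.comp_apply, coe_evalRingHom, eval_C, map_pow]
      simp
    rw [h2] at h1
    rw [Units.val_pow_eq_pow_val]
    linear_combination h1
  have h1 := prod_zpow_congr ((p : 𝓞 K) ^ (N + 2)) _ μ hw (fun l => E (some l)) Finset.univ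
  have h2 : ∏ j, (u' j ^ (M * p ^ N)) ^ E (some j) = (∏ j, u' j ^ E (some j)) ^ (M * p ^ N) := by
    rw [← Finset.prod_pow]
    refine Finset.prod_congr rfl fun j _ => ?_
    rw [← zpow_natCast, ← zpow_natCast, ← zpow_mul, ← zpow_mul, mul_comm]
  rw [h2] at h1
  have h3 : (p : 𝓞 K) ^ (m' + N) ∣
      (((∏ j, u' j ^ E (some j)) ^ (M * p ^ N) : (𝓞 K)ˣ) : 𝓞 K) - 1 := by
    rw [mul_comm M, pow_mul, Units.val_pow_eq_pow_val, Units.val_pow_eq_pow_val]
    exact (dvd_pow_prime_pow_sub_one p m' (by omega) _ hdvd N).trans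
      (sub_one_dvd_pow_sub_one _ _)
  have h4 : (p : 𝓞 K) ^ (m' + N) ∣ (p : 𝓞 K) ^ (N + 2) * ∑ j, E (some j) * μ j := by
    have h5 : (p : 𝓞 K) ^ (m' + N) ∣ ((p : 𝓞 K) ^ (N + 2)) ^ 2 := by
      rw [← pow_mul]
      exact pow_dvd_pow _ (by omega)
    have h6 := dvd_sub h3 (h5.trans h1)
    refine h6.trans (Dvd.intro 1 ?_)
    ring
  have h5 : (p : 𝓞 K) ^ (m' - 2) ∣ ∑ j, E (some j) * μ j := by
    have h6 : (p : 𝓞 K) ^ (m' + N) = (p : 𝓞 K) ^ (N + 2) * (p : 𝓞 K) ^ (m' - 2) := by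
      rw [← pow_add]; congr 1; omega
    rw [h6] at h4
    exact (mul_dvd_mul_iff_left (pow_ne_zero _ hpO)).mp h4
  -- coefficients
  have hμ' : ∀ l, μ l = ∑ i ∈ Finset.range F.natDegree,
      ((((V l N).coeff i).eval t : ℤ) : 𝓞 K) * x ^ i := by
    intro l
    have h6 : (V l N).natDegree < F.natDegree := by
      by_cases h0 : V l N = 0
      · rw [h0, natDegree_zero]; exact hd
      · exact (natDegree_lt_iff_degree_lt h0).mpr (hV1 l N)
    show eval₂ ev x (V l N) = _
    rw [eval₂_eq_sum_range' _ h6]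
    rfl
  have h6 : ∑ j, E (some j) * μ j = ∑ i ∈ Finset.range F.natDegree,
      ((∑ l, E (some l) * ((V l N).coeff i).eval t : ℤ) : 𝓞 K) * x ^ i := by
    simp only [hμ', Finset.mul_sum]
    rw [Finset.sum_comm]
    refine Finset.sum_congr rfl fun i _ => ?_
    push_cast
    rw [Finset.sum_mul]
    refine Finset.sum_congr rfl fun l _ => ?_
    ring
  rw [h6] at h5
  have h7 := hc1 _ _ h5
  -- the matrix
  set W : Matrix (Fin n) (Fin n) ℤ := Matrix.of fun l j => ((V l N).coeff (φ j)).eval t with hW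
  have hdet : W.det = (minorG V φ N).eval t := by
    have h8 := RingHom.map_det (evalRingHom t)
      (Matrix.of fun l j : Fin n => (V l N).coeff (φ j))
    rw [coe_evalRingHom] at h8
    rw [minorG, h8]
    rfl
  have h8 : ∀ j, (p : ℤ) ^ (m + N0) ∣ (Matrix.vecMul (fun l => E (some l)) W) j := by
    intro j
    have h9 := h7 (φ j) (φ j).2
    have h10 : m' - 2 - c1 = m + N0 := by omega
    rw [h10] at h9
    exact h9
  have h9 : ∀ j : Fin n, (p : ℤ) ^ (m + N0) ∣ E (some j) * W.det := by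
    intro j
    have h10 : Matrix.vecMul (Matrix.vecMul (fun l : Fin n => E (some l)) W)
        W.adjugate = fun l : Fin n => E (some l) * W.det := by
      rw [Matrix.vecMul_vecMul, Matrix.mul_adjugate]
      ext l
      rw [Matrix.vecMul_smul, Matrix.vecMul_one]
      simp [mul_comm]
    have h11 : E (some j) * W.det = ∑ i, (Matrix.vecMul
        (fun l : Fin n => E (some l)) W) i * W.adjugate i j := by
      have := congrFun h10 j
      rw [← this]
      rfl
    rw [h11]
    exact Finset.dvd_sum fun i _ => (h8 i).mul_right _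
  have h10 : ¬ (p : ℤ) ^ (N0 + 1) ∣ W.det := by
    rw [hdet]
    intro h11
    apply hN0
    have h12 := minorG_congr_add p V hV3 φ N0 m'
    have h13 := map_dvd (evalRingHom t) h12
    rw [map_sub] at h13
    simp only [coe_evalRingHom, eval_C] at h13
    exact (dvd_sub_right h11).mp h13
  have hmain : ∀ j : Fin n, (p : ℤ) ^ m ∣ E (some j) := by
    intro j
    have h11 := h9 j
    have hW0 : W.det ≠ 0 := fun h => h10 (h ▸ dvd_zero _)
    have hpp : Prime (p : ℤ) := Nat.prime_iff_prime_int.mp hp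
    obtain ⟨v, w, hw1, hw2⟩ := WfDvdMonoid.max_power_factor hW0 hpp.irreducible
    have hv : v ≤ N0 := by
      by_contra hcon
      apply h10
      rw [hw2]
      exact (pow_dvd_pow _ (by omega)).mul_right _
    have hcop : IsCoprime ((p : ℤ) ^ (m + N0 - v)) w :=
      IsCoprime.pow_left ((Prime.coprime_iff_not_dvd hpp).mpr hw1)
    have h12 : (p : ℤ) ^ (m + N0 - v) ∣ E (some j) := by
      have h13 : (p : ℤ) ^ v * (p : ℤ) ^ (m + N0 - v) ∣ (p : ℤ) ^ v * (E (some j) * w) := by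
        rw [← pow_add]
        have h14 : v + (m + N0 - v) = m + N0 := by omega
        rw [h14]
        refine h11.trans (Dvd.intro 1 ?_)
        rw [hw2]
        ring
      rw [mul_dvd_mul_iff_left (pow_ne_zero _ hpp.ne_zero)] at h13
      exact hcop.dvd_of_dvd_mul_right h13
    exact (pow_dvd_pow _ (by omega)).trans h12
  intro o
  rcases o with _ | j
  · rw [hE0]; exact dvd_zero _
  · exact hmain j

end Pool.Agent.Work.MP_59f3ad_nt

end

section

/-!
Some minor of approximate logarithms does not vanish.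
-/

open Polynomial

namespace Pool.Agent.Work.MP_59f3ad_nt

theorem det_mul_eq_zero {R m n : Type*} [CommRing R] [Fintype m] [DecidableEq m] [Fintype n]
    [DecidableEq n] (A : Matrix m n R) (B : Matrix n m R)
    (h : ∀ φ : m → n, (A.submatrix id φ).det = 0) : (A * B).det = 0 := by
  rw [← Matrix.det_transpose]
  have h1 : (A * B).transpose = fun j => ∑ i, B i j • A.transpose i := by
    ext j l
    rw [Matrix.transpose_apply, Matrix.mul_apply, Finset.sum_apply]
    refine Finset.sum_congr rfl fun i _ => ?_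
    rw [Pi.smul_apply, smul_eq_mul, Matrix.transpose_apply, mul_comm]
  rw [h1]
  have h2 := (Matrix.detRowAlternating (R := R) (n := m)).toMultilinearMap.map_sum
    (fun j i => B i j • A.transpose i)
  have h3 : ∀ φ : m → n, (Matrix.detRowAlternating (R := R) (n := m)).toMultilinearMap
      (fun j => B (φ j) j • A.transpose (φ j)) = 0 := by
    intro φ
    rw [MultilinearMap.map_smul_univ]
    have h4 : (Matrix.detRowAlternating (R := R) (n := m)).toMultilinearMap
      (fun j => A.transpose (φ j)) = (A.submatrix id φ).det := by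
      rw [← Matrix.det_transpose]
      rfl
    rw [h4, h φ, smul_zero]
  simp only [h3, Finset.sum_const_zero] at h2
  exact h2

section limit

variable (p : ℕ) [Fact p.Prime]

theorem exists_limit (c : ℕ → ℤ) (hc : ∀ N, (p : ℤ) ^ (N + 1) ∣ c (N + 1) - c N) :
    ∃ z : ℤ_[p], ∀ N, (p : ℤ_[p]) ^ (N + 1) ∣ z - c N := by
  have h1 : ∀ m n : ℕ, m ≤ n → (p : ℤ) ^ (m + 1) ∣ c n - c m := by
    intro m n hmn
    obtain ⟨k, rfl⟩ := Nat.exists_eq_add_of_le hmn
    clear hmn
    induction k with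
    | zero => simp
    | succ k ih =>
      have h2 : c (m + (k + 1)) - c m = (c (m + k + 1) - c (m + k)) + (c (m + k) - c m) := by
        rw [← add_assoc]; ring
      rw [h2]
      exact dvd_add ((pow_dvd_pow _ (by omega)).trans (hc _)) ih
  have h2 : ∀ {m n : ℕ}, m ≤ n → (c m : ℤ_[p]) ≡ (c n : ℤ_[p])
      [SMOD (IsLocalRing.maximalIdeal ℤ_[p] ^ m • ⊤ : Submodule ℤ_[p] ℤ_[p])] := by
    intro m n hmn
    rw [SModEq.sub_mem, smul_eq_mul, Ideal.mul_top, PadicInt.maximalIdeal_eq_span_p,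
      Ideal.span_singleton_pow, Ideal.mem_span_singleton, ← dvd_neg, neg_sub]
    have h3 := map_dvd (Int.castRingHom ℤ_[p]) ((pow_dvd_pow (p : ℤ) (Nat.le_succ m)).trans
      (h1 m n hmn))
    simpa using h3
  obtain ⟨z, hz⟩ := IsPrecomplete.prec (I := IsLocalRing.maximalIdeal ℤ_[p]) inferInstance h2
  refine ⟨z, fun N => ?_⟩
  have h3 := hz (N + 1)
  rw [SModEq.sub_mem, smul_eq_mul, Ideal.mul_top, PadicInt.maximalIdeal_eq_span_p,
    Ideal.span_singleton_pow, Ideal.mem_span_singleton, ← dvd_neg, neg_sub] at h3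
  have h4 := map_dvd (Int.castRingHom ℤ_[p]) (hc N)
  have h5 : z - c N = (z - c (N + 1)) + (Int.castRingHom ℤ_[p]) (c (N + 1) - c N) := by
    simp
  rw [h5]
  refine dvd_add h3 ?_
  simpa using h4

theorem eq_zero_of_pow_dvd (z : ℤ_[p]) (h : ∀ N, (p : ℤ_[p]) ^ (N + 1) ∣ z) : z = 0 := by
  by_contra hz
  have h1 : ∀ N : ℕ, ‖z‖ ≤ (p : ℝ) ^ (-(N + 1 : ℕ) : ℤ) := fun N => by
    rw [PadicInt.norm_le_pow_iff_mem_span_pow, Ideal.mem_span_singleton]
    exact h N
  have h2 : Filter.Tendsto (fun N : ℕ => ((p : ℝ)⁻¹) ^ (N + 1)) Filter.atTop (nhds 0) :=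
    (tendsto_pow_atTop_nhds_zero_of_lt_one (by positivity)
      (inv_lt_one_of_one_lt₀ (by exact_mod_cast (Fact.out : p.Prime).one_lt))).comp
      (Filter.tendsto_add_atTop_nat 1)
  have h3 : ‖z‖ ≤ 0 := by
    refine ge_of_tendsto' h2 fun N => ?_
    have h4 := h1 N
    rw [zpow_neg, zpow_natCast, ← inv_pow] at h4
    exact h4
  exact hz (norm_le_zero_iff.mp h3)

theorem exists_limit_series (f : ℕ → ℤ[X])
    (hf : ∀ N, Polynomial.C ((p : ℤ) ^ (N + 1)) ∣ f (N + 1) - f N) :
    ∃ g : PowerSeries ℤ_[p], ∀ N, PowerSeries.C ((p : ℤ_[p]) ^ (N + 1)) ∣ g - toPS ℤ_[p] (f N) := by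
  have h1 : ∀ k, ∃ z : ℤ_[p], ∀ N, (p : ℤ_[p]) ^ (N + 1) ∣ z - ((f N).coeff k : ℤ) := by
    intro k
    refine exists_limit p (fun N => (f N).coeff k) fun N => ?_
    have := (C_dvd_iff_dvd_coeff _ _).mp (hf N) k
    rwa [coeff_sub] at this
  choose z hz using h1
  refine ⟨PowerSeries.mk z, fun N => ?_⟩
  choose w hw using fun k => hz k N
  refine ⟨PowerSeries.mk w, ?_⟩
  ext k
  rw [map_sub, coeff_toPS, PowerSeries.coeff_C_mul, PowerSeries.coeff_mk, PowerSeries.coeff_mk]
  rw [hw k]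

theorem series_eq_zero (g : PowerSeries ℤ_[p])
    (hg : ∀ N, PowerSeries.C ((p : ℤ_[p]) ^ (N + 1)) ∣ g) : g = 0 := by
  ext k
  rw [map_zero]
  refine eq_zero_of_pow_dvd p _ fun N => ?_
  obtain ⟨w, hw⟩ := hg N
  rw [hw, PowerSeries.coeff_C_mul]
  exact dvd_mul_right _ _

end limit

theorem derivative_map {R S : Type*} [CommRing R] [CommRing S] (σ : R →+* S)
    (f : PowerSeries R) : PowerSeries.derivative S (PowerSeries.map σ f) =
      PowerSeries.map σ (PowerSeries.derivative R f) := by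
  ext k
  rw [PowerSeries.coeff_derivative, PowerSeries.coeff_map, PowerSeries.coeff_map,
    PowerSeries.coeff_derivative, map_mul, map_add, map_natCast, map_one]

variable {r1 r2 : ℕ}

/-- Some minor of approximate logarithms is nonzero. -/
theorem exists_minor (p : ℕ) [hp : Fact p.Prime] (a : Fin r1 → ℤ) (b : Fin r2 → ℤ)
    (hd : 1 ≤ r1 + 2 * r2) (Q1 : ℤ) (j0 : Fin r1 ⊕ Fin r2)
    (hC : ∀ e κ : ℂ, e ≠ 0 → κ ≠ 0 →
      ∃ ξ : Fin r1 ⊕ Fin r2 → PowerSeries ℂ,
        (∀ j, (genF a b (PowerSeries.C (Q1 : ℂ) + PowerSeries.C e * PowerSeries.X)).eval (ξ j)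
          = 0) ∧
        ∀ y : Fin r1 ⊕ Fin r2 → Fin r1 ⊕ Fin r2 → PowerSeries ℂ,
          (∀ l j, PowerSeries.C κ * PowerSeries.derivative ℂ
              ((genH a b (PowerSeries.C (Q1 : ℂ) + PowerSeries.C e * PowerSeries.X) l).eval (ξ j)) =
            (genH a b (PowerSeries.C (Q1 : ℂ) + PowerSeries.C e * PowerSeries.X) l).eval (ξ j) *
              PowerSeries.derivative ℂ (y l j)) →
          (Matrix.of fun l j : {j // j ≠ j0} => y l j).det ≠ 0)
    (M : ℕ) (hM : M ≠ 0) (V : Fin r1 ⊕ Fin r2 → ℕ → ℤ[X][X])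
    (hV1 : ∀ l N, (V l N).degree < (r1 + 2 * r2 : ℕ))
    (hV2 : ∀ l N, genF a b (C Q1 + C (p : ℤ) * X) ∣
      (genH a b (C Q1 + C (p : ℤ) * X) l) ^ (M * p ^ N) - 1 - C (C ((p : ℤ) ^ (N + 2))) * V l N)
    (hV3 : ∀ l N i, C ((p : ℤ) ^ (N + 1)) ∣ (V l (N + 1) - V l N).coeff i) :
    ∃ (φ : {j : Fin r1 ⊕ Fin r2 // j ≠ j0} → Fin (r1 + 2 * r2)) (N k : ℕ),
      ¬ (p : ℤ) ^ (N + 1) ∣ (minorD V j0 φ N).coeff k := by
  classical
  by_contra hcon
  push Not at hcon
  -- the limits
  have hm : ∀ l, ∀ i : Fin (r1 + 2 * r2), ∃ g : PowerSeries ℤ_[p], ∀ N,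
      PowerSeries.C ((p : ℤ_[p]) ^ (N + 1)) ∣ g - toPS ℤ_[p] ((V l N).coeff i) := by
    intro l i
    refine exists_limit_series p (fun N => (V l N).coeff i) fun N => ?_
    have := hV3 l N i
    rwa [coeff_sub] at this
  choose m hm using hm
  have hmin : ∀ φ : {j : Fin r1 ⊕ Fin r2 // j ≠ j0} → Fin (r1 + 2 * r2),
      (Matrix.of fun l j : {j : Fin r1 ⊕ Fin r2 // j ≠ j0} => m l (φ j)).det = 0 := by
    intro φ
    refine series_eq_zero p _ fun N => ?_
    have h1 : PowerSeries.C ((p : ℤ_[p]) ^ (N + 1)) ∣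
        (Matrix.of fun l j : {j : Fin r1 ⊕ Fin r2 // j ≠ j0} => m l (φ j)).det -
          toPS ℤ_[p] (minorD V j0 φ N) := by
      rw [← Ideal.mem_span_singleton, ← Ideal.Quotient.eq_zero_iff_mem, map_sub, sub_eq_zero,
        minorD, RingHom.map_det, RingHom.map_det, RingHom.map_det]
      congr 1
      ext l j
      rw [RingHom.mapMatrix_apply, RingHom.mapMatrix_apply, RingHom.mapMatrix_apply,
        Matrix.map_apply, Matrix.map_apply, Matrix.map_apply,
        Matrix.of_apply, Matrix.of_apply, Ideal.Quotient.eq, Ideal.mem_span_singleton]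
      exact hm _ _ _
    have h2 : PowerSeries.C ((p : ℤ_[p]) ^ (N + 1)) ∣ toPS ℤ_[p] (minorD V j0 φ N) := by
      have h3 : C ((p : ℤ) ^ (N + 1)) ∣ minorD V j0 φ N := (C_dvd_iff_dvd_coeff _ _).mpr
        (hcon φ N)
      have h4 := map_dvd (toPS ℤ_[p]) h3
      rw [toPS_C] at h4
      push_cast at h4
      exact h4
    have h3 := dvd_add h1 h2
    rwa [sub_add_cancel] at h3
  -- the transport
  obtain ⟨ι⟩ := nonempty_padicAlgCl_equiv_complex p
  have hp0 : (p : PadicAlgCl p) ≠ 0 := by exact_mod_cast hp.out.ne_zero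
  have hp1 : ‖(p : PadicAlgCl p)‖ < 1 := by
    have h1 : ((p : ℚ_[p]) : PadicAlgCl p) = (p : PadicAlgCl p) :=
      map_natCast (algebraMap ℚ_[p] (PadicAlgCl p)) p
    rw [← h1, PadicAlgCl.norm_extends]
    exact Padic.norm_p_lt_one
  obtain ⟨ξ, hξ, hy⟩ := hC p ((M : ℂ) / p ^ 2) (by exact_mod_cast hp.out.ne_zero) (by
    refine div_ne_zero (by exact_mod_cast hM) (pow_ne_zero _ (by exact_mod_cast hp.out.ne_zero)))
  let σ : ℤ_[p] →+* PadicAlgCl p :=
    (algebraMap ℚ_[p] (PadicAlgCl p)).comp (PadicInt.Coe.ringHom (p := p))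
  have hσ : ∀ r, ‖σ r‖ ≤ 1 := by
    intro r
    have h1 : σ r = ((r : ℚ_[p]) : PadicAlgCl p) := rfl
    rw [h1, PadicAlgCl.norm_extends]
    exact PadicInt.norm_le_one r
  let ιs : ℂ →+* PadicAlgCl p := (ι.symm : ℂ →+* PadicAlgCl p)
  let ιr : PadicAlgCl p →+* ℂ := (ι : PadicAlgCl p →+* ℂ)
  have hιι : ∀ f : PowerSeries ℂ, PowerSeries.map ιr (PowerSeries.map ιs f) = f := by
    intro f
    ext k
    rw [PowerSeries.coeff_map, PowerSeries.coeff_map]
    exact ι.apply_symm_apply _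
  set ξ' : Fin r1 ⊕ Fin r2 → PowerSeries (PadicAlgCl p) := fun j => PowerSeries.map ιs (ξ j)
    with hξ'
  have hq : PowerSeries.map ιs (PowerSeries.C (Q1 : ℂ) + PowerSeries.C (p : ℂ) * PowerSeries.X) =
      toPS (PadicAlgCl p) (C Q1 + C (p : ℤ) * X) := by
    rw [map_add, map_mul, map_add, map_mul, toPS_C, toPS_C, toPS_X, PowerSeries.map_C,
      PowerSeries.map_C, PowerSeries.map_X, map_intCast, map_natCast]
    push_cast
    rfl
  have hev : ∀ (P : ℤ[X][X]) (P' : (PowerSeries ℂ)[X]),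
      P.map (toPS (PadicAlgCl p)) = P'.map (PowerSeries.map ιs) → ∀ j,
      eval₂ (toPS (PadicAlgCl p)) (ξ' j) P = PowerSeries.map ιs (P'.eval (ξ j)) := by
    intro P P' h j
    rw [← eval_map, h, eval_map, hξ']
    exact eval₂_at_apply _ _
  have hroot : ∀ j, eval₂ (toPS (PadicAlgCl p)) (ξ' j) (genF a b (C Q1 + C (p : ℤ) * X)) = 0 := by
    intro j
    rw [hev _ _ (by rw [genF_map, genF_map, hq]) j, hξ, map_zero]
  have hH : ∀ l j, eval₂ (toPS (PadicAlgCl p)) (ξ' j) (genH a b (C Q1 + C (p : ℤ) * X) l) =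
      PowerSeries.map ιs ((genH a b (PowerSeries.C (Q1 : ℂ) +
        PowerSeries.C (p : ℂ) * PowerSeries.X) l).eval (ξ j)) := by
    intro l j
    exact hev _ _ (by rw [genH_map, genH_map, hq]) j
  set Y : Fin r1 ⊕ Fin r2 → Fin r1 ⊕ Fin r2 → PowerSeries (PadicAlgCl p) :=
    fun l j => ∑ i, PowerSeries.map σ (m l i) * ξ' j ^ (i : ℕ) with hY
  have hode : ∀ l j, PowerSeries.C (M : PadicAlgCl p) * PowerSeries.derivative _
      (eval₂ (toPS (PadicAlgCl p)) (ξ' j) (genH a b (C Q1 + C (p : ℤ) * X) l)) =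
      PowerSeries.C ((p : PadicAlgCl p) ^ 2) *
        eval₂ (toPS (PadicAlgCl p)) (ξ' j) (genH a b (C Q1 + C (p : ℤ) * X) l) *
        PowerSeries.derivative _ (Y l j) := by
    intro l j
    exact formal_ode σ hσ p hp0 hp1 _ _ M (V l) (r1 + 2 * r2) hd (hV1 l) (hV2 l) (m l)
      (fun N i => hm l i N) (ξ' j) (hroot j)
  refine hy (fun l j => PowerSeries.map ιr (Y l j)) ?_ ?_
  · intro l j
    have h1 := congrArg (PowerSeries.map ιr) (hode l j)
    have hcM : PowerSeries.map ιr (PowerSeries.C (M : PadicAlgCl p)) = PowerSeries.C (M : ℂ) := by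
      rw [PowerSeries.map_C, map_natCast ιr]
    have hcp : PowerSeries.map ιr (PowerSeries.C ((p : PadicAlgCl p) ^ 2)) =
        PowerSeries.C ((p : ℂ) ^ 2) := by
      rw [PowerSeries.map_C, map_pow, map_natCast ιr]
    rw [hH, map_mul, map_mul, map_mul, hιι, hcM, hcp, ← derivative_map, ← derivative_map,
      hιι] at h1
    rw [div_eq_inv_mul, map_mul, mul_assoc, h1, ← mul_assoc, ← mul_assoc, ← map_mul,
      inv_mul_cancel₀ (pow_ne_zero _ (by exact_mod_cast hp.out.ne_zero)), map_one, one_mul]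
  · have h1 : (Matrix.of fun l j : {j // j ≠ j0} => PowerSeries.map ιr (Y l j)).det =
        PowerSeries.map ιr (Matrix.of fun l j : {j // j ≠ j0} => Y l j).det := by
      rw [RingHom.map_det]
      rfl
    have h2 : (Matrix.of fun l j : {j // j ≠ j0} => Y l j) =
        (Matrix.of fun (l : {j // j ≠ j0}) (i : Fin (r1 + 2 * r2)) => PowerSeries.map σ (m l i)) *
        (Matrix.of fun (i : Fin (r1 + 2 * r2)) (j : {j // j ≠ j0}) => ξ' j ^ (i : ℕ)) := by
      ext l j
      rw [Matrix.mul_apply]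
      rfl
    have h3 : (Matrix.of fun l j : {j // j ≠ j0} => Y l j).det = 0 := by
      rw [h2]
      refine det_mul_eq_zero _ _ fun φ => ?_
      have h4 : ((Matrix.of fun (l : {j // j ≠ j0}) (i : Fin (r1 + 2 * r2)) =>
          PowerSeries.map σ (m l i)).submatrix id φ).det =
          PowerSeries.map σ (Matrix.of fun l j : {j : Fin r1 ⊕ Fin r2 // j ≠ j0} =>
            m l (φ j)).det := by
        rw [RingHom.map_det]
        rfl
      rw [h4, hmin φ, map_zero]
    rw [h1, h3, map_zero]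

end Pool.Agent.Work.MP_59f3ad_nt

end
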