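import Mathlib
import Pool.Agent.Work.MP_59f3ad_nt.Bd.B03
import Pool.Agent.Work.MP_59f3ad_nt.Bd.B02
import Pool.Agent.Work.MP_59f3ad_nt.GrowthMinor

/-! Bundle of small proof modules (one section per former module). -/

section

/-!
Approximate `p`-adic logarithms with an exponent prime to `p` and slowly growing coefficients.
-/

open Polynomial

namespace Pool.Agent.Work.MP_59f3ad_nt

/-- Integer polynomials whose `k`-th coefficient is divisible by `p ^ c k`. -/
def GamC (p : ℕ) (c : ℕ → ℕ) (h0 : c 0 = 0) (hc : ∀ i j, c (i + j) ≤ c i + c j) :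
    Subring ℤ[X] where
  carrier := {f | ∀ k, (p : ℤ) ^ c k ∣ f.coeff k}
  mul_mem' := by
    intro f g hf hg k
    rw [coeff_mul]
    refine Finset.dvd_sum fun ij hij => ?_
    rw [Finset.HasAntidiagonal.mem_antidiagonal] at hij
    have h1 : (p : ℤ) ^ c k ∣ (p : ℤ) ^ (c ij.1 + c ij.2) := by
      apply pow_dvd_pow
      rw [← hij]
      exact hc _ _
    refine h1.trans ?_
    rw [pow_add]
    exact mul_dvd_mul (hf _) (hg _)
  one_mem' := by
    intro k
    rcases Nat.eq_zero_or_pos k with hk | hk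
    · rw [hk, h0, pow_zero]
      exact one_dvd _
    · rw [coeff_one, if_neg (by omega)]
      exact dvd_zero _
  add_mem' := by
    intro f g hf hg k
    rw [coeff_add]
    exact dvd_add (hf k) (hg k)
  zero_mem' := by
    intro k
    rw [coeff_zero]
    exact dvd_zero _
  neg_mem' := by
    intro f hf k
    rw [coeff_neg]
    exact (hf k).neg_right

theorem mem_GamC {p : ℕ} {c : ℕ → ℕ} {h0 : c 0 = 0} {hc : ∀ i j, c (i + j) ≤ c i + c j}
    {f : ℤ[X]} : f ∈ GamC p c h0 hc ↔ ∀ k, (p : ℤ) ^ c k ∣ f.coeff k := Iff.rfl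

/-- The polynomials with slowly growing divisibility. -/
def Gam (p : ℕ) : Subring ℤ[X] := GamC p (fun k => (k + 1) / 2) (by norm_num)
  (by intro i j; omega)

theorem mem_Gam {p : ℕ} {f : ℤ[X]} :
    f ∈ Gam p ↔ ∀ k, (p : ℤ) ^ ((k + 1) / 2) ∣ f.coeff k := Iff.rfl

theorem subT_coeff (p : ℕ) (Q1 : ℤ) (a : ℤ[X]) : ∀ k, (p : ℤ) ^ k ∣ (subT p Q1 a).coeff k := by
  have key : ∀ a : ℤ[X], subT p Q1 a ∈ GamC p id rfl (by intro i j; exact le_refl _) := by
    intro a
    have hC : ∀ c : ℤ, (C c : ℤ[X]) ∈ GamC p id rfl (by intro i j; exact le_refl _) := by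
      intro c k
      rcases Nat.eq_zero_or_pos k with hk | hk
      · rw [hk]
        simp
      · rw [coeff_C, if_neg (by omega)]
        exact dvd_zero _
    have hX : (C Q1 + C (p : ℤ) * X : ℤ[X]) ∈
        GamC p id rfl (by intro i j; exact le_refl _) := by
      refine Subring.add_mem _ (hC _) ?_
      intro k
      rw [coeff_C_mul, coeff_X]
      split_ifs with h
      · rw [← h]
        simp
      · simp
    induction a using Polynomial.induction_on with
    | C c =>
      have h1 : subT p Q1 (C c) = C c := by simp [subT]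
      rw [h1]
      exact hC c
    | add f g hf hg => rw [map_add]; exact Subring.add_mem _ hf hg
    | monomial n c h =>
      have h1 : subT p Q1 (C c * X ^ (n + 1)) =
          subT p Q1 (C c * X ^ n) * (C Q1 + C (p : ℤ) * X) := by
        simp [subT, pow_succ, mul_assoc]
      rw [h1]
      exact Subring.mul_mem _ h hX
  exact key a

theorem subT_mem (p : ℕ) (Q1 : ℤ) (a : ℤ[X]) : subT p Q1 a ∈ Gam p := by
  intro k
  refine (pow_dvd_pow _ ?_).trans (subT_coeff p Q1 a k)
  dsimp only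
  omega

/-- The substitution with values in `Gam p`. -/
noncomputable def subG (p : ℕ) (Q1 : ℤ) : ℤ[X] →+* Gam p :=
  (subT p Q1).codRestrict (Gam p) (subT_mem p Q1)

theorem subG_coe (p : ℕ) (Q1 : ℤ) : (Gam p).subtype.comp (subG p Q1) = subT p Q1 := rfl

/-- The even coefficients are divisible by one more power. -/
def Nil (p : ℕ) (f : ℤ[X]) : Prop := ∀ j, (p : ℤ) ^ (j + 1) ∣ f.coeff (2 * j)

theorem subT_nil (p : ℕ) (Q1 : ℤ) (a : ℤ[X]) (ha : (p : ℤ) ∣ a.eval Q1) :
    Nil p (subT p Q1 a) := by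
  intro j
  rcases Nat.eq_zero_or_pos j with hj | hj
  · subst hj
    have h1 := congrArg (fun f : ℤ[X] →+* ℤ => f a) (eval_subT p Q1 0)
    simp only [RingHom.comp_apply, coe_evalRingHom] at h1
    rw [mul_zero, add_zero] at h1
    rw [mul_zero, zero_add, pow_one, coeff_zero_eq_eval_zero, h1]
    exact ha
  · exact (pow_dvd_pow _ (by omega)).trans (subT_coeff p Q1 a (2 * j))

theorem nil_mul (p : ℕ) (f g : ℤ[X]) (hf : f ∈ Gam p) (hg : g ∈ Gam p) (hf' : Nil p f)
    (hg' : Nil p g) (k : ℕ) : (p : ℤ) ^ ((k + 1) / 2 + 1) ∣ (f * g).coeff k := by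
  rw [coeff_mul]
  refine Finset.dvd_sum fun ij hij => ?_
  obtain ⟨i, j⟩ := ij
  rw [Finset.HasAntidiagonal.mem_antidiagonal] at hij
  simp only at hij ⊢
  rw [mem_Gam] at hf hg
  rcases Nat.even_or_odd' i with ⟨a, ha | ha⟩ <;> rcases Nat.even_or_odd' j with ⟨b, hb | hb⟩
  · have h1 := mul_dvd_mul (hf' a) (hg' b)
    rw [← ha, ← hb, ← pow_add] at h1
    exact (pow_dvd_pow _ (by omega)).trans h1
  · have h1 := mul_dvd_mul (hf' a) (hg j)
    rw [← ha, ← pow_add] at h1
    exact (pow_dvd_pow _ (by omega)).trans h1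
  · have h1 := mul_dvd_mul (hf i) (hg' b)
    rw [← hb, ← pow_add] at h1
    exact (pow_dvd_pow _ (by omega)).trans h1
  · have h1 := mul_dvd_mul (hf i) (hg j)
    rw [← pow_add] at h1
    exact (pow_dvd_pow _ (by omega)).trans h1

/-- A nilpotent element of a `d`-dimensional commutative algebra has `x ^ d = 0`. -/
theorem pow_finrank_eq_zero_of_nilp {K A : Type*} [Field K] [CommRing A] [Algebra K A]
    [Module.Finite K A] (x : A) (m : ℕ) (hx : x ^ m = 0) : x ^ (Module.finrank K A) = 0 := by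
  have h1 : minpoly K x ∣ X ^ m := minpoly.dvd K x (by simp [hx])
  obtain ⟨j, hj, hj'⟩ := (dvd_prime_pow (prime_X (R := K)) m).1 h1
  have h2 : minpoly K x = X ^ j :=
    eq_of_monic_of_associated (minpoly.monic (IsIntegral.of_finite K x)) (monic_X_pow j) hj'
  have h3 : j ≤ Module.finrank K A := by
    have := minpoly.natDegree_le (A := K) x
    rwa [h2, natDegree_X_pow] at this
  have h4 : x ^ j = 0 := by
    have := minpoly.aeval K x
    rw [h2] at this
    simpa using this
  obtain ⟨e, he⟩ := Nat.exists_eq_add_of_le h3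
  rw [he, pow_add, h4, zero_mul]

/-- In the finite ring `F_p[X]/(f)` an exponent prime to `p` makes every unit unipotent. -/
theorem exists_pow_sub_one_unif {n : ℕ} (p : ℕ) (hp : p.Prime) (F : ℤ[X][X]) (hF : F.Monic)
    (H G : Fin n → ℤ[X][X]) (hHG : ∀ l, F ∣ H l * G l - 1) (Q1 : ℤ) :
    ∃ M : ℕ, ¬ p ∣ M ∧ ∀ l, ∃ g : ℤ[X][X], ∀ i,
      (p : ℤ) ∣ ((((H l) ^ M - 1) ^ F.natDegree - F * g).coeff i).eval Q1 := by
  have : Fact p.Prime := ⟨hp⟩
  set χ : ℤ[X] →+* ZMod p := (Int.castRingHom (ZMod p)).comp (evalRingHom Q1) with hχ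
  set f : (ZMod p)[X] := F.map χ with hf
  have hfm : f.Monic := hF.map _
  have hfin1 : Module.Finite (ZMod p) (AdjoinRoot f) := hfm.finite_adjoinRoot
  have hfin : Finite (AdjoinRoot f) := Module.finite_of_finite (ZMod p)
  have hdim : Module.finrank (ZMod p) (AdjoinRoot f) = F.natDegree := by
    have h1 : Module.finrank (ZMod p) (AdjoinRoot f) = f.natDegree :=
      finrank_quotient_span_eq_natDegree' hfm
    rw [h1, hf, hF.natDegree_map]
  set c := Nat.card (AdjoinRoot f)ˣ with hc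
  have hc0 : c ≠ 0 := Nat.card_pos.ne'
  refine ⟨c / p ^ c.factorization p, Nat.not_dvd_ordCompl hp hc0, fun l => ?_⟩
  set M := c / p ^ c.factorization p with hM
  have hcM : M * p ^ c.factorization p = c := by
    rw [mul_comm]
    exact Nat.ordProj_mul_ordCompl_eq_self c p
  set a := c.factorization p with ha
  have hu : IsUnit (AdjoinRoot.mk f ((H l).map χ)) := by
    refine IsUnit.of_mul_eq_one (AdjoinRoot.mk f ((G l).map χ)) ?_
    have h1 := Polynomial.map_dvd χ (hHG l)
    rw [Polynomial.map_sub, Polynomial.map_one, Polynomial.map_mul, ← AdjoinRoot.mk_eq_zero,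
      map_sub, map_one, map_mul, sub_eq_zero] at h1
    exact h1
  have h2 : (AdjoinRoot.mk f ((H l).map χ)) ^ c = 1 := by
    have h2 : hu.unit ^ c = 1 := pow_card_eq_one'
    have h3 := congrArg Units.val h2
    exact h3
  have hnil : (AdjoinRoot.mk f ((H l).map χ) ^ M - 1) ^ (p ^ a) = 0 := by
    rcases subsingleton_or_nontrivial (AdjoinRoot f) with h | h
    · exact Subsingleton.elim _ _
    · have : CharP (AdjoinRoot f) p :=
        charP_of_injective_algebraMap (algebraMap (ZMod p) (AdjoinRoot f)).injective p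
      rw [sub_pow_char_pow, one_pow, ← pow_mul, hcM, h2, sub_self]
  have h4 := pow_finrank_eq_zero_of_nilp (K := ZMod p) _ _ hnil
  rw [hdim] at h4
  have h5 : AdjoinRoot.mk f (((H l).map χ ^ M - 1) ^ F.natDegree) = 0 := by
    rw [map_pow, map_sub, map_pow, map_one]
    exact h4
  rw [AdjoinRoot.mk_eq_zero] at h5
  obtain ⟨g, hg⟩ := h5
  obtain ⟨G', hG'⟩ := Polynomial.map_surjective (Int.castRingHom (ZMod p))
    (ZMod.intCast_surjective) g
  refine ⟨G'.map C, fun i => ?_⟩
  have h6 : ((((H l) ^ M - 1) ^ F.natDegree - F * G'.map C).map χ) = 0 := by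
    have hcomp : χ.comp C = Int.castRingHom (ZMod p) := RingHom.ext_int _ _
    rw [Polynomial.map_sub, Polynomial.map_mul, Polynomial.map_pow, Polynomial.map_sub,
      Polynomial.map_pow, Polynomial.map_one, Polynomial.map_map, hcomp, hG', ← hf, hg, sub_self]
  have h7 := congrArg (fun P => Polynomial.coeff P i) h6
  simp only [coeff_map, coeff_zero] at h7
  rw [hχ] at h7
  simp only [RingHom.comp_apply, coe_evalRingHom, eq_intCast] at h7
  exact (ZMod.intCast_zmod_eq_zero_iff_dvd _ _).1 h7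

/-- Binomial congruence for odd primes. -/
theorem one_add_pow_prime_cong {A : Type*} [CommRing A] (p : ℕ) (hp : p.Prime) (hp3 : 3 ≤ p)
    (N : ℕ) (y : A) :
    (p : A) ^ (2 * N + 3) ∣ ((p : A) ^ (N + 1) * y + 1) ^ p - 1 - (p : A) ^ (N + 2) * y := by
  set z : A := (p : A) ^ (N + 1) * y with hz
  obtain ⟨q, hq⟩ := Nat.exists_eq_add_of_le (show 2 ≤ p by omega)
  have h1 : (z + 1) ^ p = ∑ m ∈ Finset.range (q + 1 + 1 + 1), z ^ m * 1 ^ (p - m) * p.choose m := by
    rw [add_pow]
    congr 2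
    omega
  rw [Finset.sum_range_succ', Finset.sum_range_succ'] at h1
  have h2 : (z + 1) ^ p - 1 - (p : A) ^ (N + 2) * y =
      ∑ m ∈ Finset.range (q + 1), z ^ (m + 1 + 1) * 1 ^ (p - (m + 1 + 1)) *
        (p.choose (m + 1 + 1) : A) := by
    rw [h1]
    simp only [zero_add, pow_one, one_pow, mul_one, pow_zero, Nat.choose_one_right,
      Nat.choose_zero_right, Nat.cast_one]
    rw [hz]
    ring
  rw [h2]
  refine Finset.dvd_sum fun m hm => ?_
  rw [Finset.mem_range] at hm
  rw [one_pow, mul_one, hz, mul_pow, ← pow_mul]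
  rcases Nat.lt_or_ge (m + 2) p with h | h
  · obtain ⟨e, he⟩ := hp.dvd_choose_self (show m + 1 + 1 ≠ 0 by omega) h
    rw [he, Nat.cast_mul]
    have h3 : (p : A) ^ (2 * N + 3) ∣ (p : A) ^ ((N + 1) * (m + 1 + 1)) * (p : A) := by
      rw [← pow_succ]
      apply pow_dvd_pow
      nlinarith [Nat.zero_le (N * m)]
    refine h3.trans ⟨y ^ (m + 1 + 1) * e, by ring⟩
  · have h3 : (p : A) ^ (2 * N + 3) ∣ (p : A) ^ ((N + 1) * (m + 1 + 1)) := by
      apply pow_dvd_pow
      have : 1 ≤ m := by omega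
      nlinarith [Nat.zero_le (N * m)]
    exact (h3.trans (dvd_mul_right _ _)).trans (dvd_mul_right _ _)

theorem exists_V_unif {n : ℕ} (p : ℕ) (hp : p.Prime) (F : ℤ[X][X]) (hF : F.Monic)
    (hd : 1 ≤ F.natDegree) (hdp : 2 * F.natDegree < p) (H G : Fin n → ℤ[X][X])
    (hHG : ∀ l, F ∣ H l * G l - 1) (Q1 : ℤ) :
    ∃ M : ℕ, ¬ p ∣ M ∧ ∃ V : Fin n → ℕ → ℤ[X][X],
      (∀ l N, (V l N).degree < F.natDegree) ∧
      (∀ l N, F.map (subT p Q1) ∣ ((H l).map (subT p Q1)) ^ (M * p ^ (N + 1))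
        - 1 - C (C ((p : ℤ) ^ (N + 1))) * V l N) ∧
      (∀ l N i, C ((p : ℤ) ^ (N + 1)) ∣ (V l (N + 1) - V l N).coeff i) ∧
      (∀ l N i k, (p : ℤ) ^ ((k + 1) / 2) ∣ ((V l N).coeff i).coeff k) := by
  obtain ⟨M, hM, hG⟩ := exists_pow_sub_one_unif p hp F hF H G hHG Q1
  set F' : (Gam p)[X] := F.map (subG p Q1) with hF'
  have hFm : F'.Monic := hF.map _
  have hF'' : F'.map (Gam p).subtype = F.map (subT p Q1) := by
    rw [hF', Polynomial.map_map, subG_coe]
  let π : (Gam p)[X] →+* AdjoinRoot F' := AdjoinRoot.mk F'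
  have hπ : ∀ P, F' ∣ P → π P = 0 := fun P hP => AdjoinRoot.mk_eq_zero.2 hP
  set u : Fin n → AdjoinRoot F' := fun l => π ((H l).map (subG p Q1)) with hu
  -- the square of the nilpotent part is divisible by `p`
  have hsq : ∀ l, (p : AdjoinRoot F') ∣ (u l ^ M - 1) ^ (2 * F.natDegree) := by
    intro l
    obtain ⟨g, hg⟩ := hG l
    set R : ℤ[X][X] := ((H l) ^ M - 1) ^ F.natDegree - F * g with hR
    have h1 : (u l ^ M - 1) ^ F.natDegree = π (R.map (subG p Q1)) := by
      rw [hR, Polynomial.map_sub, Polynomial.map_mul, Polynomial.map_pow, Polynomial.map_sub,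
        Polynomial.map_pow, Polynomial.map_one, map_sub, map_pow, map_sub, map_pow, map_one,
        hπ (Polynomial.map (subG p Q1) F * _) (dvd_mul_right _ _), sub_zero]
    have h2 : (u l ^ M - 1) ^ (2 * F.natDegree) = π ((R.map (subG p Q1)) ^ 2) := by
      rw [mul_comm, pow_mul, h1, map_pow]
    have h3 : (C (p : Gam p) : (Gam p)[X]) ∣ (R.map (subG p Q1)) ^ 2 := by
      rw [Polynomial.C_dvd_iff_dvd_coeff]
      intro i
      rw [sq, coeff_mul]
      refine Finset.dvd_sum fun ab hab => ?_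
      rw [coeff_map, coeff_map]
      have h4 := nil_mul p (subT p Q1 (R.coeff ab.1)) (subT p Q1 (R.coeff ab.2))
        (subT_mem _ _ _) (subT_mem _ _ _) (subT_nil _ _ _ (hg _)) (subT_nil _ _ _ (hg _))
      have h5 : (C (p : ℤ) : ℤ[X]) ∣ subT p Q1 (R.coeff ab.1) * subT p Q1 (R.coeff ab.2) := by
        rw [Polynomial.C_dvd_iff_dvd_coeff]
        intro k
        refine Dvd.dvd.trans ?_ (h4 k)
        exact dvd_pow_self _ (by omega)
      obtain ⟨w, hw⟩ := h5
      have hw' : w ∈ Gam p := by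
        intro k
        have h6 := h4 k
        rw [hw, coeff_C_mul, pow_succ'] at h6
        exact Int.dvd_of_mul_dvd_mul_left (by exact_mod_cast hp.ne_zero) h6
      refine ⟨⟨w, hw'⟩, ?_⟩
      apply Subtype.ext
      show subT p Q1 (R.coeff ab.1) * subT p Q1 (R.coeff ab.2) = _
      rw [hw]
      simp
    rw [h2]
    have h7 := map_dvd π h3
    have h8 : π (C (p : Gam p)) = (p : AdjoinRoot F') := by
      simp [π]
    rwa [h8] at h7
  have hdvd : ∀ l, (p : AdjoinRoot F') ∣ u l ^ (M * p) - 1 := by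
    intro l
    obtain ⟨r, hr⟩ := exists_add_pow_prime_eq hp (u l ^ M - 1) (1 : AdjoinRoot F')
    rw [sub_add_cancel, one_pow, mul_one, ← pow_mul] at hr
    rw [hr]
    have h1 : (p : AdjoinRoot F') ∣ (u l ^ M - 1) ^ p := by
      exact (hsq l).trans (pow_dvd_pow _ hdp.le)
    have h2 : (u l ^ M - 1) ^ p + 1 + (p : AdjoinRoot F') * (u l ^ M - 1) * r - 1 =
        (u l ^ M - 1) ^ p + (p : AdjoinRoot F') * ((u l ^ M - 1) * r) := by ring
    rw [h2]
    exact dvd_add h1 (dvd_mul_right _ _)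
  have hdvd2 : ∀ l N, (p : AdjoinRoot F') ^ (N + 1) ∣ u l ^ (M * p ^ (N + 1)) - 1 := by
    intro l N
    have h1 := dvd_sub_pow_of_dvd_sub (hdvd l) N
    rw [one_pow, ← pow_mul] at h1
    have h2 : M * p * p ^ N = M * p ^ (N + 1) := by rw [pow_succ]; ring
    rw [h2] at h1
    exact h1
  choose y hy using hdvd2
  let red : AdjoinRoot F' →ₗ[Gam p] (Gam p)[X] := AdjoinRoot.modByMonicHom hFm
  have hred : ∀ z, π (red z) = z := fun z => AdjoinRoot.mk_leftInverse hFm z
  have hredinj : Function.Injective red := Function.LeftInverse.injective hred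
  have htf : ∀ (n : ℕ) (z w : AdjoinRoot F'), (p : AdjoinRoot F') ^ n * z =
      (p : AdjoinRoot F') ^ n * w → z = w := by
    intro n z w h
    apply hredinj
    have h1 : ∀ z : AdjoinRoot F', (p : AdjoinRoot F') ^ n * z = ((p : Gam p) ^ n) • z := by
      intro z
      rw [Algebra.smul_def, map_pow]
      simp
    rw [h1, h1] at h
    have h2 := congrArg red h
    rw [map_smul, map_smul] at h2
    refine smul_right_injective _ ?_ h2
    apply pow_ne_zero
    intro h3
    have h4 := congrArg (Gam p).subtype h3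
    rw [map_natCast, map_zero] at h4
    have h5 : (p : ℤ[X]) ≠ 0 := by exact_mod_cast hp.ne_zero
    exact h5 h4
  have hcong : ∀ l N, ∃ z, y l (N + 1) - y l N = (p : AdjoinRoot F') ^ (N + 1) * z := by
    intro l N
    obtain ⟨z, hz⟩ := one_add_pow_prime_cong p hp (by omega) N (y l N)
    refine ⟨z, htf (N + 2) _ _ ?_⟩
    have h1 : u l ^ (M * p ^ (N + 1 + 1)) = ((p : AdjoinRoot F') ^ (N + 1) * y l N + 1) ^ p := by
      rw [← hy l N, pow_succ, ← mul_assoc, pow_mul, sub_add_cancel]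
    have h2 := hy l (N + 1)
    rw [h1] at h2
    have h3 : (p : AdjoinRoot F') ^ (N + 2) * (y l (N + 1) - y l N) =
        (p : AdjoinRoot F') ^ (N + 1 + 1) * y l (N + 1) -
          (p : AdjoinRoot F') ^ (N + 2) * y l N := by
      ring
    rw [h3, ← h2, hz]
    ring
  have hcast : ∀ (k : ℕ), (Gam p).subtype ((p : Gam p) ^ k) = C ((p : ℤ) ^ k) := by
    intro k
    rw [map_pow, map_natCast]
    simp
  refine ⟨M, hM, fun l N => (red (y l N)).map (Gam p).subtype, fun l N => ?_,
    fun l N => ?_, fun l N i => ?_, fun l N i k => ?_⟩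
  · have h1 : red (y l N) = red (y l N) %ₘ F' := by
      have h2 := AdjoinRoot.modByMonicHom_mk hFm (red (y l N))
      rw [← h2]
      exact congrArg red (hred (y l N)).symm
    have h3 : F'.degree = F.natDegree := by
      rw [degree_eq_natDegree hFm.ne_zero, hF', hF.natDegree_map]
    refine lt_of_le_of_lt degree_map_le ?_
    rw [← h3, h1]
    exact degree_modByMonic_lt _ hFm
  · have h1 : π (((H l).map (subG p Q1)) ^ (M * p ^ (N + 1)) - 1 -
        C ((p : Gam p) ^ (N + 1)) * red (y l N)) = 0 := by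
      rw [map_sub, map_sub, map_mul, map_pow, map_one, hred]
      have h2 := hy l N
      rw [hu] at h2
      simp only at h2
      rw [h2]
      simp [π]
    have h2 := Polynomial.map_dvd (Gam p).subtype (AdjoinRoot.mk_eq_zero.mp h1)
    rw [hF'', Polynomial.map_sub, Polynomial.map_sub, Polynomial.map_mul, Polynomial.map_pow,
      Polynomial.map_one, Polynomial.map_map, subG_coe, Polynomial.map_C, hcast] at h2
    exact h2
  · obtain ⟨z, hz⟩ := hcong l N
    have h1 : (p : AdjoinRoot F') ^ (N + 1) * z = ((p : Gam p) ^ (N + 1)) • z := by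
      rw [Algebra.smul_def, map_pow]
      simp
    rw [← Polynomial.map_sub, ← map_sub, hz, h1, map_smul, coeff_map, coeff_smul, smul_eq_mul,
      map_mul, hcast]
    exact dvd_mul_right _ _
  · rw [coeff_map]
    exact ((red (y l N)).coeff i).2 k

end Pool.Agent.Work.MP_59f3ad_nt

end

section

/-!
Some minor of approximate logarithms does not vanish, for a general family.
-/

open Polynomial NumberField

namespace Pool.Agent.Work.MP_59f3ad_nt

universe u

variable {n : ℕ}

/-- The complex-analytic input at the parameter `Q1`: there are power series roots of the family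
(in the variable `T`, the parameter being `Q1 + p T`) for which every determinant of logarithms of
the units is nonzero. -/
def LogDet (p : ℕ) (F : ℤ[X][X]) (H : Fin n → ℤ[X][X]) (Q1 : ℤ) : Prop :=
  ∀ κ : ℂ, κ ≠ 0 → ∃ ξ : Fin n → PowerSeries ℂ,
    (∀ j, eval₂ (toPS ℂ) (ξ j) (F.map (subT p Q1)) = 0) ∧
    ∀ y : Fin n → Fin n → PowerSeries ℂ,
      (∀ l j, PowerSeries.C κ * PowerSeries.derivative ℂ
          (eval₂ (toPS ℂ) (ξ j) ((H l).map (subT p Q1))) =
        eval₂ (toPS ℂ) (ξ j) ((H l).map (subT p Q1)) * PowerSeries.derivative ℂ (y l j)) →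
      (Matrix.of y).det ≠ 0

/-- Some minor of approximate logarithms is nonzero. -/
theorem exists_minor_gen (p : ℕ) [hp : Fact p.Prime] (F : ℤ[X][X]) (hd : 1 ≤ F.natDegree)
    (H : Fin n → ℤ[X][X]) (Q1 : ℤ) (hC : LogDet p F H Q1)
    (M : ℕ) (hM : M ≠ 0) (V : Fin n → ℕ → ℤ[X][X])
    (hV1 : ∀ l N, (V l N).degree < F.natDegree)
    (hV2 : ∀ l N, F.map (subT p Q1) ∣ ((H l).map (subT p Q1)) ^ (M * p ^ N)
        - 1 - C (C ((p : ℤ) ^ (N + 2))) * V l N)
    (hV3 : ∀ l N i, C ((p : ℤ) ^ (N + 1)) ∣ (V l (N + 1) - V l N).coeff i) :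
    ∃ (φ : Fin n → Fin F.natDegree) (N k : ℕ), ¬ (p : ℤ) ^ (N + 1) ∣ (minorG V φ N).coeff k := by
  classical
  by_contra hcon
  push Not at hcon
  -- the limits
  have hm : ∀ l, ∀ i : Fin F.natDegree, ∃ g : PowerSeries ℤ_[p], ∀ N,
      PowerSeries.C ((p : ℤ_[p]) ^ (N + 1)) ∣ g - toPS ℤ_[p] ((V l N).coeff i) := by
    intro l i
    refine exists_limit_series p (fun N => (V l N).coeff i) fun N => ?_
    have := hV3 l N i
    rwa [coeff_sub] at this
  choose m hm using hm
  have hmin : ∀ φ : Fin n → Fin F.natDegree,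
      (Matrix.of fun l j : Fin n => m l (φ j)).det = 0 := by
    intro φ
    refine series_eq_zero p _ fun N => ?_
    have h1 : PowerSeries.C ((p : ℤ_[p]) ^ (N + 1)) ∣
        (Matrix.of fun l j : Fin n => m l (φ j)).det - toPS ℤ_[p] (minorG V φ N) := by
      rw [← Ideal.mem_span_singleton, ← Ideal.Quotient.eq_zero_iff_mem, map_sub, sub_eq_zero,
        minorG, RingHom.map_det, RingHom.map_det, RingHom.map_det]
      congr 1
      ext l j
      rw [RingHom.mapMatrix_apply, RingHom.mapMatrix_apply, RingHom.mapMatrix_apply,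
        Matrix.map_apply, Matrix.map_apply, Matrix.map_apply,
        Matrix.of_apply, Matrix.of_apply, Ideal.Quotient.eq, Ideal.mem_span_singleton]
      exact hm _ _ _
    have h2 : PowerSeries.C ((p : ℤ_[p]) ^ (N + 1)) ∣ toPS ℤ_[p] (minorG V φ N) := by
      have h3 : C ((p : ℤ) ^ (N + 1)) ∣ minorG V φ N := (C_dvd_iff_dvd_coeff _ _).mpr
        (hcon φ N)
      have h4 := map_dvd (toPS ℤ_[p]) h3
      rw [toPS_C] at h4
      push_cast at h4
      exact h4
    have h3 := dvd_add h1 h2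
    rwa [sub_add_cancel] at h3
  -- the transport
  obtain ⟨ι⟩ := nonempty_padicAlgCl_equiv_complex p
  have hp0 : (p : PadicAlgCl p) ≠ 0 := by exact_mod_cast hp.out.ne_zero
  have hp1 : ‖(p : PadicAlgCl p)‖ < 1 := by
    have h1 : ((p : ℚ_[p]) : PadicAlgCl p) = (p : PadicAlgCl p) :=
      map_natCast (algebraMap ℚ_[p] (PadicAlgCl p)) p
    rw [← h1, PadicAlgCl.norm_extends]
    exact Padic.norm_p_lt_one
  obtain ⟨ξ, hξ, hy⟩ := hC ((M : ℂ) / p ^ 2) (by
    refine div_ne_zero (by exact_mod_cast hM) (pow_ne_zero _ (by exact_mod_cast hp.out.ne_zero)))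
  let σ : ℤ_[p] →+* PadicAlgCl p :=
    (algebraMap ℚ_[p] (PadicAlgCl p)).comp (PadicInt.Coe.ringHom (p := p))
  have hσ : ∀ r, ‖σ r‖ ≤ 1 := by
    intro r
    have h1 : σ r = ((r : ℚ_[p]) : PadicAlgCl p) := rfl
    rw [h1, PadicAlgCl.norm_extends]
    exact PadicInt.norm_le_one r
  let ιs : ℂ →+* PadicAlgCl p := (ι.symm : ℂ →+* PadicAlgCl p)
  let ιr : PadicAlgCl p →+* ℂ := (ι : PadicAlgCl p →+* ℂ)
  have hιι : ∀ f : PowerSeries ℂ, PowerSeries.map ιr (PowerSeries.map ιs f) = f := by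
    intro f
    ext k
    rw [PowerSeries.coeff_map, PowerSeries.coeff_map]
    exact ι.apply_symm_apply _
  set ξ' : Fin n → PowerSeries (PadicAlgCl p) := fun j => PowerSeries.map ιs (ξ j)
    with hξ'
  have hev : ∀ (P : ℤ[X][X]), ∀ j,
      eval₂ (toPS (PadicAlgCl p)) (ξ' j) P = PowerSeries.map ιs (eval₂ (toPS ℂ) (ξ j) P) := by
    intro P j
    have h1 : (PowerSeries.map ιs).comp (toPS ℂ) = toPS (PadicAlgCl p) :=
      RingHom.ext fun f => map_toPS ιs f
    rw [Polynomial.hom_eval₂, h1]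
  have hroot : ∀ j, eval₂ (toPS (PadicAlgCl p)) (ξ' j) (F.map (subT p Q1)) = 0 := by
    intro j
    rw [hev, hξ, map_zero]
  set Y : Fin n → Fin n → PowerSeries (PadicAlgCl p) :=
    fun l j => ∑ i, PowerSeries.map σ (m l i) * ξ' j ^ (i : ℕ) with hY
  have hode : ∀ l j, PowerSeries.C (M : PadicAlgCl p) * PowerSeries.derivative _
      (eval₂ (toPS (PadicAlgCl p)) (ξ' j) ((H l).map (subT p Q1))) =
      PowerSeries.C ((p : PadicAlgCl p) ^ 2) *
        eval₂ (toPS (PadicAlgCl p)) (ξ' j) ((H l).map (subT p Q1)) *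
        PowerSeries.derivative _ (Y l j) := by
    intro l j
    exact formal_ode σ hσ p hp0 hp1 _ _ M (V l) F.natDegree hd (hV1 l) (hV2 l) (m l)
      (fun N i => hm l i N) (ξ' j) (hroot j)
  refine hy (fun l j => PowerSeries.map ιr (Y l j)) ?_ ?_
  · intro l j
    have h1 := congrArg (PowerSeries.map ιr) (hode l j)
    have hcM : PowerSeries.map ιr (PowerSeries.C (M : PadicAlgCl p)) = PowerSeries.C (M : ℂ) := by
      rw [PowerSeries.map_C, map_natCast ιr]
    have hcp : PowerSeries.map ιr (PowerSeries.C ((p : PadicAlgCl p) ^ 2)) =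
        PowerSeries.C ((p : ℂ) ^ 2) := by
      rw [PowerSeries.map_C, map_pow, map_natCast ιr]
    rw [hev, map_mul, map_mul, map_mul, hιι, hcM, hcp, ← derivative_map, ← derivative_map,
      hιι] at h1
    rw [div_eq_inv_mul, map_mul, mul_assoc, h1, ← mul_assoc, ← mul_assoc, ← map_mul,
      inv_mul_cancel₀ (pow_ne_zero _ (by exact_mod_cast hp.out.ne_zero)), map_one, one_mul]
  · have h1 : (Matrix.of fun l j : Fin n => PowerSeries.map ιr (Y l j)).det =
        PowerSeries.map ιr (Matrix.of fun l j : Fin n => Y l j).det := by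
      rw [RingHom.map_det]
      rfl
    have h2 : (Matrix.of fun l j : Fin n => Y l j) =
        (Matrix.of fun (l : Fin n) (i : Fin F.natDegree) => PowerSeries.map σ (m l i)) *
        (Matrix.of fun (i : Fin F.natDegree) (j : Fin n) => ξ' j ^ (i : ℕ)) := by
      ext l j
      rw [Matrix.mul_apply]
      rfl
    have h3 : (Matrix.of fun l j : Fin n => Y l j).det = 0 := by
      rw [h2]
      refine det_mul_eq_zero _ _ fun φ => ?_
      have h4 : ((Matrix.of fun (l : Fin n) (i : Fin F.natDegree) =>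
          PowerSeries.map σ (m l i)).submatrix id φ).det =
          PowerSeries.map σ (Matrix.of fun l j : Fin n => m l (φ j)).det := by
        rw [RingHom.map_det]
        rfl
      rw [h4, hmin φ, map_zero]
    exact h1.trans (by rw [h3, map_zero])

/-- Finiteness in a residue class. -/
theorem finite_exceptions_class_gen (p : ℕ) (hp : p.Prime) (F : ℤ[X][X]) (hF : F.Monic)
    (hd : 1 ≤ F.natDegree) (H G : Fin n → ℤ[X][X]) (hHG : ∀ l, F ∣ H l * G l - 1) (Q1 : ℤ)
    (hC : LogDet p F H Q1) :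
    ∃ Z : Set ℤ, Z.Finite ∧ ∀ t : ℤ, t ∉ Z →
      Irreducible (F.map (evalRingHom (Q1 + p * t))) →
      ∀ (K : Type u) [Field K] [NumberField K] (x : 𝓞 K), Module.finrank ℚ K = F.natDegree →
      aeval x (F.map (evalRingHom (Q1 + p * t))) = 0 → Units.rank K = n → ∃ c, SLeo K p c := by
  have : Fact p.Prime := ⟨hp⟩
  obtain ⟨M, hM, V, hV1, hV2, hV3⟩ := exists_V_gen p hp F hF H G hHG Q1
  obtain ⟨φ, hφ⟩ := exists_minor_gen p F hd H Q1 hC M hM V hV1 hV2 hV3
  refine ⟨_, finite_zeros p hp (minorG V φ) (fun N k => ?_) hφ,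
    fun t ht hirr K _ _ x hfin hx hrank => ?_⟩
  · exact (C_dvd_iff_dvd_coeff _ _).mp (minorG_congr_add p V hV3 φ N 1) k
  · rw [Set.mem_setOf_eq, not_forall] at ht
    obtain ⟨N0, hN0⟩ := ht
    exact sleo_of_minor_gen p hp F hF H G hHG Q1 t hirr M V hV1 hV2 hV3 φ N0 hN0 x hfin hx hrank

theorem finite_exceptions_gen (p : ℕ) (hp : p.Prime) (F : ℤ[X][X]) (hF : F.Monic)
    (hd : 1 ≤ F.natDegree) (H G : Fin n → ℤ[X][X]) (hHG : ∀ l, F ∣ H l * G l - 1)
    (B : ℝ) (hC : ∀ Q1 : ℤ, B < Q1 → LogDet p F H Q1) :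
    ∃ Z : Set ℤ, Z.Finite ∧ ∀ t : ℤ, t ∉ Z →
      Irreducible (F.map (evalRingHom t)) →
      ∀ (K : Type u) [Field K] [NumberField K] (x : 𝓞 K), Module.finrank ℚ K = F.natDegree →
      aeval x (F.map (evalRingHom t)) = 0 → Units.rank K = n → ∃ c, SLeo K p c := by
  set N : ℕ := ⌈B⌉₊ + 1 with hN
  have hpos : (0 : ℤ) < p := by exact_mod_cast hp.pos
  set Q1 : ℤ → ℤ := fun r => |r| + p * N with hQ1
  have hBQ : ∀ r, B < ((Q1 r : ℤ) : ℝ) := by
    intro r
    have h1 : B < N := by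
      have := Nat.le_ceil B
      rw [hN]
      push_cast
      linarith
    have h2 : (N : ℤ) ≤ Q1 r := by
      have h3 : (0 : ℤ) ≤ |r| := abs_nonneg r
      have h4 : (1 : ℤ) * N ≤ p * N := mul_le_mul_of_nonneg_right (by omega) (by omega)
      simp only [hQ1]
      linarith
    exact h1.trans_le (by exact_mod_cast h2)
  have hcl : ∀ r : ℤ, ∃ Z : Set ℤ, Z.Finite ∧ ∀ t : ℤ, t ∉ Z →
      Irreducible (F.map (evalRingHom (Q1 r + p * t))) →
      ∀ (K : Type u) [Field K] [NumberField K] (x : 𝓞 K), Module.finrank ℚ K = F.natDegree →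
      aeval x (F.map (evalRingHom (Q1 r + p * t))) = 0 → Units.rank K = n → ∃ c, SLeo K p c :=
    fun r => finite_exceptions_class_gen p hp F hF hd H G hHG (Q1 r) (hC (Q1 r) (hBQ r))
  choose Z hZ hZ' using hcl
  refine ⟨⋃ r ∈ Finset.Ico (0 : ℤ) p, (fun t => Q1 r + p * t) '' Z r, ?_, ?_⟩
  · exact Set.Finite.biUnion (Finset.finite_toSet _) fun r _ => (hZ r).image _
  · intro Q hQ
    set r := Q % p with hr
    have hr0 : 0 ≤ r := Int.emod_nonneg _ hpos.ne'
    have hrp : r < p := Int.emod_lt_of_pos _ hpos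
    have h1 : Q = Q1 r + p * (Q / p - N) := by
      have h2 := Int.emod_add_mul_ediv Q p
      simp only [hQ1, abs_of_nonneg hr0]
      rw [← hr] at h2
      linarith
    have h2 : Q / p - N ∉ Z r := by
      intro h3
      apply hQ
      rw [Set.mem_iUnion₂]
      exact ⟨r, by simp [hr0, hrp], _, h3, h1.symm⟩
    have h3 := hZ' r _ h2
    rw [← h1] at h3
    exact h3

end Pool.Agent.Work.MP_59f3ad_nt

end

section

/-!
From a non-vanishing minor of approximate logarithms to the `p`-adic independence of the units.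
-/

open Polynomial NumberField

namespace Pool.Agent.Work.MP_59f3ad_nt

/-- `p`-adic multiplicative independence of a system of units, with constant `c`: if the product of
the `u_i ^ E_i` is congruent to `1` modulo `p ^ (m + c)` then `p ^ m` divides all exponents. -/
def PInd (K : Type*) [Field K] [NumberField K] (p : ℕ) {n : ℕ} (u : Fin n → (𝓞 K)ˣ) (c : ℕ) :
    Prop :=
  ∀ (m : ℕ) (E : Fin n → ℤ), (p : 𝓞 K) ^ (m + c) ∣ ((∏ i, u i ^ E i : (𝓞 K)ˣ) : 𝓞 K) - 1 →
    ∀ i, (p : ℤ) ^ m ∣ E i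

/-- Full rank `p`-adically independent systems give the Leopoldt property. -/
theorem sleo_of_pind {K : Type*} [Field K] [NumberField K] (p : ℕ) (hp : p.Prime) {n : ℕ}
    (u : Fin n → (𝓞 K)ˣ) (c : ℕ) (hu : PInd K p u c) (hrank : Units.rank K = n) :
    ∃ c, SLeo K p c := by
  classical
  let u' : Option (Fin n) → (𝓞 K)ˣ := fun o => o.elim 1 u
  refine sleo_of_indep K p hp u' (fun o => o.elim 1 (fun _ => 0)) c ⟨none, by simp⟩ ?_ ?_
  · rw [Fintype.card_option, Fintype.card_fin, hrank]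
  intro m E hE hdvd
  have hE0 : E none = 0 := by
    rw [Fintype.sum_option] at hE
    simpa using hE
  have hprodE : ∏ o, u' o ^ E o = ∏ l, u l ^ E (some l) := by
    rw [Fintype.prod_option]
    simp [u']
  rw [hprodE] at hdvd
  have hmain := hu m (fun l => E (some l)) hdvd
  intro o
  rcases o with _ | j
  · rw [hE0]; exact dvd_zero _
  · exact hmain j

variable {n : ℕ}

/-- A non-vanishing minor gives `p`-adic independence. -/
theorem pind_of_minor_gen (p : ℕ) (hp : p.Prime) (F : ℤ[X][X]) (hF : F.Monic)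
    (H G : Fin n → ℤ[X][X]) (hHG : ∀ l, F ∣ H l * G l - 1) (Q1 t : ℤ)
    (hirr : Irreducible (F.map (evalRingHom (Q1 + p * t)))) (M : ℕ) (V : Fin n → ℕ → ℤ[X][X])
    (hV1 : ∀ l N, (V l N).degree < F.natDegree)
    (hV2 : ∀ l N, F.map (subT p Q1) ∣ ((H l).map (subT p Q1)) ^ (M * p ^ N)
        - 1 - C (C ((p : ℤ) ^ (N + 2))) * V l N)
    (hV3 : ∀ l N i, C ((p : ℤ) ^ (N + 1)) ∣ (V l (N + 1) - V l N).coeff i)
    (φ : Fin n → Fin F.natDegree) (N0 : ℕ)
    (hN0 : ¬ (p : ℤ) ^ (N0 + 1) ∣ (minorG V φ N0).eval t)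
    {K : Type*} [Field K] [NumberField K] (x : 𝓞 K)
    (hfin : Module.finrank ℚ K = F.natDegree)
    (hx : aeval x (F.map (evalRingHom (Q1 + p * t))) = 0) :
    ∃ (u : Fin n → (𝓞 K)ˣ) (c : ℕ), PInd K p u c := by
  classical
  have hpO : (p : 𝓞 K) ≠ 0 := by exact_mod_cast hp.ne_zero
  have hd : 0 < F.natDegree := by rw [← hfin]; exact Module.finrank_pos
  -- the evaluation homomorphisms
  let ev : ℤ[X] →+* 𝓞 K := (algebraMap ℤ (𝓞 K)).comp (evalRingHom t)
  let Ψ : ℤ[X][X] →+* 𝓞 K := eval₂RingHom ev x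
  have hΨ : ∀ P : ℤ[X][X], Ψ (P.map (subT p Q1)) = aeval x (P.map (evalRingHom (Q1 + p * t))) := by
    intro P
    have h1 : Ψ (P.map (subT p Q1)) =
        eval₂ (algebraMap ℤ (𝓞 K)) x ((P.map (subT p Q1)).map (evalRingHom t)) := by
      rw [eval₂_map]; rfl
    rw [h1, Polynomial.map_map, eval_subT]
    rfl
  have hΨF : Ψ (F.map (subT p Q1)) = 0 := by rw [hΨ, hx]
  have hunit : ∀ l, IsUnit (Ψ ((H l).map (subT p Q1))) := by
    intro l
    refine IsUnit.of_mul_eq_one (Ψ ((G l).map (subT p Q1))) ?_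
    have h1 := map_dvd Ψ (Polynomial.map_dvd (subT p Q1) (hHG l))
    rw [hΨF, zero_dvd_iff, Polynomial.map_sub, Polynomial.map_mul, Polynomial.map_one, map_sub,
      map_mul, map_one, sub_eq_zero] at h1
    exact h1
  set u' : Fin n → (𝓞 K)ˣ := fun l => (hunit l).unit with hu'
  have hu : ∀ l, (u' l : 𝓞 K) = Ψ ((H l).map (subT p Q1)) := fun l => rfl
  have hfd : (F.map (evalRingHom (Q1 + p * t))).natDegree = F.natDegree := hF.natDegree_map _
  have hlin := linearIndependent_of_irreducible _ (hF.map _) hirr x hx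
  rw [hfd] at hlin
  obtain ⟨c1, hc1⟩ := exists_index_const p hp F.natDegree x hlin hfin.symm
  refine ⟨u', 2 + c1 + N0, ?_⟩
  intro m E hdvd
  set m' := m + (2 + c1 + N0) with hm'
  set N := N0 + m' with hN
  set μ : Fin n → 𝓞 K := fun l => Ψ (V l N) with hμ
  have hw : ∀ l, ((u' l ^ (M * p ^ N) : (𝓞 K)ˣ) : 𝓞 K) = 1 + (p : 𝓞 K) ^ (N + 2) * μ l := by
    intro l
    obtain ⟨g, hg⟩ := hV2 l N
    have h1 := congrArg Ψ hg
    rw [map_mul, hΨF, zero_mul, map_sub, map_sub, map_mul, map_pow, map_one, ← hu] at h1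
    have h2 : Ψ (C (C ((p : ℤ) ^ (N + 2)))) = (p : 𝓞 K) ^ (N + 2) := by
      show eval₂ ev x (C (C ((p : ℤ) ^ (N + 2)))) = _
      rw [eval₂_C]
      simp only [ev, RingHom.comp_apply, coe_evalRingHom, eval_C, map_pow]
      simp
    rw [h2] at h1
    rw [Units.val_pow_eq_pow_val]
    linear_combination h1
  have h1 := prod_zpow_congr ((p : 𝓞 K) ^ (N + 2)) _ μ hw (fun l => E l) Finset.univ
  have h2 : ∏ j, (u' j ^ (M * p ^ N)) ^ E j = (∏ j, u' j ^ E j) ^ (M * p ^ N) := by
    rw [← Finset.prod_pow]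
    refine Finset.prod_congr rfl fun j _ => ?_
    rw [← zpow_natCast, ← zpow_natCast, ← zpow_mul, ← zpow_mul, mul_comm]
  rw [h2] at h1
  have h3 : (p : 𝓞 K) ^ (m' + N) ∣
      (((∏ j, u' j ^ E j) ^ (M * p ^ N) : (𝓞 K)ˣ) : 𝓞 K) - 1 := by
    rw [mul_comm M, pow_mul, Units.val_pow_eq_pow_val, Units.val_pow_eq_pow_val]
    exact (dvd_pow_prime_pow_sub_one p m' (by omega) _ hdvd N).trans
      (sub_one_dvd_pow_sub_one _ _)
  have h4 : (p : 𝓞 K) ^ (m' + N) ∣ (p : 𝓞 K) ^ (N + 2) * ∑ j, E j * μ j := by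
    have h5 : (p : 𝓞 K) ^ (m' + N) ∣ ((p : 𝓞 K) ^ (N + 2)) ^ 2 := by
      rw [← pow_mul]
      exact pow_dvd_pow _ (by omega)
    have h6 := dvd_sub h3 (h5.trans h1)
    refine h6.trans (Dvd.intro 1 ?_)
    ring
  have h5 : (p : 𝓞 K) ^ (m' - 2) ∣ ∑ j, E j * μ j := by
    have h6 : (p : 𝓞 K) ^ (m' + N) = (p : 𝓞 K) ^ (N + 2) * (p : 𝓞 K) ^ (m' - 2) := by
      rw [← pow_add]; congr 1; omega
    rw [h6] at h4
    exact (mul_dvd_mul_iff_left (pow_ne_zero _ hpO)).mp h4
  -- coefficients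
  have hμ' : ∀ l, μ l = ∑ i ∈ Finset.range F.natDegree,
      ((((V l N).coeff i).eval t : ℤ) : 𝓞 K) * x ^ i := by
    intro l
    have h6 : (V l N).natDegree < F.natDegree := by
      by_cases h0 : V l N = 0
      · rw [h0, natDegree_zero]; exact hd
      · exact (natDegree_lt_iff_degree_lt h0).mpr (hV1 l N)
    show eval₂ ev x (V l N) = _
    rw [eval₂_eq_sum_range' _ h6]
    rfl
  have h6 : ∑ j, E j * μ j = ∑ i ∈ Finset.range F.natDegree,
      ((∑ l, E l * ((V l N).coeff i).eval t : ℤ) : 𝓞 K) * x ^ i := by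
    simp only [hμ', Finset.mul_sum]
    rw [Finset.sum_comm]
    refine Finset.sum_congr rfl fun i _ => ?_
    push_cast
    rw [Finset.sum_mul]
    refine Finset.sum_congr rfl fun l _ => ?_
    ring
  rw [h6] at h5
  have h7 := hc1 _ _ h5
  -- the matrix
  set W : Matrix (Fin n) (Fin n) ℤ := Matrix.of fun l j => ((V l N).coeff (φ j)).eval t with hW
  have hdet : W.det = (minorG V φ N).eval t := by
    have h8 := RingHom.map_det (evalRingHom t)
      (Matrix.of fun l j : Fin n => (V l N).coeff (φ j))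
    rw [coe_evalRingHom] at h8
    rw [minorG, h8]
    rfl
  have h8 : ∀ j, (p : ℤ) ^ (m + N0) ∣ (Matrix.vecMul (fun l => E l) W) j := by
    intro j
    have h9 := h7 (φ j) (φ j).2
    have h10 : m' - 2 - c1 = m + N0 := by omega
    rw [h10] at h9
    exact h9
  have h9 : ∀ j : Fin n, (p : ℤ) ^ (m + N0) ∣ E j * W.det := by
    intro j
    have h10 : Matrix.vecMul (Matrix.vecMul (fun l : Fin n => E l) W)
        W.adjugate = fun l : Fin n => E l * W.det := by
      rw [Matrix.vecMul_vecMul, Matrix.mul_adjugate]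
      ext l
      rw [Matrix.vecMul_smul, Matrix.vecMul_one]
      simp [mul_comm]
    have h11 : E j * W.det = ∑ i, (Matrix.vecMul
        (fun l : Fin n => E l) W) i * W.adjugate i j := by
      have := congrFun h10 j
      rw [← this]
      rfl
    rw [h11]
    exact Finset.dvd_sum fun i _ => (h8 i).mul_right _
  have h10 : ¬ (p : ℤ) ^ (N0 + 1) ∣ W.det := by
    rw [hdet]
    intro h11
    apply hN0
    have h12 := minorG_congr_add p V hV3 φ N0 m'
    have h13 := map_dvd (evalRingHom t) h12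
    rw [map_sub] at h13
    simp only [coe_evalRingHom, eval_C] at h13
    exact (dvd_sub_right h11).mp h13
  have hmain : ∀ j : Fin n, (p : ℤ) ^ m ∣ E j := by
    intro j
    have h11 := h9 j
    have hW0 : W.det ≠ 0 := fun h => h10 (h ▸ dvd_zero _)
    have hpp : Prime (p : ℤ) := Nat.prime_iff_prime_int.mp hp
    obtain ⟨v, w, hw1, hw2⟩ := WfDvdMonoid.max_power_factor hW0 hpp.irreducible
    have hv : v ≤ N0 := by
      by_contra hcon
      apply h10
      rw [hw2]
      exact (pow_dvd_pow _ (by omega)).mul_right _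
    have hcop : IsCoprime ((p : ℤ) ^ (m + N0 - v)) w :=
      IsCoprime.pow_left ((Prime.coprime_iff_not_dvd hpp).mpr hw1)
    have h12 : (p : ℤ) ^ (m + N0 - v) ∣ E j := by
      have h13 : (p : ℤ) ^ v * (p : ℤ) ^ (m + N0 - v) ∣ (p : ℤ) ^ v * (E j * w) := by
        rw [← pow_add]
        have h14 : v + (m + N0 - v) = m + N0 := by omega
        rw [h14]
        refine h11.trans (Dvd.intro 1 ?_)
        rw [hw2]
        ring
      rw [mul_dvd_mul_iff_left (pow_ne_zero _ hpp.ne_zero)] at h13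
      exact hcop.dvd_of_dvd_mul_right h13
    exact (pow_dvd_pow _ (by omega)).trans h12
  exact hmain

end Pool.Agent.Work.MP_59f3ad_nt

end

section

/-!
Approximate `p`-adic logarithms with slowly growing coefficients, for every prime `p`.
-/

open Polynomial

namespace Pool.Agent.Work.MP_59f3ad_nt

/-- In the finite ring `F_p[X]/(f)` the units have a common exponent of bounded valuation. -/
theorem exists_pow_sub_one_all {n : ℕ} (p : ℕ) (hp : p.Prime) (F : ℤ[X][X]) (hF : F.Monic)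
    (hd : 1 ≤ F.natDegree)
    (H G : Fin n → ℤ[X][X]) (hHG : ∀ l, F ∣ H l * G l - 1) (Q1 : ℤ) :
    ∃ M : ℕ, ¬ p ^ F.natDegree ∣ M ∧ ∀ l, ∃ g : ℤ[X][X], ∀ i,
      (p : ℤ) ∣ (((H l) ^ M - 1 - F * g).coeff i).eval Q1 := by
  have : Fact p.Prime := ⟨hp⟩
  set χ : ℤ[X] →+* ZMod p := (Int.castRingHom (ZMod p)).comp (evalRingHom Q1) with hχ
  set f : (ZMod p)[X] := F.map χ with hf
  have hfm : f.Monic := hF.map _
  have hfin1 : Module.Finite (ZMod p) (AdjoinRoot f) := hfm.finite_adjoinRoot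
  have hfin : Finite (AdjoinRoot f) := Module.finite_of_finite (ZMod p)
  have hdim : Module.finrank (ZMod p) (AdjoinRoot f) = F.natDegree := by
    have h1 : Module.finrank (ZMod p) (AdjoinRoot f) = f.natDegree :=
      finrank_quotient_span_eq_natDegree' hfm
    rw [h1, hf, hF.natDegree_map]
  have hnt : Nontrivial (AdjoinRoot f) := by
    by_contra h
    rw [not_nontrivial_iff_subsingleton] at h
    have h1 := Module.finrank_zero_of_subsingleton (R := ZMod p) (M := AdjoinRoot f)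
    omega
  have hcard : Nat.card (AdjoinRoot f) = p ^ F.natDegree := by
    rw [Module.natCard_eq_pow_finrank (K := ZMod p), hdim, Nat.card_zmod]
  set c := Nat.card (AdjoinRoot f)ˣ with hc
  have hc0 : 0 < c := Nat.card_pos
  have hclt : c < p ^ F.natDegree := by
    rw [← hcard, hc]
    have : Fintype (AdjoinRoot f) := Fintype.ofFinite _
    have h1 : Nat.card (AdjoinRoot f)ˣ = Nat.card (Set.range (Units.val : (AdjoinRoot f)ˣ → _)) :=
      (Nat.card_range_of_injective Units.val_injective).symm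
    rw [h1, Nat.card_coe_set_eq, ← Set.ncard_univ]
    refine Set.ncard_lt_ncard ?_ Set.finite_univ
    rw [Set.ssubset_univ_iff]
    intro h2
    have h3 : (0 : AdjoinRoot f) ∈ Set.range (Units.val : (AdjoinRoot f)ˣ → _) := by
      rw [h2]
      trivial
    obtain ⟨w, hw⟩ := h3
    exact w.ne_zero hw
  refine ⟨c, fun h => absurd (Nat.le_of_dvd hc0 h) (not_le.mpr hclt), fun l => ?_⟩
  have hu : IsUnit (AdjoinRoot.mk f ((H l).map χ)) := by
    refine IsUnit.of_mul_eq_one (AdjoinRoot.mk f ((G l).map χ)) ?_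
    have h1 := Polynomial.map_dvd χ (hHG l)
    rw [Polynomial.map_sub, Polynomial.map_one, Polynomial.map_mul, ← AdjoinRoot.mk_eq_zero,
      map_sub, map_one, map_mul, sub_eq_zero] at h1
    exact h1
  have h5 : AdjoinRoot.mk f ((H l).map χ ^ c - 1) = 0 := by
    have h2 : hu.unit ^ c = 1 := pow_card_eq_one'
    have h3 := congrArg Units.val h2
    rw [map_sub, map_pow, map_one, sub_eq_zero]
    exact h3
  rw [AdjoinRoot.mk_eq_zero] at h5
  obtain ⟨g, hg⟩ := h5
  obtain ⟨G', hG'⟩ := Polynomial.map_surjective (Int.castRingHom (ZMod p))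
    (ZMod.intCast_surjective) g
  refine ⟨G'.map C, fun i => ?_⟩
  have h6 : (((H l) ^ c - 1 - F * G'.map C).map χ) = 0 := by
    have hcomp : χ.comp C = Int.castRingHom (ZMod p) := RingHom.ext_int _ _
    rw [Polynomial.map_sub, Polynomial.map_mul, Polynomial.map_sub,
      Polynomial.map_pow, Polynomial.map_one, Polynomial.map_map, hcomp, hG', ← hf, hg, sub_self]
  have h7 := congrArg (fun P => Polynomial.coeff P i) h6
  simp only [coeff_map, coeff_zero] at h7
  rw [hχ] at h7
  simp only [RingHom.comp_apply, coe_evalRingHom, eq_intCast] at h7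
  exact (ZMod.intCast_zmod_eq_zero_iff_dvd _ _).1 h7

theorem exists_V_all {n : ℕ} (p : ℕ) (hp : p.Prime) (F : ℤ[X][X]) (hF : F.Monic)
    (hd : 1 ≤ F.natDegree) (H G : Fin n → ℤ[X][X])
    (hHG : ∀ l, F ∣ H l * G l - 1) (Q1 : ℤ) :
    ∃ M : ℕ, ¬ p ^ F.natDegree ∣ M ∧ ∃ V : Fin n → ℕ → ℤ[X][X],
      (∀ l N, (V l N).degree < F.natDegree) ∧
      (∀ l N, F.map (subT p Q1) ∣ ((H l).map (subT p Q1)) ^ (M * p ^ (N + 2))
        - 1 - C (C ((p : ℤ) ^ (N + 2))) * V l N) ∧
      (∀ l N i, C ((p : ℤ) ^ (N + 1)) ∣ (V l (N + 1) - V l N).coeff i) ∧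
      (∀ l N i k, (p : ℤ) ^ ((k + 1) / 2) ∣ ((V l N).coeff i).coeff k) := by
  obtain ⟨M, hM, hG⟩ := exists_pow_sub_one_all p hp F hF hd H G hHG Q1
  set F' : (Gam p)[X] := F.map (subG p Q1) with hF'
  have hFm : F'.Monic := hF.map _
  have hF'' : F'.map (Gam p).subtype = F.map (subT p Q1) := by
    rw [hF', Polynomial.map_map, subG_coe]
  let π : (Gam p)[X] →+* AdjoinRoot F' := AdjoinRoot.mk F'
  have hπ : ∀ P, F' ∣ P → π P = 0 := fun P hP => AdjoinRoot.mk_eq_zero.2 hP
  set u : Fin n → AdjoinRoot F' := fun l => π ((H l).map (subG p Q1)) with hu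
  -- the square of `u ^ M - 1` is divisible by `p`
  have hsq : ∀ l, (p : AdjoinRoot F') ∣ (u l ^ M - 1) ^ 2 := by
    intro l
    obtain ⟨g, hg⟩ := hG l
    set R : ℤ[X][X] := (H l) ^ M - 1 - F * g with hR
    have h1 : u l ^ M - 1 = π (R.map (subG p Q1)) := by
      rw [hR, Polynomial.map_sub, Polynomial.map_mul, Polynomial.map_sub, Polynomial.map_pow,
        Polynomial.map_one, map_sub, map_sub, map_pow, map_one,
        hπ (Polynomial.map (subG p Q1) F * _) (dvd_mul_right _ _), sub_zero]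
    have h2 : (u l ^ M - 1) ^ 2 = π ((R.map (subG p Q1)) ^ 2) := by
      rw [h1, map_pow]
    have h3 : (C (p : Gam p) : (Gam p)[X]) ∣ (R.map (subG p Q1)) ^ 2 := by
      rw [Polynomial.C_dvd_iff_dvd_coeff]
      intro i
      rw [sq, coeff_mul]
      refine Finset.dvd_sum fun ab hab => ?_
      rw [coeff_map, coeff_map]
      have h4 := nil_mul p (subT p Q1 (R.coeff ab.1)) (subT p Q1 (R.coeff ab.2))
        (subT_mem _ _ _) (subT_mem _ _ _) (subT_nil _ _ _ (hg _)) (subT_nil _ _ _ (hg _))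
      have h5 : (C (p : ℤ) : ℤ[X]) ∣ subT p Q1 (R.coeff ab.1) * subT p Q1 (R.coeff ab.2) := by
        rw [Polynomial.C_dvd_iff_dvd_coeff]
        intro k
        refine Dvd.dvd.trans ?_ (h4 k)
        exact dvd_pow_self _ (by omega)
      obtain ⟨w, hw⟩ := h5
      have hw' : w ∈ Gam p := by
        intro k
        have h6 := h4 k
        rw [hw, coeff_C_mul, pow_succ'] at h6
        exact Int.dvd_of_mul_dvd_mul_left (by exact_mod_cast hp.ne_zero) h6
      refine ⟨⟨w, hw'⟩, ?_⟩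
      apply Subtype.ext
      show subT p Q1 (R.coeff ab.1) * subT p Q1 (R.coeff ab.2) = _
      rw [hw]
      simp
    rw [h2]
    have h7 := map_dvd π h3
    have h8 : π (C (p : Gam p)) = (p : AdjoinRoot F') := by
      simp [π]
    rwa [h8] at h7
  have hdvd : ∀ l, (p : AdjoinRoot F') ∣ u l ^ (M * p) - 1 := by
    intro l
    obtain ⟨r, hr⟩ := exists_add_pow_prime_eq hp (u l ^ M - 1) (1 : AdjoinRoot F')
    rw [sub_add_cancel, one_pow, mul_one, ← pow_mul] at hr
    rw [hr]
    have h1 : (p : AdjoinRoot F') ∣ (u l ^ M - 1) ^ p := by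
      exact (hsq l).trans (pow_dvd_pow _ hp.two_le)
    have h2 : (u l ^ M - 1) ^ p + 1 + (p : AdjoinRoot F') * (u l ^ M - 1) * r - 1 =
        (u l ^ M - 1) ^ p + (p : AdjoinRoot F') * ((u l ^ M - 1) * r) := by ring
    rw [h2]
    exact dvd_add h1 (dvd_mul_right _ _)
  have hdvd2 : ∀ l N, (p : AdjoinRoot F') ^ (N + 2) ∣ u l ^ (M * p ^ (N + 2)) - 1 := by
    intro l N
    have h1 := dvd_sub_pow_of_dvd_sub (hdvd l) (N + 1)
    rw [one_pow, ← pow_mul] at h1
    have h2 : M * p * p ^ (N + 1) = M * p ^ (N + 2) := by rw [pow_succ _ (N + 1)]; ring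
    rw [h2] at h1
    exact h1
  choose y hy using hdvd2
  let red : AdjoinRoot F' →ₗ[Gam p] (Gam p)[X] := AdjoinRoot.modByMonicHom hFm
  have hred : ∀ z, π (red z) = z := fun z => AdjoinRoot.mk_leftInverse hFm z
  have hredinj : Function.Injective red := Function.LeftInverse.injective hred
  have htf : ∀ (n : ℕ) (z w : AdjoinRoot F'), (p : AdjoinRoot F') ^ n * z =
      (p : AdjoinRoot F') ^ n * w → z = w := by
    intro n z w h
    apply hredinj
    have h1 : ∀ z : AdjoinRoot F', (p : AdjoinRoot F') ^ n * z = ((p : Gam p) ^ n) • z := by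
      intro z
      rw [Algebra.smul_def, map_pow]
      simp
    rw [h1, h1] at h
    have h2 := congrArg red h
    rw [map_smul, map_smul] at h2
    refine smul_right_injective _ ?_ h2
    apply pow_ne_zero
    intro h3
    have h4 := congrArg (Gam p).subtype h3
    rw [map_natCast, map_zero] at h4
    have h5 : (p : ℤ[X]) ≠ 0 := by exact_mod_cast hp.ne_zero
    exact h5 h4
  have hcong : ∀ l N, ∃ z, y l (N + 1) - y l N = (p : AdjoinRoot F') ^ (N + 1) * z := by
    intro l N
    have h1 : u l ^ (M * p ^ (N + 1 + 2)) = (1 + (p : AdjoinRoot F') ^ (N + 2) * y l N) ^ p := by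
      have h0 : M * p ^ (N + 1 + 2) = M * p ^ (N + 2) * p := by ring
      rw [h0, pow_mul, ← hy l N]
      congr 1
      ring
    obtain ⟨k, hk⟩ := Polynomial.powAddExpansion 1 ((p : AdjoinRoot F') ^ (N + 2) * y l N) p
    have h2 := hy l (N + 1)
    rw [h1, hk] at h2
    refine ⟨k * y l N ^ 2, ?_⟩
    refine htf (N + 3) _ _ ?_
    have h3 : (p : AdjoinRoot F') ^ (N + 3) * (y l (N + 1) - y l N) =
        (p : AdjoinRoot F') ^ (N + 1 + 2) * y l (N + 1) -
          (p : AdjoinRoot F') ^ (N + 3) * y l N := by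
      ring
    rw [h3, ← h2]
    simp only [one_pow, mul_one]
    ring
  have hcast : ∀ (k : ℕ), (Gam p).subtype ((p : Gam p) ^ k) = C ((p : ℤ) ^ k) := by
    intro k
    rw [map_pow, map_natCast]
    simp
  refine ⟨M, hM, fun l N => (red (y l N)).map (Gam p).subtype, fun l N => ?_,
    fun l N => ?_, fun l N i => ?_, fun l N i k => ?_⟩
  · have h1 : red (y l N) = red (y l N) %ₘ F' := by
      have h2 := AdjoinRoot.modByMonicHom_mk hFm (red (y l N))
      rw [← h2]
      exact congrArg red (hred (y l N)).symm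
    have h3 : F'.degree = F.natDegree := by
      rw [degree_eq_natDegree hFm.ne_zero, hF', hF.natDegree_map]
    refine lt_of_le_of_lt degree_map_le ?_
    rw [← h3, h1]
    exact degree_modByMonic_lt _ hFm
  · have h1 : π (((H l).map (subG p Q1)) ^ (M * p ^ (N + 2)) - 1 -
        C ((p : Gam p) ^ (N + 2)) * red (y l N)) = 0 := by
      rw [map_sub, map_sub, map_mul, map_pow, map_one, hred]
      have h2 := hy l N
      rw [hu] at h2
      simp only at h2
      rw [h2]
      simp [π]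
    have h2 := Polynomial.map_dvd (Gam p).subtype (AdjoinRoot.mk_eq_zero.mp h1)
    rw [hF'', Polynomial.map_sub, Polynomial.map_sub, Polynomial.map_mul, Polynomial.map_pow,
      Polynomial.map_one, Polynomial.map_map, subG_coe, Polynomial.map_C, hcast] at h2
    exact h2
  · obtain ⟨z, hz⟩ := hcong l N
    have h1 : (p : AdjoinRoot F') ^ (N + 1) * z = ((p : Gam p) ^ (N + 1)) • z := by
      rw [Algebra.smul_def, map_pow]
      simp
    rw [← Polynomial.map_sub, ← map_sub, hz, h1, map_smul, coeff_map, coeff_smul, smul_eq_mul,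
      map_mul, hcast]
    exact dvd_mul_right _ _
  · rw [coeff_map]
    exact ((red (y l N)).coeff i).2 k

end Pool.Agent.Work.MP_59f3ad_nt

end

section

/-!
Leopoldt's conjecture for all but finitely many members of a one-parameter family of number fields
with a full rank system of parametric units which are independent modulo constants.
-/

open Polynomial NumberField Filter Topology

namespace Pool.Agent.Work.MP_59f3ad_nt

universe u

section eval

variable (F : ℤ[X][X])

/-- The specialisation of `ℤ[T][X]/(F)` at a complex point of the curve `F = 0`. -/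
noncomputable def spec (t z : ℂ) (h : (F.map (evT t)).eval z = 0) : AdjoinRoot F →+* ℂ :=
  AdjoinRoot.lift (evT t) z (by rwa [eval_map] at h)

theorem spec_mk (t z : ℂ) (h : (F.map (evT t)).eval z = 0) (P : ℤ[X][X]) :
    spec F t z h (AdjoinRoot.mk F P) = (P.map (evT t)).eval z := by
  rw [spec, AdjoinRoot.lift_mk, eval_map]

/-- Values of a unit satisfy a fixed monic equation. -/
theorem exists_equation (hF : F.Monic) (P : ℤ[X][X]) :
    ∃ G : ℤ[X][X], G ≠ 0 ∧ ∀ t z : ℂ, (F.map (evT t)).eval z = 0 →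
      (G.map (evT t)).eval ((P.map (evT t)).eval z) = 0 := by
  have hfin : Module.Finite ℤ[X] (AdjoinRoot F) := hF.finite_adjoinRoot
  obtain ⟨G, hG, hG0⟩ := Algebra.IsIntegral.isIntegral (R := ℤ[X]) (AdjoinRoot.mk F P)
  refine ⟨G, hG.ne_zero, fun t z h => ?_⟩
  have h1 := congrArg (spec F t z h) hG0
  rw [Polynomial.hom_eval₂, spec_mk, map_zero] at h1
  have h2 : (spec F t z h).comp (algebraMap ℤ[X] (AdjoinRoot F)) = evT t := by
    refine RingHom.ext fun f => ?_
    rw [RingHom.comp_apply, AdjoinRoot.algebraMap_eq]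
    exact AdjoinRoot.lift_of _
  rw [h2] at h1
  rw [eval_map]
  exact h1

end eval

section analytic

theorem analyticAt_evT (f : ℤ[X]) (t0 : ℝ) : AnalyticAt ℝ (fun t : ℝ => evT (t : ℂ) f) t0 := by
  have h1 : (fun t : ℝ => evT (t : ℂ) f) = fun t : ℝ => ∑ i ∈ Finset.range (f.natDegree + 1),
      (f.coeff i : ℂ) * (t : ℂ) ^ i := by
    funext t
    show eval₂ (Int.castRingHom ℂ) (t : ℂ) f = _
    rw [eval₂_eq_sum_range]
    rfl
  rw [h1]
  refine Finset.analyticAt_fun_sum _ fun i _ => ?_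
  exact analyticAt_const.mul ((Complex.ofRealCLM.analyticAt t0).pow i)

theorem analyticAt_value (P : ℤ[X][X]) (ξ : ℝ → ℂ) (t0 : ℝ) (hξ : AnalyticAt ℝ ξ t0) :
    AnalyticAt ℝ (fun t : ℝ => (P.map (evT t)).eval (ξ t)) t0 := by
  have h1 : (fun t : ℝ => (P.map (evT t)).eval (ξ t)) = fun t : ℝ =>
      ∑ i ∈ Finset.range (P.natDegree + 1), evT (t : ℂ) (P.coeff i) * ξ t ^ i := by
    funext t
    rw [eval_map, eval₂_eq_sum_range]
  rw [h1]
  refine Finset.analyticAt_fun_sum _ fun i _ => ?_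
  exact (analyticAt_evT _ t0).mul (hξ.pow i)

open RTaylor in
/-- The Taylor series of the values along `Q1 + p s`. -/
theorem tay_value (p : ℕ) (Q1 : ℤ) (P : ℤ[X][X]) (ξ : ℝ → ℂ)
    (hξ : AnalyticAt ℝ (fun s : ℝ => ξ (Q1 + p * s)) 0) :
    eval₂ (toPS ℂ) (Tay fun s : ℝ => ξ (Q1 + p * s)) (P.map (subT p Q1)) =
      Tay fun s : ℝ => (P.map (evT ((Q1 + p * s : ℝ) : ℂ))).eval (ξ (Q1 + p * s)) := by
  let X0 : An := ⟨fun s => ξ (Q1 + p * s), hξ⟩
  let lam : ℤ[X] →+* An := eval₂RingHom (Int.castRingHom An) (lin Q1 p)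
  have h1 : T.comp lam = (toPS ℂ).comp (subT p Q1) := by
    apply Polynomial.ringHom_ext
    · intro a
      rw [RingHom.comp_apply, RingHom.comp_apply]
      simp [lam, subT, toPS_C]
    · rw [RingHom.comp_apply, RingHom.comp_apply]
      have h2 : lam X = lin Q1 p := by simp [lam]
      have h3 : subT p Q1 X = C Q1 + C (p : ℤ) * X := by simp [subT]
      rw [h2, T_lin, h3, map_add, map_mul, toPS_C, toPS_C, toPS_X]
      push_cast
      rfl
  rw [eval₂_map, ← h1]
  have h2 : (Tay fun s : ℝ => ξ (Q1 + p * s)) = T X0 := rfl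
  rw [h2, ← Polynomial.hom_eval₂, T_apply]
  congr 1
  funext s
  rw [← ev_apply, Polynomial.hom_eval₂, eval_map]
  have h3 : (ev s).comp lam = evT ((Q1 + p * s : ℝ) : ℂ) := by
    apply Polynomial.ringHom_ext
    · intro a
      rw [RingHom.comp_apply]
      simp [lam, evT]
    · rw [RingHom.comp_apply]
      have h4 : lam X = lin Q1 p := by simp [lam]
      rw [h4, evT_X, ev_apply]
      simp [lin]
  rw [h3]
  rfl

end analytic

/-- The analytic input holds for all large parameters. -/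
theorem exists_logDet (F : ℤ[X][X]) (hF : F.Monic) (t0 : ℂ) (hsep : (F.map (evT t0)).Separable)
    (n : ℕ) (u : Fin n → (AdjoinRoot F)ˣ)
    (hu : ∀ E : Fin n → ℤ, E ≠ 0 →
      Transcendental ℤ ((∏ i, u i ^ E i : (AdjoinRoot F)ˣ) : AdjoinRoot F))
    (H G : Fin n → ℤ[X][X]) (hH : ∀ i, AdjoinRoot.mk F (H i) = u i)
    (hHG : ∀ l, F ∣ H l * G l - 1) (p : ℕ) (hp : p.Prime) :
    ∃ B : ℝ, ∀ Q1 : ℤ, B < Q1 → LogDet p F H Q1 := by
  classical
  obtain ⟨B0, ξ, hξan, hξ⟩ := exists_analytic_roots F hF t0 hsep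
  set B := max B0 0 with hB
  have hB0 : B0 ≤ B := le_max_left _ _
  have hBnn : 0 ≤ B := le_max_right _ _
  have hξan' : ∀ j, AnalyticOnNhd ℝ (ξ j) (Set.Ioi B) := fun j t ht =>
    hξan j t (lt_of_le_of_lt hB0 ht)
  have hξ' : ∀ t : ℝ, B < t → Function.Injective (fun j => ξ j t) ∧
        ∀ j, (F.map (evT t)).eval (ξ j t) = 0 := fun t ht => hξ t (lt_of_le_of_lt hB0 ht)
  -- the values of the units
  set h : Fin n → Fin F.natDegree → ℝ → ℂ := fun l j t => ((H l).map (evT t)).eval (ξ j t) with hh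
  have han : ∀ l j, AnalyticOnNhd ℝ (h l j) (Set.Ioi B) := fun l j t ht =>
    analyticAt_value _ _ _ (hξan' j t ht)
  have h0 : ∀ l j, ∀ t : ℝ, B < t → h l j t ≠ 0 := by
    intro l j t ht hzero
    obtain ⟨g, hg⟩ := hHG l
    have h1 := congrArg (fun P : ℤ[X][X] => (P.map (evT t)).eval (ξ j t)) hg
    simp only [Polynomial.map_sub, Polynomial.map_mul, Polynomial.map_one, eval_sub, eval_mul,
      eval_one, (hξ' t ht).2 j, zero_mul] at h1
    have h2 : ((H l).map (evT t)).eval (ξ j t) = 0 := hzero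
    rw [h2, zero_mul, zero_sub, neg_eq_zero] at h1
    exact one_ne_zero h1
  -- the growth exponents
  have hgr : ∀ l j, ∃ (e : ℕ) (m : ℤ) (c : ℂ), e ≠ 0 ∧ c ≠ 0 ∧
      Tendsto (fun t : ℝ => h l j t ^ e / (t : ℂ) ^ m) atTop (𝓝 c) := by
    intro l j
    obtain ⟨G', hG', hG0⟩ := exists_equation F hF (H l)
    exact exists_growth G' hG' B (h l j) (han l j).continuousOn (h0 l j)
      fun t ht => hG0 t _ ((hξ' t ht).2 j)
  choose e m c he hc hlim using hgr
  set e0 : ℕ := ∏ l, ∏ j, e l j with he0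
  have he0ne : e0 ≠ 0 := Finset.prod_ne_zero_iff.mpr fun l _ =>
    Finset.prod_ne_zero_iff.mpr fun j _ => he l j
  have hdvd : ∀ l j, e l j ∣ e0 := fun l j =>
    (Finset.dvd_prod_of_mem _ (Finset.mem_univ j)).trans
      (Finset.dvd_prod_of_mem (fun l => ∏ j, e l j) (Finset.mem_univ l))
  choose q hq using hdvd
  set v : Fin n → Fin F.natDegree → ℤ := fun l j => m l j * q l j with hv
  set c' : Fin n → Fin F.natDegree → ℂ := fun l j => c l j ^ q l j with hc'
  have hc'0 : ∀ l j, c' l j ≠ 0 := fun l j => pow_ne_zero _ (hc l j)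
  have hlim' : ∀ l j, Tendsto (fun t : ℝ => h l j t ^ e0 / (t : ℂ) ^ (v l j)) atTop
      (𝓝 (c' l j)) := by
    intro l j
    refine ((hlim l j).pow (q l j)).congr fun t => ?_
    rw [div_pow, ← pow_mul, ← hq l j, hv]
    simp only
    rw [zpow_mul, zpow_natCast]
  obtain ⟨φ, hφ⟩ := exists_growth_minor F hF B ξ hξ' n u H hH hu e0 he0ne v c' hc'0 hlim'
  refine ⟨B, fun Q1 hQ1 κ hκ => ?_⟩
  have hpR : (0 : ℝ) < p := by exact_mod_cast hp.pos
  have hξs : ∀ j, AnalyticAt ℝ (fun s : ℝ => ξ (φ j) (Q1 + p * s)) 0 := by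
    intro j
    have hL : AnalyticAt ℝ (fun s : ℝ => (Q1 : ℝ) + p * s) 0 :=
      analyticAt_const.add (analyticAt_const.mul analyticAt_id)
    exact AnalyticAt.fun_comp (by simpa using hξan' (φ j) _ hQ1) hL
  refine ⟨fun j => Tay fun s : ℝ => ξ (φ j) (Q1 + p * s), fun j => ?_, fun y hy => ?_⟩
  · rw [tay_value p Q1 F (ξ (φ j)) (hξs j)]
    have h1 : (fun s : ℝ => (F.map (evT ((Q1 + p * s : ℝ) : ℂ))).eval (ξ (φ j) (Q1 + p * s)))
        =ᶠ[𝓝 0] fun _ => 0 := by
      have hL : ContinuousAt (fun s : ℝ => (Q1 : ℝ) + p * s) 0 := by fun_prop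
      have h2 : ∀ᶠ s in 𝓝 (0 : ℝ), B < (Q1 : ℝ) + p * s :=
        hL.eventually_mem (isOpen_Ioi.mem_nhds (by simpa using hQ1))
      filter_upwards [h2] with s hs
      exact (hξ' _ hs).2 _
    rw [RTaylor.tay_congr h1, RTaylor.tay_const, map_zero]
  · refine det_ne_zero_of_growth n B hBnn (fun l j => h l (φ j)) (fun l j => han l _)
      (fun l j => h0 l _) e0 he0ne (fun l j => v l (φ j)) (fun l j => c' l (φ j))
      (fun l j => hc'0 l _) (fun l j => hlim' l _) hφ Q1 hQ1 p hpR κ hκ y fun l j => ?_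
    have h1 := hy l j
    rw [tay_value p Q1 (H l) (ξ (φ j)) (hξs j)] at h1
    exact h1

/-- **Leopoldt's conjecture in families.** -/
theorem sleo_of_family (F : ℤ[X][X]) (hF : F.Monic) (n : ℕ) (u : Fin n → (AdjoinRoot F)ˣ)
    (hu : ∀ E : Fin n → ℤ, E ≠ 0 →
      Transcendental ℤ ((∏ i, u i ^ E i : (AdjoinRoot F)ˣ) : AdjoinRoot F))
    (p : ℕ) (hp : p.Prime) :
    ∃ Z : Set ℤ, Z.Finite ∧ ∀ t : ℤ, t ∉ Z → Irreducible (F.map (evalRingHom t)) →
      ∀ (K : Type u) [Field K] [NumberField K] (x : 𝓞 K), Module.finrank ℚ K = F.natDegree →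
      aeval x (F.map (evalRingHom t)) = 0 → Units.rank K = n → ∃ c, SLeo K p c := by
  by_cases hex : ∃ t : ℤ, Irreducible (F.map (evalRingHom t))
  swap
  · exact ⟨∅, Set.finite_empty, fun t _ h => absurd ⟨t, h⟩ hex⟩
  obtain ⟨t0, ht0⟩ := hex
  have hm0 : (F.map (evalRingHom t0)).Monic := hF.map _
  have hd : 1 ≤ F.natDegree := by
    have h1 : (F.map (evalRingHom t0)).natDegree = F.natDegree := hF.natDegree_map _
    rw [← h1]
    by_contra hcon
    have h2 : (F.map (evalRingHom t0)).natDegree = 0 := by omega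
    have h3 : F.map (evalRingHom t0) = 1 := hm0.natDegree_eq_zero.mp h2
    rw [h3] at ht0
    exact ht0.not_isUnit isUnit_one
  have hsep : (F.map (evT (t0 : ℂ))).Separable := by
    have h1 : Irreducible ((F.map (evalRingHom t0)).map (Int.castRingHom ℚ)) :=
      (IsPrimitive.Int.irreducible_iff_irreducible_map_cast hm0.isPrimitive).mp ht0
    have h2 : (((F.map (evalRingHom t0)).map (Int.castRingHom ℚ)).map (algebraMap ℚ ℂ)).Separable :=
      h1.separable.map
    rw [Polynomial.map_map, Polynomial.map_map] at h2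
    have h3 : ((algebraMap ℚ ℂ).comp (Int.castRingHom ℚ)).comp (evalRingHom t0) = evT (t0 : ℂ) := by
      refine RingHom.ext fun f => ?_
      rw [evT_intCast]
      simp
    rwa [h3] at h2
  -- polynomial representatives
  choose H hH using fun i => AdjoinRoot.mk_surjective (u i : AdjoinRoot F)
  choose G hG using fun i => AdjoinRoot.mk_surjective ((u i)⁻¹ : (AdjoinRoot F)ˣ).val
  have hHG : ∀ l, F ∣ H l * G l - 1 := by
    intro l
    rw [← AdjoinRoot.mk_eq_zero, map_sub, map_mul, hH, hG, map_one, Units.mul_inv, sub_self]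
  obtain ⟨B, hB⟩ := exists_logDet F hF t0 hsep n u hu H G hH hHG p hp
  exact finite_exceptions_gen p hp F hF hd H G hHG B hB

end Pool.Agent.Work.MP_59f3ad_nt

end

section

/-!
The complex analytic input at an arbitrary large real base point.
-/

open Polynomial NumberField Filter Topology

namespace Pool.Agent.Work.MP_59f3ad_nt

/-- The ring homomorphism `T ↦ q + e s` to power series in `s`. -/
noncomputable def toPSat (R : Type*) [CommRing R] (q e : R) : ℤ[X] →+* PowerSeries R :=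
  eval₂RingHom (Int.castRingHom (PowerSeries R)) (PowerSeries.C q + PowerSeries.C e * PowerSeries.X)

theorem toPSat_C (R : Type*) [CommRing R] (q e : R) (n : ℤ) :
    toPSat R q e (Polynomial.C n) = PowerSeries.C (n : R) := by
  simp [toPSat]

theorem toPSat_X (R : Type*) [CommRing R] (q e : R) :
    toPSat R q e Polynomial.X = PowerSeries.C q + PowerSeries.C e * PowerSeries.X := by
  simp [toPSat]

/-- The complex-analytic input at the real parameter `τ`: there are power series roots of the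
family (in the variable `s`, the parameter being `τ + s`) for which every determinant of
logarithms of the units is nonzero. -/
def LogDetR {n : ℕ} (F : ℤ[X][X]) (H : Fin n → ℤ[X][X]) (τ : ℝ) : Prop :=
  ∀ κ : ℂ, κ ≠ 0 → ∃ ξ : Fin n → PowerSeries ℂ,
    (∀ j, (F.map (toPSat ℂ τ 1)).eval (ξ j) = 0) ∧
    (∀ j, (derivative (F.map (toPSat ℂ τ 1))).eval (ξ j) ≠ 0) ∧
    ∀ y : Fin n → Fin n → PowerSeries ℂ,
      (∀ l j, PowerSeries.C κ * PowerSeries.derivative ℂ (((H l).map (toPSat ℂ τ 1)).eval (ξ j)) =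
        ((H l).map (toPSat ℂ τ 1)).eval (ξ j) * PowerSeries.derivative ℂ (y l j)) →
      (Matrix.of y).det ≠ 0

open RTaylor in
/-- The Taylor series of the values along `τ + s`. -/
theorem tay_valueR (τ : ℝ) (P : ℤ[X][X]) (ξ : ℝ → ℂ)
    (hξ : AnalyticAt ℝ (fun s : ℝ => ξ (τ + 1 * s)) 0) :
    (P.map (toPSat ℂ τ 1)).eval (Tay fun s : ℝ => ξ (τ + 1 * s)) =
      Tay fun s : ℝ => (P.map (evT ((τ + 1 * s : ℝ) : ℂ))).eval (ξ (τ + 1 * s)) := by
  let X0 : An := ⟨fun s => ξ (τ + 1 * s), hξ⟩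
  let lam : ℤ[X] →+* An := eval₂RingHom (Int.castRingHom An) (lin τ 1)
  have h1 : T.comp lam = toPSat ℂ τ 1 := by
    apply Polynomial.ringHom_ext
    · intro a
      rw [RingHom.comp_apply, toPSat_C]
      simp [lam]
    · rw [RingHom.comp_apply]
      have h2 : lam X = lin τ 1 := by simp [lam]
      rw [h2, T_lin, toPSat_X]
      push_cast
      rfl
  rw [eval_map, ← h1]
  have h2 : (Tay fun s : ℝ => ξ (τ + 1 * s)) = T X0 := rfl
  rw [h2, ← Polynomial.hom_eval₂, T_apply]
  congr 1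
  funext s
  rw [← ev_apply, Polynomial.hom_eval₂, eval_map]
  have h3 : (ev s).comp lam = evT ((τ + 1 * s : ℝ) : ℂ) := by
    apply Polynomial.ringHom_ext
    · intro a
      rw [RingHom.comp_apply]
      simp [lam, evT]
    · rw [RingHom.comp_apply]
      have h4 : lam X = lin τ 1 := by simp [lam]
      rw [h4, evT_X, ev_apply]
      simp [lin]
  rw [h3]
  rfl

/-- The analytic input holds for all large real parameters. -/
theorem exists_logDetR (F : ℤ[X][X]) (hF : F.Monic) (t0 : ℂ) (hsep : (F.map (evT t0)).Separable)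
    (n : ℕ) (u : Fin n → (AdjoinRoot F)ˣ)
    (hu : ∀ E : Fin n → ℤ, E ≠ 0 →
      Transcendental ℤ ((∏ i, u i ^ E i : (AdjoinRoot F)ˣ) : AdjoinRoot F))
    (H G : Fin n → ℤ[X][X]) (hH : ∀ i, AdjoinRoot.mk F (H i) = u i)
    (hHG : ∀ l, F ∣ H l * G l - 1) :
    ∃ B : ℝ, ∀ τ : ℝ, B < τ → LogDetR F H τ := by
  classical
  obtain ⟨B0, ξ, hξan, hξ⟩ := exists_analytic_roots F hF t0 hsep
  obtain ⟨B1, hB1⟩ := AnRoots.exists_bound F hF t0 hsep
  set B := max (max B0 0) B1 with hB
  have hB0 : B0 ≤ B := (le_max_left _ _).trans (le_max_left _ _)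
  have hBnn : 0 ≤ B := (le_max_right _ _).trans (le_max_left _ _)
  have hB1' : B1 ≤ B := le_max_right _ _
  have hξan' : ∀ j, AnalyticOnNhd ℝ (ξ j) (Set.Ioi B) := fun j t ht =>
    hξan j t (lt_of_le_of_lt hB0 ht)
  have hξ' : ∀ t : ℝ, B < t → Function.Injective (fun j => ξ j t) ∧
        ∀ j, (F.map (evT t)).eval (ξ j t) = 0 := fun t ht => hξ t (lt_of_le_of_lt hB0 ht)
  -- the values of the units
  set h : Fin n → Fin F.natDegree → ℝ → ℂ := fun l j t => ((H l).map (evT t)).eval (ξ j t) with hh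
  have han : ∀ l j, AnalyticOnNhd ℝ (h l j) (Set.Ioi B) := fun l j t ht =>
    analyticAt_value _ _ _ (hξan' j t ht)
  have h0 : ∀ l j, ∀ t : ℝ, B < t → h l j t ≠ 0 := by
    intro l j t ht hzero
    obtain ⟨g, hg⟩ := hHG l
    have h1 := congrArg (fun P : ℤ[X][X] => (P.map (evT t)).eval (ξ j t)) hg
    simp only [Polynomial.map_sub, Polynomial.map_mul, Polynomial.map_one, eval_sub, eval_mul,
      eval_one, (hξ' t ht).2 j, zero_mul] at h1
    have h2 : ((H l).map (evT t)).eval (ξ j t) = 0 := hzero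
    rw [h2, zero_mul, zero_sub, neg_eq_zero] at h1
    exact one_ne_zero h1
  -- the growth exponents
  have hgr : ∀ l j, ∃ (e : ℕ) (m : ℤ) (c : ℂ), e ≠ 0 ∧ c ≠ 0 ∧
      Tendsto (fun t : ℝ => h l j t ^ e / (t : ℂ) ^ m) atTop (𝓝 c) := by
    intro l j
    obtain ⟨G', hG', hG0⟩ := exists_equation F hF (H l)
    exact exists_growth G' hG' B (h l j) (han l j).continuousOn (h0 l j)
      fun t ht => hG0 t _ ((hξ' t ht).2 j)
  choose e m c he hc hlim using hgr
  set e0 : ℕ := ∏ l, ∏ j, e l j with he0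
  have he0ne : e0 ≠ 0 := Finset.prod_ne_zero_iff.mpr fun l _ =>
    Finset.prod_ne_zero_iff.mpr fun j _ => he l j
  have hdvd : ∀ l j, e l j ∣ e0 := fun l j =>
    (Finset.dvd_prod_of_mem _ (Finset.mem_univ j)).trans
      (Finset.dvd_prod_of_mem (fun l => ∏ j, e l j) (Finset.mem_univ l))
  choose q hq using hdvd
  set v : Fin n → Fin F.natDegree → ℤ := fun l j => m l j * q l j with hv
  set c' : Fin n → Fin F.natDegree → ℂ := fun l j => c l j ^ q l j with hc'
  have hc'0 : ∀ l j, c' l j ≠ 0 := fun l j => pow_ne_zero _ (hc l j)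
  have hlim' : ∀ l j, Tendsto (fun t : ℝ => h l j t ^ e0 / (t : ℂ) ^ (v l j)) atTop
      (𝓝 (c' l j)) := by
    intro l j
    refine ((hlim l j).pow (q l j)).congr fun t => ?_
    rw [div_pow, ← pow_mul, ← hq l j, hv]
    simp only
    rw [zpow_mul, zpow_natCast]
  obtain ⟨φ, hφ⟩ := exists_growth_minor F hF B ξ hξ' n u H hH hu e0 he0ne v c' hc'0 hlim'
  refine ⟨B, fun τ hτ κ hκ => ?_⟩
  have hξs : ∀ j, AnalyticAt ℝ (fun s : ℝ => ξ (φ j) (τ + 1 * s)) 0 := by
    intro j
    have hL : AnalyticAt ℝ (fun s : ℝ => τ + 1 * s) 0 :=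
      analyticAt_const.add (analyticAt_const.mul analyticAt_id)
    exact AnalyticAt.fun_comp (by simpa using hξan' (φ j) _ hτ) hL
  refine ⟨fun j => Tay fun s : ℝ => ξ (φ j) (τ + 1 * s), fun j => ?_, fun j => ?_,
    fun y hy => ?_⟩
  · rw [tay_valueR τ F (ξ (φ j)) (hξs j)]
    have h1 : (fun s : ℝ => (F.map (evT ((τ + 1 * s : ℝ) : ℂ))).eval (ξ (φ j) (τ + 1 * s)))
        =ᶠ[𝓝 0] fun _ => 0 := by
      have hL : ContinuousAt (fun s : ℝ => τ + 1 * s) 0 := by fun_prop
      have h2 : ∀ᶠ s in 𝓝 (0 : ℝ), B < τ + 1 * s :=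
        hL.eventually_mem (isOpen_Ioi.mem_nhds (by simpa using hτ))
      filter_upwards [h2] with s hs
      exact (hξ' _ hs).2 _
    rw [RTaylor.tay_congr h1, RTaylor.tay_const, map_zero]
  · rw [Polynomial.derivative_map, tay_valueR τ (derivative F) (ξ (φ j)) (hξs j)]
    intro h1
    have h2 := congrArg PowerSeries.constantCoeff h1
    rw [RTaylor.constantCoeff_tay, map_zero] at h2
    have h3 : (τ + 1 * 0 : ℝ) = τ := by ring
    rw [h3, ← Polynomial.derivative_map] at h2
    have h4 := (hB1 τ (lt_of_le_of_lt hB1' hτ)).eval₂_derivative_ne_zero (RingHom.id ℂ)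
      (x := ξ (φ j) τ) (by
        rw [eval₂_id]
        exact (hξ' τ hτ).2 (φ j))
    rw [eval₂_id] at h4
    exact h4 h2
  · refine det_ne_zero_of_growth n B hBnn (fun l j => h l (φ j)) (fun l j => han l _)
      (fun l j => h0 l _) e0 he0ne (fun l j => v l (φ j)) (fun l j => c' l (φ j))
      (fun l j => hc'0 l _) (fun l j => hlim' l _) hφ τ hτ 1 one_pos κ hκ y fun l j => ?_
    have h1 := hy l j
    rw [tay_valueR τ (H l) (ξ (φ j)) (hξs j)] at h1
    exact h1

end Pool.Agent.Work.MP_59f3ad_nt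

end

section

/-!
Sequences of approximate logarithms (for varying primes) satisfy, in the limit, the differential
equation of the logarithms over the complex numbers.
-/

open Polynomial

namespace Pool.Agent.Work.MP_59f3ad_nt

/-- A sequence of polynomials as a power series over the ring of sequences. -/
noncomputable def bigPS (g : ℕ → ℤ[X]) : PowerSeries (ℕ → ℤ) :=
  PowerSeries.mk fun j => fun k => (g k).coeff j

/-- The `k`-th component. -/
noncomputable def evPS (k : ℕ) : PowerSeries (ℕ → ℤ) →+* PowerSeries ℤ :=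
  PowerSeries.map (Pi.evalRingHom (fun _ : ℕ => ℤ) k)

theorem coeff_evPS (k : ℕ) (a : PowerSeries (ℕ → ℤ)) (j : ℕ) :
    PowerSeries.coeff j (evPS k a) = PowerSeries.coeff j a k := by
  rw [evPS, PowerSeries.coeff_map]
  rfl

/-- The inclusion of polynomials in power series. -/
noncomputable abbrev incl : ℤ[X] →+* PowerSeries ℤ := Polynomial.coeToPowerSeries.ringHom

theorem incl_injective : Function.Injective incl := Polynomial.coe_injective ℤ

theorem evPS_bigPS (g : ℕ → ℤ[X]) (k : ℕ) : evPS k (bigPS g) = incl (g k) := by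
  ext j
  rw [coeff_evPS, bigPS, PowerSeries.coeff_mk]
  simp [incl]

theorem evPS_ext {a b : PowerSeries (ℕ → ℤ)} (h : ∀ k, evPS k a = evPS k b) : a = b := by
  ext j k
  have h1 := congrArg (PowerSeries.coeff j) (h k)
  rwa [coeff_evPS, coeff_evPS] at h1

/-- A sequence of polynomials in `X` of degree `< d`. -/
noncomputable def bigPoly (d : ℕ) (V : ℕ → ℤ[X][X]) : (PowerSeries (ℕ → ℤ))[X] :=
  ∑ i ∈ Finset.range d, C (bigPS fun k => (V k).coeff i) * X ^ i

theorem bigPoly_map (d : ℕ) (V : ℕ → ℤ[X][X]) (hV : ∀ k, (V k).degree < d) (k : ℕ) :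
    (bigPoly d V).map (evPS k) = (V k).map incl := by
  rw [bigPoly, Polynomial.map_sum]
  simp only [Polynomial.map_mul, Polynomial.map_pow, map_C, map_X, evPS_bigPS]
  have h1 : V k = ∑ i ∈ Finset.range d, C ((V k).coeff i) * X ^ i := by
    ext1 i
    rw [Polynomial.finsetSum_coeff]
    simp only [coeff_C_mul, coeff_X_pow]
    by_cases hi : i < d
    · rw [Finset.sum_eq_single i]
      · simp
      · intro j _ hj
        rw [if_neg (Ne.symm hj), mul_zero]
      · intro h
        exact absurd (Finset.mem_range.mpr hi) h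
    · rw [coeff_eq_zero_of_degree_lt ((hV k).trans_le (by exact_mod_cast (not_lt.mp hi)))]
      symm
      refine Finset.sum_eq_zero fun j hj => ?_
      rw [if_neg (by rintro rfl; exact hi (Finset.mem_range.mp hj)), mul_zero]
  conv_rhs => rw [h1]
  rw [Polynomial.map_sum]
  simp only [Polynomial.map_mul, Polynomial.map_pow, map_C, map_X]

theorem evPS_toPSat (p : ℕ → ℕ) (Q : ℕ → ℤ) (k : ℕ) :
    (evPS k).comp (toPSat (ℕ → ℤ) Q (fun k => (p k : ℤ))) = incl.comp (subT (p k) (Q k)) := by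
  apply Polynomial.ringHom_ext
  · intro a
    rw [RingHom.comp_apply, RingHom.comp_apply, toPSat_C]
    simp [evPS, subT]
  · have h1 : subT (p k) (Q k) X = C (Q k) + C (p k : ℤ) * X := by simp [subT]
    have hC : ∀ n : ℤ, incl (C n) = PowerSeries.C n := fun n => Polynomial.coe_C n
    have hX : incl X = PowerSeries.X := Polynomial.coe_X
    rw [RingHom.comp_apply, RingHom.comp_apply, toPSat_X, h1, map_add incl, map_mul incl, hC, hC,
      hX, evPS, map_add, map_mul, PowerSeries.map_C, PowerSeries.map_C, PowerSeries.map_X]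
    rfl

/-- The derivation of power series over the sequences. -/
noncomputable def dA : Der (PowerSeries (ℕ → ℤ)) :=
  ⟨(PowerSeries.derivative (ℕ → ℤ)).toLinearMap.toAddMonoidHom,
    fun a b => (PowerSeries.derivative (ℕ → ℤ)).leibniz a b⟩

/-- The derivation of integral power series. -/
noncomputable def dZ : Der (PowerSeries ℤ) :=
  ⟨(PowerSeries.derivative ℤ).toLinearMap.toAddMonoidHom,
    fun a b => (PowerSeries.derivative ℤ).leibniz a b⟩

/-- The derivation of integral polynomials. -/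
noncomputable def dP : Der ℤ[X] :=
  ⟨(Polynomial.derivative' (R := ℤ)).toLinearMap.toAddMonoidHom,
    fun a b => (Polynomial.derivative' (R := ℤ)).leibniz a b⟩

theorem dA_ev (k : ℕ) (a : PowerSeries (ℕ → ℤ)) : dZ.d (evPS k a) = evPS k (dA.d a) := by
  ext j
  rw [coeff_evPS]
  show PowerSeries.coeff j (PowerSeries.derivative ℤ (evPS k a)) =
    PowerSeries.coeff j (PowerSeries.derivative (ℕ → ℤ) a) k
  rw [PowerSeries.coeff_derivative, PowerSeries.coeff_derivative, coeff_evPS]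
  simp

theorem dP_incl (a : ℤ[X]) : dZ.d (incl a) = incl (dP.d a) := by
  ext j
  show PowerSeries.coeff j (PowerSeries.derivative ℤ (incl a)) =
    PowerSeries.coeff j (incl (derivative a))
  rw [PowerSeries.coeff_derivative]
  simp [incl, Polynomial.coeff_coe, coeff_derivative]

section main

variable (F H : ℤ[X][X]) (hF : F.Monic) (p : ℕ → ℕ) (Q : ℕ → ℤ) (M q : ℕ → ℕ)
  (V : ℕ → ℤ[X][X])

/-- The differential equation over the ring of sequences. -/
theorem dvd_ode_big (hF : F.Monic) (hq : ∀ k, q k ≠ 0) (d : ℕ) (hV : ∀ k, (V k).degree < d)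
    (h : ∀ k, F.map (subT (p k) (Q k)) ∣
      ((H.map (subT (p k) (Q k))) ^ (M k * q k) - 1 - (q k : ℤ[X][X]) * V k)) :
    F.map (toPSat (ℕ → ℤ) Q (fun k => (p k : ℤ))) ∣
      H.map (toPSat (ℕ → ℤ) Q (fun k => (p k : ℤ))) *
        DD dA (F.map (toPSat (ℕ → ℤ) Q (fun k => (p k : ℤ)))) (bigPoly d V) -
      C (PowerSeries.C (fun k => (M k : ℤ))) *
        DD dA (F.map (toPSat (ℕ → ℤ) Q (fun k => (p k : ℤ))))
          (H.map (toPSat (ℕ → ℤ) Q (fun k => (p k : ℤ)))) -
      C (PowerSeries.C (fun k => (M k : ℤ))) * C (PowerSeries.C (fun k => (q k : ℤ))) *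
        (bigPoly d V * DD dA (F.map (toPSat (ℕ → ℤ) Q (fun k => (p k : ℤ))))
          (H.map (toPSat (ℕ → ℤ) Q (fun k => (p k : ℤ))))) := by
  set θ := toPSat (ℕ → ℤ) Q (fun k => (p k : ℤ)) with hθ
  set Z := H.map θ * DD dA (F.map θ) (bigPoly d V) -
      C (PowerSeries.C (fun k => (M k : ℤ))) * DD dA (F.map θ) (H.map θ) -
      C (PowerSeries.C (fun k => (M k : ℤ))) * C (PowerSeries.C (fun k => (q k : ℤ))) *
        (bigPoly d V * DD dA (F.map θ) (H.map θ)) with hZ
  have hFm : (F.map θ).Monic := hF.map _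
  rw [← modByMonic_eq_zero_iff_dvd hFm]
  ext1 i
  rw [coeff_zero]
  refine evPS_ext fun k => ?_
  rw [map_zero]
  have h1 : ∀ P : ℤ[X][X], (P.map θ).map (evPS k) = (P.map (subT (p k) (Q k))).map incl := by
    intro P
    rw [Polynomial.map_map, Polynomial.map_map, hθ, evPS_toPSat]
  have h2 : (Z %ₘ F.map θ).map (evPS k) = 0 := by
    rw [map_modByMonic _ hFm, modByMonic_eq_zero_iff_dvd (hFm.map _), h1]
    have h3 := dvd_ode dP (F.map (subT (p k) (Q k))) (H.map (subT (p k) (Q k))) (V k) (hF.map _)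
      (M k) (q k) (fun a ha => by
        rcases mul_eq_zero.mp ha with h4 | h4
        · exact absurd (by exact_mod_cast h4) (hq k)
        · exact h4) (h k)
    have h4 := Polynomial.map_dvd incl h3
    have h5 : Z.map (evPS k) = (H.map (subT (p k) (Q k)) *
        DD dP (F.map (subT (p k) (Q k))) (V k) -
        (M k : ℤ[X][X]) * DD dP (F.map (subT (p k) (Q k))) (H.map (subT (p k) (Q k))) -
        (M k : ℤ[X][X]) * (q k : ℤ[X][X]) * (V k * DD dP (F.map (subT (p k) (Q k)))
          (H.map (subT (p k) (Q k))))).map incl := by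
      rw [hZ]
      simp only [Polynomial.map_sub, Polynomial.map_mul, ← DD_map dA dZ (evPS k) (dA_ev k),
        ← DD_map dP dZ incl dP_incl, h1, bigPoly_map d V hV k, map_C, Polynomial.map_natCast]
      have h6 : ∀ m : ℕ → ℕ, evPS k (PowerSeries.C (fun k => (m k : ℤ))) = (m k : PowerSeries ℤ) := by
        intro m
        rw [evPS, PowerSeries.map_C]
        simp
      rw [h6, h6, C_eq_natCast, C_eq_natCast]
    rw [h5]
    exact h4
  have h3 := congrArg (fun P => coeff P i) h2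
  simpa using h3

variable (f : (ℕ → ℤ) →+* ℂ)

/-- The map to complex power series. -/
noncomputable def Th (π' : ℂ) : PowerSeries (ℕ → ℤ) →+* PowerSeries ℂ :=
  (PowerSeries.rescale π'⁻¹).comp (PowerSeries.map f)

theorem coeff_Th (π' : ℂ) (a : PowerSeries (ℕ → ℤ)) (j : ℕ) :
    PowerSeries.coeff j (Th f π' a) = π'⁻¹ ^ j * f (PowerSeries.coeff j a) := by
  rw [Th, RingHom.comp_apply, PowerSeries.coeff_rescale, PowerSeries.coeff_map]

theorem Th_C (π' : ℂ) (a : ℕ → ℤ) : Th f π' (PowerSeries.C a) = PowerSeries.C (f a) := by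
  ext j
  rw [coeff_Th, PowerSeries.coeff_C, PowerSeries.coeff_C]
  split_ifs with h
  · simp [h]
  · simp

theorem Th_toPSat (π' : ℂ) (hπ : π' ≠ 0) (τ : ℂ) (hfp : f (fun k => (p k : ℤ)) = π')
    (hfQ : f Q = τ) :
    (Th f π').comp (toPSat (ℕ → ℤ) Q (fun k => (p k : ℤ))) = toPSat ℂ τ 1 := by
  apply Polynomial.ringHom_ext
  · intro a
    rw [RingHom.comp_apply, toPSat_C, toPSat_C, Th_C]
    congr 1
    exact map_intCast f a
  · rw [RingHom.comp_apply, toPSat_X, toPSat_X, map_add, map_mul, Th_C, Th_C, hfp, hfQ, map_one,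
      one_mul]
    congr 1
    ext j
    rw [PowerSeries.coeff_C_mul, coeff_Th, PowerSeries.coeff_X, PowerSeries.coeff_X]
    split_ifs with h
    · subst h
      rw [map_one, pow_one, mul_one, mul_inv_cancel₀ hπ]
    · simp

/-- The derivation `π' d/ds` of complex power series. -/
noncomputable def dC (π' : ℂ) : Der (PowerSeries ℂ) :=
  ⟨(PowerSeries.C π' • PowerSeries.derivative ℂ).toLinearMap.toAddMonoidHom,
    fun a b => (PowerSeries.C π' • PowerSeries.derivative ℂ).leibniz a b⟩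

theorem dC_apply (π' : ℂ) (a : PowerSeries ℂ) :
    (dC π').d a = PowerSeries.C π' * PowerSeries.derivative ℂ a := rfl

theorem dC_Th (π' : ℂ) (hπ : π' ≠ 0) (a : PowerSeries (ℕ → ℤ)) :
    (dC π').d (Th f π' a) = Th f π' (dA.d a) := by
  ext j
  rw [dC_apply, PowerSeries.coeff_C_mul, PowerSeries.coeff_derivative, coeff_Th, coeff_Th]
  show _ = _ * f (PowerSeries.coeff j (PowerSeries.derivative (ℕ → ℤ) a))
  rw [PowerSeries.coeff_derivative, map_mul, map_add, map_one, map_natCast, pow_succ]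
  field_simp

theorem ode_limit (hF : F.Monic) (hq : ∀ k, q k ≠ 0) (d : ℕ) (hV : ∀ k, (V k).degree < d)
    (h : ∀ k, F.map (subT (p k) (Q k)) ∣
      ((H.map (subT (p k) (Q k))) ^ (M k * q k) - 1 - (q k : ℤ[X][X]) * V k))
    (π' κ τ : ℂ) (hπ : π' ≠ 0) (hfp : f (fun k => (p k : ℤ)) = π') (hfQ : f Q = τ)
    (hfM : f (fun k => (M k : ℤ)) = κ) (hfq : f (fun k => (q k : ℤ)) = 0)
    (ξ : PowerSeries ℂ) (hξ : (F.map (toPSat ℂ τ 1)).eval ξ = 0)
    (hξ' : (derivative (F.map (toPSat ℂ τ 1))).eval ξ ≠ 0) :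
    PowerSeries.C κ * PowerSeries.derivative ℂ ((H.map (toPSat ℂ τ 1)).eval ξ) =
      (H.map (toPSat ℂ τ 1)).eval ξ *
        PowerSeries.derivative ℂ (((bigPoly d V).map (Th f π')).eval ξ) := by
  have h1 := Polynomial.map_dvd (Th f π') (dvd_ode_big F H p Q M q V hF hq d hV h)
  have h2 : ∀ P : ℤ[X][X], (P.map (toPSat (ℕ → ℤ) Q (fun k => (p k : ℤ)))).map (Th f π') =
      P.map (toPSat ℂ τ 1) := by
    intro P
    rw [Polynomial.map_map, Th_toPSat p Q f π' hπ τ hfp hfQ]
  simp only [Polynomial.map_sub, Polynomial.map_mul, ← DD_map dA (dC π') (Th f π')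
    (dC_Th f π' hπ), h2, map_C, Th_C, hfM, hfq, map_zero, mul_zero, zero_mul, sub_zero] at h1
  obtain ⟨g, hg⟩ := h1
  have h3 := congrArg (fun P => eval ξ P) hg
  simp only [eval_mul, eval_sub, eval_C, hξ, zero_mul] at h3
  rw [DD_eval _ _ _ _ hξ, DD_eval _ _ _ _ hξ, dC_apply, dC_apply] at h3
  have hπC : (PowerSeries.C π' : PowerSeries ℂ) ≠ 0 := by
    rwa [Ne, map_eq_zero_iff _ PowerSeries.C_injective]
  apply mul_left_cancel₀ hξ'
  apply mul_left_cancel₀ hπC
  linear_combination -h3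

end main

end Pool.Agent.Work.MP_59f3ad_nt

end

section

/-!
The compactness argument: some minor of approximate logarithms is nonzero modulo a bounded power
of `p`, uniformly in the prime `p` and in the residue class.
-/

open Polynomial Cardinal

namespace Pool.Agent.Work.MP_59f3ad_nt

theorem exists_transcendental_gt (B : ℝ) : ∃ τ : ℝ, B < τ ∧ Transcendental ℤ (τ : ℂ) := by
  obtain ⟨N, hN⟩ := exists_nat_gt (B - liouvilleNumber 2)
  have h2 : Transcendental ℤ (liouvilleNumber (2 : ℕ)) := transcendental_liouvilleNumber le_rfl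
  have h2' : Transcendental ℤ (liouvilleNumber 2) := by exact_mod_cast h2
  refine ⟨liouvilleNumber 2 + N, by linarith, ?_⟩
  have h3 : Transcendental ℤ (liouvilleNumber 2 + (N : ℝ)) := by
    intro h
    apply h2'
    have h4 : IsAlgebraic ℤ ((N : ℝ)) := by
      have := isAlgebraic_algebraMap (R := ℤ) (A := ℝ) (N : ℤ)
      simpa using this
    have h5 := h.sub h4
    rwa [add_sub_cancel_right] at h5
  have h6 := (transcendental_algebraMap_iff (R := ℤ) (S := ℝ) (A := ℂ)
    (a := liouvilleNumber 2 + (N : ℝ)) (algebraMap ℝ ℂ).injective).mpr h3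
  exact h6

section shift

/-- The substitution `s ↦ s + c`. -/
noncomputable def shiftHom (c : ℤ) : ℤ[X] →+* ℤ[X] := compRingHom (X + C c)

theorem shift_subT (p : ℕ) (Q1 c : ℤ) :
    (shiftHom c).comp (subT p Q1) = subT p (Q1 + p * c) := by
  apply Polynomial.ringHom_ext
  · intro a
    simp [subT, shiftHom]
  · simp only [subT, shiftHom, RingHom.comp_apply, coe_compRingHom, X_comp, add_comp, mul_comp,
      C_comp, C_add, C_mul]
    simp
    ring

end shift

variable {n : ℕ}

set_option maxHeartbeats 1000000 in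
/-- Uniform non-vanishing of the minors. -/
theorem unif_minor (F : ℤ[X][X]) (hF : F.Monic) (H : Fin n → ℤ[X][X]) (B : ℝ)
    (hC : ∀ τ : ℝ, B < τ → LogDetR F H τ) :
    ∃ E p0 : ℕ, ∀ p : ℕ, p.Prime → p0 < p → ∀ (Q1 : ℤ) (M : ℕ), ¬ p ∣ M →
      ∀ V : Fin n → ℤ[X][X], (∀ l, (V l).degree < F.natDegree) →
      (∀ l, F.map (subT p Q1) ∣ ((H l).map (subT p Q1)) ^ (M * p ^ (E + 1)) - 1 -
        C (C ((p : ℤ) ^ (E + 1))) * V l) →
      ∃ (φ : Fin n → Fin F.natDegree) (k : ℕ), ¬ (p : ℤ) ^ (E + 1) ∣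
        ((Matrix.of fun l j : Fin n => (V l).coeff (φ j)).det).coeff k := by
  classical
  by_contra hcon
  push Not at hcon
  -- an enumeration of the polynomials
  have hcount : Countable ℤ[X] := by
    rw [← Cardinal.mk_le_aleph0_iff]
    exact Polynomial.cardinalMk_le_max.trans (by simp)
  obtain ⟨g0, hg0⟩ := exists_surjective_nat ℤ[X]
  let g : ℕ → ℤ[X] := fun j => if g0 j = 0 then 1 else g0 j
  have hgne : ∀ j, g j ≠ 0 := by
    intro j
    simp only [g]
    split_ifs with h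
    · exact one_ne_zero
    · exact h
  let P : ℕ → ℤ[X] := fun k => ∏ j ∈ Finset.range (k + 1), g j
  have hPne : ∀ k, P k ≠ 0 := fun k => Finset.prod_ne_zero_iff.mpr fun j _ => hgne j
  have hPdvd : ∀ G : ℤ[X], G ≠ 0 → ∃ j0, ∀ k, j0 ≤ k → G ∣ P k := by
    intro G hG
    obtain ⟨j0, hj0⟩ := hg0 G
    refine ⟨j0, fun k hk => ?_⟩
    have h1 : g j0 = G := by
      simp only [g]
      rw [if_neg (by rw [hj0]; exact hG), hj0]
    rw [← h1]
    exact Finset.dvd_prod_of_mem _ (Finset.mem_range.mpr (by omega))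
  choose p hp hp0 Q1 M hM V hV1 hV2 hV3 using
    fun k : ℕ => hcon (k + (P k).natDegree) (max (P k).natDegree (P k).leadingCoeff.natAbs)
  have hpp : ∀ k, Prime (p k : ℤ) := fun k => Nat.prime_iff_prime_int.mp (hp k)
  have hshift : ∀ k, ∃ c : ℤ, ¬ (p k : ℤ) ^ ((P k).natDegree + 1) ∣ (P k).eval (Q1 k + p k * c) := by
    intro k
    refine exists_shift (P k) (p k) (hp k) ((le_max_left _ _).trans_lt (hp0 k)) ?_ (Q1 k)
    intro h
    have h1 := Int.natAbs_dvd_natAbs.mpr h
    rw [Int.natAbs_natCast] at h1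
    have h2 := Nat.le_of_dvd (Int.natAbs_pos.mpr (leadingCoeff_ne_zero.mpr (hPne k))) h1
    have h3 := (le_max_right (P k).natDegree _).trans_lt (hp0 k)
    omega
  choose c hc using hshift
  let Q : ℕ → ℤ := fun k => Q1 k + p k * c k
  let V' : Fin n → ℕ → ℤ[X][X] := fun l k => (V k l).map (shiftHom (c k))
  let q : ℕ → ℕ := fun k => p k ^ (k + (P k).natDegree + 1)
  have hq0 : ∀ k, q k ≠ 0 := fun k => pow_ne_zero _ (hp k).ne_zero
  have hqZ : ∀ k, ((q k : ℕ) : ℤ) = (p k : ℤ) ^ (k + (P k).natDegree + 1) := fun k => by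
    simp only [q]; push_cast; rfl
  have hV1' : ∀ l k, (V' l k).degree < F.natDegree := fun l k =>
    lt_of_le_of_lt degree_map_le (hV1 k l)
  have hsub : ∀ k (R : ℤ[X][X]), (R.map (subT (p k) (Q1 k))).map (shiftHom (c k)) =
      R.map (subT (p k) (Q k)) := by
    intro k R
    rw [Polynomial.map_map, shift_subT]
  have hV2' : ∀ l k, F.map (subT (p k) (Q k)) ∣
      (((H l).map (subT (p k) (Q k))) ^ (M k * q k) - 1 - (q k : ℤ[X][X]) * V' l k) := by
    intro l k
    have h1 := Polynomial.map_dvd (shiftHom (c k)) (hV2 k l)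
    rw [hsub, Polynomial.map_sub, Polynomial.map_sub, Polynomial.map_mul, Polynomial.map_pow,
      Polynomial.map_one, hsub] at h1
    have h2 : (C (C ((p k : ℤ) ^ (k + (P k).natDegree + 1))) : ℤ[X][X]).map (shiftHom (c k)) =
        (q k : ℤ[X][X]) := by
      rw [← hqZ]
      simp
    rw [h2] at h1
    exact h1
  -- the ideal and the multiplicative set
  let I : Ideal (ℕ → ℤ) :=
    { carrier := {a | ∃ K, ∀ k, K ≤ k → ((q k : ℕ) : ℤ) ∣ a k}
      zero_mem' := ⟨0, fun k _ => dvd_zero _⟩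
      add_mem' := by
        rintro a b ⟨K, hK⟩ ⟨L, hL⟩
        exact ⟨max K L, fun k hk => dvd_add (hK k ((le_max_left _ _).trans hk))
          (hL k ((le_max_right _ _).trans hk))⟩
      smul_mem' := by
        rintro a b ⟨K, hK⟩
        exact ⟨K, fun k hk => (hK k hk).mul_left _⟩ }
  let S : Submonoid (ℕ → ℤ) :=
    { carrier := {a | ∃ (b : ℕ) (G : ℤ[X]) (w : ℕ → ℤ), G ≠ 0 ∧ (∀ k, ¬ (p k : ℤ) ∣ w k) ∧
        ∀ k, a k = (p k : ℤ) ^ b * G.eval (Q k) * w k}
      one_mem' := ⟨0, 1, fun _ => 1, one_ne_zero,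
        fun k h => (hpp k).not_isUnit (isUnit_of_dvd_one h), fun k => by simp⟩
      mul_mem' := by
        rintro a a' ⟨b, G, w, hG, hw, ha⟩ ⟨b', G', w', hG', hw', ha'⟩
        refine ⟨b + b', G * G', fun k => w k * w' k, mul_ne_zero hG hG', fun k h => ?_,
          fun k => ?_⟩
        · rcases (hpp k).dvd_or_dvd h with h | h
          · exact hw k h
          · exact hw' k h
        · rw [Pi.mul_apply, ha, ha', eval_mul]
          ring }
  have hdisj : Disjoint (I : Set (ℕ → ℤ)) S := by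
    rw [Set.disjoint_left]
    rintro a ⟨K, hK⟩ ⟨b, G, w, hG, hw, ha⟩
    obtain ⟨j0, hj0⟩ := hPdvd G hG
    set k := max (max K j0) b with hk
    have hKk : K ≤ k := (le_max_left _ _).trans (le_max_left _ _)
    have hjk : j0 ≤ k := (le_max_right _ _).trans (le_max_left _ _)
    have hbk : b ≤ k := le_max_right _ _
    have h1 := hK k hKk
    rw [ha k, hqZ] at h1
    have h2 : (p k : ℤ) ^ b * (p k : ℤ) ^ ((P k).natDegree + 1) ∣
        (p k : ℤ) ^ b * (G.eval (Q k) * w k) := by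
      rw [← pow_add, ← mul_assoc]
      exact (pow_dvd_pow _ (by omega)).trans h1
    rw [mul_dvd_mul_iff_left (pow_ne_zero _ (hpp k).ne_zero)] at h2
    have h3 := (hpp k).pow_dvd_of_dvd_mul_right _ (hw k) h2
    apply hc k
    exact h3.trans (eval_dvd (hj0 k hjk))
  obtain ⟨𝔮, h𝔮, hI𝔮, hS𝔮⟩ := Ideal.exists_le_prime_disjoint I S hdisj
  have hnot : ∀ a ∈ S, a ∉ 𝔮 := fun a ha h => Set.disjoint_left.mp hS𝔮 h ha
  -- the embedding
  have hcard : #((ℕ → ℤ) ⧸ 𝔮) ≤ 𝔠 := by
    refine (mk_le_of_surjective Ideal.Quotient.mk_surjective).trans ?_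
    rw [← power_def]
    simp
  have htr : Transcendental ℤ (Ideal.Quotient.mk 𝔮 Q) := by
    rw [transcendental_iff]
    intro G hG
    by_contra hne
    have h1 : Ideal.Quotient.mk 𝔮 (fun k => G.eval (Q k)) = 0 := by
      have h2 : (fun k => G.eval (Q k)) = aeval Q G := by
        funext k
        have h3 : (aeval Q G) k = Pi.evalRingHom (fun _ : ℕ => ℤ) k (aeval Q G) := rfl
        rw [h3, aeval_def, Polynomial.hom_eval₂]
        show G.eval (Q k) = _
        rw [← eval₂_id]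
        congr 1
      rw [h2, ← hG]
      have h4 := Polynomial.hom_eval₂ G (algebraMap ℤ (ℕ → ℤ)) (Ideal.Quotient.mk 𝔮) Q
      rw [aeval_def, aeval_def, h4]
      congr 1
    rw [Ideal.Quotient.eq_zero_iff_mem] at h1
    refine hnot _ ?_ h1
    exact ⟨0, G, fun _ => 1, hne, fun k h => (hpp k).not_isUnit (isUnit_of_dvd_one h),
      fun k => by simp⟩
  obtain ⟨τ, hτB, hτ⟩ := exists_transcendental_gt B
  obtain ⟨f0, hf0, hf0Q⟩ := exists_embedding ((ℕ → ℤ) ⧸ 𝔮) hcard _ htr τ hτ
  let f : (ℕ → ℤ) →+* ℂ := f0.comp (Ideal.Quotient.mk 𝔮)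
  have hfz : ∀ a, f a = 0 ↔ a ∈ 𝔮 := by
    intro a
    rw [← Ideal.Quotient.eq_zero_iff_mem, ← map_eq_zero_iff f0 hf0]
    rfl
  have hfI : ∀ a ∈ I, f a = 0 := fun a ha => (hfz a).mpr (hI𝔮 ha)
  set π' : ℂ := f (fun k => (p k : ℤ)) with hπ'
  have hπ : π' ≠ 0 := by
    intro h
    refine hnot _ ?_ ((hfz _).mp h)
    exact ⟨1, 1, fun _ => 1, one_ne_zero, fun k h => (hpp k).not_isUnit (isUnit_of_dvd_one h),
      fun k => by simp⟩
  set κ : ℂ := f (fun k => (M k : ℤ)) with hκ'
  have hκ : κ ≠ 0 := by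
    intro h
    refine hnot _ ?_ ((hfz _).mp h)
    exact ⟨0, 1, fun k => (M k : ℤ), one_ne_zero,
      fun k h => hM k (Int.natCast_dvd_natCast.mp h), fun k => by simp⟩
  have hfq : f (fun k => (q k : ℤ)) = 0 := hfI _ ⟨0, fun k _ => dvd_rfl⟩
  have hfQ : f Q = (τ : ℂ) := hf0Q
  obtain ⟨ξ, hξ, hξ', hdet⟩ := hC τ hτB κ hκ
  refine hdet (fun l j => ((bigPoly F.natDegree (V' l)).map (Th f π')).eval (ξ j))
    (fun l j => ?_) ?_
  · exact ode_limit F (H l) p Q M q (V' l) f hF hq0 F.natDegree (hV1' l) (hV2' l) π' κ τ hπ rfl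
      hfQ rfl hfq (ξ j) (hξ j) (hξ' j)
  · have h1 : (Matrix.of fun l j : Fin n =>
        ((bigPoly F.natDegree (V' l)).map (Th f π')).eval (ξ j)) =
        (Matrix.of fun (l : Fin n) (i : Fin F.natDegree) =>
          Th f π' (bigPS fun k => (V' l k).coeff i)) *
        (Matrix.of fun (i : Fin F.natDegree) (j : Fin n) => ξ j ^ (i : ℕ)) := by
      ext1 l j
      rw [Matrix.mul_apply, Matrix.of_apply, bigPoly, Polynomial.map_sum, eval_finsetSum,
        ← Fin.sum_univ_eq_sum_range (fun i => eval (ξ j)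
          (Polynomial.map (Th f π') (C (bigPS fun k => (V' l k).coeff i) * X ^ i)))]
      refine Finset.sum_congr rfl fun i _ => ?_
      rw [Polynomial.map_mul, Polynomial.map_pow, map_C, map_X, eval_mul, eval_pow, eval_C, eval_X]
      rfl
    rw [h1]
    refine det_mul_eq_zero _ _ fun φ => ?_
    have h2 : ((Matrix.of fun (l : Fin n) (i : Fin F.natDegree) =>
          Th f π' (bigPS fun k => (V' l k).coeff i)).submatrix id φ).det =
        Th f π' (Matrix.of fun l j : Fin n => bigPS fun k => (V' l k).coeff (φ j)).det := by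
      rw [RingHom.map_det]
      rfl
    rw [h2]
    ext j
    rw [coeff_Th, map_zero]
    have h3 : f (PowerSeries.coeff j
        (Matrix.of fun l j : Fin n => bigPS fun k => (V' l k).coeff (φ j)).det) = 0 := by
      refine hfI _ ⟨0, fun k _ => ?_⟩
      rw [← coeff_evPS, RingHom.map_det]
      have h4 : (evPS k).mapMatrix (Matrix.of fun l j : Fin n =>
          bigPS fun k => (V' l k).coeff (φ j)) =
          incl.mapMatrix ((shiftHom (c k)).mapMatrix
            (Matrix.of fun l j : Fin n => (V k l).coeff (φ j))) := by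
        ext1 l j
        rw [RingHom.mapMatrix_apply, RingHom.mapMatrix_apply, RingHom.mapMatrix_apply,
          Matrix.map_apply, Matrix.map_apply, Matrix.map_apply, Matrix.of_apply, Matrix.of_apply,
          evPS_bigPS]
        simp only [V', coeff_map]
      rw [h4, ← RingHom.map_det, ← RingHom.map_det]
      have h5 : C ((p k : ℤ) ^ (k + (P k).natDegree + 1)) ∣
          (Matrix.of fun l j : Fin n => (V k l).coeff (φ j)).det :=
        (C_dvd_iff_dvd_coeff _ _).mpr (hV3 k φ)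
      have h6 := map_dvd (shiftHom (c k)) h5
      have h7 : shiftHom (c k) (C ((p k : ℤ) ^ (k + (P k).natDegree + 1))) =
          C ((p k : ℤ) ^ (k + (P k).natDegree + 1)) := by
        simp [shiftHom]
      rw [h7, C_dvd_iff_dvd_coeff] at h6
      have h8 := h6 j
      rw [hqZ]
      have h9 : ∀ R : ℤ[X], PowerSeries.coeff j (incl R) = R.coeff j := fun R => by
        simp [incl]
      rw [h9]
      exact h8
    rw [h3, mul_zero]

end Pool.Agent.Work.MP_59f3ad_nt

end

section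

/-!
Sequences of approximate logarithms (for varying primes and varying members of a family with
auxiliary parameters) satisfy, in the limit, the differential equation of the logarithms over the
complex numbers.
-/

open Polynomial

namespace Pool.Agent.Work.MP_59f3ad_nt

section main

variable {P : Type*} [CommRing P] (F H : P[X]) (θ : P →+* PowerSeries (ℕ → ℤ))
  (θk : ℕ → P →+* ℤ[X]) (M q : ℕ → ℕ) (V : ℕ → ℤ[X][X])

/-- The differential equation over the ring of sequences. -/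
theorem dvd_ode_gen (hθ : ∀ k, (evPS k).comp θ = incl.comp (θk k))
    (hF : F.Monic) (hq : ∀ k, q k ≠ 0) (d : ℕ) (hV : ∀ k, (V k).degree < d)
    (h : ∀ k, F.map (θk k) ∣ ((H.map (θk k)) ^ (M k * q k) - 1 - (q k : ℤ[X][X]) * V k)) :
    F.map θ ∣ H.map θ * DD dA (F.map θ) (bigPoly d V) -
      C (PowerSeries.C (fun k => (M k : ℤ))) * DD dA (F.map θ) (H.map θ) -
      C (PowerSeries.C (fun k => (M k : ℤ))) * C (PowerSeries.C (fun k => (q k : ℤ))) *
        (bigPoly d V * DD dA (F.map θ) (H.map θ)) := by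
  set Z := H.map θ * DD dA (F.map θ) (bigPoly d V) -
      C (PowerSeries.C (fun k => (M k : ℤ))) * DD dA (F.map θ) (H.map θ) -
      C (PowerSeries.C (fun k => (M k : ℤ))) * C (PowerSeries.C (fun k => (q k : ℤ))) *
        (bigPoly d V * DD dA (F.map θ) (H.map θ)) with hZ
  have hFm : (F.map θ).Monic := hF.map _
  rw [← modByMonic_eq_zero_iff_dvd hFm]
  ext1 i
  rw [coeff_zero]
  refine evPS_ext fun k => ?_
  rw [map_zero]
  have h1 : ∀ P' : P[X], (P'.map θ).map (evPS k) = (P'.map (θk k)).map incl := by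
    intro P'
    rw [Polynomial.map_map, Polynomial.map_map, hθ]
  have h2 : (Z %ₘ F.map θ).map (evPS k) = 0 := by
    rw [map_modByMonic _ hFm, modByMonic_eq_zero_iff_dvd (hFm.map _), h1]
    have h3 := dvd_ode dP (F.map (θk k)) (H.map (θk k)) (V k) (hF.map _)
      (M k) (q k) (fun a ha => by
        rcases mul_eq_zero.mp ha with h4 | h4
        · exact absurd (by exact_mod_cast h4) (hq k)
        · exact h4) (h k)
    have h4 := Polynomial.map_dvd incl h3
    have h5 : Z.map (evPS k) = (H.map (θk k) * DD dP (F.map (θk k)) (V k) -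
        (M k : ℤ[X][X]) * DD dP (F.map (θk k)) (H.map (θk k)) -
        (M k : ℤ[X][X]) * (q k : ℤ[X][X]) * (V k * DD dP (F.map (θk k))
          (H.map (θk k)))).map incl := by
      rw [hZ]
      simp only [Polynomial.map_sub, Polynomial.map_mul, ← DD_map dA dZ (evPS k) (dA_ev k),
        ← DD_map dP dZ incl dP_incl, h1, bigPoly_map d V hV k, map_C, Polynomial.map_natCast]
      have h6 : ∀ m : ℕ → ℕ, evPS k (PowerSeries.C (fun k => (m k : ℤ))) = (m k : PowerSeries ℤ) := by
        intro m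
        rw [evPS, PowerSeries.map_C]
        simp
      rw [h6, h6, C_eq_natCast, C_eq_natCast]
    rw [h5]
    exact h4
  have h3 := congrArg (fun P => coeff P i) h2
  simpa using h3

variable (f : (ℕ → ℤ) →+* ℂ)

theorem ode_limit_gen (hθ : ∀ k, (evPS k).comp θ = incl.comp (θk k))
    (hF : F.Monic) (hq : ∀ k, q k ≠ 0) (d : ℕ) (hV : ∀ k, (V k).degree < d)
    (h : ∀ k, F.map (θk k) ∣ ((H.map (θk k)) ^ (M k * q k) - 1 - (q k : ℤ[X][X]) * V k))
    (π' κ : ℂ) (hπ : π' ≠ 0)
    (hfM : f (fun k => (M k : ℤ)) = κ) (hfq : f (fun k => (q k : ℤ)) = 0)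
    (θC : P →+* PowerSeries ℂ) (hθC : (Th f π').comp θ = θC)
    (ξ : PowerSeries ℂ) (hξ : (F.map θC).eval ξ = 0)
    (hξ' : (derivative (F.map θC)).eval ξ ≠ 0) :
    PowerSeries.C κ * PowerSeries.derivative ℂ ((H.map θC).eval ξ) =
      (H.map θC).eval ξ *
        PowerSeries.derivative ℂ (((bigPoly d V).map (Th f π')).eval ξ) := by
  have h1 := Polynomial.map_dvd (Th f π') (dvd_ode_gen F H θ θk M q V hθ hF hq d hV h)
  have h2 : ∀ P' : P[X], (P'.map θ).map (Th f π') = P'.map θC := by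
    intro P'
    rw [Polynomial.map_map, hθC]
  simp only [Polynomial.map_sub, Polynomial.map_mul, ← DD_map dA (dC π') (Th f π')
    (dC_Th f π' hπ), h2, map_C, Th_C, hfM, hfq, map_zero, mul_zero, zero_mul, sub_zero] at h1
  obtain ⟨g, hg⟩ := h1
  have h3 := congrArg (fun P => eval ξ P) hg
  simp only [eval_mul, eval_sub, eval_C, hξ, zero_mul] at h3
  rw [DD_eval _ _ _ _ hξ, DD_eval _ _ _ _ hξ, dC_apply, dC_apply] at h3
  have hπC : (PowerSeries.C π' : PowerSeries ℂ) ≠ 0 := by
    rwa [Ne, map_eq_zero_iff _ PowerSeries.C_injective]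
  apply mul_left_cancel₀ hξ'
  apply mul_left_cancel₀ hπC
  linear_combination -h3

end main

end Pool.Agent.Work.MP_59f3ad_nt

end

section

/-!
The compactness argument for families with auxiliary parameters: some minor of approximate
logarithms is nonzero modulo a bounded power of `p`, uniformly in the prime `p`, in the residue
class and in the auxiliary parameters.
-/

open Polynomial Cardinal

namespace Pool.Agent.Work.MP_59f3ad_nt

section generic

variable {R : Type} [CommRing R] [Countable R]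

theorem countable_poly (R : Type) [CommRing R] [Countable R] : Countable R[X] := by
  rw [← Cardinal.mk_le_aleph0_iff]
  exact Polynomial.cardinalMk_le_max.trans (by simp)

/-- A real number which is generic over a countable ring. -/
theorem exists_generic_gt (ψ : R →+* ℂ) (B : ℝ) :
    ∃ τ : ℝ, B < τ ∧ ∀ G : R[X], (G.map ψ).eval (τ : ℂ) = 0 → G.map ψ = 0 := by
  have : Countable R[X] := countable_poly R
  let A : Set ℝ := ⋃ G : R[X], {t : ℝ | (G.map ψ).eval (t : ℂ) = 0 ∧ G.map ψ ≠ 0}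
  have hA : A.Countable := by
    refine Set.countable_iUnion fun G => ?_
    by_cases h : G.map ψ = 0
    · have : {t : ℝ | (G.map ψ).eval (t : ℂ) = 0 ∧ G.map ψ ≠ 0} = ∅ := by
        ext t
        simp [h]
      rw [this]
      exact Set.countable_empty
    · have h1 : ((fun t : ℝ => (t : ℂ)) ⁻¹' {z : ℂ | (G.map ψ).IsRoot z}).Finite :=
        (finite_setOfPred_isRoot h).preimage Complex.ofReal_injective.injOn
      refine (h1.subset ?_).countable
      rintro t ⟨ht, _⟩
      exact ht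
  have hI : ¬ (Set.Ioi B).Countable := by
    rw [← Cardinal.le_aleph0_iff_set_countable, Cardinal.mk_Ioi_real, not_le]
    exact aleph0_lt_continuum
  have hne : (Set.Ioi B \ A).Nonempty := by
    by_contra hcon
    rw [Set.not_nonempty_iff_eq_empty, Set.sdiff_eq_empty] at hcon
    exact hI (hA.mono hcon)
  obtain ⟨τ, hτ, hτA⟩ := hne
  refine ⟨τ, hτ, fun G hG => ?_⟩
  by_contra hne
  exact hτA (Set.mem_iUnion.mpr ⟨G, hG, hne⟩)

end generic

theorem not_dvd_aux {π z w : ℤ} (hπ : Prime π) {t b e : ℕ} (hz : ¬ π ^ (t + 1) ∣ z)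
    (hw : ¬ π ∣ w) {N : ℕ} (hN : b + e * t < N) : ¬ π ^ N ∣ π ^ b * z ^ e * w := by
  intro h
  have hz0 : z ≠ 0 := fun h0 => hz (h0 ▸ dvd_zero _)
  obtain ⟨v, z', hz1, hz2⟩ := WfDvdMonoid.max_power_factor hz0 hπ.irreducible
  have hv : v ≤ t := by
    by_contra hcon
    apply hz
    rw [hz2]
    exact (pow_dvd_pow _ (by omega)).mul_right _
  have h1 : π ^ b * z ^ e * w = π ^ (b + e * v) * (z' ^ e * w) := by
    rw [hz2, mul_pow, pow_add, ← pow_mul, mul_comm v e]
    ring
  have h2 : e * v ≤ e * t := Nat.mul_le_mul_left _ hv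
  have h3 : N = (b + e * v) + (N - (b + e * v) - 1) + 1 := by omega
  rw [h1, h3, add_assoc, pow_add] at h
  have h4 := (mul_dvd_mul_iff_left (pow_ne_zero _ hπ.ne_zero)).mp h
  have h5 := (dvd_pow_self π (Nat.succ_ne_zero _)).trans h4
  rcases hπ.dvd_or_dvd h5 with h6 | h6
  · exact hz1 (hπ.dvd_of_dvd_pow h6)
  · exact hw h6

/-- Elements of bounded valuation. -/
theorem exists_cofactor {π a : ℤ} (hπ : Prime π) {b : ℕ} (ha : ¬ π ^ b ∣ a) :
    ∃ w : ℤ, ¬ π ∣ w ∧ a ∣ π ^ b * w := by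
  have ha0 : a ≠ 0 := fun h0 => ha (h0 ▸ dvd_zero _)
  obtain ⟨v, w, hw1, hw2⟩ := WfDvdMonoid.max_power_factor ha0 hπ.irreducible
  have hv : v ≤ b := by
    by_contra hcon
    apply ha
    rw [hw2]
    exact (pow_dvd_pow _ (by omega)).mul_right _
  refine ⟨w, hw1, ?_⟩
  rw [hw2]
  exact mul_dvd_mul_right (pow_dvd_pow _ hv) _

section shift

/-- The substitution `s ↦ s + c`. -/
noncomputable def shiftHom' (c : ℤ) : ℤ[X] →+* ℤ[X] := compRingHom (X + C c)

theorem shift_subT' (p : ℕ) (Q1 c : ℤ) :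
    (shiftHom' c).comp (subT p Q1) = subT p (Q1 + p * c) := by
  apply Polynomial.ringHom_ext
  · intro a
    simp [subT, shiftHom']
  · simp only [subT, shiftHom', RingHom.comp_apply, coe_compRingHom, X_comp, add_comp, mul_comp,
      C_comp, C_add, C_mul]
    simp
    ring

end shift

variable {n : ℕ} {R : Type} [CommRing R] [Countable R]

set_option maxHeartbeats 1000000 in
/-- Uniform non-vanishing of the minors. -/
theorem unif_minor_gen (F : R[X][X]) (hF : F.Monic) (H : Fin n → R[X][X]) (D0 : ℕ)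
    (hC : ∀ ψ : R →+* ℂ, ∃ B : ℝ, ∀ τ : ℝ, B < τ →
      LogDetC (F.map (mapRingHom ψ)) (fun l => (H l).map (mapRingHom ψ)) τ) :
    ∃ E : ℕ, ∀ p : ℕ, p.Prime → ∀ (y : R →+* ℤ) (Q1 : ℤ) (M a : ℕ), ¬ p ^ D0 ∣ M → E + 1 ≤ a →
      ∀ V : Fin n → ℤ[X][X], (∀ l, (V l).degree < F.natDegree) →
      (∀ l, F.map ((subT p Q1).comp (mapRingHom y)) ∣
        ((H l).map ((subT p Q1).comp (mapRingHom y))) ^ (M * p ^ a) - 1 -
        C (C ((p : ℤ) ^ a)) * V l) →
      ∃ (φ : Fin n → Fin F.natDegree) (k : ℕ), ¬ (p : ℤ) ^ (E + 1) ∣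
        ((Matrix.of fun l j : Fin n => (V l).coeff (φ j)).det).coeff k := by
  classical
  by_contra hcon
  push Not at hcon
  have hcount : Countable R[X] := countable_poly R
  -- an enumeration of the polynomials
  obtain ⟨g, hg⟩ := exists_surjective_nat R[X]
  let D : ℕ → ℕ := fun k => ∑ j ∈ Finset.range (k + 1), (g j).natDegree
  choose p hp y Q1 M a hM ha V hV1 hV2 hV3 using fun k : ℕ => hcon (k * (2 * D k + 1))
  have hpp : ∀ k, Prime (p k : ℤ) := fun k => Nat.prime_iff_prime_int.mp (hp k)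
  have hp1 : ∀ k, ¬ (p k : ℤ) ∣ 1 := fun k h => (hpp k).not_isUnit (isUnit_of_dvd_one h)
  let P : ℕ → ℤ[X] := fun k => ∏ j ∈ Finset.range (k + 1), ((g j).map (y k)).primPart
  have hPprim : ∀ k, (P k).IsPrimitive := by
    intro k
    refine Finset.prod_induction _ (fun f : ℤ[X] => f.IsPrimitive)
      (fun f g hf hg => hf.mul hg) isPrimitive_one fun j _ => isPrimitive_primPart _
  have hPne : ∀ k, ∃ i, ¬ (p k : ℤ) ∣ (P k).coeff i := by
    intro k
    by_contra hcon'
    push Not at hcon'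
    exact (hpp k).not_isUnit (hPprim k _ ((C_dvd_iff_dvd_coeff _ _).mpr hcon'))
  have hPdeg : ∀ k, (P k).natDegree ≤ D k := by
    intro k
    refine (natDegree_prod_le _ _).trans (Finset.sum_le_sum fun j _ => ?_)
    rw [natDegree_primPart]
    exact natDegree_map_le
  have hshift : ∀ k, ∃ c : ℤ, ¬ (p k : ℤ) ^ (2 * D k + 1) ∣ (P k).eval (Q1 k + p k * c) :=
    fun k => exists_shift_all (P k) (p k) (hp k) (D k) (hPdeg k) (hPne k) (Q1 k)
  choose c hc using hshift
  let Q : ℕ → ℤ := fun k => Q1 k + p k * c k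
  let V' : Fin n → ℕ → ℤ[X][X] := fun l k => (V k l).map (shiftHom' (c k))
  let q : ℕ → ℕ := fun k => p k ^ a k
  have hq0 : ∀ k, q k ≠ 0 := fun k => pow_ne_zero _ (hp k).ne_zero
  have hqZ : ∀ k, ((q k : ℕ) : ℤ) = (p k : ℤ) ^ a k := fun k => by
    simp only [q]; push_cast; rfl
  have hV1' : ∀ l k, (V' l k).degree < F.natDegree := fun l k =>
    lt_of_le_of_lt degree_map_le (hV1 k l)
  let θk : ℕ → R[X] →+* ℤ[X] := fun k => (subT (p k) (Q k)).comp (mapRingHom (y k))
  have hsub : ∀ k (G : R[X][X]), (G.map ((subT (p k) (Q1 k)).comp (mapRingHom (y k)))).map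
      (shiftHom' (c k)) = G.map (θk k) := by
    intro k G
    rw [Polynomial.map_map, ← RingHom.comp_assoc, shift_subT']
  have hV2' : ∀ l k, F.map (θk k) ∣
      (((H l).map (θk k)) ^ (M k * q k) - 1 - (q k : ℤ[X][X]) * V' l k) := by
    intro l k
    have h1 := Polynomial.map_dvd (shiftHom' (c k)) (hV2 k l)
    rw [hsub, Polynomial.map_sub, Polynomial.map_sub, Polynomial.map_mul, Polynomial.map_pow,
      Polynomial.map_one, hsub] at h1
    have h2 : (C (C ((p k : ℤ) ^ a k)) : ℤ[X][X]).map (shiftHom' (c k)) =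
        (q k : ℤ[X][X]) := by
      rw [← hqZ]
      simp
    rw [h2] at h1
    exact h1
  -- the ideal and the multiplicative set
  let Pm : ℕ → ℕ → ℤ := fun m k => ∏ j ∈ Finset.range m, (((g j).map (y k)).primPart).eval (Q k)
  have hPm : ∀ k, Pm (k + 1) k = (P k).eval (Q k) := fun k => by
    simp only [Pm, P, eval_prod]
  have hPmdvd : ∀ {m m' : ℕ} (_ : m ≤ m') (k : ℕ), Pm m k ∣ Pm m' k := fun h k =>
    Finset.prod_dvd_prod_of_subset _ _ _ (Finset.range_subset_range.mpr h)
  let I : Ideal (ℕ → ℤ) :=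
    { carrier := {a | ∃ K, ∀ k, K ≤ k → (p k : ℤ) ^ (k * (2 * D k + 1) + 1) ∣ a k}
      zero_mem' := ⟨0, fun k _ => dvd_zero _⟩
      add_mem' := by
        rintro a b ⟨K, hK⟩ ⟨L, hL⟩
        exact ⟨max K L, fun k hk => dvd_add (hK k ((le_max_left _ _).trans hk))
          (hL k ((le_max_right _ _).trans hk))⟩
      smul_mem' := by
        rintro a b ⟨K, hK⟩
        exact ⟨K, fun k hk => (hK k hk).mul_left _⟩ }
  let S : Submonoid (ℕ → ℤ) :=
    { carrier := {a | ∃ (b m e : ℕ) (w : ℕ → ℤ), (∀ k, ¬ (p k : ℤ) ∣ w k) ∧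
        ∀ k, a k ∣ (p k : ℤ) ^ b * (Pm m k) ^ e * w k}
      one_mem' := ⟨0, 0, 0, fun _ => 1, hp1, fun k => by simp⟩
      mul_mem' := by
        rintro a a' ⟨b, m, e, w, hw, ha⟩ ⟨b', m', e', w', hw', ha'⟩
        refine ⟨b + b', max m m', e + e', fun k => w k * w' k, fun k h => ?_, fun k => ?_⟩
        · rcases (hpp k).dvd_or_dvd h with h | h
          · exact hw k h
          · exact hw' k h
        · have h1 : (p k : ℤ) ^ (b + b') * (Pm (max m m') k) ^ (e + e') * (w k * w' k) =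
              ((p k : ℤ) ^ b * (Pm (max m m') k) ^ e * w k) *
              ((p k : ℤ) ^ b' * (Pm (max m m') k) ^ e' * w' k) := by ring
          rw [h1, Pi.mul_apply]
          refine mul_dvd_mul ((ha k).trans ?_) ((ha' k).trans ?_)
          · exact mul_dvd_mul_right (mul_dvd_mul_left _
              (pow_dvd_pow_of_dvd (hPmdvd (le_max_left _ _) k) _)) _
          · exact mul_dvd_mul_right (mul_dvd_mul_left _
              (pow_dvd_pow_of_dvd (hPmdvd (le_max_right _ _) k) _)) _ }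
  have hdisj : Disjoint (I : Set (ℕ → ℤ)) S := by
    rw [Set.disjoint_left]
    rintro a' ⟨K, hK⟩ ⟨b, m, e, w, hw, haS⟩
    set k := max (max K m) (max b e) with hk
    have hKk : K ≤ k := (le_max_left _ _).trans (le_max_left _ _)
    have hmk : m ≤ k := (le_max_right _ _).trans (le_max_left _ _)
    have hbk : b ≤ k := (le_max_left _ _).trans (le_max_right _ _)
    have hek : e ≤ k := (le_max_right _ _).trans (le_max_right _ _)
    have h1 := (hK k hKk).trans (haS k)
    have h2 : (p k : ℤ) ^ b * (Pm m k) ^ e * w k ∣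
        (p k : ℤ) ^ b * ((P k).eval (Q k)) ^ e * w k := by
      rw [← hPm]
      exact mul_dvd_mul_right (mul_dvd_mul_left _
        (pow_dvd_pow_of_dvd (hPmdvd (by omega) k) _)) _
    refine not_dvd_aux (hpp k) (hc k) (hw k) (b := b) (e := e) ?_ (h1.trans h2)
    have h3 : e * (2 * D k) ≤ k * (2 * D k) := Nat.mul_le_mul_right _ hek
    have h4 : k * (2 * D k + 1) = k * (2 * D k) + k := by ring
    omega
  obtain ⟨𝔮, h𝔮, hI𝔮, hS𝔮⟩ := Ideal.exists_le_prime_disjoint I S hdisj
  have hnot : ∀ a ∈ S, a ∉ 𝔮 := fun a ha h => Set.disjoint_left.mp hS𝔮 h ha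
  -- elements of bounded valuation
  have hbdd : ∀ (z : ℕ → ℤ) (b : ℕ), (∀ k, ¬ (p k : ℤ) ^ b ∣ z k) → z ∉ 𝔮 := by
    intro z b hz
    choose w hw1 hw2 using fun k => exists_cofactor (hpp k) (hz k)
    refine hnot z ⟨b, 0, 0, w, hw1, fun k => ?_⟩
    simpa using hw2 k
  -- the quotient
  have hcard : #((ℕ → ℤ) ⧸ 𝔮) ≤ 𝔠 := by
    refine (mk_le_of_surjective Ideal.Quotient.mk_surjective).trans ?_
    rw [← power_def]
    simp
  let mk : (ℕ → ℤ) →+* (ℕ → ℤ) ⧸ 𝔮 := Ideal.Quotient.mk 𝔮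
  have hmk : ∀ a, mk a = 0 ↔ a ∈ 𝔮 := fun a => Ideal.Quotient.eq_zero_iff_mem
  let Y : R →+* (ℕ → ℤ) := RingHom.pi y
  have hYk : ∀ r k, Y r k = y k r := fun r k => rfl
  let ϕ : R →+* (ℕ → ℤ) ⧸ 𝔮 := mk.comp Y
  have hint : Function.Injective (Int.castRingHom ((ℕ → ℤ) ⧸ 𝔮)) := by
    rw [injective_iff_map_eq_zero]
    intro N hN
    by_contra hN0
    have h1 : mk (fun _ => N) = 0 := by
      rw [← hN]
      have h2 : (fun _ => N : ℕ → ℤ) = Int.castRingHom (ℕ → ℤ) N := by
        funext k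
        simp
      rw [h2]
      exact map_intCast mk N
    refine hbdd (fun _ => N) N.natAbs (fun k hdvd => ?_) ((hmk _).mp h1)
    have h3 := Int.natAbs_dvd_natAbs.mpr hdvd
    rw [Int.natAbs_pow, Int.natAbs_natCast] at h3
    have h4 := Nat.le_of_dvd (Int.natAbs_pos.mpr hN0) h3
    have h5 : N.natAbs < p k ^ N.natAbs := Nat.lt_pow_self (hp k).one_lt
    omega
  obtain ⟨f0, hf0, -⟩ := exists_embedding_over ℤ ((ℕ → ℤ) ⧸ 𝔮) hcard _ hint
    (Int.castRingHom ℂ) (RingHom.injective_int _)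
  let ψ : R →+* ℂ := f0.comp ϕ
  obtain ⟨B, hB⟩ := hC ψ
  obtain ⟨τ, hτB, hτ⟩ := exists_generic_gt ψ B
  let α : R[X] →+* (ℕ → ℤ) ⧸ 𝔮 := eval₂RingHom ϕ (mk Q)
  let β : R[X] →+* ℂ := eval₂RingHom ψ (τ : ℂ)
  have hα : ∀ G : R[X], α G = mk (fun k => (G.map (y k)).eval (Q k)) := by
    intro G
    have h1 : (fun k => (G.map (y k)).eval (Q k)) = eval₂ Y Q G := by
      funext k
      have h2 : (eval₂ Y Q G) k = Pi.evalRingHom (fun _ : ℕ => ℤ) k (eval₂ Y Q G) := rfl
      rw [h2, Polynomial.hom_eval₂, eval_map]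
      rfl
    rw [h1, Polynomial.hom_eval₂]
    rfl
  have hker1 : ∀ G : R[X], α G = 0 → G.map ϕ = 0 := by
    intro G hG
    rw [hα, hmk] at hG
    have h1 : (fun k => (G.map (y k)).eval (Q k)) =
        (fun k => (G.map (y k)).content) * (fun k => (G.map (y k)).primPart.eval (Q k)) := by
      funext k
      rw [Pi.mul_apply]
      conv_lhs => rw [(G.map (y k)).eq_C_content_mul_primPart]
      rw [eval_mul, eval_C]
    rw [h1] at hG
    have h2 : (fun k => (G.map (y k)).primPart.eval (Q k)) ∉ 𝔮 := by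
      obtain ⟨j, hj⟩ := hg G
      refine hnot _ ⟨0, j + 1, 1, fun _ => 1, hp1, fun k => ?_⟩
      rw [pow_zero, one_mul, pow_one, mul_one]
      simp only [Pm]
      rw [← hj]
      exact Finset.dvd_prod_of_mem (fun j => ((g j).map (y k)).primPart.eval (Q k))
        (Finset.mem_range.mpr (Nat.lt_succ_self j))
    have h3 : (fun k => (G.map (y k)).content) ∈ 𝔮 := (h𝔮.mem_or_mem hG).resolve_right h2
    ext i
    rw [coeff_map, coeff_zero]
    show mk (Y (G.coeff i)) = 0
    rw [hmk]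
    have h4 : Y (G.coeff i) = (fun k => (G.map (y k)).primPart.coeff i) *
        (fun k => (G.map (y k)).content) := by
      funext k
      rw [Pi.mul_apply, hYk, ← coeff_map]
      conv_lhs => rw [(G.map (y k)).eq_C_content_mul_primPart]
      rw [coeff_C_mul, mul_comm]
    rw [h4]
    exact 𝔮.mul_mem_left _ h3
  have hker : RingHom.ker α = RingHom.ker β := by
    ext G
    rw [RingHom.mem_ker, RingHom.mem_ker]
    have hψ : G.map ψ = (G.map ϕ).map f0 := by rw [Polynomial.map_map]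
    constructor
    · intro h
      have h1 := hker1 G h
      show eval₂ ψ (τ : ℂ) G = 0
      rw [← eval_map, hψ, h1, Polynomial.map_zero, eval_zero]
    · intro h
      have h1 : (G.map ψ).eval (τ : ℂ) = 0 := by
        rw [eval_map]
        exact h
      have h2 := hτ G h1
      rw [hψ] at h2
      have h3 : G.map ϕ = 0 := by
        apply Polynomial.map_injective f0 hf0
        rw [h2, Polynomial.map_zero]
      show eval₂ ϕ (mk Q) G = 0
      rw [← eval_map, h3, eval_zero]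
  obtain ⟨f1, hf1, hf1α⟩ := exists_embedding_ker R[X] ((ℕ → ℤ) ⧸ 𝔮) hcard α β hker
  let f : (ℕ → ℤ) →+* ℂ := f1.comp mk
  have hfz : ∀ a, f a = 0 ↔ a ∈ 𝔮 := by
    intro a
    rw [← hmk, ← map_eq_zero_iff f1 hf1]
    rfl
  have hfI : ∀ a ∈ I, f a = 0 := fun a ha => (hfz a).mpr (hI𝔮 ha)
  have hfY : ∀ r, f (Y r) = ψ r := by
    intro r
    have h1 := congrArg (fun h : R[X] →+* ℂ => h (C r)) hf1α
    simp only [RingHom.comp_apply] at h1
    have h2 : α (C r) = ϕ r := by simp [α]
    have h3 : β (C r) = ψ r := by simp [β]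
    rw [h2, h3] at h1
    exact h1
  have hfQ : f Q = (τ : ℂ) := by
    have h1 := congrArg (fun h : R[X] →+* ℂ => h X) hf1α
    simp only [RingHom.comp_apply] at h1
    have h2 : α X = mk Q := by simp [α]
    have h3 : β X = (τ : ℂ) := by simp [β]
    rw [h2, h3] at h1
    exact h1
  set π' : ℂ := f (fun k => (p k : ℤ)) with hπ'
  have hπ : π' ≠ 0 := by
    intro h
    refine hbdd _ 2 (fun k hk => ?_) ((hfz _).mp h)
    rw [pow_two] at hk
    have h1 : (p k : ℤ) * (p k : ℤ) ∣ (p k : ℤ) * 1 := by rwa [mul_one]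
    exact hp1 k ((mul_dvd_mul_iff_left (hpp k).ne_zero).mp h1)
  set κ : ℂ := f (fun k => (M k : ℤ)) with hκ'
  have hκ : κ ≠ 0 := by
    intro h
    refine hbdd _ D0 (fun k hk => hM k ?_) ((hfz _).mp h)
    exact_mod_cast hk
  have hfq : f (fun k => (q k : ℤ)) = 0 := hfI _ ⟨0, fun k _ => by
    show (p k : ℤ) ^ (k * (2 * D k + 1) + 1) ∣ ((q k : ℕ) : ℤ)
    rw [hqZ]
    exact pow_dvd_pow _ (ha k)⟩
  obtain ⟨ξ, hξ, hξ', hdet⟩ := hB τ hτB κ hκ
  -- the ring homomorphisms
  let θ : R[X] →+* PowerSeries (ℕ → ℤ) := eval₂RingHom (PowerSeries.C.comp Y)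
    (PowerSeries.C Q + PowerSeries.C (fun k => (p k : ℤ)) * PowerSeries.X)
  have hθC : ∀ r, θ (C r) = PowerSeries.C (Y r) := fun r => by simp [θ]
  have hθX : θ X = PowerSeries.C Q + PowerSeries.C (fun k => (p k : ℤ)) * PowerSeries.X := by
    simp [θ]
  have hθ : ∀ k, (evPS k).comp θ = incl.comp (θk k) := by
    intro k
    have hC' : ∀ n : ℤ, incl (C n) = PowerSeries.C n := fun n => Polynomial.coe_C n
    have hX : incl X = PowerSeries.X := Polynomial.coe_X
    apply Polynomial.ringHom_ext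
    · intro r
      rw [RingHom.comp_apply, RingHom.comp_apply, hθC]
      have h1 : θk k (C r) = C (y k r) := by simp [θk, subT]
      rw [h1, hC', evPS, PowerSeries.map_C]
      rfl
    · rw [RingHom.comp_apply, RingHom.comp_apply, hθX]
      have h1 : θk k X = C (Q k) + C (p k : ℤ) * X := by simp [θk, subT]
      rw [h1, map_add incl, map_mul incl, hC', hC', hX, evPS,
        map_add, map_mul, PowerSeries.map_C, PowerSeries.map_C, PowerSeries.map_X]
      rfl
  let θC : R[X] →+* PowerSeries ℂ := (toPSc τ).comp (mapRingHom ψ)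
  have hTh : (Th f π').comp θ = θC := by
    apply Polynomial.ringHom_ext
    · intro r
      rw [RingHom.comp_apply, hθC, Th_C, hfY]
      simp [θC, toPSc_C]
    · rw [RingHom.comp_apply, hθX, map_add, map_mul, Th_C, Th_C, hfQ, ← hπ']
      have h1 : θC X = PowerSeries.C (τ : ℂ) + PowerSeries.X := by
        simp [θC, toPSc_X]
      rw [h1]
      congr 1
      ext j
      rw [PowerSeries.coeff_C_mul, coeff_Th, PowerSeries.coeff_X, PowerSeries.coeff_X]
      split_ifs with h
      · subst h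
        rw [map_one, pow_one, mul_one, mul_inv_cancel₀ hπ]
      · simp
  have hmm : ∀ G : R[X][X], (G.map (mapRingHom ψ)).map (toPSc τ) = G.map θC := fun G => by
    rw [Polynomial.map_map]
  refine hdet (fun l j => ((bigPoly F.natDegree (V' l)).map (Th f π')).eval (ξ j))
    (fun l j => ?_) ?_
  · rw [hmm]
    refine ode_limit_gen F (H l) θ θk M q (V' l) f hθ hF hq0 F.natDegree (hV1' l) (hV2' l) π' κ hπ
      rfl hfq θC hTh (ξ j) ?_ ?_
    · rw [← hmm]
      exact hξ j
    · rw [← hmm]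
      exact hξ' j
  · have h1 : (Matrix.of fun l j : Fin n =>
        ((bigPoly F.natDegree (V' l)).map (Th f π')).eval (ξ j)) =
        (Matrix.of fun (l : Fin n) (i : Fin F.natDegree) =>
          Th f π' (bigPS fun k => (V' l k).coeff i)) *
        (Matrix.of fun (i : Fin F.natDegree) (j : Fin n) => ξ j ^ (i : ℕ)) := by
      ext1 l j
      rw [Matrix.mul_apply, Matrix.of_apply, bigPoly, Polynomial.map_sum, eval_finsetSum,
        ← Fin.sum_univ_eq_sum_range (fun i => eval (ξ j)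
          (Polynomial.map (Th f π') (C (bigPS fun k => (V' l k).coeff i) * X ^ i)))]
      refine Finset.sum_congr rfl fun i _ => ?_
      rw [Polynomial.map_mul, Polynomial.map_pow, map_C, map_X, eval_mul, eval_pow, eval_C, eval_X]
      rfl
    rw [h1]
    refine det_mul_eq_zero _ _ fun φ => ?_
    have h2 : ((Matrix.of fun (l : Fin n) (i : Fin F.natDegree) =>
          Th f π' (bigPS fun k => (V' l k).coeff i)).submatrix id φ).det =
        Th f π' (Matrix.of fun l j : Fin n => bigPS fun k => (V' l k).coeff (φ j)).det := by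
      rw [RingHom.map_det]
      rfl
    rw [h2]
    ext j
    rw [coeff_Th, map_zero]
    have h3 : f (PowerSeries.coeff j
        (Matrix.of fun l j : Fin n => bigPS fun k => (V' l k).coeff (φ j)).det) = 0 := by
      refine hfI _ ⟨0, fun k _ => ?_⟩
      rw [← coeff_evPS, RingHom.map_det]
      have h4 : (evPS k).mapMatrix (Matrix.of fun l j : Fin n =>
          bigPS fun k => (V' l k).coeff (φ j)) =
          incl.mapMatrix ((shiftHom' (c k)).mapMatrix
            (Matrix.of fun l j : Fin n => (V k l).coeff (φ j))) := by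
        ext1 l j
        rw [RingHom.mapMatrix_apply, RingHom.mapMatrix_apply, RingHom.mapMatrix_apply,
          Matrix.map_apply, Matrix.map_apply, Matrix.map_apply, Matrix.of_apply, Matrix.of_apply,
          evPS_bigPS]
        simp only [V', coeff_map]
      rw [h4, ← RingHom.map_det, ← RingHom.map_det]
      have h5 : C ((p k : ℤ) ^ (k * (2 * D k + 1) + 1)) ∣
          (Matrix.of fun l j : Fin n => (V k l).coeff (φ j)).det :=
        (C_dvd_iff_dvd_coeff _ _).mpr (hV3 k φ)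
      have h6 := map_dvd (shiftHom' (c k)) h5
      have h7 : shiftHom' (c k) (C ((p k : ℤ) ^ (k * (2 * D k + 1) + 1))) =
          C ((p k : ℤ) ^ (k * (2 * D k + 1) + 1)) := by
        simp [shiftHom']
      rw [h7, C_dvd_iff_dvd_coeff] at h6
      have h8 := h6 j
      have h9 : ∀ G : ℤ[X], PowerSeries.coeff j (incl G) = G.coeff j := fun G => by
        simp [incl]
      rw [h9]
      exact h8
    rw [h3, mul_zero]

end Pool.Agent.Work.MP_59f3ad_nt

end

section

/-!
The uniform bound `≤ C p` for the number of exceptional members of a family.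
-/

open Polynomial NumberField

namespace Pool.Agent.Work.MP_59f3ad_nt

universe u

section gamma

theorem det_mem_Gam {n : ℕ} (p : ℕ) (A : Matrix (Fin n) (Fin n) ℤ[X])
    (h : ∀ i j, A i j ∈ Gam p) : A.det ∈ Gam p := by
  rw [Matrix.det_apply]
  refine sum_mem fun σ _ => ?_
  rw [Units.smul_def]
  exact zsmul_mem (prod_mem fun i _ => h _ _) _

end gamma

variable {n : ℕ}

/-- The number of exceptions in a residue class. -/
theorem exceptions_class_unif (F : ℤ[X][X]) (hF : F.Monic) (hd : 1 ≤ F.natDegree)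
    (H G : Fin n → ℤ[X][X]) (hHG : ∀ l, F ∣ H l * G l - 1) (B : ℝ)
    (hC : ∀ τ : ℝ, B < τ → LogDetR F H τ) :
    ∃ B' p0 : ℕ, ∀ p : ℕ, p.Prime → p0 < p → ∀ Q1 : ℤ, ∃ Z : Set ℤ, Z.Finite ∧ Z.ncard ≤ B' ∧
      ∀ t : ℤ, t ∉ Z → Irreducible (F.map (evalRingHom (Q1 + p * t))) →
      ∀ (K : Type u) [Field K] [NumberField K] (x : 𝓞 K), Module.finrank ℚ K = F.natDegree →
      aeval x (F.map (evalRingHom (Q1 + p * t))) = 0 → Units.rank K = n → ∃ c, SLeo K p c := by
  obtain ⟨E, p0, hE⟩ := unif_minor F hF H B hC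
  refine ⟨2 * E + 1, max p0 (2 * F.natDegree), fun p hp hpp Q1 => ?_⟩
  obtain ⟨M, hM, V, hV1, hV2, hV3, hV4⟩ := exists_V_unif p hp F hF hd
    ((le_max_right _ _).trans_lt hpp) H G hHG Q1
  obtain ⟨φ, k, hk⟩ := hE p hp ((le_max_left _ _).trans_lt hpp) Q1 M hM (fun l => V l E)
    (fun l => hV1 l E) (fun l => hV2 l E)
  -- the shifted system
  let W : Fin n → ℕ → ℤ[X][X] := fun l N => V l (N + 1)
  have hW2 : ∀ l N, F.map (subT p Q1) ∣ ((H l).map (subT p Q1)) ^ (M * p ^ 2 * p ^ N)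
        - 1 - C (C ((p : ℤ) ^ (N + 2))) * W l N := by
    intro l N
    have h1 := hV2 l (N + 1)
    have h2 : M * p ^ 2 * p ^ N = M * p ^ (N + 1 + 1) := by ring
    rw [h2]
    exact h1
  have hW3 : ∀ l N i, C ((p : ℤ) ^ (N + 1)) ∣ (W l (N + 1) - W l N).coeff i := by
    intro l N i
    refine Dvd.dvd.trans ?_ (hV3 l (N + 1) i)
    rw [C_pow, C_pow]
    exact pow_dvd_pow _ (by omega)
  have hWV : ∀ l i, C ((p : ℤ) ^ (E + 1)) ∣ (W l E - V l E).coeff i := fun l i => hV3 l E i
  have hcount := ncard_zeros_le p hp (minorG W φ)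
    (fun N k => (C_dvd_iff_dvd_coeff _ _).mp (minorG_congr_add p W hW3 φ N 1) k) E (2 * E + 1)
    ⟨k, fun h => hk (by
      have h1 : C ((p : ℤ) ^ (E + 1)) ∣ minorG W φ E -
          (Matrix.of fun l j : Fin n => (V l E).coeff (φ j)).det := by
        rw [← Ideal.mem_span_singleton, ← Ideal.Quotient.eq_zero_iff_mem, map_sub, sub_eq_zero,
          minorG, RingHom.map_det, RingHom.map_det]
        congr 1
        ext l j
        rw [RingHom.mapMatrix_apply, RingHom.mapMatrix_apply, Matrix.map_apply, Matrix.map_apply,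
          Matrix.of_apply, Matrix.of_apply, Ideal.Quotient.eq, Ideal.mem_span_singleton,
          ← coeff_sub]
        exact hWV _ _
      have h2 := (C_dvd_iff_dvd_coeff _ _).mp h1 k
      rw [coeff_sub] at h2
      exact (dvd_sub_right h).mp h2)⟩
    (fun k hk => by
      have h1 : minorG W φ E ∈ Gam p := by
        refine det_mem_Gam p _ fun l j => ?_
        rw [Matrix.of_apply]
        exact hV4 l (E + 1) _
      exact (pow_dvd_pow _ (by omega)).trans (mem_Gam.mp h1 k))
  refine ⟨_, hcount.1, hcount.2, fun t ht hirr K _ _ x hfin hx hrank => ?_⟩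
  rw [Set.mem_ofPred_eq, not_forall] at ht
  obtain ⟨N0, hN0⟩ := ht
  exact sleo_of_minor_gen p hp F hF H G hHG Q1 t hirr (M * p ^ 2) W (fun l N => hV1 l (N + 1))
    hW2 hW3 φ N0 hN0 x hfin hx hrank

/-- The number of exceptions, for large primes. -/
theorem exceptions_unif (F : ℤ[X][X]) (hF : F.Monic) (hd : 1 ≤ F.natDegree)
    (H G : Fin n → ℤ[X][X]) (hHG : ∀ l, F ∣ H l * G l - 1) (B : ℝ)
    (hC : ∀ τ : ℝ, B < τ → LogDetR F H τ) :
    ∃ B' p0 : ℕ, ∀ p : ℕ, p.Prime → p0 < p → ∃ Z : Set ℤ, Z.Finite ∧ Z.ncard ≤ B' * p ∧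
      ∀ t : ℤ, t ∉ Z → Irreducible (F.map (evalRingHom t)) →
      ∀ (K : Type u) [Field K] [NumberField K] (x : 𝓞 K), Module.finrank ℚ K = F.natDegree →
      aeval x (F.map (evalRingHom t)) = 0 → Units.rank K = n → ∃ c, SLeo K p c := by
  classical
  obtain ⟨B', p0, h⟩ := exceptions_class_unif.{u} F hF hd H G hHG B hC
  refine ⟨B', p0, fun p hp hpp => ?_⟩
  choose Z hZ hZc hZ' using h p hp hpp
  have hpos : (0 : ℤ) < p := by exact_mod_cast hp.pos
  have hfin : (⋃ r ∈ Finset.range p, (fun t => (r : ℤ) + p * t) '' Z r).Finite :=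
    Set.Finite.biUnion (Finset.finite_toSet _) fun r _ => (hZ r).image _
  refine ⟨⋃ r ∈ Finset.range p, (fun t => (r : ℤ) + p * t) '' Z r, hfin, ?_, ?_⟩
  · have h1 : (⋃ r ∈ Finset.range p, (fun t => (r : ℤ) + p * t) '' Z r).ncard ≤
        ∑ r ∈ Finset.range p, ((fun t => (r : ℤ) + p * t) '' Z r).ncard :=
      Finset.set_ncard_biUnion_le _ _
    refine h1.trans ?_
    calc ∑ r ∈ Finset.range p, ((fun t => (r : ℤ) + p * t) '' Z r).ncard
        ≤ ∑ _r ∈ Finset.range p, B' := Finset.sum_le_sum fun r _ =>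
          (Set.ncard_image_le (hZ r)).trans (hZc r)
      _ = B' * p := by rw [Finset.sum_const, Finset.card_range, smul_eq_mul, mul_comm]
  · intro t ht
    set r := t % p with hr
    have hr0 : 0 ≤ r := Int.emod_nonneg _ hpos.ne'
    have hrp : r < p := Int.emod_lt_of_pos _ hpos
    have h1 : t = r + p * (t / p) := (Int.emod_add_mul_ediv t p).symm
    have h2 : ((r.toNat : ℕ) : ℤ) = r := Int.toNat_of_nonneg hr0
    have h3 : t / p ∉ Z r := by
      intro h3
      apply ht
      rw [Set.mem_iUnion₂]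
      refine ⟨r.toNat, ?_, ?_⟩
      · rw [Finset.mem_range]
        omega
      · rw [h2]
        exact ⟨_, h3, h1.symm⟩
    have h4 := hZ' r _ h3
    rw [← h1] at h4
    exact h4

/-- **Uniform bound for the exceptional set in families.** -/
theorem sleo_of_family_unif (F : ℤ[X][X]) (hF : F.Monic) (n : ℕ) (u : Fin n → (AdjoinRoot F)ˣ)
    (hu : ∀ E : Fin n → ℤ, E ≠ 0 →
      Transcendental ℤ ((∏ i, u i ^ E i : (AdjoinRoot F)ˣ) : AdjoinRoot F)) :
    ∃ C : ℕ, ∀ p : ℕ, p.Prime → ∃ Z : Set ℤ, Z.Finite ∧ Z.ncard ≤ C * p ∧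
      ∀ t : ℤ, t ∉ Z → Irreducible (F.map (evalRingHom t)) →
      ∀ (K : Type u) [Field K] [NumberField K] (x : 𝓞 K), Module.finrank ℚ K = F.natDegree →
      aeval x (F.map (evalRingHom t)) = 0 → Units.rank K = n → ∃ c, SLeo K p c := by
  classical
  by_cases hex : ∃ t : ℤ, Irreducible (F.map (evalRingHom t))
  swap
  · exact ⟨0, fun p _ => ⟨∅, Set.finite_empty, by simp, fun t _ h => absurd ⟨t, h⟩ hex⟩⟩
  obtain ⟨t0, ht0⟩ := hex
  have hm0 : (F.map (evalRingHom t0)).Monic := hF.map _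
  have hd : 1 ≤ F.natDegree := by
    have h1 : (F.map (evalRingHom t0)).natDegree = F.natDegree := hF.natDegree_map _
    rw [← h1]
    by_contra hcon
    have h2 : (F.map (evalRingHom t0)).natDegree = 0 := by omega
    have h3 : F.map (evalRingHom t0) = 1 := hm0.natDegree_eq_zero.mp h2
    rw [h3] at ht0
    exact ht0.not_isUnit isUnit_one
  have hsep : (F.map (evT (t0 : ℂ))).Separable := by
    have h1 : Irreducible ((F.map (evalRingHom t0)).map (Int.castRingHom ℚ)) :=
      (IsPrimitive.Int.irreducible_iff_irreducible_map_cast hm0.isPrimitive).mp ht0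
    have h2 : (((F.map (evalRingHom t0)).map (Int.castRingHom ℚ)).map (algebraMap ℚ ℂ)).Separable :=
      h1.separable.map
    rw [Polynomial.map_map, Polynomial.map_map] at h2
    have h3 : ((algebraMap ℚ ℂ).comp (Int.castRingHom ℚ)).comp (evalRingHom t0) = evT (t0 : ℂ) := by
      refine RingHom.ext fun f => ?_
      rw [evT_intCast]
      simp
    rwa [h3] at h2
  -- polynomial representatives
  choose H hH using fun i => AdjoinRoot.mk_surjective (u i : AdjoinRoot F)
  choose G hG using fun i => AdjoinRoot.mk_surjective ((u i)⁻¹ : (AdjoinRoot F)ˣ).val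
  have hHG : ∀ l, F ∣ H l * G l - 1 := by
    intro l
    rw [← AdjoinRoot.mk_eq_zero, map_sub, map_mul, hH, hG, map_one, Units.mul_inv, sub_self]
  obtain ⟨B, hB⟩ := exists_logDetR F hF t0 hsep n u hu H G hH hHG
  obtain ⟨B', p0, hlarge⟩ := exceptions_unif.{u} F hF hd H G hHG B hB
  -- the small primes
  have hsmall : ∀ p : ℕ, ∃ Z : Set ℤ, Z.Finite ∧ (p.Prime → ∀ t : ℤ, t ∉ Z →
      Irreducible (F.map (evalRingHom t)) →
      ∀ (K : Type u) [Field K] [NumberField K] (x : 𝓞 K), Module.finrank ℚ K = F.natDegree →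
      aeval x (F.map (evalRingHom t)) = 0 → Units.rank K = n → ∃ c, SLeo K p c) := by
    intro p
    by_cases hp : p.Prime
    · obtain ⟨Z, hZ, hZ'⟩ := sleo_of_family.{u} F hF n u hu p hp
      exact ⟨Z, hZ, fun _ => hZ'⟩
    · exact ⟨∅, Set.finite_empty, fun h => absurd h hp⟩
  choose Z hZ hZ' using hsmall
  refine ⟨B' + ∑ p ∈ Finset.range (p0 + 1), (Z p).ncard, fun p hp => ?_⟩
  by_cases hpp : p0 < p
  · obtain ⟨Z1, hZ1, hZ1c, hZ1'⟩ := hlarge p hp hpp
    exact ⟨Z1, hZ1, hZ1c.trans (Nat.mul_le_mul_right _ (Nat.le_add_right _ _)), hZ1'⟩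
  · refine ⟨Z p, hZ p, ?_, hZ' p hp⟩
    have h1 : (Z p).ncard ≤ ∑ p ∈ Finset.range (p0 + 1), (Z p).ncard :=
      Finset.single_le_sum (f := fun p => (Z p).ncard) (fun _ _ => Nat.zero_le _)
        (Finset.mem_range.mpr (by omega))
    calc (Z p).ncard ≤ (B' + ∑ p ∈ Finset.range (p0 + 1), (Z p).ncard) * 1 := by omega
      _ ≤ _ := Nat.mul_le_mul_left _ hp.pos

end Pool.Agent.Work.MP_59f3ad_nt

end

section

/-!
The uniform bound `≤ C p` for the number of exceptional members of a family with auxiliary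
parameters.
-/

open Polynomial NumberField

namespace Pool.Agent.Work.MP_59f3ad_nt

universe u

variable {n : ℕ} {R : Type} [CommRing R] [Countable R]

/-- The number of exceptions in a residue class. -/
theorem exceptions_class_gen (F : R[X][X]) (hF : F.Monic) (hd : 1 ≤ F.natDegree)
    (H G : Fin n → R[X][X]) (hHG : ∀ l, F ∣ H l * G l - 1)
    (hC : ∀ ψ : R →+* ℂ, ∃ B : ℝ, ∀ τ : ℝ, B < τ →
      LogDetC (F.map (mapRingHom ψ)) (fun l => (H l).map (mapRingHom ψ)) τ) :
    ∃ B' : ℕ, ∀ p : ℕ, p.Prime → ∀ (y : R →+* ℤ) (Q1 : ℤ), ∃ Z : Set ℤ, Z.Finite ∧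
      Z.ncard ≤ B' ∧
      ∀ t : ℤ, t ∉ Z →
      Irreducible ((F.map (mapRingHom y)).map (evalRingHom (Q1 + p * t))) →
      ∀ (K : Type u) [Field K] [NumberField K] (x : 𝓞 K), Module.finrank ℚ K = F.natDegree →
      aeval x ((F.map (mapRingHom y)).map (evalRingHom (Q1 + p * t))) = 0 →
      ∃ (u : Fin n → (𝓞 K)ˣ) (c : ℕ), PInd K p u c := by
  obtain ⟨E, hE⟩ := unif_minor_gen F hF H F.natDegree hC
  refine ⟨2 * E + 1, fun p hp y Q1 => ?_⟩
  set F' : ℤ[X][X] := F.map (mapRingHom y) with hF'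
  have hF'm : F'.Monic := hF.map _
  have hdeg : F'.natDegree = F.natDegree := hF.natDegree_map _
  set H' : Fin n → ℤ[X][X] := fun l => (H l).map (mapRingHom y) with hH'
  set G' : Fin n → ℤ[X][X] := fun l => (G l).map (mapRingHom y) with hG'
  have hHG' : ∀ l, F' ∣ H' l * G' l - 1 := by
    intro l
    have h1 := Polynomial.map_dvd (mapRingHom y) (hHG l)
    rwa [Polynomial.map_sub, Polynomial.map_mul, Polynomial.map_one] at h1
  obtain ⟨M, hM, V, hV1, hV2, hV3, hV4⟩ := exists_V_all p hp F' hF'm (by rw [hdeg]; exact hd)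
    H' G' hHG' Q1
  rw [hdeg] at hM
  obtain ⟨φ, k, hk⟩ := hE p hp y Q1 M (E + 2) hM (by omega) (fun l => V l E)
    (fun l => by rw [← hdeg]; exact hV1 l E)
    (fun l => by
      have h1 := hV2 l E
      simp only [hF', hH', Polynomial.map_map] at h1
      exact h1)
  have hW2 : ∀ l N, F'.map (subT p Q1) ∣ ((H' l).map (subT p Q1)) ^ (M * p ^ 2 * p ^ N)
        - 1 - C (C ((p : ℤ) ^ (N + 2))) * V l N := by
    intro l N
    have h1 := hV2 l N
    have h2 : M * p ^ 2 * p ^ N = M * p ^ (N + 2) := by ring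
    rw [h2]
    exact h1
  have hcount := ncard_zeros_le p hp (minorG V φ)
    (fun N k => (C_dvd_iff_dvd_coeff _ _).mp (minorG_congr_add p V hV3 φ N 1) k) E (2 * E + 1)
    ⟨k, hk⟩
    (fun k hk => by
      have h1 : minorG V φ E ∈ Gam p := by
        refine det_mem_Gam p _ fun l j => ?_
        rw [Matrix.of_apply]
        exact mem_Gam.mpr (hV4 l E _)
      exact (pow_dvd_pow _ (by omega)).trans (mem_Gam.mp h1 k))
  refine ⟨_, hcount.1, hcount.2, fun t ht hirr K _ _ x hfin hx => ?_⟩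
  rw [Set.mem_ofPred_eq, not_forall] at ht
  obtain ⟨N0, hN0⟩ := ht
  have hφ : ∃ φ' : Fin n → Fin F'.natDegree, minorG V φ' N0 = minorG V φ N0 :=
    ⟨fun i => Fin.cast hdeg.symm (φ i), rfl⟩
  obtain ⟨φ', hφ'⟩ := hφ
  rw [← hφ'] at hN0
  exact pind_of_minor_gen p hp F' hF'm H' G' hHG' Q1 t hirr (M * p ^ 2) V hV1
    hW2 hV3 φ' N0 hN0 x (hfin.trans hdeg.symm) hx

/-- The number of exceptions in a family with auxiliary parameters. -/
theorem exceptions_gen (F : R[X][X]) (hF : F.Monic) (hd : 1 ≤ F.natDegree)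
    (H G : Fin n → R[X][X]) (hHG : ∀ l, F ∣ H l * G l - 1)
    (hC : ∀ ψ : R →+* ℂ, ∃ B : ℝ, ∀ τ : ℝ, B < τ →
      LogDetC (F.map (mapRingHom ψ)) (fun l => (H l).map (mapRingHom ψ)) τ) :
    ∃ B' : ℕ, ∀ p : ℕ, p.Prime → ∀ y : R →+* ℤ, ∃ Z : Set ℤ, Z.Finite ∧ Z.ncard ≤ B' * p ∧
      ∀ t : ℤ, t ∉ Z → Irreducible ((F.map (mapRingHom y)).map (evalRingHom t)) →
      ∀ (K : Type u) [Field K] [NumberField K] (x : 𝓞 K), Module.finrank ℚ K = F.natDegree →
      aeval x ((F.map (mapRingHom y)).map (evalRingHom t)) = 0 →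
      ∃ (u : Fin n → (𝓞 K)ˣ) (c : ℕ), PInd K p u c := by
  classical
  obtain ⟨B', h⟩ := exceptions_class_gen.{u} F hF hd H G hHG hC
  refine ⟨B', fun p hp y => ?_⟩
  choose Z hZ hZc hZ' using h p hp y
  have hpos : (0 : ℤ) < p := by exact_mod_cast hp.pos
  have hfin : (⋃ r ∈ Finset.range p, (fun t => (r : ℤ) + p * t) '' Z r).Finite :=
    Set.Finite.biUnion (Finset.finite_toSet _) fun r _ => (hZ r).image _
  refine ⟨⋃ r ∈ Finset.range p, (fun t => (r : ℤ) + p * t) '' Z r, hfin, ?_, ?_⟩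
  · have h1 : (⋃ r ∈ Finset.range p, (fun t => (r : ℤ) + p * t) '' Z r).ncard ≤
        ∑ r ∈ Finset.range p, ((fun t => (r : ℤ) + p * t) '' Z r).ncard :=
      Finset.set_ncard_biUnion_le _ _
    refine h1.trans ?_
    calc ∑ r ∈ Finset.range p, ((fun t => (r : ℤ) + p * t) '' Z r).ncard
        ≤ ∑ _r ∈ Finset.range p, B' := Finset.sum_le_sum fun r _ =>
          (Set.ncard_image_le (hZ r)).trans (hZc r)
      _ = B' * p := by rw [Finset.sum_const, Finset.card_range, smul_eq_mul, mul_comm]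
  · intro t ht
    set r := t % p with hr
    have hr0 : 0 ≤ r := Int.emod_nonneg _ hpos.ne'
    have hrp : r < p := Int.emod_lt_of_pos _ hpos
    have h1 : t = r + p * (t / p) := (Int.emod_add_mul_ediv t p).symm
    have h2 : ((r.toNat : ℕ) : ℤ) = r := Int.toNat_of_nonneg hr0
    have h3 : t / p ∉ Z r := by
      intro h3
      apply ht
      rw [Set.mem_iUnion₂]
      refine ⟨r.toNat, ?_, ?_⟩
      · rw [Finset.mem_range]
        omega
      · rw [h2]
        exact ⟨_, h3, h1.symm⟩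
    have h4 := hZ' r _ h3
    rw [← h1] at h4
    exact h4

end Pool.Agent.Work.MP_59f3ad_nt

end
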